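import Mathlib

/-!
Definitions for bootstrap percolation on the grid graph: the grid graph on `[n]^d`,
the `r`-neighbour bootstrap process, percolation, percolation time and the maximum
percolation time.
-/

namespace Pool.Agent.Lib.MP_1a3405_co

/-- The grid graph `[n]^d`: the vertices are the functions `Fin d → Fin n`, and two vertices are
adjacent when they agree in all coordinates but one, where they differ by exactly `1`. -/
def grid (d n : ℕ) : SimpleGraph (Fin d → Fin n) where
  Adj u v := ∃ i, (∀ j, j ≠ i → u j = v j) ∧
    (((u i : Fin n) : ℕ) + 1 = ((v i : Fin n) : ℕ) ∨ ((v i : Fin n) : ℕ) + 1 = ((u i : Fin n) : ℕ))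
  symm := ⟨by
    rintro u v ⟨i, h1, h2⟩
    exact ⟨i, fun j hj => (h1 j hj).symm, h2.symm⟩⟩
  loopless := ⟨by
    rintro u ⟨i, -, h2⟩
    omega⟩

/-- `infected G r A₀ t` is the set `A_t` of the `r`-neighbour bootstrap process on `G` started
from `A₀`: `A_{t+1}` is `A_t` together with all vertices having at least `r` neighbours
in `A_t`. -/
def infected {V : Type*} (G : SimpleGraph V) (r : ℕ) (A₀ : Set V) : ℕ → Set V
  | 0 => A₀
  | t + 1 => infected G r A₀ t ∪ {v | r ≤ (G.neighborSet v ∩ infected G r A₀ t).ncard}

/-- The set `A₀` percolates: `A_t` is the whole vertex set for some `t`. -/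
def Percolates {V : Type*} (G : SimpleGraph V) (r : ℕ) (A₀ : Set V) : Prop :=
  ∃ t, infected G r A₀ t = Set.univ

/-- The percolation time of `A₀`: the least `t` such that `A_t` is the whole vertex set. -/
noncomputable def percTime {V : Type*} (G : SimpleGraph V) (r : ℕ) (A₀ : Set V) : ℕ :=
  sInf {t | infected G r A₀ t = Set.univ}

/-- The maximum percolation time `M(G, r)`: the largest percolation time over all percolating
sets `A₀`. -/
noncomputable def maxPercTime {V : Type*} (G : SimpleGraph V) (r : ℕ) : ℕ :=
  sSup {T | ∃ A₀ : Set V, Percolates G r A₀ ∧ percTime G r A₀ = T}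

end Pool.Agent.Lib.MP_1a3405_co
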