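import Mathlib
import Pool.Agent.Lib.MP_1a3405_co.Defs

/-!
Basic facts on the bootstrap process on finite graphs, and the upper bound
`r * M([n]^d, r) ≤ d * n^d`.
-/

namespace Pool.Agent.Lib.MP_1a3405_co

open Set

section General

variable {V : Type*} {G : SimpleGraph V} {r : ℕ} {A₀ : Set V}

lemma infected_succ (t : ℕ) : infected G r A₀ (t + 1) =
    infected G r A₀ t ∪ {v | r ≤ (G.neighborSet v ∩ infected G r A₀ t).ncard} := rfl

lemma infected_subset_succ (t : ℕ) : infected G r A₀ t ⊆ infected G r A₀ (t + 1) := by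
  rw [infected_succ]; exact subset_union_left

lemma infected_mono : Monotone (infected G r A₀) :=
  monotone_nat_of_le_succ infected_subset_succ

lemma infected_percTime (h : Percolates G r A₀) :
    infected G r A₀ (percTime G r A₀) = Set.univ :=
  Nat.sInf_mem (s := {t | infected G r A₀ t = Set.univ}) h

lemma not_infected_lt {t : ℕ} (ht : t < percTime G r A₀) : infected G r A₀ t ≠ Set.univ :=
  fun h => Nat.notMem_of_lt_sInf ht h

lemma bddAbove_times [Finite V] :
    BddAbove {T | ∃ A₀ : Set V, Percolates G r A₀ ∧ percTime G r A₀ = T} := by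
  have : {T | ∃ A₀ : Set V, Percolates G r A₀ ∧ percTime G r A₀ = T} =
      (percTime G r) '' {A₀ | Percolates G r A₀} := by
    ext T; simp [Set.mem_image]
  rw [this]
  exact ((Set.toFinite _).image _).bddAbove

lemma percTime_le_max [Finite V] (h : Percolates G r A₀) :
    percTime G r A₀ ≤ maxPercTime G r :=
  le_csSup bddAbove_times ⟨A₀, h, rfl⟩

/-- The maximum percolation time of a finite graph is attained: it is the greatest element of
the set of percolation times of percolating sets. -/
lemma isGreatest_maxPercTime [Finite V] :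
    IsGreatest {T | ∃ A₀ : Set V, Percolates G r A₀ ∧ percTime G r A₀ = T}
      (maxPercTime G r) := by
  refine ⟨Nat.sSup_mem ⟨percTime G r univ, univ, ⟨0, rfl⟩, rfl⟩ bddAbove_times,
    fun T hT => le_csSup bddAbove_times hT⟩

/-- infection time -/
noncomputable def itime (G : SimpleGraph V) (r : ℕ) (A₀ : Set V) (v : V) : ℕ :=
  sInf {t | v ∈ infected G r A₀ t}

lemma mem_infected_itime (h : Percolates G r A₀) (v : V) :
    v ∈ infected G r A₀ (itime G r A₀ v) := by
  have : {t | v ∈ infected G r A₀ t}.Nonempty := by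
    obtain ⟨t, ht⟩ := h
    exact ⟨t, by simp [ht]⟩
  exact Nat.sInf_mem this

lemma mem_infected_iff (h : Percolates G r A₀) (v : V) (t : ℕ) :
    v ∈ infected G r A₀ t ↔ itime G r A₀ v ≤ t :=
  ⟨fun hv => Nat.sInf_le hv, fun hv => infected_mono hv (mem_infected_itime h v)⟩

/-- At least `T` vertices have positive infection time. -/
lemma percTime_le_card [Fintype V] [DecidableEq V] (h : Percolates G r A₀) :
    percTime G r A₀ ≤ (Finset.univ.filter fun v => 1 ≤ itime G r A₀ v).card := by
  classical
  have key : ∀ k, 1 ≤ k → k ≤ percTime G r A₀ → ∃ v, itime G r A₀ v = k := by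
    intro k hk1 hk2
    by_contra hcon
    push Not at hcon
    -- then A_k = A_{k-1}
    obtain ⟨j, rfl⟩ : ∃ j, k = j + 1 := ⟨k - 1, by omega⟩
    have hstab : infected G r A₀ (j + 1) = infected G r A₀ j := by
      apply Subset.antisymm _ (infected_subset_succ j)
      intro v hv
      rw [mem_infected_iff h] at hv ⊢
      have := hcon v
      omega
    have hst : ∀ i, infected G r A₀ (j + i) = infected G r A₀ j := by
      intro i
      induction i with
      | zero => rfl
      | succ i ih =>
        rw [← add_assoc, infected_succ, ih, ← infected_succ, hstab]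
    have h1 : infected G r A₀ j ≠ univ := not_infected_lt (by omega)
    apply h1
    obtain ⟨T, hT⟩ := h
    have h2 := hst T
    rw [← h2]
    apply Set.eq_univ_of_univ_subset
    rw [← hT]
    exact infected_mono (by omega)
  have hsub : Finset.Icc 1 (percTime G r A₀) ⊆
      (Finset.univ.filter fun v => 1 ≤ itime G r A₀ v).image (itime G r A₀) := by
    intro k hk
    rw [Finset.mem_Icc] at hk
    obtain ⟨v, hv⟩ := key k hk.1 hk.2
    rw [Finset.mem_image]
    exact ⟨v, by simp [hv, hk.1], hv⟩
  have := Finset.card_le_card hsub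
  rw [Nat.card_Icc] at this
  have h2 := Finset.card_image_le (s := Finset.univ.filter fun v => 1 ≤ itime G r A₀ v)
    (f := itime G r A₀)
  omega

/-- A vertex with positive infection time has at least `r` neighbours with smaller
infection time. -/
lemma le_card_earlier [Fintype V] (h : Percolates G r A₀) (v : V)
    (hv : 1 ≤ itime G r A₀ v) :
    r ≤ {u | G.Adj v u ∧ itime G r A₀ u < itime G r A₀ v}.ncard := by
  obtain ⟨j, hj⟩ : ∃ j, itime G r A₀ v = j + 1 := ⟨itime G r A₀ v - 1, by omega⟩
  have h1 := mem_infected_itime h v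
  have h2 : v ∉ infected G r A₀ j := by
    rw [mem_infected_iff h]; omega
  rw [hj, infected_succ] at h1
  rcases h1 with h1 | h1
  · exact absurd h1 h2
  · refine le_trans h1 (Set.ncard_le_ncard ?_ (Set.toFinite _))
    rintro u ⟨hu1, hu2⟩
    refine ⟨hu1, ?_⟩
    rw [mem_infected_iff h] at hu2
    omega

/-- Double counting of the pairs `(v, u)` of adjacent vertices with `u` infected strictly
before `v`. -/
lemma percTime_mul_le [Fintype V] [DecidableEq V] (h : Percolates G r A₀) (N : ℕ)
    (hN : ∀ f : V → ℕ, {p : V × V | G.Adj p.1 p.2 ∧ f p.2 < f p.1}.ncard ≤ N) :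
    r * percTime G r A₀ ≤ N := by
  classical
  set f := itime G r A₀ with hf
  have h1 : r * percTime G r A₀ ≤ ∑ v ∈ Finset.univ.filter (fun v => 1 ≤ f v), r := by
    rw [Finset.sum_const, smul_eq_mul, mul_comm]
    exact Nat.mul_le_mul_right _ (percTime_le_card h)
  have h2 : ∑ v ∈ Finset.univ.filter (fun v => 1 ≤ f v), r ≤
      ∑ v ∈ Finset.univ.filter (fun v => 1 ≤ f v), {u | G.Adj v u ∧ f u < f v}.ncard := by
    apply Finset.sum_le_sum
    intro v hv
    rw [Finset.mem_filter] at hv
    exact le_card_earlier h v hv.2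
  have h3 : ∑ v ∈ Finset.univ.filter (fun v => 1 ≤ f v), {u | G.Adj v u ∧ f u < f v}.ncard ≤
      ∑ v : V, {u | G.Adj v u ∧ f u < f v}.ncard :=
    Finset.sum_le_sum_of_subset (Finset.filter_subset _ _)
  have h4 : ∑ v : V, {u | G.Adj v u ∧ f u < f v}.ncard =
      {p : V × V | G.Adj p.1 p.2 ∧ f p.2 < f p.1}.ncard := by
    have e1 : ∀ v : V, {u | G.Adj v u ∧ f u < f v}.ncard =
        (Finset.univ.filter fun u => G.Adj v u ∧ f u < f v).card := by
      intro v
      rw [← Set.ncard_coe_finset]
      congr 1
      ext u; simp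
    have e2 : {p : V × V | G.Adj p.1 p.2 ∧ f p.2 < f p.1}.ncard =
        (Finset.univ.filter fun p : V × V => G.Adj p.1 p.2 ∧ f p.2 < f p.1).card := by
      rw [← Set.ncard_coe_finset]
      congr 1
      ext u; simp
    rw [e2]
    simp_rw [e1]
    rw [Finset.card_filter, Fintype.sum_prod_type]
    apply Finset.sum_congr rfl
    intro v _
    rw [Finset.card_filter]
  calc r * percTime G r A₀ ≤ _ := h1
    _ ≤ _ := h2
    _ ≤ _ := h3
    _ = _ := h4
    _ ≤ N := hN f

end General

/-- In the grid graph `[n]^d`, for each function `f` there are at most `d * n^d` ordered pairs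
of adjacent vertices along which `f` decreases. -/
lemma grid_pairs_le (d n : ℕ) (f : (Fin d → Fin n) → ℕ) :
    {p : (Fin d → Fin n) × (Fin d → Fin n) | (grid d n).Adj p.1 p.2 ∧ f p.2 < f p.1}.ncard
      ≤ d * n ^ d := by
  classical
  have hcov : {p : (Fin d → Fin n) × (Fin d → Fin n) | (grid d n).Adj p.1 p.2 ∧ f p.2 < f p.1} ⊆
      ⋃ i ∈ (Finset.univ : Finset (Fin d)), {p : (Fin d → Fin n) × (Fin d → Fin n) |
        (∀ j, j ≠ i → p.1 j = p.2 j) ∧
        (((p.1 i : Fin n) : ℕ) + 1 = ((p.2 i : Fin n) : ℕ) ∨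
          ((p.2 i : Fin n) : ℕ) + 1 = ((p.1 i : Fin n) : ℕ)) ∧ f p.2 < f p.1} := by
    rintro ⟨v, u⟩ ⟨⟨i, h1, h2⟩, h3⟩
    simp only [Finset.mem_univ, iUnion_true, mem_iUnion]
    exact ⟨i, h1, h2, h3⟩
  refine le_trans (Set.ncard_le_ncard hcov (Set.toFinite _)) ?_
  refine le_trans (Finset.set_ncard_biUnion_le _ _) ?_
  have hone : ∀ i : Fin d, {p : (Fin d → Fin n) × (Fin d → Fin n) |
        (∀ j, j ≠ i → p.1 j = p.2 j) ∧
        (((p.1 i : Fin n) : ℕ) + 1 = ((p.2 i : Fin n) : ℕ) ∨
          ((p.2 i : Fin n) : ℕ) + 1 = ((p.1 i : Fin n) : ℕ)) ∧ f p.2 < f p.1}.ncard ≤ n ^ d := by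
    intro i
    have hcard : (Set.univ : Set (Fin d → Fin n)).ncard = n ^ d := by
      rw [Set.ncard_univ, Nat.card_eq_fintype_card, Fintype.card_fun, Fintype.card_fin,
        Fintype.card_fin]
    rw [← hcard]
    apply Set.ncard_le_ncard_of_injOn
      (fun p => if ((p.1 i : Fin n) : ℕ) < ((p.2 i : Fin n) : ℕ) then p.1 else p.2)
    · intro p _; exact Set.mem_univ _
    · rintro ⟨v, u⟩ ⟨h1, h2, h3⟩ ⟨v', u'⟩ ⟨h1', h2', h3'⟩ heq
      simp only at h1 h2 h3 h1' h2' h3' heq
      -- helper: two functions agreeing off i and at i are equal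
      have ext' : ∀ a b c e : Fin d → Fin n, (∀ j, j ≠ i → a j = c j) → (∀ j, j ≠ i → b j = e j) →
          c = e → ((a i : Fin n) : ℕ) = ((b i : Fin n) : ℕ) → a = b := by
        intro a b c e ha hb hc hi
        funext j
        by_cases hj : j = i
        · subst hj; exact Fin.ext hi
        · rw [ha j hj, hb j hj, hc]
      by_cases c1 : ((v i : Fin n) : ℕ) < ((u i : Fin n) : ℕ)
      · by_cases c2 : ((v' i : Fin n) : ℕ) < ((u' i : Fin n) : ℕ)
        · rw [if_pos c1, if_pos c2] at heq
          subst heq
          have : u = u' := by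
            apply ext' u u' v v (fun j hj => (h1 j hj).symm) (fun j hj => (h1' j hj).symm) rfl
            omega
          rw [this]
        · exfalso
          rw [if_pos c1, if_neg c2] at heq
          subst heq
          -- lower endpoint v : u = v + e_i, v' = v + e_i
          have : u = v' := by
            apply ext' u v' v v (fun j hj => (h1 j hj).symm) (fun j hj => (h1' j hj)) rfl
            omega
          rw [this] at h3
          omega
      · by_cases c2 : ((v' i : Fin n) : ℕ) < ((u' i : Fin n) : ℕ)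
        · exfalso
          rw [if_neg c1, if_pos c2] at heq
          subst heq
          have : v = u' := by
            apply ext' v u' u u (fun j hj => (h1 j hj)) (fun j hj => (h1' j hj).symm) rfl
            omega
          rw [this] at h3
          omega
        · rw [if_neg c1, if_neg c2] at heq
          subst heq
          have : v = v' := by
            apply ext' v v' u u (fun j hj => (h1 j hj)) (fun j hj => (h1' j hj)) rfl
            omega
          rw [this]
  calc ∑ i ∈ (Finset.univ : Finset (Fin d)), _ ≤ ∑ i ∈ (Finset.univ : Finset (Fin d)), n ^ d :=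
        Finset.sum_le_sum fun i _ => hone i
    _ = d * n ^ d := by rw [Finset.sum_const, Finset.card_univ, Fintype.card_fin, smul_eq_mul]

/-- The general upper bound: `r * M([n]^d, r) ≤ d * n^d`. -/
theorem mul_maxPercTime_le (d n r : ℕ) : r * maxPercTime (grid d n) r ≤ d * n ^ d := by
  classical
  obtain ⟨⟨A₀, hA, hT⟩, -⟩ := isGreatest_maxPercTime (G := grid d n) (r := r)
  rw [← hT]
  exact percTime_mul_le hA _ (grid_pairs_le d n)

end Pool.Agent.Lib.MP_1a3405_co
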