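import Mathlib
import Pool.Agent.Lib.MP_1a3405_co.Basic

/-!
A local certificate for a lower bound on the maximum percolation time of `[n]^d`.
Points of the grid are written with integer coordinates in `{1,…,n}`.
-/

namespace Pool.Agent.Lib.MP_1a3405_co

open Set

variable {d n : ℕ}

/-- integer coordinates (in `1..n`) of a vertex -/
def co (v : Fin d → Fin n) : Fin d → ℤ := fun i => ((v i : ℕ) : ℤ) + 1

/-- the box `{1..n}^d` -/
def InBox (n : ℕ) (p : Fin d → ℤ) : Prop := ∀ i, 1 ≤ p i ∧ p i ≤ n

/-- the neighbour of `p` in direction `δ` -/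
def nb (p : Fin d → ℤ) (δ : Fin d × Bool) : Fin d → ℤ :=
  Function.update p δ.1 (p δ.1 + (if δ.2 then 1 else -1))

lemma co_injective : Function.Injective (co (d := d) (n := n)) := by
  intro u v h
  funext i
  have := congrFun h i
  simp only [co] at this
  exact Fin.ext (by omega)

lemma inBox_co (v : Fin d → Fin n) : InBox n (co v) := by
  intro i
  have := (v i).2
  simp only [co]
  omega

lemma exists_co {p : Fin d → ℤ} (h : InBox n p) : ∃ v : Fin d → Fin n, co v = p := by
  refine ⟨fun i => ⟨(p i - 1).toNat, ?_⟩, ?_⟩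
  · have := h i; omega
  · funext i
    have := h i
    simp only [co]
    omega

lemma nb_injective (p : Fin d → ℤ) : Function.Injective (nb p) := by
  rintro ⟨i, b⟩ ⟨j, c⟩ h
  have hi := congrFun h i
  by_cases hij : i = j
  · subst hij
    simp only [nb, Function.update_self] at hi
    cases b <;> cases c <;> simp_all
  · exfalso
    simp only [nb, Function.update_self] at hi
    rw [Function.update_of_ne hij] at hi
    cases b <;> simp at hi

lemma adj_iff (u v : Fin d → Fin n) :
    (grid d n).Adj u v ↔ ∃ δ, co v = nb (co u) δ := by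
  constructor
  · rintro ⟨i, h1, h2⟩
    rcases h2 with h2 | h2
    · refine ⟨(i, true), ?_⟩
      funext j
      by_cases hj : j = i
      · subst hj
        simp only [nb, Function.update_self, co, if_true]
        omega
      · simp only [nb, Function.update_of_ne hj, co]
        rw [h1 j hj]
    · refine ⟨(i, false), ?_⟩
      funext j
      by_cases hj : j = i
      · subst hj
        simp only [nb, Function.update_self, co, Bool.false_eq_true, if_false]
        omega
      · simp only [nb, Function.update_of_ne hj, co]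
        rw [h1 j hj]
  · rintro ⟨⟨i, b⟩, h⟩
    refine ⟨i, ?_, ?_⟩
    · intro j hj
      have := congrFun h j
      simp only [nb, Function.update_of_ne hj, co] at this
      exact Fin.ext (by omega)
    · have := congrFun h i
      simp only [nb, Function.update_self, co] at this
      cases b
      · right
        simp only [Bool.false_eq_true, if_false] at this
        omega
      · left
        simp only [if_true] at this
        omega

lemma ncard_nbrs (v : Fin d → Fin n) (Q : (Fin d → ℤ) → Prop) :
    ((grid d n).neighborSet v ∩ {u | Q (co u)}).ncard =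
      {δ : Fin d × Bool | InBox n (nb (co v) δ) ∧ Q (nb (co v) δ)}.ncard := by
  rw [← Set.ncard_image_of_injective _ co_injective,
    ← Set.ncard_image_of_injective _ (nb_injective (co v))]
  congr 1
  ext p
  constructor
  · rintro ⟨u, ⟨hu1, hu2⟩, rfl⟩
    obtain ⟨δ, hδ⟩ := (adj_iff v u).1 hu1
    refine ⟨δ, ?_, hδ.symm⟩
    refine ⟨?_, ?_⟩
    · rw [← hδ]; exact inBox_co u
    · rw [← hδ]; exact hu2
  · rintro ⟨δ, hδ, rfl⟩
    obtain ⟨u, hu⟩ := exists_co hδ.1
    refine ⟨u, ⟨?_, ?_⟩, hu⟩
    · exact (adj_iff v u).2 ⟨δ, hu⟩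
    · have := hδ.2
      rw [← hu] at this
      exact this

/-- **Certificate for a lower bound.** `C` is the set of initially infected points and `τ` a
function such that each point `p` outside `C` with `τ p ≥ 2` has fewer than `r` neighbours `q`
with `q ∈ C` or `τ q + 2 ≤ τ p`, and each point `p` outside `C` has at least `r` neighbours `q`
with `q ∈ C` or `τ q + 1 ≤ τ p`. Then `M([n]^d, r)` is at least each value of `τ` outside `C`. -/
theorem le_maxPercTime (r : ℕ) (C : (Fin d → ℤ) → Prop) (τ : (Fin d → ℤ) → ℤ)
    (hT : ∀ p, InBox n p → ¬ C p → 2 ≤ τ p →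
      {δ : Fin d × Bool |
        InBox n (nb p δ) ∧ (C (nb p δ) ∨ τ (nb p δ) + 2 ≤ τ p)}.ncard < r)
    (hP : ∀ p, InBox n p → ¬ C p →
      r ≤ {δ : Fin d × Bool |
        InBox n (nb p δ) ∧ (C (nb p δ) ∨ τ (nb p δ) + 1 ≤ τ p)}.ncard)
    {p₀ : Fin d → ℤ} (h0 : InBox n p₀) (h1 : ¬ C p₀) :
    τ p₀ ≤ (maxPercTime (grid d n) r : ℤ) := by
  set A₀ : Set (Fin d → Fin n) := {v | C (co v)} with hA₀
  set G := grid d n with hG
  -- claim 1
  have c1 : ∀ t : ℕ, ∀ v, v ∈ infected G r A₀ t → ¬ C (co v) → τ (co v) ≤ t := by
    intro t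
    induction t with
    | zero => intro v hv hC; exact absurd hv hC
    | succ t ih =>
      intro v hv hC
      rcases hv with hv | hv
      · have := ih v hv hC
        push_cast
        omega
      · by_contra hcon
        push Not at hcon
        push_cast at hcon
        have h2 : 2 ≤ τ (co v) := by omega
        have h3 := hT (co v) (inBox_co v) hC h2
        rw [← ncard_nbrs v (fun q => C q ∨ τ q + 2 ≤ τ (co v))] at h3
        have h4 : (G.neighborSet v ∩ infected G r A₀ t).ncard ≤
            ((grid d n).neighborSet v ∩ {u | C (co u) ∨ τ (co u) + 2 ≤ τ (co v)}).ncard := by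
          apply Set.ncard_le_ncard _ (Set.toFinite _)
          rintro u ⟨hu1, hu2⟩
          refine ⟨hu1, ?_⟩
          by_cases hCu : C (co u)
          · left; exact hCu
          · right
            have := ih u hu2 hCu
            omega
        have h5 : r ≤ (G.neighborSet v ∩ infected G r A₀ t).ncard := hv
        omega
  -- claim 2
  have c2 : ∀ v, ∃ t, v ∈ infected G r A₀ t := by
    obtain ⟨b, hb⟩ := (Set.finite_range fun v : Fin d → Fin n => τ (co v)).bddBelow
    have hb' : ∀ v : Fin d → Fin n, b ≤ τ (co v) := fun v => hb ⟨v, rfl⟩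
    have main : ∀ k : ℕ, ∀ v, (τ (co v) - b).toNat = k → ∃ t, v ∈ infected G r A₀ t := by
      intro k
      induction k using Nat.strong_induction_on with
      | _ k ih =>
        intro v hv
        by_cases hC : C (co v)
        · exact ⟨0, hC⟩
        · have h2 := hP (co v) (inBox_co v) hC
          rw [← ncard_nbrs v (fun q => C q ∨ τ q + 1 ≤ τ (co v))] at h2
          have h3 : ∀ u : Fin d → Fin n, ∃ t, (C (co u) ∨ τ (co u) + 1 ≤ τ (co v)) →
              u ∈ infected G r A₀ t := by
            intro u
            by_cases hu : C (co u)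
            · exact ⟨0, fun _ => hu⟩
            · by_cases hu2 : τ (co u) + 1 ≤ τ (co v)
              · have := hb' u
                have := hb' v
                obtain ⟨t, ht⟩ := ih (τ (co u) - b).toNat (by omega) u rfl
                exact ⟨t, fun _ => ht⟩
              · exact ⟨0, fun h => by tauto⟩
          choose T hTT using h3
          obtain ⟨M, hM⟩ := (Set.finite_range T).bddAbove
          refine ⟨M + 1, Or.inr ?_⟩
          refine le_trans h2 (Set.ncard_le_ncard ?_ (Set.toFinite _))
          rintro u ⟨hu1, hu2⟩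
          exact ⟨hu1, infected_mono (hM ⟨u, rfl⟩) (hTT u hu2)⟩
    intro v
    exact main _ v rfl
  have hperc : Percolates G r A₀ := by
    choose T hTT using c2
    obtain ⟨M, hM⟩ := (Set.finite_range T).bddAbove
    refine ⟨M, ?_⟩
    rw [Set.eq_univ_iff_forall]
    intro v
    exact infected_mono (hM ⟨v, rfl⟩) (hTT v)
  obtain ⟨v₀, hv₀⟩ := exists_co h0
  have h6 : v₀ ∈ infected G r A₀ (percTime G r A₀) := by
    rw [infected_percTime hperc]; trivial
  have h7 := c1 _ v₀ h6 (by rw [hv₀]; exact h1)
  rw [hv₀] at h7
  have h8 := percTime_le_max hperc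
  have h9 : ((percTime G r A₀ : ℕ) : ℤ) ≤ ((maxPercTime G r : ℕ) : ℤ) := by exact_mod_cast h8
  omega

end Pool.Agent.Lib.MP_1a3405_co
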