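import Mathlib
import Pool.Agent.Lib.MP_1a3405_co.Lower

/-!
The certificate of `Lower.lean` in dimensions two and three, written with coordinates.
-/

namespace Pool.Agent.Lib.MP_1a3405_co

open Set

/-- indicator -/
noncomputable def ind (P : Prop) : ℤ := open Classical in if P then 1 else 0

lemma ind_true {P : Prop} (h : P) : ind P = 1 := by unfold ind; exact if_pos h
lemma ind_false {P : Prop} (h : ¬ P) : ind P = 0 := by unfold ind; exact if_neg h
lemma ind_le_one (P : Prop) : ind P ≤ 1 := by unfold ind; split_ifs <;> norm_num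
lemma ind_nonneg (P : Prop) : 0 ≤ ind P := by unfold ind; split_ifs <;> norm_num
lemma ind_mono {P Q : Prop} (h : P → Q) : ind P ≤ ind Q := by
  by_cases hP : P
  · rw [ind_true hP, ind_true (h hP)]
  · rw [ind_false hP]; exact ind_nonneg Q

/-- the plane box -/
def bx (n : ℤ) (x y : ℤ) : Prop := 1 ≤ x ∧ x ≤ n ∧ 1 ≤ y ∧ y ≤ n

/-- `St n O T k c x y`: the point `(x, y)` of the box is not open, or has time at most
`c - k`. -/
def St (n : ℤ) (O : ℤ → ℤ → Prop) (T : ℤ → ℤ → ℤ) (k c x y : ℤ) : Prop :=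
  bx n x y ∧ (¬ O x y ∨ T x y + k ≤ c)

/-- the number of the four neighbours of `(x, y)` satisfying `St`. -/
noncomputable def S4 (n : ℤ) (O : ℤ → ℤ → Prop) (T : ℤ → ℤ → ℤ) (k x y : ℤ) : ℤ :=
  ind (St n O T k (T x y) (x + 1) y) + ind (St n O T k (T x y) (x - 1) y) +
  ind (St n O T k (T x y) x (y + 1)) + ind (St n O T k (T x y) x (y - 1))

lemma ncard_two (S : Set (Fin 2 × Bool)) : (S.ncard : ℤ) =
    ind ((0, true) ∈ S) + ind ((0, false) ∈ S) + ind ((1, true) ∈ S) + ind ((1, false) ∈ S) := by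
  classical
  have h1 : S.ncard = ∑ δ : Fin 2 × Bool, if δ ∈ S then 1 else 0 := by
    rw [← Finset.card_filter, ← Set.ncard_coe_finset]
    congr 1
    ext δ
    simp
  rw [h1, Fintype.sum_prod_type]
  simp only [Fin.sum_univ_two, Fintype.sum_bool]
  unfold ind
  push_cast
  ring

lemma ncard_three (S : Set (Fin 3 × Bool)) : (S.ncard : ℤ) =
    ind ((0, true) ∈ S) + ind ((0, false) ∈ S) + ind ((1, true) ∈ S) + ind ((1, false) ∈ S)
     + ind ((2, true) ∈ S) + ind ((2, false) ∈ S) := by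
  classical
  have h1 : S.ncard = ∑ δ : Fin 3 × Bool, if δ ∈ S then 1 else 0 := by
    rw [← Finset.card_filter, ← Set.ncard_coe_finset]
    congr 1
    ext δ
    simp
  rw [h1, Fintype.sum_prod_type]
  simp only [Fin.sum_univ_three, Fintype.sum_bool]
  unfold ind
  push_cast
  ring

theorem cert2 (n : ℕ) (O : ℤ → ℤ → Prop) (T : ℤ → ℤ → ℤ)
    (h : ∀ x y, bx n x y → O x y → (2 ≤ T x y → S4 n O T 2 x y ≤ 2) ∧ 3 ≤ S4 n O T 1 x y)
    {x₀ y₀ : ℤ} (h0 : bx n x₀ y₀) (h1 : O x₀ y₀) :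
    T x₀ y₀ ≤ (maxPercTime (grid 2 n) 3 : ℤ) := by
  have hbx : ∀ p : Fin 2 → ℤ, InBox n p ↔ bx n (p 0) (p 1) := by
    intro p
    unfold InBox bx
    constructor
    · intro hp
      have a := hp 0
      have b := hp 1
      exact ⟨a.1, a.2, b.1, b.2⟩
    · rintro ⟨a, b, c, e⟩ i
      fin_cases i
      · exact ⟨a, b⟩
      · exact ⟨c, e⟩
  have key : ∀ (p : Fin 2 → ℤ) (k : ℤ), (({δ : Fin 2 × Bool | InBox n (nb p δ) ∧
      ((¬ O (nb p δ 0) (nb p δ 1)) ∨ T (nb p δ 0) (nb p δ 1) + k ≤ T (p 0) (p 1))}.ncard : ℕ) : ℤ)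
      = S4 n O T k (p 0) (p 1) := by
    intro p k
    rw [ncard_two]
    simp only [Set.mem_ofPred_eq, hbx, nb]
    simp only [S4, St, Function.update_self, if_true, Bool.false_eq_true, if_false,
      Function.update_of_ne (show (1 : Fin 2) ≠ 0 by decide),
      Function.update_of_ne (show (0 : Fin 2) ≠ 1 by decide), ← sub_eq_add_neg]
  have main := le_maxPercTime (d := 2) (n := n) 3 (fun p => ¬ O (p 0) (p 1))
    (fun p => T (p 0) (p 1))
    (by
      intro p hp hO hT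
      have h2 := (h (p 0) (p 1) ((hbx p).1 hp) (not_not.1 hO)).1 hT
      have h3 := key p 2
      omega)
    (by
      intro p hp hO
      have h2 := (h (p 0) (p 1) ((hbx p).1 hp) (not_not.1 hO)).2
      have h3 := key p 1
      omega)
    (p₀ := ![x₀, y₀])
    (by rw [hbx]; exact h0)
    (by
      simp only [Matrix.cons_val_zero, Matrix.cons_val_one, not_not]
      exact h1)
  simpa using main

/-- In dimension three `O z` and `T z` describe the plane with third coordinate `z`. -/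
theorem cert3 (n : ℕ) (O : ℤ → ℤ → ℤ → Prop) (T : ℤ → ℤ → ℤ → ℤ)
    (h : ∀ z x y : ℤ, 1 ≤ z → z ≤ (n : ℤ) → bx n x y → O z x y →
      (2 ≤ T z x y → S4 n (O z) (T z) 2 x y
        + ind (z + 1 ≤ n ∧ (¬ O (z + 1) x y ∨ T (z + 1) x y + 2 ≤ T z x y))
        + ind (1 ≤ z - 1 ∧ (¬ O (z - 1) x y ∨ T (z - 1) x y + 2 ≤ T z x y)) ≤ 3) ∧
      4 ≤ S4 n (O z) (T z) 1 x y
        + ind (z + 1 ≤ n ∧ (¬ O (z + 1) x y ∨ T (z + 1) x y + 1 ≤ T z x y))
        + ind (1 ≤ z - 1 ∧ (¬ O (z - 1) x y ∨ T (z - 1) x y + 1 ≤ T z x y)))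
    {z₀ x₀ y₀ : ℤ} (hz1 : 1 ≤ z₀) (hz2 : z₀ ≤ n) (h0 : bx n x₀ y₀) (h1 : O z₀ x₀ y₀) :
    T z₀ x₀ y₀ ≤ (maxPercTime (grid 3 n) 4 : ℤ) := by
  have hbx : ∀ p : Fin 3 → ℤ, InBox n p ↔ bx n (p 0) (p 1) ∧ 1 ≤ p 2 ∧ p 2 ≤ n := by
    intro p
    unfold InBox bx
    constructor
    · intro hp
      have a := hp 0
      have b := hp 1
      have c := hp 2
      exact ⟨⟨a.1, a.2, b.1, b.2⟩, c⟩
    · rintro ⟨⟨a, b, c, e⟩, f⟩ i
      fin_cases i
      · exact ⟨a, b⟩
      · exact ⟨c, e⟩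
      · exact f
  have key : ∀ (p : Fin 3 → ℤ) (k : ℤ), InBox n p → (({δ : Fin 3 × Bool | InBox n (nb p δ) ∧
      ((¬ O (nb p δ 2) (nb p δ 0) (nb p δ 1)) ∨
        T (nb p δ 2) (nb p δ 0) (nb p δ 1) + k ≤ T (p 2) (p 0) (p 1))}.ncard : ℕ) : ℤ)
      = S4 n (O (p 2)) (T (p 2)) k (p 0) (p 1)
        + ind (p 2 + 1 ≤ n ∧ (¬ O (p 2 + 1) (p 0) (p 1) ∨
            T (p 2 + 1) (p 0) (p 1) + k ≤ T (p 2) (p 0) (p 1)))
        + ind (1 ≤ p 2 - 1 ∧ (¬ O (p 2 - 1) (p 0) (p 1) ∨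
            T (p 2 - 1) (p 0) (p 1) + k ≤ T (p 2) (p 0) (p 1))) := by
    intro p k hp
    rw [hbx] at hp
    obtain ⟨hp1, hp2, hp3⟩ := hp
    rw [ncard_three]
    simp only [Set.mem_ofPred_eq, hbx, nb]
    simp only [S4, St, Function.update_self, if_true, Bool.false_eq_true, if_false,
      Function.update_of_ne (show (1 : Fin 3) ≠ 0 by decide),
      Function.update_of_ne (show (2 : Fin 3) ≠ 0 by decide),
      Function.update_of_ne (show (0 : Fin 3) ≠ 1 by decide),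
      Function.update_of_ne (show (2 : Fin 3) ≠ 1 by decide),
      Function.update_of_ne (show (0 : Fin 3) ≠ 2 by decide),
      Function.update_of_ne (show (1 : Fin 3) ≠ 2 by decide), ← sub_eq_add_neg]
    have e1 : (1 ≤ p 2 ∧ p 2 ≤ (n : ℤ)) ↔ True := by simp [hp2, hp3]
    have e2 : bx (n : ℤ) (p 0) (p 1) ↔ True := by simp [hp1]
    have e3 : (1 ≤ p 2 + 1 ∧ p 2 + 1 ≤ (n : ℤ)) ↔ p 2 + 1 ≤ n := by
      constructor
      · exact fun h => h.2
      · exact fun h => ⟨by omega, h⟩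
    have e4 : (1 ≤ p 2 - 1 ∧ p 2 - 1 ≤ (n : ℤ)) ↔ 1 ≤ p 2 - 1 := by
      constructor
      · exact fun h => h.1
      · exact fun h => ⟨h, by omega⟩
    simp only [e1, e2, e3, e4, and_true, true_and]
  have main := le_maxPercTime (d := 3) (n := n) 4 (fun p => ¬ O (p 2) (p 0) (p 1))
    (fun p => T (p 2) (p 0) (p 1))
    (by
      intro p hp hO hT
      have hq := (hbx p).1 hp
      have h2 := (h (p 2) (p 0) (p 1) hq.2.1 hq.2.2 hq.1 (not_not.1 hO)).1 hT
      have h3 := key p 2 hp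
      omega)
    (by
      intro p hp hO
      have hq := (hbx p).1 hp
      have h2 := (h (p 2) (p 0) (p 1) hq.2.1 hq.2.2 hq.1 (not_not.1 hO)).2
      have h3 := key p 1 hp
      omega)
    (p₀ := ![x₀, y₀, z₀])
    (by rw [hbx]; exact ⟨h0, hz1, hz2⟩)
    (by
      show ¬ ¬ O z₀ x₀ y₀
      exact not_not.2 h1)
  exact main

section Good

variable {n : ℤ} {O : ℤ → ℤ → Prop} {T : ℤ → ℤ → ℤ} {x y : ℤ}

/-- the local condition for cells of path type -/
def Good (n : ℤ) (O : ℤ → ℤ → Prop) (T : ℤ → ℤ → ℤ) (x y : ℤ) : Prop :=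
  S4 n O T 2 x y ≤ 2 ∧ 3 ≤ S4 n O T 1 x y

/-- `u` is a link neighbour of `v` with time difference `e`. -/
def Lk (n : ℤ) (O : ℤ → ℤ → Prop) (T : ℤ → ℤ → ℤ) (c e x' y' : ℤ) : Prop :=
  bx n x' y' ∧ O x' y' ∧ T x' y' = c + e

lemma St_mono {k k' c x' y' : ℤ} (h : k' ≤ k) (hs : St n O T k c x' y') :
    St n O T k' c x' y' := by
  obtain ⟨h1, h2⟩ := hs
  refine ⟨h1, ?_⟩
  rcases h2 with h2 | h2
  · left; exact h2
  · right; omega

lemma Lk_two {c e x' y' : ℤ} (he : e = 1 ∨ e = -1) (h : Lk n O T c e x' y') :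
    ind (St n O T 2 c x' y') = 0 := by
  apply ind_false
  rintro ⟨-, h2⟩
  obtain ⟨-, h3, h4⟩ := h
  rcases h2 with h2 | h2
  · exact h2 h3
  · omega

lemma Lk_one {c e x' y' : ℤ} (he : e = -1) (h : Lk n O T c e x' y') :
    ind (St n O T 1 c x' y') = 1 := by
  apply ind_true
  obtain ⟨h2, h3, h4⟩ := h
  exact ⟨h2, Or.inr (by omega)⟩

lemma St_one {c x' y' : ℤ} (h : St n O T 2 c x' y') :
    ind (St n O T 1 c x' y') = 1 := ind_true (St_mono (by norm_num) h)

lemma good_RL {e : ℤ} (he : e = 1 ∨ e = -1)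
    (h1 : Lk n O T (T x y) e (x + 1) y) (h2 : Lk n O T (T x y) (-e) (x - 1) y)
    (h3 : St n O T 2 (T x y) x (y + 1)) (h4 : St n O T 2 (T x y) x (y - 1)) :
    Good n O T x y := by
  have a1 := Lk_two he h1
  have a2 := Lk_two (show -e = 1 ∨ -e = -1 by omega) h2
  have b1 := ind_le_one (St n O T 2 (T x y) x (y + 1))
  have b2 := ind_le_one (St n O T 2 (T x y) x (y - 1))
  have c3 := St_one h3
  have c4 := St_one h4
  have n1 := ind_nonneg (St n O T 1 (T x y) (x + 1) y)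
  have n2 := ind_nonneg (St n O T 1 (T x y) (x - 1) y)
  refine ⟨by unfold S4; omega, ?_⟩
  rcases he with he | he
  · have := Lk_one (by omega) h2
    unfold S4; omega
  · have := Lk_one (by omega) h1
    unfold S4; omega

lemma good_RU {e : ℤ} (he : e = 1 ∨ e = -1)
    (h1 : Lk n O T (T x y) e (x + 1) y) (h2 : Lk n O T (T x y) (-e) x (y + 1))
    (h3 : St n O T 2 (T x y) (x - 1) y) (h4 : St n O T 2 (T x y) x (y - 1)) :
    Good n O T x y := by
  have a1 := Lk_two he h1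
  have a2 := Lk_two (show -e = 1 ∨ -e = -1 by omega) h2
  have b1 := ind_le_one (St n O T 2 (T x y) (x - 1) y)
  have b2 := ind_le_one (St n O T 2 (T x y) x (y - 1))
  have c3 := St_one h3
  have c4 := St_one h4
  have n1 := ind_nonneg (St n O T 1 (T x y) (x + 1) y)
  have n2 := ind_nonneg (St n O T 1 (T x y) x (y + 1))
  refine ⟨by unfold S4; omega, ?_⟩
  rcases he with he | he
  · have := Lk_one (by omega) h2
    unfold S4; omega
  · have := Lk_one (by omega) h1
    unfold S4; omega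

lemma good_RD {e : ℤ} (he : e = 1 ∨ e = -1)
    (h1 : Lk n O T (T x y) e (x + 1) y) (h2 : Lk n O T (T x y) (-e) x (y - 1))
    (h3 : St n O T 2 (T x y) (x - 1) y) (h4 : St n O T 2 (T x y) x (y + 1)) :
    Good n O T x y := by
  have a1 := Lk_two he h1
  have a2 := Lk_two (show -e = 1 ∨ -e = -1 by omega) h2
  have b1 := ind_le_one (St n O T 2 (T x y) (x - 1) y)
  have b2 := ind_le_one (St n O T 2 (T x y) x (y + 1))
  have c3 := St_one h3
  have c4 := St_one h4
  have n1 := ind_nonneg (St n O T 1 (T x y) (x + 1) y)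
  have n2 := ind_nonneg (St n O T 1 (T x y) x (y - 1))
  refine ⟨by unfold S4; omega, ?_⟩
  rcases he with he | he
  · have := Lk_one (by omega) h2
    unfold S4; omega
  · have := Lk_one (by omega) h1
    unfold S4; omega

lemma good_LU {e : ℤ} (he : e = 1 ∨ e = -1)
    (h1 : Lk n O T (T x y) e (x - 1) y) (h2 : Lk n O T (T x y) (-e) x (y + 1))
    (h3 : St n O T 2 (T x y) (x + 1) y) (h4 : St n O T 2 (T x y) x (y - 1)) :
    Good n O T x y := by
  have a1 := Lk_two he h1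
  have a2 := Lk_two (show -e = 1 ∨ -e = -1 by omega) h2
  have b1 := ind_le_one (St n O T 2 (T x y) (x + 1) y)
  have b2 := ind_le_one (St n O T 2 (T x y) x (y - 1))
  have c3 := St_one h3
  have c4 := St_one h4
  have n1 := ind_nonneg (St n O T 1 (T x y) (x - 1) y)
  have n2 := ind_nonneg (St n O T 1 (T x y) x (y + 1))
  refine ⟨by unfold S4; omega, ?_⟩
  rcases he with he | he
  · have := Lk_one (by omega) h2
    unfold S4; omega
  · have := Lk_one (by omega) h1
    unfold S4; omega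

lemma good_LD {e : ℤ} (he : e = 1 ∨ e = -1)
    (h1 : Lk n O T (T x y) e (x - 1) y) (h2 : Lk n O T (T x y) (-e) x (y - 1))
    (h3 : St n O T 2 (T x y) (x + 1) y) (h4 : St n O T 2 (T x y) x (y + 1)) :
    Good n O T x y := by
  have a1 := Lk_two he h1
  have a2 := Lk_two (show -e = 1 ∨ -e = -1 by omega) h2
  have b1 := ind_le_one (St n O T 2 (T x y) (x + 1) y)
  have b2 := ind_le_one (St n O T 2 (T x y) x (y + 1))
  have c3 := St_one h3
  have c4 := St_one h4
  have n1 := ind_nonneg (St n O T 1 (T x y) (x - 1) y)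
  have n2 := ind_nonneg (St n O T 1 (T x y) x (y - 1))
  refine ⟨by unfold S4; omega, ?_⟩
  rcases he with he | he
  · have := Lk_one (by omega) h2
    unfold S4; omega
  · have := Lk_one (by omega) h1
    unfold S4; omega

lemma good_UD {e : ℤ} (he : e = 1 ∨ e = -1)
    (h1 : Lk n O T (T x y) e x (y + 1)) (h2 : Lk n O T (T x y) (-e) x (y - 1))
    (h3 : St n O T 2 (T x y) (x + 1) y) (h4 : St n O T 2 (T x y) (x - 1) y) :
    Good n O T x y := by
  have a1 := Lk_two he h1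
  have a2 := Lk_two (show -e = 1 ∨ -e = -1 by omega) h2
  have b1 := ind_le_one (St n O T 2 (T x y) (x + 1) y)
  have b2 := ind_le_one (St n O T 2 (T x y) (x - 1) y)
  have c3 := St_one h3
  have c4 := St_one h4
  have n1 := ind_nonneg (St n O T 1 (T x y) x (y + 1))
  have n2 := ind_nonneg (St n O T 1 (T x y) x (y - 1))
  refine ⟨by unfold S4; omega, ?_⟩
  rcases he with he | he
  · have := Lk_one (by omega) h2
    unfold S4; omega
  · have := Lk_one (by omega) h1
    unfold S4; omega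

end Good

end Pool.Agent.Lib.MP_1a3405_co
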