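import Mathlib
import Pool.Agent.Lib.MP_1a3405_co.Plane

/-!
The planar construction for `d = 2`, `r = 3`: the complement of the initially infected set is a
long induced path.
-/

namespace Pool.Agent.Lib.MP_1a3405_co

/-- data of a height profile for the planar construction -/
structure Prof2 (n H m W : ℤ) (h a : ℤ → ℤ) : Prop where
  nn : ∀ x, 0 ≤ h x
  le : ∀ x, h x ≤ H
  lip : ∀ x, h (x + 1) = h x ∨ h (x + 1) = h x + 1 ∨ h (x + 1) = h x - 1
  pos : ∀ x, a (x + 1) = a x + 1 + |h (x + 1) - h x|
  up2 : ∀ x, h (x - 1) = h x + 1 → h (x + 1) ≠ h x + 1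
  val : ∀ x, h (x - 1) = h x + 1 → h (x + 1) = h x → h (x + 1 + 1) ≠ h x + 1
  l1 : h 1 = h 2
  l2 : h 3 = h 2
  l3 : h 4 = h 2
  r1 : h n = h (n - 1)
  r2 : h (n - 2) = h (n - 1)
  r3 : h (n - 3) = h (n - 1)
  a2 : a 2 = 0
  aW : a (n - 1) = W
  hm : m % 2 = 1
  m1 : 1 ≤ m
  hn : H + 3 * m + 1 ≤ n
  n10 : 10 ≤ n

/-- the start time of line `i` -/
def s2 (W i : ℤ) : ℤ := (i - 1) * (W + 3) + 1

lemma s2_succ (W i : ℤ) : s2 W (i + 1) = s2 W i + W + 3 := by unfold s2; ring

lemma s2_pred (W i : ℤ) : s2 W (i - 1) = s2 W i - W - 3 := by unfold s2; ring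

/-- the offset of position `p` on line `i` -/
def P2 (W i p : ℤ) : ℤ := if i % 2 = 1 then p else W - p

lemma P2_odd {W i : ℤ} (hi : i % 2 = 1) (p : ℤ) : P2 W i p = p := by
  unfold P2; exact if_pos hi

lemma P2_even {W i : ℤ} (hi : i % 2 = 0) (p : ℤ) : P2 W i p = W - p := by
  unfold P2; exact if_neg (by omega)

lemma P2_sign (W i : ℤ) : ∃ e : ℤ, (e = 1 ∨ e = -1) ∧ ∀ p, P2 W i (p + 1) = P2 W i p + e ∧
    P2 W i (p - 1) = P2 W i p - e := by
  rcases Int.emod_two_eq_zero_or_one i with hi | hi
  · refine ⟨-1, Or.inr rfl, fun p => ?_⟩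
    rw [P2_even hi, P2_even hi, P2_even hi]
    constructor <;> ring
  · refine ⟨1, Or.inl rfl, fun p => ?_⟩
    rw [P2_odd hi, P2_odd hi, P2_odd hi]
    constructor <;> ring

/-- the open cells (not initially infected) -/
def O2 (n m : ℤ) (h : ℤ → ℤ) (x y : ℤ) : Prop :=
  (2 ≤ x ∧ x ≤ n - 1 ∧ 3 ≤ y - h x ∧ y - h x ≤ 3 * m ∧ (y - h x) % 3 = 0) ∨
  (x = n ∧ y - h x = 3 * m) ∨
  (4 ≤ x ∧ x ≤ n - 3 ∧ 4 ≤ y - h x ∧ y - h x ≤ 3 * m + 1 ∧ (y - h x) % 3 = 1 ∧
    (h (x - 1) = h x + 1 ∨ h (x + 1) = h x + 1)) ∨
  (x = n - 1 ∧ 4 ≤ y - h x ∧ y - h x ≤ 3 * m - 4 ∧ ((y - h x) % 6 = 4 ∨ (y - h x) % 6 = 5)) ∨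
  (x = 2 ∧ 7 ≤ y - h x ∧ y - h x ≤ 3 * m - 1 ∧ ((y - h x) % 6 = 1 ∨ (y - h x) % 6 = 2))

/-- the time of an open cell -/
def T2 (n W : ℤ) (h a : ℤ → ℤ) (x y : ℤ) : ℤ :=
  if (y - h x) % 3 = 0 then s2 W ((y - h x) / 3) + P2 W ((y - h x) / 3) (a x)
  else if (y - h x) % 3 = 1 then
    (if x = n - 1 ∨ x = 2 then s2 W ((y - h x) / 3) + W + 1
     else if h (x + 1) = h x + 1 then s2 W ((y - h x) / 3) + P2 W ((y - h x) / 3) (a x + 1)
     else s2 W ((y - h x) / 3) + P2 W ((y - h x) / 3) (a x - 1))
  else s2 W ((y - h x) / 3) + W + 2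

section

variable {n H m W : ℤ} {h a : ℤ → ℤ}

lemma T2_line {x y i : ℤ} (hy : y - h x = 3 * i) :
    T2 n W h a x y = s2 W i + P2 W i (a x) := by
  unfold T2
  have e1 : (y - h x) / 3 = i := by omega
  rw [if_pos (by omega), e1]

lemma T2_conn_r {x y i : ℤ} (hy : y - h x = 3 * i + 1) (h1 : x ≠ n - 1) (h2 : x ≠ 2)
    (h3 : h (x + 1) = h x + 1) :
    T2 n W h a x y = s2 W i + P2 W i (a x + 1) := by
  unfold T2
  have e1 : (y - h x) / 3 = i := by omega
  rw [if_neg (by omega), if_pos (by omega), if_neg (by tauto), if_pos h3, e1]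

lemma T2_conn_l {x y i : ℤ} (hy : y - h x = 3 * i + 1) (h1 : x ≠ n - 1) (h2 : x ≠ 2)
    (h3 : h (x + 1) ≠ h x + 1) :
    T2 n W h a x y = s2 W i + P2 W i (a x - 1) := by
  unfold T2
  have e1 : (y - h x) / 3 = i := by omega
  rw [if_neg (by omega), if_pos (by omega), if_neg (by tauto), if_neg h3, e1]

lemma T2_u1 {x y i : ℤ} (hy : y - h x = 3 * i + 1) (h1 : x = n - 1 ∨ x = 2) :
    T2 n W h a x y = s2 W i + W + 1 := by
  unfold T2
  have e1 : (y - h x) / 3 = i := by omega
  rw [if_neg (by omega), if_pos (by omega), if_pos h1, e1]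

lemma T2_u2 {x y i : ℤ} (hy : y - h x = 3 * i + 2) :
    T2 n W h a x y = s2 W i + W + 2 := by
  unfold T2
  have e1 : (y - h x) / 3 = i := by omega
  rw [if_neg (by omega), if_neg (by omega), e1]

lemma pos_flat (pf : Prof2 n H m W h a) {x : ℤ} (h1 : h (x + 1) = h x) :
    a (x + 1) = a x + 1 := by
  rw [pf.pos x, h1]; simp

lemma pos_step (pf : Prof2 n H m W h a) {x : ℤ} (h1 : h (x + 1) = h x + 1 ∨ h (x + 1) = h x - 1) :
    a (x + 1) = a x + 2 := by
  rw [pf.pos x]
  rcases h1 with h1 | h1
  · rw [h1, add_sub_cancel_left]; simp; ring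
  · rw [h1]
    have : h x - 1 - h x = -1 := by ring
    rw [this]; simp; ring

lemma step_range (pf : Prof2 n H m W h a) {x : ℤ} (hx1 : 1 ≤ x) (hx2 : x ≤ n - 1)
    (hs : h (x + 1) ≠ h x) : 4 ≤ x ∧ x ≤ n - 4 := by
  have l1 := pf.l1
  have l2 := pf.l2
  have l3 := pf.l3
  have r1 := pf.r1
  have r2 := pf.r2
  have r3 := pf.r3
  constructor
  · by_contra hc
    have : x = 1 ∨ x = 2 ∨ x = 3 := by omega
    rcases this with rfl | rfl | rfl <;> norm_num at hs <;> omega
  · by_contra hc
    have : x = n - 1 ∨ x = n - 2 ∨ x = n - 3 := by omega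
    rcases this with rfl | rfl | rfl
    · apply hs
      rw [sub_add_cancel]; exact r1
    · apply hs
      have : n - 2 + 1 = n - 1 := by ring
      rw [this]; exact r2.symm
    · apply hs
      have : n - 3 + 1 = n - 2 := by ring
      rw [this]; omega

/-- interior line cells -/
lemma good2_line (pf : Prof2 n H m W h a) {x y i : ℤ} (hx1 : 3 ≤ x) (hx2 : x ≤ n - 2)
    (hi1 : 1 ≤ i) (hi2 : i ≤ m) (hy : y - h x = 3 * i) :
    Good n (O2 n m h) (T2 n W h a) x y := by
  obtain ⟨e, he, hP⟩ := P2_sign W i
  have hPa := hP (a x)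
  have nn := pf.nn x
  have le := pf.le x
  have nnl := pf.nn (x - 1)
  have lel := pf.le (x - 1)
  have nnr := pf.nn (x + 1)
  have ler := pf.le (x + 1)
  have hn := pf.hn
  have Tv : T2 n W h a x y = s2 W i + P2 W i (a x) := T2_line hy
  have lipl := pf.lip (x - 1)
  rw [sub_add_cancel] at lipl
  -- general facts
  have srr := step_range pf (x := x) (by omega) (by omega)
  have srl := step_range pf (x := x - 1) (by omega) (by omega)
  rw [sub_add_cancel] at srl
  -- up neighbour closed if not higher
  have upc : ¬ (h (x - 1) = h x + 1 ∨ h (x + 1) = h x + 1) →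
      St n (O2 n m h) (T2 n W h a) 2 (T2 n W h a x y) x (y + 1) := by
    intro hh
    refine ⟨⟨by omega, by omega, by omega, by omega⟩, Or.inl ?_⟩
    unfold O2
    have : y + 1 - h x = 3 * i + 1 := by omega
    rw [this]
    rintro (h1 | h1 | h1 | h1 | h1)
    · omega
    · omega
    · tauto
    · omega
    · omega
  have dnc : St n (O2 n m h) (T2 n W h a) 2 (T2 n W h a x y) x (y - 1) := by
    refine ⟨⟨by omega, by omega, by omega, by omega⟩, Or.inl ?_⟩
    unfold O2
    have : y - 1 - h x = 3 * i - 1 := by omega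
    rw [this]
    rintro (h1 | h1 | h1 | h1 | h1) <;> omega
  rcases lipl with hl | hl | hl
  · -- h x = h (x-1)
    have posl := pf.pos (x - 1)
    rw [sub_add_cancel, hl] at posl
    simp only [sub_self, abs_zero, add_zero] at posl
    have lkl : Lk n (O2 n m h) (T2 n W h a) (T2 n W h a x y) (-e) (x - 1) y := by
      refine ⟨⟨by omega, by omega, by omega, by omega⟩, ?_, ?_⟩
      · left
        refine ⟨by omega, by omega, by omega, by omega, by omega⟩
      · rw [Tv, T2_line (i := i) (by omega)]
        have : a (x - 1) = a x - 1 := by omega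
        rw [this]; omega
    rcases pf.lip x with hr | hr | hr
    · -- flat both
      have lkr : Lk n (O2 n m h) (T2 n W h a) (T2 n W h a x y) e (x + 1) y := by
        refine ⟨⟨by omega, by omega, by omega, by omega⟩, ?_, ?_⟩
        · left
          refine ⟨by omega, by omega, by omega, by omega, by omega⟩
        · rw [Tv, T2_line (i := i) (by omega), pos_flat pf hr]
          omega
      exact good_RL he lkr lkl (upc (by omega)) dnc
    · -- step up on the right
      have lku : Lk n (O2 n m h) (T2 n W h a) (T2 n W h a x y) e x (y + 1) := by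
        refine ⟨⟨by omega, by omega, by omega, by omega⟩, ?_, ?_⟩
        · right; right; left
          refine ⟨by omega, by omega, by omega, by omega, by omega, by omega⟩
        · rw [Tv, T2_conn_r (i := i) (by omega) (by omega) (by omega) hr]
          omega
      have rc : St n (O2 n m h) (T2 n W h a) 2 (T2 n W h a x y) (x + 1) y := by
        refine ⟨⟨by omega, by omega, by omega, by omega⟩, Or.inl ?_⟩
        unfold O2
        have : y - h (x + 1) = 3 * i - 1 := by omega
        rw [this]
        rintro (h1 | h1 | h1 | h1 | h1) <;> omega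
      exact good_LU (e := -e) (by omega) lkl (by rw [neg_neg]; exact lku) rc dnc
    · -- step down on the right
      have lkr : Lk n (O2 n m h) (T2 n W h a) (T2 n W h a x y) e (x + 1) y := by
        refine ⟨⟨by omega, by omega, by omega, by omega⟩, ?_, ?_⟩
        · right; right; left
          refine ⟨by omega, by omega, by omega, by omega, by omega, ?_⟩
          left
          rw [add_sub_cancel_right]; omega
        · have hv := pf.up2 (x + 1)
          rw [add_sub_cancel_right] at hv
          rw [Tv, T2_conn_l (i := i) (by omega) (by omega) (by omega) (hv (by omega)),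
            pos_step pf (Or.inr hr)]
          have : a x + 2 - 1 = a x + 1 := by ring
          rw [this]
          omega
      exact good_RL he lkr lkl (upc (by omega)) dnc
  · -- h x = h (x-1) + 1 : the left neighbour is a connector
    have posl := pf.pos (x - 1)
    rw [sub_add_cancel, hl] at posl
    have e3 : |h (x - 1) + 1 - h (x - 1)| = 1 := by
      rw [add_sub_cancel_left]; rfl
    rw [e3] at posl
    have lkl : Lk n (O2 n m h) (T2 n W h a) (T2 n W h a x y) (-e) (x - 1) y := by
      refine ⟨⟨by omega, by omega, by omega, by omega⟩, ?_, ?_⟩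
      · right; right; left
        refine ⟨by omega, by omega, by omega, by omega, by omega, ?_⟩
        right
        rw [sub_add_cancel]; omega
      · rw [Tv, T2_conn_r (i := i) (by omega) (by omega) (by omega)
          (by rw [sub_add_cancel]; omega)]
        have : a (x - 1) + 1 = a x - 1 := by omega
        rw [this]; omega
    rcases pf.lip x with hr | hr | hr
    · have lkr : Lk n (O2 n m h) (T2 n W h a) (T2 n W h a x y) e (x + 1) y := by
        refine ⟨⟨by omega, by omega, by omega, by omega⟩, ?_, ?_⟩
        · left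
          refine ⟨by omega, by omega, by omega, by omega, by omega⟩
        · rw [Tv, T2_line (i := i) (by omega), pos_flat pf hr]
          omega
      exact good_RL he lkr lkl (upc (by omega)) dnc
    · have lku : Lk n (O2 n m h) (T2 n W h a) (T2 n W h a x y) e x (y + 1) := by
        refine ⟨⟨by omega, by omega, by omega, by omega⟩, ?_, ?_⟩
        · right; right; left
          refine ⟨by omega, by omega, by omega, by omega, by omega, by omega⟩
        · rw [Tv, T2_conn_r (i := i) (by omega) (by omega) (by omega) hr]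
          omega
      have rc : St n (O2 n m h) (T2 n W h a) 2 (T2 n W h a x y) (x + 1) y := by
        refine ⟨⟨by omega, by omega, by omega, by omega⟩, Or.inl ?_⟩
        unfold O2
        have : y - h (x + 1) = 3 * i - 1 := by omega
        rw [this]
        rintro (h1 | h1 | h1 | h1 | h1) <;> omega
      exact good_LU (e := -e) (by omega) lkl (by rw [neg_neg]; exact lku) rc dnc
    · have lkr : Lk n (O2 n m h) (T2 n W h a) (T2 n W h a x y) e (x + 1) y := by
        refine ⟨⟨by omega, by omega, by omega, by omega⟩, ?_, ?_⟩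
        · right; right; left
          refine ⟨by omega, by omega, by omega, by omega, by omega, ?_⟩
          left
          rw [add_sub_cancel_right]; omega
        · have hv := pf.up2 (x + 1)
          rw [add_sub_cancel_right] at hv
          rw [Tv, T2_conn_l (i := i) (by omega) (by omega) (by omega) (hv (by omega)),
            pos_step pf (Or.inr hr)]
          have : a x + 2 - 1 = a x + 1 := by ring
          rw [this]
          omega
      exact good_RL he lkr lkl (upc (by omega)) dnc
  · -- h x = h (x-1) - 1 : up is a connector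
    have posl := pf.pos (x - 1)
    rw [sub_add_cancel, hl] at posl
    have hr := pf.up2 x (by omega)
    have lku : Lk n (O2 n m h) (T2 n W h a) (T2 n W h a x y) (-e) x (y + 1) := by
      refine ⟨⟨by omega, by omega, by omega, by omega⟩, ?_, ?_⟩
      · right; right; left
        refine ⟨by omega, by omega, by omega, by omega, by omega, by omega⟩
      · rw [Tv, T2_conn_l (i := i) (by omega) (by omega) (by omega) hr]
        omega
    have lc : St n (O2 n m h) (T2 n W h a) 2 (T2 n W h a x y) (x - 1) y := by
      refine ⟨⟨by omega, by omega, by omega, by omega⟩, Or.inl ?_⟩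
      unfold O2
      have : y - h (x - 1) = 3 * i - 1 := by omega
      rw [this]
      rintro (h1 | h1 | h1 | h1 | h1) <;> omega
    rcases pf.lip x with hr | hr | hr
    · have lkr : Lk n (O2 n m h) (T2 n W h a) (T2 n W h a x y) e (x + 1) y := by
        refine ⟨⟨by omega, by omega, by omega, by omega⟩, ?_, ?_⟩
        · left
          refine ⟨by omega, by omega, by omega, by omega, by omega⟩
        · rw [Tv, T2_line (i := i) (by omega), pos_flat pf hr]
          omega
      exact good_RU he lkr lku lc dnc
    · omega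
    · have lkr : Lk n (O2 n m h) (T2 n W h a) (T2 n W h a x y) e (x + 1) y := by
        refine ⟨⟨by omega, by omega, by omega, by omega⟩, ?_, ?_⟩
        · right; right; left
          refine ⟨by omega, by omega, by omega, by omega, by omega, ?_⟩
          left
          rw [add_sub_cancel_right]; omega
        · have hv := pf.up2 (x + 1)
          rw [add_sub_cancel_right] at hv
          rw [Tv, T2_conn_l (i := i) (by omega) (by omega) (by omega) (hv (by omega)),
            pos_step pf (Or.inr hr)]
          have : a x + 2 - 1 = a x + 1 := by ring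
          rw [this]
          omega
      exact good_RU he lkr lku lc dnc

/-- connector cells -/
lemma good2_conn (pf : Prof2 n H m W h a) {x y i : ℤ} (hx1 : 4 ≤ x) (hx2 : x ≤ n - 3)
    (hi1 : 1 ≤ i) (hi2 : i ≤ m) (hy : y - h x = 3 * i + 1)
    (hs : h (x - 1) = h x + 1 ∨ h (x + 1) = h x + 1) :
    Good n (O2 n m h) (T2 n W h a) x y := by
  obtain ⟨e, he, hP⟩ := P2_sign W i
  have nn := pf.nn x
  have nnl := pf.nn (x - 1)
  have lel := pf.le (x - 1)
  have nnr := pf.nn (x + 1)
  have ler := pf.le (x + 1)
  have hn := pf.hn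
  have srr := step_range pf (x := x) (by omega) (by omega)
  have srl := step_range pf (x := x - 1) (by omega) (by omega)
  rw [sub_add_cancel] at srl
  have lipl := pf.lip (x - 1)
  rw [sub_add_cancel] at lipl
  have upc : St n (O2 n m h) (T2 n W h a) 2 (T2 n W h a x y) x (y + 1) := by
    refine ⟨⟨by omega, by omega, by omega, by omega⟩, Or.inl ?_⟩
    unfold O2
    have : y + 1 - h x = 3 * i + 2 := by omega
    rw [this]
    rintro (h1 | h1 | h1 | h1 | h1) <;> omega
  rcases hs with hs | hs
  · -- left neighbour column higher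
    have hr := pf.up2 x hs
    have hsl := srl (by omega)
    have Tv : T2 n W h a x y = s2 W i + P2 W i (a x - 1) :=
      T2_conn_l hy (by omega) (by omega) hr
    have posl := pos_step pf (x := x - 1) (by rw [sub_add_cancel]; omega)
    rw [sub_add_cancel] at posl
    have lkl : Lk n (O2 n m h) (T2 n W h a) (T2 n W h a x y) (-e) (x - 1) y := by
      refine ⟨⟨by omega, by omega, by omega, by omega⟩, ?_, ?_⟩
      · left
        refine ⟨by omega, by omega, by omega, by omega, by omega⟩
      · rw [Tv, T2_line (i := i) (by omega)]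
        have h1 := (hP (a x - 1)).2
        have : a (x - 1) = a x - 1 - 1 := by omega
        rw [this]; omega
    have lkd : Lk n (O2 n m h) (T2 n W h a) (T2 n W h a x y) e x (y - 1) := by
      refine ⟨⟨by omega, by omega, by omega, by omega⟩, ?_, ?_⟩
      · left
        refine ⟨by omega, by omega, by omega, by omega, by omega⟩
      · rw [Tv, T2_line (i := i) (by omega)]
        have h1 := (hP (a x)).2
        omega
    have rc : St n (O2 n m h) (T2 n W h a) 2 (T2 n W h a x y) (x + 1) y := by
      refine ⟨⟨by omega, by omega, by omega, by omega⟩, Or.inl ?_⟩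
      unfold O2
      rcases pf.lip x with hr | hr | hr
      · -- flat on the right
        have hv := pf.val x hs hr
        have : y - h (x + 1) = 3 * i + 1 := by omega
        rw [this]
        rintro (h1 | h1 | h1 | h1 | h1)
        · omega
        · omega
        · rw [add_sub_cancel_right] at h1
          omega
        · have := srr
          omega
        · omega
      · omega
      · have : y - h (x + 1) = 3 * i + 2 := by omega
        rw [this]
        rintro (h1 | h1 | h1 | h1 | h1) <;> omega
    exact good_LD (e := -e) (by omega) lkl (by rw [neg_neg]; exact lkd) rc upc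
  · have hl : h (x - 1) ≠ h x + 1 := fun hh => pf.up2 x hh hs
    have Tv : T2 n W h a x y = s2 W i + P2 W i (a x + 1) :=
      T2_conn_r hy (by omega) (by omega) hs
    have posr := pos_step pf (x := x) (Or.inl hs)
    have lkr : Lk n (O2 n m h) (T2 n W h a) (T2 n W h a x y) e (x + 1) y := by
      refine ⟨⟨by omega, by omega, by omega, by omega⟩, ?_, ?_⟩
      · left
        refine ⟨by omega, by omega, by omega, by omega, by omega⟩
      · rw [Tv, T2_line (i := i) (by omega)]
        have h1 := (hP (a x + 1)).1
        have : a (x + 1) = a x + 1 + 1 := by omega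
        rw [this]; omega
    have lkd : Lk n (O2 n m h) (T2 n W h a) (T2 n W h a x y) (-e) x (y - 1) := by
      refine ⟨⟨by omega, by omega, by omega, by omega⟩, ?_, ?_⟩
      · left
        refine ⟨by omega, by omega, by omega, by omega, by omega⟩
      · rw [Tv, T2_line (i := i) (by omega)]
        have h1 := (hP (a x)).1
        omega
    have lc : St n (O2 n m h) (T2 n W h a) 2 (T2 n W h a x y) (x - 1) y := by
      refine ⟨⟨by omega, by omega, by omega, by omega⟩, Or.inl ?_⟩
      unfold O2
      rcases lipl with hl2 | hl2 | hl2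
      · -- flat on the left
        have hv := pf.val (x - 1)
        rw [sub_add_cancel] at hv
        have : y - h (x - 1) = 3 * i + 1 := by omega
        rw [this]
        rintro (h1 | h1 | h1 | h1 | h1)
        · omega
        · omega
        · rw [sub_add_cancel] at h1
          have := hv
          omega
        · omega
        · omega
      · have : y - h (x - 1) = 3 * i + 2 := by omega
        rw [this]
        rintro (h1 | h1 | h1 | h1 | h1) <;> omega
      · omega
    exact good_RD (e := e) (by omega) lkr lkd lc upc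

/-- line cells in column `2`, not the first one -/
lemma good2_left (pf : Prof2 n H m W h a) {y i : ℤ}
    (hi1 : 2 ≤ i) (hi2 : i ≤ m) (hy : y - h 2 = 3 * i) :
    Good n (O2 n m h) (T2 n W h a) 2 y := by
  have nn := pf.nn 2
  have le := pf.le 2
  have hn := pf.hn
  have hm := pf.hm
  have n10 := pf.n10
  have l1 := pf.l1
  have l2 := pf.l2
  have l3 := pf.l3
  have a2 := pf.a2
  have a3 : a 3 = 1 := by
    have := pos_flat pf (x := 2) (by norm_num; exact l2)
    norm_num at this
    omega
  have Tv : T2 n W h a 2 y = s2 W i + P2 W i (a 2) := T2_line hy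
  rw [a2] at Tv
  have lc : St n (O2 n m h) (T2 n W h a) 2 (T2 n W h a 2 y) (2 - 1) y := by
    refine ⟨⟨by omega, by omega, by omega, by omega⟩, Or.inl ?_⟩
    unfold O2
    rintro (h1 | h1 | h1 | h1 | h1) <;> omega
  have Tr : T2 n W h a (2 + 1) y = s2 W i + P2 W i (a 3) :=
    T2_line (by norm_num; omega)
  rw [a3] at Tr
  have Or' : O2 n m h (2 + 1) y := by
    left
    norm_num
    refine ⟨by omega, by omega, by omega, by omega⟩
  rcases Int.emod_two_eq_zero_or_one i with hi | hi
  · -- even
    rw [P2_even hi] at Tv Tr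
    refine good_RU (e := -1) (by omega) ?_ ?_ lc ?_
    · exact ⟨⟨by omega, by omega, by omega, by omega⟩, Or', by omega⟩
    · refine ⟨⟨by omega, by omega, by omega, by omega⟩, ?_, ?_⟩
      · right; right; right; right
        refine ⟨by omega, by omega, by omega, by omega⟩
      · rw [T2_u1 (i := i) (by omega) (by right; rfl)]
        omega
    · refine ⟨⟨by omega, by omega, by omega, by omega⟩, Or.inl ?_⟩
      unfold O2
      have : y - 1 - h 2 = 3 * i - 1 := by omega
      rw [this]
      rintro (h1 | h1 | h1 | h1 | h1) <;> omega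
  · rw [P2_odd hi] at Tv Tr
    refine good_RD (e := 1) (by omega) ?_ ?_ lc ?_
    · exact ⟨⟨by omega, by omega, by omega, by omega⟩, Or', by omega⟩
    · refine ⟨⟨by omega, by omega, by omega, by omega⟩, ?_, ?_⟩
      · right; right; right; right
        refine ⟨by omega, by omega, by omega, by omega⟩
      · rw [T2_u2 (i := i - 1) (by omega), s2_pred]
        omega
    · refine ⟨⟨by omega, by omega, by omega, by omega⟩, Or.inl ?_⟩
      unfold O2
      have : y + 1 - h 2 = 3 * i + 1 := by omega
      rw [this]
      rintro (h1 | h1 | h1 | h1 | h1) <;> omega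

/-- line cells in column `n - 1` -/
lemma good2_right (pf : Prof2 n H m W h a) {x y i : ℤ} (hx : x = n - 1)
    (hi1 : 1 ≤ i) (hi2 : i ≤ m) (hy : y - h x = 3 * i) :
    Good n (O2 n m h) (T2 n W h a) x y := by
  have nn := pf.nn x
  have le := pf.le x
  have hn := pf.hn
  have hm := pf.hm
  have n10 := pf.n10
  have r1 : h (x + 1) = h x := by
    rw [hx, sub_add_cancel]; exact pf.r1
  have r2 : h (x - 1) = h x := by
    rw [hx]
    have : n - 1 - 1 = n - 2 := by ring
    rw [this]; exact pf.r2
  have aW : a x = W := by rw [hx]; exact pf.aW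
  have al : a (x - 1) = W - 1 := by
    have := pos_flat pf (x := x - 1) (by rw [sub_add_cancel]; exact r2.symm)
    rw [sub_add_cancel] at this
    omega
  have ar : a (x + 1) = W + 1 := by
    have := pos_flat pf (x := x) r1
    omega
  have Tv : T2 n W h a x y = s2 W i + P2 W i (a x) := T2_line hy
  rw [aW] at Tv
  have Tl : T2 n W h a (x - 1) y = s2 W i + P2 W i (a (x - 1)) :=
    T2_line (by omega)
  rw [al] at Tl
  have Ol' : O2 n m h (x - 1) y := by
    left
    refine ⟨by omega, by omega, by omega, by omega, by omega⟩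
  have rc : i < m → St n (O2 n m h) (T2 n W h a) 2 (T2 n W h a x y) (x + 1) y := by
    intro him
    refine ⟨⟨by omega, by omega, by omega, by omega⟩, Or.inl ?_⟩
    unfold O2
    rintro (h1 | h1 | h1 | h1 | h1) <;> omega
  rcases Int.emod_two_eq_zero_or_one i with hi | hi
  · -- even
    rw [P2_even hi] at Tv Tl
    refine good_LD (e := 1) (by omega) ?_ ?_ (rc (by omega)) ?_
    · exact ⟨⟨by omega, by omega, by omega, by omega⟩, Ol', by omega⟩
    · refine ⟨⟨by omega, by omega, by omega, by omega⟩, ?_, ?_⟩
      · right; right; right; left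
        refine ⟨by omega, by omega, by omega, by omega⟩
      · rw [T2_u2 (i := i - 1) (by omega), s2_pred]
        omega
    · refine ⟨⟨by omega, by omega, by omega, by omega⟩, Or.inl ?_⟩
      unfold O2
      have : y + 1 - h x = 3 * i + 1 := by omega
      rw [this]
      rintro (h1 | h1 | h1 | h1 | h1) <;> omega
  · rw [P2_odd hi] at Tv Tl
    rcases lt_or_eq_of_le hi2 with him | him
    · refine good_LU (e := -1) (by omega) ?_ ?_ (rc him) ?_
      · exact ⟨⟨by omega, by omega, by omega, by omega⟩, Ol', by omega⟩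
      · refine ⟨⟨by omega, by omega, by omega, by omega⟩, ?_, ?_⟩
        · right; right; right; left
          refine ⟨by omega, by omega, by omega, by omega⟩
        · rw [T2_u1 (i := i) (by omega) (by left; exact hx)]
          omega
      · refine ⟨⟨by omega, by omega, by omega, by omega⟩, Or.inl ?_⟩
        unfold O2
        have : y - 1 - h x = 3 * i - 1 := by omega
        rw [this]
        rintro (h1 | h1 | h1 | h1 | h1) <;> omega
    · refine good_RL (e := 1) (by omega) ?_ ?_ ?_ ?_
      · refine ⟨⟨by omega, by omega, by omega, by omega⟩, ?_, ?_⟩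
        · right; left
          exact ⟨by omega, by omega⟩
        · rw [T2_line (i := i) (by omega), ar, P2_odd hi]
          omega
      · exact ⟨⟨by omega, by omega, by omega, by omega⟩, Ol', by omega⟩
      · refine ⟨⟨by omega, by omega, by omega, by omega⟩, Or.inl ?_⟩
        unfold O2
        have : y + 1 - h x = 3 * i + 1 := by omega
        rw [this]
        rintro (h1 | h1 | h1 | h1 | h1) <;> omega
      · refine ⟨⟨by omega, by omega, by omega, by omega⟩, Or.inl ?_⟩
        unfold O2
        have : y - 1 - h x = 3 * i - 1 := by omega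
        rw [this]
        rintro (h1 | h1 | h1 | h1 | h1) <;> omega

/-- turning cells in column `n - 1` -/
lemma good2_turn_right (pf : Prof2 n H m W h a) {x y : ℤ} (hx : x = n - 1)
    (h4 : 4 ≤ y - h x) (h5 : y - h x ≤ 3 * m - 4)
    (h6 : (y - h x) % 6 = 4 ∨ (y - h x) % 6 = 5) :
    Good n (O2 n m h) (T2 n W h a) x y := by
  have nn := pf.nn x
  have le := pf.le x
  have hn := pf.hn
  have hm := pf.hm
  have n10 := pf.n10
  have r1 : h (x + 1) = h x := by
    rw [hx, sub_add_cancel]; exact pf.r1
  have r2 : h (x - 1) = h x := by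
    rw [hx]
    have : n - 1 - 1 = n - 2 := by ring
    rw [this]; exact pf.r2
  have aW : a x = W := by rw [hx]; exact pf.aW
  have rc : St n (O2 n m h) (T2 n W h a) 2 (T2 n W h a x y) (x + 1) y := by
    refine ⟨⟨by omega, by omega, by omega, by omega⟩, Or.inl ?_⟩
    unfold O2
    rintro (h1 | h1 | h1 | h1 | h1) <;> omega
  have lc : St n (O2 n m h) (T2 n W h a) 2 (T2 n W h a x y) (x - 1) y := by
    refine ⟨⟨by omega, by omega, by omega, by omega⟩, Or.inl ?_⟩
    unfold O2
    rintro (h1 | h1 | h1 | h1 | h1) <;> omega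
  obtain ⟨i, hi⟩ : ∃ i, i = (y - h x) / 3 := ⟨_, rfl⟩
  have hi2 : i % 2 = 1 := by omega
  rcases h6 with h6 | h6
  · have hy : y - h x = 3 * i + 1 := by omega
    have Tv : T2 n W h a x y = s2 W i + W + 1 := T2_u1 hy (Or.inl hx)
    refine good_UD (e := 1) (by omega) ?_ ?_ rc lc
    · refine ⟨⟨by omega, by omega, by omega, by omega⟩, ?_, ?_⟩
      · right; right; right; left
        refine ⟨by omega, by omega, by omega, by omega⟩
      · rw [T2_u2 (i := i) (by omega)]
        omega
    · refine ⟨⟨by omega, by omega, by omega, by omega⟩, ?_, ?_⟩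
      · left
        refine ⟨by omega, by omega, by omega, by omega, by omega⟩
      · rw [T2_line (i := i) (by omega), P2_odd hi2]
        omega
  · have hy : y - h x = 3 * i + 2 := by omega
    have Tv : T2 n W h a x y = s2 W i + W + 2 := T2_u2 hy
    refine good_UD (e := 1) (by omega) ?_ ?_ rc lc
    · refine ⟨⟨by omega, by omega, by omega, by omega⟩, ?_, ?_⟩
      · left
        refine ⟨by omega, by omega, by omega, by omega, by omega⟩
      · rw [T2_line (i := i + 1) (by omega), P2_even (by omega), s2_succ]
        omega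
    · refine ⟨⟨by omega, by omega, by omega, by omega⟩, ?_, ?_⟩
      · right; right; right; left
        refine ⟨by omega, by omega, by omega, by omega⟩
      · rw [T2_u1 (i := i) (by omega) (Or.inl hx)]
        omega

/-- turning cells in column `2` -/
lemma good2_turn_left (pf : Prof2 n H m W h a) {y : ℤ}
    (h4 : 7 ≤ y - h 2) (h5 : y - h 2 ≤ 3 * m - 1)
    (h6 : (y - h 2) % 6 = 1 ∨ (y - h 2) % 6 = 2) :
    Good n (O2 n m h) (T2 n W h a) 2 y := by
  have nn := pf.nn 2
  have le := pf.le 2
  have hn := pf.hn
  have hm := pf.hm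
  have n10 := pf.n10
  have l1 := pf.l1
  have l2 := pf.l2
  have l3 := pf.l3
  have a2 := pf.a2
  have rc : St n (O2 n m h) (T2 n W h a) 2 (T2 n W h a 2 y) (2 + 1) y := by
    refine ⟨⟨by omega, by omega, by omega, by omega⟩, Or.inl ?_⟩
    unfold O2
    norm_num
    rw [l2]
    omega
  have lc : St n (O2 n m h) (T2 n W h a) 2 (T2 n W h a 2 y) (2 - 1) y := by
    refine ⟨⟨by omega, by omega, by omega, by omega⟩, Or.inl ?_⟩
    unfold O2
    rintro (h1 | h1 | h1 | h1 | h1) <;> omega
  obtain ⟨i, hi⟩ : ∃ i, i = (y - h 2) / 3 := ⟨_, rfl⟩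
  have hi2 : i % 2 = 0 := by omega
  rcases h6 with h6 | h6
  · have hy : y - h 2 = 3 * i + 1 := by omega
    have Tv : T2 n W h a 2 y = s2 W i + W + 1 := T2_u1 hy (Or.inr rfl)
    refine good_UD (e := 1) (by omega) ?_ ?_ rc lc
    · refine ⟨⟨by omega, by omega, by omega, by omega⟩, ?_, ?_⟩
      · right; right; right; right
        refine ⟨by omega, by omega, by omega, by omega⟩
      · rw [T2_u2 (i := i) (by omega)]
        omega
    · refine ⟨⟨by omega, by omega, by omega, by omega⟩, ?_, ?_⟩
      · left
        refine ⟨by omega, by omega, by omega, by omega, by omega⟩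
      · rw [T2_line (i := i) (by omega), P2_even hi2]
        omega
  · have hy : y - h 2 = 3 * i + 2 := by omega
    have Tv : T2 n W h a 2 y = s2 W i + W + 2 := T2_u2 hy
    refine good_UD (e := 1) (by omega) ?_ ?_ rc lc
    · refine ⟨⟨by omega, by omega, by omega, by omega⟩, ?_, ?_⟩
      · left
        refine ⟨by omega, by omega, by omega, by omega, by omega⟩
      · rw [T2_line (i := i + 1) (by omega), P2_odd (by omega), s2_succ]
        omega
    · refine ⟨⟨by omega, by omega, by omega, by omega⟩, ?_, ?_⟩
      · right; right; right; right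
        refine ⟨by omega, by omega, by omega, by omega⟩
      · rw [T2_u1 (i := i) (by omega) (Or.inr rfl)]
        omega

/-- the local conditions hold at each open cell -/
lemma local2 (pf : Prof2 n H m W h a) {x y : ℤ} (hO : O2 n m h x y) :
    (2 ≤ T2 n W h a x y → S4 n (O2 n m h) (T2 n W h a) 2 x y ≤ 2) ∧
      3 ≤ S4 n (O2 n m h) (T2 n W h a) 1 x y := by
  have good : Good n (O2 n m h) (T2 n W h a) x y →
      (2 ≤ T2 n W h a x y → S4 n (O2 n m h) (T2 n W h a) 2 x y ≤ 2) ∧
      3 ≤ S4 n (O2 n m h) (T2 n W h a) 1 x y := fun hg => ⟨fun _ => hg.1, hg.2⟩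
  rcases hO with hO | hO | hO | hO | hO
  · obtain ⟨h1, h2, h3, h4, h5⟩ := hO
    obtain ⟨i, hi⟩ : ∃ i, i = (y - h x) / 3 := ⟨_, rfl⟩
    have hy : y - h x = 3 * i := by omega
    by_cases c1 : x = 2
    · subst c1
      by_cases c2 : 2 ≤ i
      · exact good (good2_left pf c2 (by omega) hy)
      · -- the first cell
        have hi1 : i = 1 := by omega
        subst hi1
        have nn := pf.nn 2
        have le := pf.le 2
        have hn := pf.hn
        have n10 := pf.n10
        have m1 := pf.m1
        have Tv : T2 n W h a 2 y = 1 := by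
          rw [T2_line hy, pf.a2, P2_odd (by norm_num)]
          unfold s2; ring
        refine ⟨fun hc => by omega, ?_⟩
        have e1 : ind (St n (O2 n m h) (T2 n W h a) 1 (T2 n W h a 2 y) (2 - 1) y) = 1 := by
          apply ind_true
          refine ⟨⟨by omega, by omega, by omega, by omega⟩, Or.inl ?_⟩
          unfold O2
          rintro (h1 | h1 | h1 | h1 | h1) <;> omega
        have e2 : ind (St n (O2 n m h) (T2 n W h a) 1 (T2 n W h a 2 y) 2 (y + 1)) = 1 := by
          apply ind_true
          refine ⟨⟨by omega, by omega, by omega, by omega⟩, Or.inl ?_⟩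
          unfold O2
          rintro (h1 | h1 | h1 | h1 | h1) <;> omega
        have e3 : ind (St n (O2 n m h) (T2 n W h a) 1 (T2 n W h a 2 y) 2 (y - 1)) = 1 := by
          apply ind_true
          refine ⟨⟨by omega, by omega, by omega, by omega⟩, Or.inl ?_⟩
          unfold O2
          rintro (h1 | h1 | h1 | h1 | h1) <;> omega
        have e4 := ind_nonneg (St n (O2 n m h) (T2 n W h a) 1 (T2 n W h a 2 y) (2 + 1) y)
        unfold S4
        omega
    · by_cases c2 : x = n - 1
      · exact good (good2_right pf c2 (by omega) (by omega) hy)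
      · exact good (good2_line pf (by omega) (by omega) (by omega) (by omega) hy)
  · -- the last cell
    obtain ⟨h1, h2⟩ := hO
    have nn := pf.nn x
    have le := pf.le x
    have hn := pf.hn
    have n10 := pf.n10
    have m1 := pf.m1
    have hm := pf.hm
    have r1 : h (x - 1) = h x := by rw [h1]; exact pf.r1.symm
    have ax : a x = W + 1 := by
      have := pos_flat pf (x := n - 1) (by rw [sub_add_cancel]; exact pf.r1)
      rw [sub_add_cancel, pf.aW] at this
      rw [h1]; exact this
    have al : a (x - 1) = W := by rw [h1]; exact pf.aW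
    have Tv : T2 n W h a x y = s2 W m + (W + 1) := by
      rw [T2_line h2, P2_odd hm, ax]
    have Tl : T2 n W h a (x - 1) y = s2 W m + W := by
      rw [T2_line (i := m) (by omega), P2_odd hm, al]
    have Ol : O2 n m h (x - 1) y := by
      left
      refine ⟨by omega, by omega, by omega, by omega, by omega⟩
    have e1 : ind (St n (O2 n m h) (T2 n W h a) 1 (T2 n W h a x y) (x - 1) y) = 1 := by
      apply ind_true
      exact ⟨⟨by omega, by omega, by omega, by omega⟩, Or.inr (by omega)⟩
    have e1' : ind (St n (O2 n m h) (T2 n W h a) 2 (T2 n W h a x y) (x - 1) y) = 0 := by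
      apply ind_false
      rintro ⟨-, h3 | h3⟩
      · exact h3 Ol
      · omega
    have e2 : ind (St n (O2 n m h) (T2 n W h a) 1 (T2 n W h a x y) x (y + 1)) = 1 := by
      apply ind_true
      refine ⟨⟨by omega, by omega, by omega, by omega⟩, Or.inl ?_⟩
      unfold O2
      rintro (h1 | h1 | h1 | h1 | h1) <;> omega
    have e3 : ind (St n (O2 n m h) (T2 n W h a) 1 (T2 n W h a x y) x (y - 1)) = 1 := by
      apply ind_true
      refine ⟨⟨by omega, by omega, by omega, by omega⟩, Or.inl ?_⟩
      unfold O2
      rintro (h1 | h1 | h1 | h1 | h1) <;> omega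
    have e4 : ∀ k, ind (St n (O2 n m h) (T2 n W h a) k (T2 n W h a x y) (x + 1) y) = 0 := by
      intro k
      apply ind_false
      rintro ⟨⟨h3, h4, h5, h6⟩, -⟩
      omega
    have e41 := e4 1
    have e42 := e4 2
    have e5 := ind_le_one (St n (O2 n m h) (T2 n W h a) 2 (T2 n W h a x y) x (y + 1))
    have e6 := ind_le_one (St n (O2 n m h) (T2 n W h a) 2 (T2 n W h a x y) x (y - 1))
    refine ⟨fun _ => ?_, ?_⟩ <;> unfold S4 <;> omega
  · obtain ⟨h1, h2, h3, h4, h5, h6⟩ := hO
    obtain ⟨i, hi⟩ : ∃ i, i = (y - h x) / 3 := ⟨_, rfl⟩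
    exact good (good2_conn pf h1 h2 (i := i) (by omega) (by omega) (by omega) h6)
  · obtain ⟨h1, h2, h3, h4⟩ := hO
    exact good (good2_turn_right pf h1 h2 h3 h4)
  · obtain ⟨h1, h2, h3, h4⟩ := hO
    subst h1
    exact good (good2_turn_left pf h2 h3 h4)

/-- The lower bound given by a profile: `M([n]^2, 3) ≥ m (W + 3) - 1`. -/
theorem lower2 {n : ℕ} {H m W : ℤ} {h a : ℤ → ℤ} (pf : Prof2 n H m W h a) :
    m * (W + 3) - 1 ≤ (maxPercTime (grid 2 n) 3 : ℤ) := by
  have nn := pf.nn n
  have le := pf.le n
  have hn := pf.hn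
  have n10 := pf.n10
  have m1 := pf.m1
  have hm := pf.hm
  have ax : a n = W + 1 := by
    have := pos_flat pf (x := (n : ℤ) - 1) (by rw [sub_add_cancel]; exact pf.r1)
    rw [sub_add_cancel, pf.aW] at this
    exact this
  have main := cert2 n (O2 n m h) (T2 n W h a) (fun x y _ hO => local2 pf hO)
    (x₀ := n) (y₀ := h n + 3 * m) ⟨by omega, le_refl _, by omega, by omega⟩
    (by right; left; exact ⟨rfl, by ring⟩)
  rw [T2_line (i := m) (by ring), P2_odd hm, ax] at main
  refine le_trans (le_of_eq ?_) main
  unfold s2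
  ring

end

end Pool.Agent.Lib.MP_1a3405_co
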