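import Mathlib

/-!
A bounded wave with slopes `±1` and flat tops and bottoms, and the position function of a
height profile.
-/

namespace Pool.Agent.Lib.MP_1a3405_co

/-- one period of the wave (period `2 * (H + 3)`) -/
def wv (H u : ℤ) : ℤ := max 0 (min H (max (u - (H + 3)) (H + 3 - u) - 1))

/-- the wave: `H` for `j ≤ 0`, then `k` periods and a half, then `0`. -/
def gw (H k j : ℤ) : ℤ :=
  if j ≤ 0 then H else if j < 2 * (H + 3) * k + (H + 3) then wv H (j % (2 * (H + 3))) else 0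

section

variable {H k : ℤ}

lemma mod_succ {H : ℤ} (hH : 0 ≤ H) (j : ℤ) :
    (j % (2 * (H + 3)) + 1 = 2 * (H + 3) ∧ (j + 1) % (2 * (H + 3)) = 0) ∨
    (j % (2 * (H + 3)) + 1 < 2 * (H + 3) ∧
      (j + 1) % (2 * (H + 3)) = j % (2 * (H + 3)) + 1) := by
  have hP : 0 < 2 * (H + 3) := by omega
  have h1 := Int.emod_nonneg j (ne_of_gt hP)
  have h2 := Int.emod_lt_of_pos j hP
  rcases eq_or_lt_of_le (show j % (2 * (H + 3)) + 1 ≤ 2 * (H + 3) by omega) with h | h
  · left
    refine ⟨h, ?_⟩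
    rw [Int.add_emod]
    have : (1 : ℤ) % (2 * (H + 3)) = 1 := Int.emod_eq_of_lt (by omega) (by omega)
    rw [this, h, Int.emod_self]
  · right
    refine ⟨h, ?_⟩
    rw [Int.add_emod]
    have : (1 : ℤ) % (2 * (H + 3)) = 1 := Int.emod_eq_of_lt (by omega) (by omega)
    rw [this]
    exact Int.emod_eq_of_lt (by omega) h

lemma mod_nonneg {H : ℤ} (hH : 0 ≤ H) (j : ℤ) : 0 ≤ j % (2 * (H + 3)) :=
  Int.emod_nonneg j (by omega)

lemma mod_lt {H : ℤ} (hH : 0 ≤ H) (j : ℤ) : j % (2 * (H + 3)) < 2 * (H + 3) :=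
  Int.emod_lt_of_pos j (by omega)

lemma gw_nonneg (hH : 0 ≤ H) (j : ℤ) : 0 ≤ gw H k j := by
  unfold gw wv
  split_ifs <;> omega

lemma gw_le (hH : 0 ≤ H) (j : ℤ) : gw H k j ≤ H := by
  unfold gw wv
  split_ifs <;> omega

lemma mod_zero {H : ℤ} : (0 : ℤ) % (2 * (H + 3)) = 0 := by simp

/-- residue at the last position of the wave -/
lemma mod_end (hH : 0 ≤ H) : (2 * (H + 3) * k + (H + 3)) % (2 * (H + 3)) = H + 3 := by
  rw [Int.add_comm, Int.add_mul_emod_self_left]
  exact Int.emod_eq_of_lt (by omega) (by omega)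

lemma gw_of_pos {j : ℤ} (h1 : 0 < j) (h2 : j < 2 * (H + 3) * k + (H + 3)) :
    gw H k j = wv H (j % (2 * (H + 3))) := by
  unfold gw
  rw [if_neg (by omega), if_pos h2]

/-- the wave formula is also valid at the two ends of the wave region -/
lemma gw_eq (hH : 0 ≤ H) {j : ℤ} (h1 : 0 ≤ j) (h2 : j ≤ 2 * (H + 3) * k + (H + 3)) :
    gw H k j = wv H (j % (2 * (H + 3))) := by
  rcases eq_or_lt_of_le h1 with h | h
  · rw [← h, mod_zero]
    unfold gw wv
    rw [if_pos (le_refl _)]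
    omega
  · rcases eq_or_lt_of_le h2 with h' | h'
    · rw [h', mod_end hH]
      unfold gw wv
      rw [if_neg (by omega), if_neg (by omega)]
      omega
    · exact gw_of_pos h h'

lemma gw_left {j : ℤ} (h1 : j ≤ 0) : gw H k j = H := by
  unfold gw; rw [if_pos h1]

lemma gw_right (hH : 0 ≤ H) (hk : 0 ≤ k) {j : ℤ} (h1 : 2 * (H + 3) * k + (H + 3) ≤ j) :
    gw H k j = 0 := by
  have : 0 ≤ 2 * (H + 3) * k := by positivity
  unfold gw; rw [if_neg (by omega), if_neg (by omega)]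

/-- the values near the left end -/
lemma gw_one (hH : 0 ≤ H) (hk : 0 ≤ k) : gw H k 1 = H := by
  have : 0 ≤ 2 * (H + 3) * k := by positivity
  rw [gw_eq hH (by omega) (by omega)]
  rw [Int.emod_eq_of_lt (by omega) (by omega)]
  unfold wv
  omega

lemma gw_two (hH : 0 ≤ H) (hk : 0 ≤ k) : gw H k 2 = H := by
  have : 0 ≤ 2 * (H + 3) * k := by positivity
  rw [gw_eq hH (by omega) (by omega)]
  rw [Int.emod_eq_of_lt (by omega) (by omega)]
  unfold wv
  omega

lemma gw_end_pred (hH : 0 ≤ H) (hk : 0 ≤ k) : gw H k (2 * (H + 3) * k + (H + 3) - 1) = 0 := by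
  have : 0 ≤ 2 * (H + 3) * k := by positivity
  rw [gw_eq hH (by omega) (by omega)]
  have h1 := mod_succ hH (2 * (H + 3) * k + (H + 3) - 1)
  rw [sub_add_cancel, mod_end hH] at h1
  unfold wv
  omega

lemma gw_lip (hH : 0 ≤ H) (hk : 0 ≤ k) (j : ℤ) :
    gw H k (j + 1) = gw H k j ∨ gw H k (j + 1) = gw H k j + 1 ∨
      gw H k (j + 1) = gw H k j - 1 := by
  have hp : 0 ≤ 2 * (H + 3) * k := by positivity
  by_cases c1 : j + 1 ≤ 0
  · rw [gw_left c1, gw_left (by omega)]; left; rfl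
  by_cases c2 : 2 * (H + 3) * k + (H + 3) ≤ j
  · rw [gw_right hH hk c2, gw_right hH hk (by omega)]; left; rfl
  rw [gw_eq hH (show 0 ≤ j by omega) (by omega), gw_eq hH (show 0 ≤ j + 1 by omega) (by omega)]
  have h1 := mod_succ hH j
  have h2 := mod_nonneg hH j
  have h3 := mod_lt hH j
  unfold wv
  omega

/-- bottoms have length at least three, in a form covering the different shapes -/
lemma gw_val (hH : 0 ≤ H) (hk : 0 ≤ k) (j : ℤ) (h : gw H k (j - 1) = gw H k j + 1) :
    gw H k (j + 1) ≠ gw H k j + 1 ∧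
      (gw H k (j + 1) = gw H k j → gw H k (j + 1 + 1) ≠ gw H k j + 1) := by
  have hp : 0 ≤ 2 * (H + 3) * k := by positivity
  have c1 : 0 < j := by
    by_contra hc
    rw [gw_left (by omega), gw_left (by omega)] at h
    omega
  have c2 : j < 2 * (H + 3) * k + (H + 3) := by
    by_contra hc
    rcases eq_or_lt_of_le (show 2 * (H + 3) * k + (H + 3) ≤ j by omega) with h' | h'
    · rw [← h', gw_end_pred hH hk, gw_right hH hk (le_refl _)] at h
      omega
    · rw [gw_right hH hk (by omega), gw_right hH hk (by omega)] at h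
      omega
  rw [gw_eq hH (show 0 ≤ j - 1 by omega) (by omega),
    gw_eq hH (show 0 ≤ j by omega) (by omega)] at h
  have h1 := mod_succ hH (j - 1)
  rw [sub_add_cancel] at h1
  have h2 := mod_succ hH j
  have h3 := mod_succ hH (j + 1)
  have n1 := mod_nonneg hH (j - 1)
  have n2 := mod_lt hH (j - 1)
  have n3 := mod_nonneg hH j
  have n4 := mod_lt hH j
  rw [gw_eq hH (show 0 ≤ j by omega) (by omega), gw_eq hH (show 0 ≤ j + 1 by omega) (by omega)]
  constructor
  · unfold wv at *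
    omega
  · intro h4
    rcases lt_or_eq_of_le (show j + 1 ≤ 2 * (H + 3) * k + (H + 3) by omega) with c3 | c3
    · rw [gw_eq hH (show 0 ≤ j + 1 + 1 by omega) (by omega)]
      unfold wv at *
      omega
    · rw [gw_right hH hk (show 2 * (H + 3) * k + (H + 3) ≤ j + 1 + 1 by omega)]
      unfold wv at *
      omega

/-- no top of length one -/
lemma gw_top (hH : 0 ≤ H) (hk : 0 ≤ k) (j : ℤ) (h : gw H k (j - 1) = gw H k j - 1) :
    gw H k (j + 1) ≠ gw H k j - 1 := by
  have hp : 0 ≤ 2 * (H + 3) * k := by positivity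
  have c1 : 0 < j := by
    by_contra hc
    rw [gw_left (by omega), gw_left (by omega)] at h
    omega
  have c2 : j < 2 * (H + 3) * k + (H + 3) := by
    by_contra hc
    rcases eq_or_lt_of_le (show 2 * (H + 3) * k + (H + 3) ≤ j by omega) with h' | h'
    · rw [← h', gw_end_pred hH hk, gw_right hH hk (le_refl _)] at h
      omega
    · rw [gw_right hH hk (by omega), gw_right hH hk (by omega)] at h
      omega
  rw [gw_eq hH (show 0 ≤ j - 1 by omega) (by omega),
    gw_eq hH (show 0 ≤ j by omega) (by omega)] at h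
  have h1 := mod_succ hH (j - 1)
  rw [sub_add_cancel] at h1
  have h2 := mod_succ hH j
  have n1 := mod_nonneg hH (j - 1)
  have n2 := mod_lt hH (j - 1)
  have n3 := mod_nonneg hH j
  have n4 := mod_lt hH j
  rw [gw_eq hH (show 0 ≤ j by omega) (by omega), gw_eq hH (show 0 ≤ j + 1 by omega) (by omega)]
  unfold wv at *
  omega

lemma gw_at_top (hH : 0 ≤ H) {i : ℤ} (h1 : 0 ≤ i) (h2 : i ≤ k) :
    gw H k (2 * (H + 3) * i) = H := by
  have hp : 0 ≤ 2 * (H + 3) * i := by positivity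
  have hq : 2 * (H + 3) * i ≤ 2 * (H + 3) * k := by
    apply mul_le_mul_of_nonneg_left h2; omega
  rw [gw_eq hH (by omega) (by omega), Int.mul_emod_right]
  unfold wv
  omega

lemma gw_at_bot (hH : 0 ≤ H) {i : ℤ} (h1 : 0 ≤ i) (h2 : i ≤ k) :
    gw H k (2 * (H + 3) * i + (H + 3)) = 0 := by
  have hp : 0 ≤ 2 * (H + 3) * i := by positivity
  have hq : 2 * (H + 3) * i ≤ 2 * (H + 3) * k := by
    apply mul_le_mul_of_nonneg_left h2; omega
  rw [gw_eq hH (by omega) (by omega), mod_end hH]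
  unfold wv
  omega

end

/-- variation sums -/
def vsum (h : ℤ → ℤ) (k : ℕ) : ℤ := ∑ i ∈ Finset.range k, |h ((i : ℤ) + 1) - h i|

/-- the position function of a profile -/
def posf (h : ℤ → ℤ) (x : ℤ) : ℤ := x + vsum h x.toNat

lemma posf_succ {h : ℤ → ℤ} (h0 : ∀ x, x ≤ 0 → h x = h 0) (x : ℤ) :
    posf h (x + 1) = posf h x + 1 + |h (x + 1) - h x| := by
  unfold posf
  rcases lt_or_ge x 0 with hx | hx
  · have e1 : (x + 1).toNat = 0 := by omega
    have e2 : x.toNat = 0 := by omega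
    rw [e1, e2, h0 (x + 1) (by omega), h0 x (by omega)]
    simp [vsum]
  · have e1 : (x + 1).toNat = x.toNat + 1 := by omega
    rw [e1]
    unfold vsum
    rw [Finset.sum_range_succ]
    have e2 : ((x.toNat : ℕ) : ℤ) = x := by omega
    rw [e2]
    ring

/-- growth of the position function -/
lemma pos_growth {h a : ℤ → ℤ} (ha : ∀ x, a (x + 1) = a x + 1 + |h (x + 1) - h x|) (x : ℤ)
    (k : ℕ) : a x + k + |h (x + k) - h x| ≤ a (x + k) := by
  induction k with
  | zero => simp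
  | succ k ih =>
    have h1 := ha (x + k)
    have h2 : x + ((k + 1 : ℕ) : ℤ) = x + k + 1 := by push_cast; ring
    rw [h2, h1]
    have h3 := abs_sub_le (h (x + k + 1)) (h (x + k)) (h x)
    push_cast
    linarith

lemma pos_growth' {h a : ℤ → ℤ} (ha : ∀ x, a (x + 1) = a x + 1 + |h (x + 1) - h x|) {x y : ℤ}
    (hxy : x ≤ y) : a x + (y - x) + |h y - h x| ≤ a y := by
  obtain ⟨k, rfl⟩ : ∃ k : ℕ, y = x + k := ⟨(y - x).toNat, by omega⟩
  have := pos_growth ha x k
  linarith

end Pool.Agent.Lib.MP_1a3405_co
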