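import Mathlib
import Pool.Agent.Lib.MP_1a3405_co.Two
import Pool.Agent.Lib.MP_1a3405_co.Wave

/-!
Explicit bounds for `M([n]^2, 3)`.
-/

namespace Pool.Agent.Lib.MP_1a3405_co

lemma a_growth {a : ℤ → ℤ} {H k : ℤ} (hH : 0 ≤ H)
    (ha : ∀ x, a (x + 1) = a x + 1 + |gw H k (x + 1) - gw H k x|)
    (i : ℕ) (hi : (i : ℤ) ≤ k) :
    a 0 + (2 * (H + 3) * i + (H + 3)) + (2 * i + 1) * H ≤ a (2 * (H + 3) * i + (H + 3)) := by
  induction i with
  | zero =>
    have h1 := pos_growth' ha (x := 0) (y := H + 3) (by omega)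
    have h2 := gw_at_bot (k := k) hH (i := 0) (le_refl _) (by simpa using hi)
    have h3 := gw_at_top (k := k) hH (i := 0) (le_refl _) (by simpa using hi)
    simp only [mul_zero, zero_add] at h2 h3
    rw [h2, h3] at h1
    simp only [Nat.cast_zero, mul_zero, zero_add, one_mul]
    have : |(0 : ℤ) - H| = H := by
      rw [zero_sub, abs_neg]; exact abs_of_nonneg hH
    rw [this] at h1
    linarith
  | succ i ih =>
    have ih' := ih (by push_cast at hi; omega)
    have e0 : (0 : ℤ) ≤ (i : ℤ) := by omega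
    have b1 := gw_at_bot (k := k) hH (i := i) (by omega) (by push_cast at hi; omega)
    have b2 := gw_at_top (k := k) hH (i := (i : ℤ) + 1) (by omega) (by push_cast at hi; omega)
    have b3 := gw_at_bot (k := k) hH (i := (i : ℤ) + 1) (by omega) (by push_cast at hi; omega)
    have g1 := pos_growth' ha (x := 2 * (H + 3) * i + (H + 3)) (y := 2 * (H + 3) * ((i : ℤ) + 1))
      (by nlinarith)
    have g2 := pos_growth' ha (x := 2 * (H + 3) * ((i : ℤ) + 1))
      (y := 2 * (H + 3) * ((i : ℤ) + 1) + (H + 3)) (by nlinarith)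
    rw [b1, b2] at g1
    rw [b2, b3] at g2
    have a1 : |H - 0| = H := by rw [sub_zero]; exact abs_of_nonneg hH
    have a2 : |(0 : ℤ) - H| = H := by
      rw [zero_sub, abs_neg]; exact abs_of_nonneg hH
    rw [a1] at g1
    rw [a2] at g2
    push_cast
    nlinarith

/-- the profile for the planar construction -/
lemma prof2_exists {n H k m : ℤ} (hH : 1 ≤ H) (hk : 0 ≤ k)
    (hX : 2 * (H + 3) * k + (H + 3) ≤ n - 5) (hm : m % 2 = 1) (hm1 : 1 ≤ m)
    (hn : H + 3 * m + 1 ≤ n) (hn10 : 10 ≤ n) :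
    ∃ W : ℤ, n - 3 + 2 * k * H ≤ W ∧ ∃ h a : ℤ → ℤ, Prof2 n H m W h a := by
  have hH0 : 0 ≤ H := by omega
  have hp : 0 ≤ 2 * (H + 3) * k := by positivity
  set h : ℤ → ℤ := fun x => gw H k (x - 2) with hh
  have hc : ∀ x, x ≤ 0 → h x = h 0 := by
    intro x hx
    simp only [hh]
    rw [gw_left (by omega), gw_left (by omega)]
  set a : ℤ → ℤ := fun x => posf h x - posf h 2 with hadef
  have ha : ∀ x, a (x + 1) = a x + 1 + |h (x + 1) - h x| := by
    intro x
    simp only [hadef]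
    rw [posf_succ hc]
    ring
  have ha' : ∀ x, a (x + 1 + 2) = a (x + 2) + 1 + |gw H k (x + 1) - gw H k x| := by
    intro x
    have h1 := ha (x + 2)
    have e1 : x + 2 + 1 = x + 1 + 2 := by ring
    rw [e1] at h1
    simp only [hh, add_sub_cancel_right] at h1
    exact h1
  obtain ⟨kk, hkk⟩ : ∃ kk : ℕ, (kk : ℤ) = k := ⟨k.toNat, by omega⟩
  have g := a_growth (a := fun x => a (x + 2)) hH0 ha' kk (by omega)
  rw [hkk] at g
  have a2 : a 2 = 0 := by simp only [hadef]; ring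
  simp only [zero_add, a2] at g
  have g2 := pos_growth' ha (x := 2 * (H + 3) * k + (H + 3) + 2) (y := n - 1) (by omega)
  have g3 := abs_nonneg (h (n - 1) - h (2 * (H + 3) * k + (H + 3) + 2))
  refine ⟨a (n - 1), ?_, h, a, ?_⟩
  · nlinarith
  · constructor
    · intro x; exact gw_nonneg hH0 _
    · intro x; exact gw_le hH0 _
    · intro x
      have := gw_lip hH0 hk (x - 2)
      have e1 : x - 2 + 1 = x + 1 - 2 := by ring
      rw [e1] at this
      exact this
    · exact ha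
    · intro x h1
      have := gw_val hH0 hk (x - 2)
      have e1 : x - 2 + 1 = x + 1 - 2 := by ring
      have e2 : x - 2 - 1 = x - 1 - 2 := by ring
      rw [e1, e2] at this
      exact (this h1).1
    · intro x h1 h2
      have := gw_val hH0 hk (x - 2)
      have e1 : x - 2 + 1 = x + 1 - 2 := by ring
      have e2 : x - 2 - 1 = x - 1 - 2 := by ring
      have e3 : x + 1 - 2 + 1 = x + 1 + 1 - 2 := by ring
      rw [e1, e2, e3] at this
      exact (this h1).2 h2
    · simp only [hh]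
      rw [gw_left (by norm_num), gw_left (by norm_num)]
    · simp only [hh]
      norm_num
      rw [gw_one hH0 hk, gw_left (le_refl _)]
    · simp only [hh]
      norm_num
      rw [gw_two hH0 hk, gw_left (le_refl _)]
    · simp only [hh]
      rw [gw_right hH0 hk (by omega), gw_right hH0 hk (by omega)]
    · simp only [hh]
      rw [gw_right hH0 hk (by omega), gw_right hH0 hk (by omega)]
    · simp only [hh]
      rw [gw_right hH0 hk (by omega), gw_right hH0 hk (by omega)]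
    · exact a2
    · rfl
    · exact hm
    · exact hm1
    · exact hn
    · exact hn10

/-- the lower bound with parameters -/
theorem lower2_param {n : ℕ} {H k m : ℤ} (hH : 1 ≤ H) (hk : 0 ≤ k)
    (hX : 2 * (H + 3) * k + (H + 3) ≤ n - 5) (hm : m % 2 = 1) (hm1 : 1 ≤ m)
    (hn : H + 3 * m + 1 ≤ n) (hn10 : (10 : ℤ) ≤ n) :
    m * (n + 2 * k * H) - 1 ≤ (maxPercTime (grid 2 n) 3 : ℤ) := by
  obtain ⟨W, hW, h, a, pf⟩ := prof2_exists hH hk hX hm hm1 hn hn10
  have h1 := lower2 pf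
  nlinarith

/-- The explicit lower bound `M([n]^2, 3) ≥ (2/3) n^2 - 4 n^(3/2)`. -/
theorem lower2_sqrt (n : ℕ) :
    (2 / 3 : ℝ) * (n : ℝ) ^ 2 - 4 * (n : ℝ) * Real.sqrt n ≤ (maxPercTime (grid 2 n) 3 : ℝ) := by
  have hM : (0 : ℝ) ≤ (maxPercTime (grid 2 n) 3 : ℝ) := Nat.cast_nonneg _
  set r := Real.sqrt n with hr
  have hr0 : 0 ≤ r := Real.sqrt_nonneg _
  have hrr : r * r = n := Real.mul_self_sqrt (Nat.cast_nonneg n)
  rcases le_or_gt r 6 with hsmall | hbig
  · -- trivial range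
    have : (2 / 3 : ℝ) * (n : ℝ) ^ 2 - 4 * (n : ℝ) * r ≤ 0 := by
      have h1 : (2 / 3 : ℝ) * (n : ℝ) ^ 2 - 4 * (n : ℝ) * r = (n : ℝ) * r * ((2/3) * r - 4) := by
        rw [← hrr]; ring
      rw [h1]
      apply mul_nonpos_of_nonneg_of_nonpos
      · positivity
      · linarith
    linarith
  · -- main range
    set s : ℕ := Nat.sqrt n with hs
    have hs1 : s * s ≤ n := Nat.sqrt_le n
    have hs2 : n < (s + 1) * (s + 1) := Nat.lt_succ_sqrt n
    have hs1r : (s : ℝ) * s ≤ n := by exact_mod_cast hs1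
    have hs2r : (n : ℝ) < ((s : ℝ) + 1) * (s + 1) := by exact_mod_cast hs2
    have hsr : (s : ℝ) ≤ r := by
      rw [hr]; apply Real.le_sqrt_of_sq_le; nlinarith
    have hrs : r ≤ (s : ℝ) + 1 := by
      by_contra hc
      push Not at hc
      nlinarith
    have hn36 : (36 : ℝ) < n := by nlinarith
    have hn36' : 36 < n := by exact_mod_cast hn36
    have hs6 : 6 ≤ s := by
      by_contra hc
      push Not at hc
      have : (s + 1) * (s + 1) ≤ 36 := by nlinarith
      omega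
    have hsn : s * 6 ≤ n := by nlinarith
    obtain ⟨k, hk⟩ : ∃ k : ℤ, k = ((n : ℤ) - 5 - (s + 3)) / (2 * ((s : ℤ) + 3)) := ⟨_, rfl⟩
    have hK : (0 : ℤ) < 2 * ((s : ℤ) + 3) := by omega
    have hk1 : 2 * ((s : ℤ) + 3) * k ≤ n - 5 - (s + 3) := by
      rw [hk]; exact Int.mul_ediv_self_le (ne_of_gt hK)
    have hk2 : (n : ℤ) - 5 - (s + 3) < 2 * ((s : ℤ) + 3) * k + 2 * ((s : ℤ) + 3) := by
      rw [hk]
      have := Int.lt_mul_ediv_self_add (x := (n : ℤ) - 5 - (s + 3)) hK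
      exact this
    have hk0 : 0 ≤ k := by
      rw [hk]; apply Int.ediv_nonneg <;> omega
    obtain ⟨q, hq⟩ : ∃ q : ℤ, q = ((n : ℤ) - 4 - s) / 6 := ⟨_, rfl⟩
    have main := lower2_param (n := n) (H := s) (k := k) (m := 2 * q + 1) (by omega) hk0
      (by omega) (by omega) (by omega) (by omega) (by omega)
    have mainr : ((2 * q + 1 : ℤ) : ℝ) * ((n : ℝ) + 2 * (k : ℝ) * s) - 1 ≤
        (maxPercTime (grid 2 n) 3 : ℝ) := by exact_mod_cast main
    have hm : (n : ℝ) - 6 - s ≤ 3 * ((2 * q + 1 : ℤ) : ℝ) := by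
      have : (n : ℤ) - 6 - s ≤ 3 * (2 * q + 1) := by omega
      exact_mod_cast this
    have hk1r : 2 * ((s : ℝ) + 3) * k ≤ n - 5 - (s + 3) := by exact_mod_cast hk1
    have hk2r : (n : ℝ) - 4 - 3 * (s + 3) ≤ 2 * ((s : ℝ) + 3) * k := by
      have : (n : ℤ) - 4 - 3 * (s + 3) ≤ 2 * ((s : ℤ) + 3) * k := by linarith
      exact_mod_cast this
    have hk0r : (0 : ℝ) ≤ k := by exact_mod_cast hk0
    have hs0 : (0 : ℝ) ≤ s := Nat.cast_nonneg _
    have h6k : 6 * (k : ℝ) ≤ 3 * r := by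
      -- 2 (s+3) k ≤ n = r * r ≤ r (s + 3)
      have h1 : 2 * ((s : ℝ) + 3) * k ≤ r * (s + 3) := by nlinarith
      have h2 : ((s : ℝ) + 3) * (2 * k) ≤ (s + 3) * r := by linarith
      have h3 := le_of_mul_le_mul_left h2 (by linarith)
      linarith
    have hfac : 2 * (n : ℝ) - 6 * r - 13 ≤ (n : ℝ) + 2 * (k : ℝ) * s := by nlinarith
    have hm' : ((n : ℝ) - 6 - r) / 3 ≤ ((2 * q + 1 : ℤ) : ℝ) := by linarith
    have hpos1 : 0 ≤ ((n : ℝ) - 6 - r) / 3 := by nlinarith
    have hpos2 : 0 ≤ 2 * (n : ℝ) - 6 * r - 13 := by nlinarith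
    have hprod := mul_le_mul hm' hfac hpos2 (le_trans hpos1 hm')
    refine le_trans ?_ mainr
    refine le_trans ?_ (sub_le_sub_right hprod 1)
    have hn' : (n : ℝ) = r * r := hrr.symm
    rw [hn']
    nlinarith [mul_pos (show (0 : ℝ) < r by linarith) (show (0 : ℝ) < r by linarith),
      mul_nonneg (mul_nonneg hr0 hr0) (show (0 : ℝ) ≤ r - 6 by linarith)]

end Pool.Agent.Lib.MP_1a3405_co
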