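import Mathlib
import Pool.Agent.Lib.MP_1a3405_co.Plane
import Pool.Agent.Lib.MP_1a3405_co.Wave
import Pool.Agent.Lib.MP_1a3405_co.Two

/-!
The plane pattern used for `d = 3`, `r = 4`: definitions and the local conditions inside a plane.
-/

namespace Pool.Agent.Lib.MP_1a3405_co

/-- data of a height profile for the spatial construction -/
structure Prof3 (n H m W : ℤ) (h a : ℤ → ℤ) : Prop where
  nn : ∀ x, 0 ≤ h x
  le : ∀ x, h x ≤ H
  lip : ∀ x, h (x + 1) = h x ∨ h (x + 1) = h x + 1 ∨ h (x + 1) = h x - 1
  pos : ∀ x, a (x + 1) = a x + 1 + |h (x + 1) - h x|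
  one : ∀ x, h (x - 1) = h x ∨ h (x + 1) = h x
  up : ∀ x, h (x - 1) = h x + 1 → h (x + 1) = h x → h (x + 1 + 1) ≠ h x + 1
  dn : ∀ x, h (x - 1) = h x - 1 → h (x + 1) = h x → h (x + 1 + 1) ≠ h x - 1
  l1 : h 1 = H
  l2 : h 2 = H
  l3 : h 3 = H
  l4 : h 4 = H
  r1 : h n = 0
  r2 : h (n - 1) = 0
  r3 : h (n - 2) = 0
  r4 : h (n - 3) = 0
  a2 : a 2 = 0
  aW : a (n - 1) = W
  hm : m % 2 = 1
  m3 : 3 ≤ m
  hn : n = H + 1 + 2 * m
  n10 : 10 ≤ n

/-- the start time of line `i` inside a plane -/
def s3 (W i : ℤ) : ℤ := (i - 1) * (W + 2)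

lemma s3_succ (W i : ℤ) : s3 W (i + 1) = s3 W i + W + 2 := by unfold s3; ring

lemma s3_pred (W i : ℤ) : s3 W (i - 1) = s3 W i - W - 2 := by unfold s3; ring

/-- the cells of the lines and of the turns; they are open in each plane `z ≥ 2` -/
def LK (n m : ℤ) (h : ℤ → ℤ) (x y : ℤ) : Prop :=
  (2 ≤ x ∧ x ≤ n - 1 ∧ 2 ≤ y - h x ∧ y - h x ≤ 2 * m ∧ (y - h x) % 2 = 0) ∨
  (x = 2 ∧ 5 ≤ y - h x ∧ y - h x ≤ 2 * m - 1 ∧ (y - h x) % 4 = 1) ∨
  (x = n - 1 ∧ 3 ≤ y - h x ∧ y - h x ≤ 2 * m - 3 ∧ (y - h x) % 4 = 3)

/-- the open cells of a plane with odd index -/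
def OO (n m : ℤ) (h : ℤ → ℤ) (x y : ℤ) : Prop :=
  LK n m h x y ∨
  (4 ≤ x ∧ x ≤ n - 3 ∧ 3 ≤ y - h x ∧ y - h x ≤ 2 * m + 1 ∧ (y - h x) % 2 = 1 ∧
    (h (x - 1) = h x + 1 ∨ h (x + 1) = h x + 1)) ∨
  (2 * m + 2 ≤ y - h x) ∨
  (x = n ∧ 2 * m ≤ y - h x)

/-- the time, relative to the start of the plane, in a plane with odd index -/
def TO (n m W : ℤ) (h a : ℤ → ℤ) (x y : ℤ) : ℤ :=
  if x = n then s3 W m + W + 1 + (y - h x - 2 * m)
  else if 2 * m + 2 ≤ y - h x then s3 W m + a x + (y - h x - 2 * m - 2)
  else if (y - h x) % 2 = 0 then s3 W ((y - h x) / 2) + P2 W ((y - h x) / 2) (a x)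
  else if x = n - 1 ∨ x = 2 then s3 W ((y - h x) / 2) + W + 1
  else if h (x + 1) = h x + 1 then s3 W ((y - h x) / 2) + P2 W ((y - h x) / 2) (a x + 1)
  else s3 W ((y - h x) / 2) + P2 W ((y - h x) / 2) (a x - 1)

section

variable {n H m W : ℤ} {h a : ℤ → ℤ}

lemma TO_line {x y i : ℤ} (hx : x ≠ n) (hy : y - h x = 2 * i) (hi : i ≤ m) :
    TO n m W h a x y = s3 W i + P2 W i (a x) := by
  unfold TO
  have e1 : (y - h x) / 2 = i := by omega
  rw [if_neg hx, if_neg (by omega), if_pos (by omega), e1]

lemma TO_K {x y i : ℤ} (hx : x ≠ n) (hy : y - h x = 2 * i + 1) (hi : i ≤ m)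
    (h1 : x = n - 1 ∨ x = 2) :
    TO n m W h a x y = s3 W i + W + 1 := by
  unfold TO
  have e1 : (y - h x) / 2 = i := by omega
  rw [if_neg hx, if_neg (by omega), if_neg (by omega), if_pos h1, e1]

lemma TO_cr {x y i : ℤ} (hx : x ≠ n) (hy : y - h x = 2 * i + 1) (hi : i ≤ m)
    (h1 : x ≠ n - 1) (h2 : x ≠ 2) (h3 : h (x + 1) = h x + 1) :
    TO n m W h a x y = s3 W i + P2 W i (a x + 1) := by
  unfold TO
  have e1 : (y - h x) / 2 = i := by omega
  rw [if_neg hx, if_neg (by omega), if_neg (by omega), if_neg (by tauto), if_pos h3, e1]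

lemma TO_cl {x y i : ℤ} (hx : x ≠ n) (hy : y - h x = 2 * i + 1) (hi : i ≤ m)
    (h1 : x ≠ n - 1) (h2 : x ≠ 2) (h3 : h (x + 1) ≠ h x + 1) :
    TO n m W h a x y = s3 W i + P2 W i (a x - 1) := by
  unfold TO
  have e1 : (y - h x) / 2 = i := by omega
  rw [if_neg hx, if_neg (by omega), if_neg (by omega), if_neg (by tauto), if_neg h3, e1]

lemma TO_B {x y : ℤ} (hx : x ≠ n) (hy : 2 * m + 2 ≤ y - h x) :
    TO n m W h a x y = s3 W m + a x + (y - h x - 2 * m - 2) := by
  unfold TO
  rw [if_neg hx, if_pos hy]

lemma TO_n {x y : ℤ} (hx : x = n) :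
    TO n m W h a x y = s3 W m + W + 1 + (y - h x - 2 * m) := by
  unfold TO
  rw [if_pos hx]

lemma pos3_flat (pf : Prof3 n H m W h a) {x : ℤ} (h1 : h (x + 1) = h x) :
    a (x + 1) = a x + 1 := by
  rw [pf.pos x, h1]; simp

lemma pos3_step (pf : Prof3 n H m W h a) {x : ℤ} (h1 : h (x + 1) = h x + 1 ∨ h (x + 1) = h x - 1) :
    a (x + 1) = a x + 2 := by
  rw [pf.pos x]
  rcases h1 with h1 | h1
  · rw [h1, add_sub_cancel_left]; simp; ring
  · rw [h1]
    have : h x - 1 - h x = -1 := by ring
    rw [this]; simp; ring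

lemma step_range3 (pf : Prof3 n H m W h a) {x : ℤ} (hx1 : 1 ≤ x) (hx2 : x ≤ n - 1)
    (hs : h (x + 1) ≠ h x) : 4 ≤ x ∧ x ≤ n - 4 := by
  have l1 := pf.l1
  have l2 := pf.l2
  have l3 := pf.l3
  have l4 := pf.l4
  have r1 := pf.r1
  have r2 := pf.r2
  have r3 := pf.r3
  have r4 := pf.r4
  constructor
  · by_contra hc
    have : x = 1 ∨ x = 2 ∨ x = 3 := by omega
    rcases this with rfl | rfl | rfl <;> norm_num at hs <;> omega
  · by_contra hc
    have : x = n - 1 ∨ x = n - 2 ∨ x = n - 3 := by omega
    rcases this with rfl | rfl | rfl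
    · apply hs
      rw [sub_add_cancel]; omega
    · apply hs
      have : n - 2 + 1 = n - 1 := by ring
      rw [this]; omega
    · apply hs
      have : n - 3 + 1 = n - 2 := by ring
      rw [this]; omega

lemma a_nonneg (pf : Prof3 n H m W h a) {x : ℤ} (hx : 2 ≤ x) : 0 ≤ a x := by
  have h1 := pos_growth' pf.pos hx
  have h2 := abs_nonneg (h x - h 2)
  have h3 := pf.a2
  omega

lemma a_le (pf : Prof3 n H m W h a) {x : ℤ} (hx : x ≤ n - 1) : a x + (n - 1 - x) ≤ W := by
  have h1 := pos_growth' pf.pos hx
  have h2 := abs_nonneg (h (n - 1) - h x)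
  have h3 := pf.aW
  omega

/-- the range of offsets -/
lemma P2_range {W i p : ℤ} (h1 : 0 ≤ p) (h2 : p ≤ W) : 0 ≤ P2 W i p ∧ P2 W i p ≤ W := by
  unfold P2; split_ifs <;> omega

/-- interior line cells -/
lemma good3_line (pf : Prof3 n H m W h a) {x y i : ℤ} (hx1 : 3 ≤ x) (hx2 : x ≤ n - 2)
    (hi1 : 1 ≤ i) (hi2 : i ≤ m) (hy : y - h x = 2 * i) :
    Good n (OO n m h) (TO n m W h a) x y := by
  obtain ⟨e, he, hP⟩ := P2_sign W i
  have hPa := hP (a x)
  have nn := pf.nn x
  have le := pf.le x
  have nnl := pf.nn (x - 1)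
  have lel := pf.le (x - 1)
  have nnr := pf.nn (x + 1)
  have ler := pf.le (x + 1)
  have hn := pf.hn
  have a0 := a_nonneg pf (x := x) (by omega)
  have aW := a_le pf (x := x) (by omega)
  have a0l := a_nonneg pf (x := x - 1) (by omega)
  have aWr := a_le pf (x := x + 1) (by omega)
  have Tv : TO n m W h a x y = s3 W i + P2 W i (a x) := TO_line (by omega) hy hi2
  have srr := step_range3 pf (x := x) (by omega) (by omega)
  have srl := step_range3 pf (x := x - 1) (by omega) (by omega)
  rw [sub_add_cancel] at srl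
  have lipl := pf.lip (x - 1)
  rw [sub_add_cancel] at lipl
  have one := pf.one x
  -- up neighbour closed if not higher
  have upc : ¬ (h (x - 1) = h x + 1 ∨ h (x + 1) = h x + 1) →
      St n (OO n m h) (TO n m W h a) 2 (TO n m W h a x y) x (y + 1) := by
    intro hh
    refine ⟨⟨by omega, by omega, by omega, by omega⟩, Or.inl ?_⟩
    unfold OO LK
    have : y + 1 - h x = 2 * i + 1 := by omega
    rw [this]
    rintro ((h1 | h1 | h1) | h1 | h1 | h1)
    · omega
    · omega
    · omega
    · tauto
    · omega
    · omega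
  have dnc : ¬ (h (x - 1) = h x + 1 ∨ h (x + 1) = h x + 1) →
      St n (OO n m h) (TO n m W h a) 2 (TO n m W h a x y) x (y - 1) := by
    intro hh
    refine ⟨⟨by omega, by omega, by omega, by omega⟩, Or.inl ?_⟩
    unfold OO LK
    have : y - 1 - h x = 2 * i - 1 := by omega
    rw [this]
    rintro ((h1 | h1 | h1) | h1 | h1 | h1)
    · omega
    · omega
    · omega
    · tauto
    · omega
    · omega
  -- link to the left on the same level
  have lkl : h (x - 1) = h x →
      Lk n (OO n m h) (TO n m W h a) (TO n m W h a x y) (-e) (x - 1) y := by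
    intro hl
    refine ⟨⟨by omega, by omega, by omega, by omega⟩, ?_, ?_⟩
    · left; left
      refine ⟨by omega, by omega, by omega, by omega, by omega⟩
    · have posl := pos3_flat pf (x := x - 1) (by rw [sub_add_cancel]; omega)
      rw [sub_add_cancel] at posl
      rw [Tv, TO_line (i := i) (by omega) (by omega) hi2]
      have : a (x - 1) = a x - 1 := by omega
      rw [this]; omega
  have lkr : h (x + 1) = h x →
      Lk n (OO n m h) (TO n m W h a) (TO n m W h a x y) e (x + 1) y := by
    intro hr
    refine ⟨⟨by omega, by omega, by omega, by omega⟩, ?_, ?_⟩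
    · left; left
      refine ⟨by omega, by omega, by omega, by omega, by omega⟩
    · rw [Tv, TO_line (i := i) (by omega) (by omega) hi2, pos3_flat pf hr]
      omega
  by_cases hl : h (x - 1) = h x
  · rcases pf.lip x with hr | hr | hr
    · -- flat both
      exact good_RL he (lkr hr) (lkl hl) (upc (by omega)) (dnc (by omega))
    · -- step up on the right
      have sr := srr (by omega)
      have lku : Lk n (OO n m h) (TO n m W h a) (TO n m W h a x y) e x (y + 1) := by
        refine ⟨⟨by omega, by omega, by omega, by omega⟩, ?_, ?_⟩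
        · right; left
          refine ⟨by omega, by omega, by omega, by omega, by omega, by omega⟩
        · rw [Tv, TO_cr (i := i) (by omega) (by omega) hi2 (by omega) (by omega) hr]
          omega
      have oner := pf.one (x + 1)
      rw [add_sub_cancel_right] at oner
      have rc : St n (OO n m h) (TO n m W h a) 2 (TO n m W h a x y) (x + 1) y := by
        refine ⟨⟨by omega, by omega, by omega, by omega⟩, Or.inl ?_⟩
        unfold OO LK
        have : y - h (x + 1) = 2 * i - 1 := by omega
        rw [this]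
        rintro ((h1 | h1 | h1) | h1 | h1 | h1)
        · omega
        · omega
        · omega
        · rw [add_sub_cancel_right] at h1
          omega
        · omega
        · omega
      have dc : St n (OO n m h) (TO n m W h a) 2 (TO n m W h a x y) x (y - 1) := by
        refine ⟨⟨by omega, by omega, by omega, by omega⟩, ?_⟩
        by_cases hi : i = 1
        · left
          unfold OO LK
          rintro ((h1 | h1 | h1) | h1 | h1 | h1) <;> omega
        · right
          rw [Tv, TO_cr (i := i - 1) (by omega) (by omega) (by omega) (by omega) (by omega) hr,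
            s3_pred]
          have p1 := P2_range (W := W) (i := i) (p := a x) a0 (by omega)
          have p2 := P2_range (W := W) (i := i - 1) (p := a x + 1) (by omega) (by omega)
          omega
      exact good_LU (e := -e) (by omega) (lkl hl) (by rw [neg_neg]; exact lku) rc dc
    · -- step down on the right
      have sr := srr (by omega)
      have lkr' : Lk n (OO n m h) (TO n m W h a) (TO n m W h a x y) e (x + 1) y := by
        have oner := pf.one (x + 1)
        rw [add_sub_cancel_right] at oner
        refine ⟨⟨by omega, by omega, by omega, by omega⟩, ?_, ?_⟩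
        · right; left
          refine ⟨by omega, by omega, by omega, by omega, by omega, ?_⟩
          left
          rw [add_sub_cancel_right]; omega
        · rw [Tv, TO_cl (i := i) (by omega) (by omega) hi2 (by omega) (by omega) (by omega),
            pos3_step pf (Or.inr hr)]
          have : a x + 2 - 1 = a x + 1 := by ring
          rw [this]
          omega
      exact good_RL he lkr' (lkl hl) (upc (by omega)) (dnc (by omega))
  · have hr : h (x + 1) = h x := by omega
    have sl := srl (by omega)
    have posl := pos3_step pf (x := x - 1) (by rw [sub_add_cancel]; omega)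
    rw [sub_add_cancel] at posl
    rcases lipl with hl2 | hl2 | hl2
    · omega
    · -- h x = h (x-1) + 1 : the left neighbour is a connector
      have lkl' : Lk n (OO n m h) (TO n m W h a) (TO n m W h a x y) (-e) (x - 1) y := by
        refine ⟨⟨by omega, by omega, by omega, by omega⟩, ?_, ?_⟩
        · right; left
          refine ⟨by omega, by omega, by omega, by omega, by omega, ?_⟩
          right
          rw [sub_add_cancel]; omega
        · rw [Tv, TO_cr (i := i) (by omega) (by omega) hi2 (by omega) (by omega)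
            (by rw [sub_add_cancel]; omega)]
          have : a (x - 1) + 1 = a x - 1 := by omega
          rw [this]; omega
      exact good_RL he (lkr hr) lkl' (upc (by omega)) (dnc (by omega))
    · -- h x = h (x-1) - 1 : up is a connector
      have lku : Lk n (OO n m h) (TO n m W h a) (TO n m W h a x y) (-e) x (y + 1) := by
        refine ⟨⟨by omega, by omega, by omega, by omega⟩, ?_, ?_⟩
        · right; left
          refine ⟨by omega, by omega, by omega, by omega, by omega, by omega⟩
        · rw [Tv, TO_cl (i := i) (by omega) (by omega) hi2 (by omega) (by omega) (by omega)]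
          omega
      have onel := pf.one (x - 1)
      rw [sub_add_cancel] at onel
      have lc : St n (OO n m h) (TO n m W h a) 2 (TO n m W h a x y) (x - 1) y := by
        refine ⟨⟨by omega, by omega, by omega, by omega⟩, Or.inl ?_⟩
        unfold OO LK
        have : y - h (x - 1) = 2 * i - 1 := by omega
        rw [this]
        rintro ((h1 | h1 | h1) | h1 | h1 | h1)
        · omega
        · omega
        · omega
        · rw [sub_add_cancel] at h1
          omega
        · omega
        · omega
      have dc : St n (OO n m h) (TO n m W h a) 2 (TO n m W h a x y) x (y - 1) := by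
        refine ⟨⟨by omega, by omega, by omega, by omega⟩, ?_⟩
        by_cases hi : i = 1
        · left
          unfold OO LK
          rintro ((h1 | h1 | h1) | h1 | h1 | h1) <;> omega
        · right
          rw [Tv, TO_cl (i := i - 1) (by omega) (by omega) (by omega) (by omega) (by omega)
            (by omega), s3_pred]
          have p1 := P2_range (W := W) (i := i) (p := a x) a0 (by omega)
          have p2 := P2_range (W := W) (i := i - 1) (p := a x - 1) (by omega) (by omega)
          omega
      exact good_RU he (lkr hr) lku lc dc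

end

end Pool.Agent.Lib.MP_1a3405_co
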