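import Mathlib
import Pool.Agent.Lib.MP_1a3405_co.Three

/-!
Local conditions in a plane for the cells at the ends of the lines and for the turning cells.
-/

namespace Pool.Agent.Lib.MP_1a3405_co

section

variable {n H m W : ℤ} {h a : ℤ → ℤ}

/-- end facts on the left -/
lemma left_facts (pf : Prof3 n H m W h a) : h 1 = h 2 ∧ h 3 = h 2 ∧ a 2 = 0 ∧ a 3 = 1 := by
  have l1 := pf.l1
  have l2 := pf.l2
  have l3 := pf.l3
  have a2 := pf.a2
  have a3 : a 3 = 1 := by
    have := pos3_flat pf (x := 2) (by norm_num; omega)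
    norm_num at this
    omega
  exact ⟨by omega, by omega, a2, a3⟩

/-- end facts on the right -/
lemma right_facts (pf : Prof3 n H m W h a) {x : ℤ} (hx : x = n - 1) :
    h (x + 1) = h x ∧ h (x - 1) = h x ∧ a x = W ∧ a (x - 1) = W - 1 ∧ h x = 0 := by
  have r1 := pf.r1
  have r2 := pf.r2
  have r3 := pf.r3
  have e1 : h (x + 1) = h x := by
    rw [hx, sub_add_cancel]; omega
  have e2 : h (x - 1) = h x := by
    rw [hx]
    have : n - 1 - 1 = n - 2 := by ring
    rw [this]; omega
  have aW : a x = W := by rw [hx]; exact pf.aW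
  have al : a (x - 1) = W - 1 := by
    have := pos3_flat pf (x := x - 1) (by rw [sub_add_cancel]; exact e2.symm)
    rw [sub_add_cancel] at this
    omega
  exact ⟨e1, e2, aW, al, by rw [hx]; exact r2⟩

/-- cells of column `1` are closed below the region `B` -/
lemma not_OO_one (pf : Prof3 n H m W h a) {y : ℤ} (h1 : y - h 1 ≤ 2 * m + 1) :
    ¬ OO n m h 1 y := by
  have n10 := pf.n10
  unfold OO LK
  rintro ((h1 | h1 | h1) | h1 | h1 | h1) <;> omega

/-- line cells in column `2`, not the first line -/
lemma good3_left (pf : Prof3 n H m W h a) {O : ℤ → ℤ → Prop}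
    (hO1 : ∀ x y, LK n m h x y → O x y) (hO2 : ∀ x y, O x y → OO n m h x y) {y i : ℤ}
    (hi1 : 2 ≤ i) (hi2 : i ≤ m) (hy : y - h 2 = 2 * i) :
    Good n O (TO n m W h a) 2 y := by
  have nn := pf.nn 2
  have le := pf.le 2
  have hn := pf.hn
  have hm := pf.hm
  have n10 := pf.n10
  obtain ⟨l1, l2, a2, a3⟩ := left_facts pf
  have Tv : TO n m W h a 2 y = s3 W i + P2 W i (a 2) := TO_line (by omega) hy hi2
  rw [a2] at Tv
  have lc : St n O (TO n m W h a) 2 (TO n m W h a 2 y) (2 - 1) y := by
    refine ⟨⟨by omega, by omega, by omega, by omega⟩, Or.inl fun hc => ?_⟩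
    have := hO2 _ _ hc
    norm_num at this
    exact not_OO_one pf (by omega) this
  have Tr : TO n m W h a (2 + 1) y = s3 W i + P2 W i (a 3) :=
    TO_line (by omega) (by norm_num; omega) hi2
  rw [a3] at Tr
  have Or' : O (2 + 1) y := by
    apply hO1
    left
    norm_num
    refine ⟨by omega, by omega, by omega, by omega⟩
  rcases Int.emod_two_eq_zero_or_one i with hi | hi
  · -- even
    rw [P2_even hi] at Tv Tr
    refine good_RU (e := -1) (by omega) ?_ ?_ lc ?_
    · exact ⟨⟨by omega, by omega, by omega, by omega⟩, Or', by omega⟩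
    · refine ⟨⟨by omega, by omega, by omega, by omega⟩, ?_, ?_⟩
      · apply hO1
        right; left
        refine ⟨by omega, by omega, by omega, by omega⟩
      · rw [TO_K (i := i) (by omega) (by omega) hi2 (by right; rfl)]
        omega
    · refine ⟨⟨by omega, by omega, by omega, by omega⟩, Or.inl fun hc => ?_⟩
      have hc' := hO2 _ _ hc
      unfold OO LK at hc'
      have : y - 1 - h 2 = 2 * i - 1 := by omega
      rw [this] at hc'
      rcases hc' with (h1 | h1 | h1) | h1 | h1 | h1 <;> omega
  · rw [P2_odd hi] at Tv Tr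
    refine good_RD (e := 1) (by omega) ?_ ?_ lc ?_
    · exact ⟨⟨by omega, by omega, by omega, by omega⟩, Or', by omega⟩
    · refine ⟨⟨by omega, by omega, by omega, by omega⟩, ?_, ?_⟩
      · apply hO1
        right; left
        refine ⟨by omega, by omega, by omega, by omega⟩
      · rw [TO_K (i := i - 1) (by omega) (by omega) (by omega) (by right; rfl), s3_pred]
        omega
    · refine ⟨⟨by omega, by omega, by omega, by omega⟩, Or.inl fun hc => ?_⟩
      have hc' := hO2 _ _ hc
      unfold OO LK at hc'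
      have : y + 1 - h 2 = 2 * i + 1 := by omega
      rw [this] at hc'
      rcases hc' with (h1 | h1 | h1) | h1 | h1 | h1 <;> omega

/-- line cells in column `n - 1`, not the last line -/
lemma good3_right (pf : Prof3 n H m W h a) {O : ℤ → ℤ → Prop}
    (hO1 : ∀ x y, LK n m h x y → O x y) (hO2 : ∀ x y, O x y → OO n m h x y)
    {x y i : ℤ} (hx : x = n - 1)
    (hi1 : 1 ≤ i) (hi2 : i < m) (hy : y - h x = 2 * i) :
    Good n O (TO n m W h a) x y := by
  have nn := pf.nn x
  have le := pf.le x
  have hn := pf.hn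
  have hm := pf.hm
  have n10 := pf.n10
  obtain ⟨r1, r2, aW, al, h0⟩ := right_facts pf hx
  have Tv : TO n m W h a x y = s3 W i + P2 W i (a x) := TO_line (by omega) hy (by omega)
  rw [aW] at Tv
  have Tl : TO n m W h a (x - 1) y = s3 W i + P2 W i (a (x - 1)) :=
    TO_line (by omega) (by omega) (by omega)
  rw [al] at Tl
  have Ol' : O (x - 1) y := by
    apply hO1
    left
    refine ⟨by omega, by omega, by omega, by omega, by omega⟩
  have rc : St n O (TO n m W h a) 2 (TO n m W h a x y) (x + 1) y := by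
    refine ⟨⟨by omega, by omega, by omega, by omega⟩, Or.inl fun hc => ?_⟩
    have hc' := hO2 _ _ hc
    unfold OO LK at hc'
    rcases hc' with (h1 | h1 | h1) | h1 | h1 | h1 <;> omega
  rcases Int.emod_two_eq_zero_or_one i with hi | hi
  · -- even
    rw [P2_even hi] at Tv Tl
    refine good_LD (e := 1) (by omega) ?_ ?_ rc ?_
    · exact ⟨⟨by omega, by omega, by omega, by omega⟩, Ol', by omega⟩
    · refine ⟨⟨by omega, by omega, by omega, by omega⟩, ?_, ?_⟩
      · apply hO1
        right; right
        refine ⟨by omega, by omega, by omega, by omega⟩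
      · rw [TO_K (i := i - 1) (by omega) (by omega) (by omega) (by left; exact hx), s3_pred]
        omega
    · refine ⟨⟨by omega, by omega, by omega, by omega⟩, Or.inl fun hc => ?_⟩
      have hc' := hO2 _ _ hc
      unfold OO LK at hc'
      have : y + 1 - h x = 2 * i + 1 := by omega
      rw [this] at hc'
      rcases hc' with (h1 | h1 | h1) | h1 | h1 | h1 <;> omega
  · rw [P2_odd hi] at Tv Tl
    refine good_LU (e := -1) (by omega) ?_ ?_ rc ?_
    · exact ⟨⟨by omega, by omega, by omega, by omega⟩, Ol', by omega⟩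
    · refine ⟨⟨by omega, by omega, by omega, by omega⟩, ?_, ?_⟩
      · apply hO1
        right; right
        refine ⟨by omega, by omega, by omega, by omega⟩
      · rw [TO_K (i := i) (by omega) (by omega) (by omega) (by left; exact hx)]
        omega
    · refine ⟨⟨by omega, by omega, by omega, by omega⟩, Or.inl fun hc => ?_⟩
      have hc' := hO2 _ _ hc
      unfold OO LK at hc'
      have : y - 1 - h x = 2 * i - 1 := by omega
      rw [this] at hc'
      rcases hc' with (h1 | h1 | h1) | h1 | h1 | h1 <;> omega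

/-- turning cells in column `n - 1` -/
lemma good3_turn_right (pf : Prof3 n H m W h a) {O : ℤ → ℤ → Prop}
    (hO1 : ∀ x y, LK n m h x y → O x y) (hO2 : ∀ x y, O x y → OO n m h x y)
    {x y : ℤ} (hx : x = n - 1)
    (h4 : 3 ≤ y - h x) (h5 : y - h x ≤ 2 * m - 3)
    (h6 : (y - h x) % 4 = 3) :
    Good n O (TO n m W h a) x y := by
  have nn := pf.nn x
  have le := pf.le x
  have hn := pf.hn
  have hm := pf.hm
  have n10 := pf.n10
  obtain ⟨r1, r2, aW, al, h0⟩ := right_facts pf hx
  have rc : St n O (TO n m W h a) 2 (TO n m W h a x y) (x + 1) y := by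
    refine ⟨⟨by omega, by omega, by omega, by omega⟩, Or.inl fun hc => ?_⟩
    have hc' := hO2 _ _ hc
    unfold OO LK at hc'
    rcases hc' with (h1 | h1 | h1) | h1 | h1 | h1 <;> omega
  have lc : St n O (TO n m W h a) 2 (TO n m W h a x y) (x - 1) y := by
    refine ⟨⟨by omega, by omega, by omega, by omega⟩, Or.inl fun hc => ?_⟩
    have hc' := hO2 _ _ hc
    unfold OO LK at hc'
    rcases hc' with (h1 | h1 | h1) | h1 | h1 | h1 <;> omega
  obtain ⟨i, hi⟩ : ∃ i, i = (y - h x) / 2 := ⟨_, rfl⟩
  have hi2 : i % 2 = 1 := by omega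
  have hy : y - h x = 2 * i + 1 := by omega
  have Tv : TO n m W h a x y = s3 W i + W + 1 :=
    TO_K (by omega) hy (by omega) (Or.inl hx)
  refine good_UD (e := 1) (by omega) ?_ ?_ rc lc
  · refine ⟨⟨by omega, by omega, by omega, by omega⟩, ?_, ?_⟩
    · apply hO1
      left
      refine ⟨by omega, by omega, by omega, by omega, by omega⟩
    · rw [TO_line (i := i + 1) (by omega) (by omega) (by omega), P2_even (by omega), s3_succ]
      omega
  · refine ⟨⟨by omega, by omega, by omega, by omega⟩, ?_, ?_⟩
    · apply hO1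
      left
      refine ⟨by omega, by omega, by omega, by omega, by omega⟩
    · rw [TO_line (i := i) (by omega) (by omega) (by omega), P2_odd hi2]
      omega

/-- turning cells in column `2` -/
lemma good3_turn_left (pf : Prof3 n H m W h a) {O : ℤ → ℤ → Prop}
    (hO1 : ∀ x y, LK n m h x y → O x y) (hO2 : ∀ x y, O x y → OO n m h x y) {y : ℤ}
    (h4 : 5 ≤ y - h 2) (h5 : y - h 2 ≤ 2 * m - 1)
    (h6 : (y - h 2) % 4 = 1) :
    Good n O (TO n m W h a) 2 y := by
  have nn := pf.nn 2
  have le := pf.le 2
  have hn := pf.hn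
  have hm := pf.hm
  have n10 := pf.n10
  obtain ⟨l1, l2, a2, a3⟩ := left_facts pf
  have rc : St n O (TO n m W h a) 2 (TO n m W h a 2 y) (2 + 1) y := by
    refine ⟨⟨by omega, by omega, by omega, by omega⟩, Or.inl fun hc => ?_⟩
    have hc' := hO2 _ _ hc
    have e3 : h (2 + 1) = h 2 := by norm_num; exact l2
    unfold OO LK at hc'
    rw [e3] at hc'
    rcases hc' with (h1 | h1 | h1) | h1 | h1 | h1 <;> omega
  have lc : St n O (TO n m W h a) 2 (TO n m W h a 2 y) (2 - 1) y := by
    refine ⟨⟨by omega, by omega, by omega, by omega⟩, Or.inl fun hc => ?_⟩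
    have := hO2 _ _ hc
    norm_num at this
    exact not_OO_one pf (by omega) this
  obtain ⟨i, hi⟩ : ∃ i, i = (y - h 2) / 2 := ⟨_, rfl⟩
  have hi2 : i % 2 = 0 := by omega
  have hy : y - h 2 = 2 * i + 1 := by omega
  have Tv : TO n m W h a 2 y = s3 W i + W + 1 :=
    TO_K (by omega) hy (by omega) (Or.inr rfl)
  refine good_UD (e := 1) (by omega) ?_ ?_ rc lc
  · refine ⟨⟨by omega, by omega, by omega, by omega⟩, ?_, ?_⟩
    · apply hO1
      left
      refine ⟨by omega, by omega, by omega, by omega, by omega⟩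
    · rw [TO_line (i := i + 1) (by omega) (by omega) (by omega), P2_odd (by omega), s3_succ]
      omega
  · refine ⟨⟨by omega, by omega, by omega, by omega⟩, ?_, ?_⟩
    · apply hO1
      left
      refine ⟨by omega, by omega, by omega, by omega, by omega⟩
    · rw [TO_line (i := i) (by omega) (by omega) (by omega), P2_even hi2]
      omega

/-- the end of the last line in a plane of odd index -/
lemma good3_last (pf : Prof3 n H m W h a) {x y : ℤ} (hx : x = n - 1) (hy : y - h x = 2 * m) :
    Good n (OO n m h) (TO n m W h a) x y := by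
  have nn := pf.nn x
  have le := pf.le x
  have hn := pf.hn
  have hm := pf.hm
  have m3 := pf.m3
  have n10 := pf.n10
  obtain ⟨r1, r2, aW, al, h0⟩ := right_facts pf hx
  have Tv : TO n m W h a x y = s3 W m + W := by
    rw [TO_line (i := m) (by omega) hy (le_refl _), P2_odd hm, aW]
  have Tl : TO n m W h a (x - 1) y = s3 W m + (W - 1) := by
    rw [TO_line (i := m) (by omega) (by omega) (le_refl _), P2_odd hm, al]
  refine good_RL (e := 1) (by omega) ?_ ?_ ?_ ?_
  · refine ⟨⟨by omega, by omega, by omega, by omega⟩, ?_, ?_⟩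
    · right; right; right
      exact ⟨by omega, by omega⟩
    · rw [TO_n (by omega)]
      omega
  · refine ⟨⟨by omega, by omega, by omega, by omega⟩, ?_, by omega⟩
    left; left
    refine ⟨by omega, by omega, by omega, by omega, by omega⟩
  · refine ⟨⟨by omega, by omega, by omega, by omega⟩, Or.inl ?_⟩
    unfold OO LK
    have : y + 1 - h x = 2 * m + 1 := by omega
    rw [this]
    rintro ((h1 | h1 | h1) | h1 | h1 | h1) <;> omega
  · refine ⟨⟨by omega, by omega, by omega, by omega⟩, Or.inl ?_⟩
    unfold OO LK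
    have : y - 1 - h x = 2 * m - 1 := by omega
    rw [this]
    rintro ((h1 | h1 | h1) | h1 | h1 | h1) <;> omega

/-- the first cell of a plane of odd index: time `0`, and the weaker local condition -/
lemma first3 (pf : Prof3 n H m W h a) {O : ℤ → ℤ → Prop}
    (hO1 : ∀ x y, LK n m h x y → O x y) (hO2 : ∀ x y, O x y → OO n m h x y) {y : ℤ}
    (hy : y - h 2 = 2) :
    TO n m W h a 2 y = 0 ∧ S4 n O (TO n m W h a) 2 2 y ≤ 3 ∧
      3 ≤ S4 n O (TO n m W h a) 1 2 y := by
  have nn := pf.nn 2
  have le := pf.le 2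
  have hn := pf.hn
  have hm := pf.hm
  have m3 := pf.m3
  have n10 := pf.n10
  obtain ⟨l1, l2, a2, a3⟩ := left_facts pf
  have Tv : TO n m W h a 2 y = 0 := by
    rw [TO_line (i := 1) (by omega) (by omega) (by omega), a2, P2_odd (by norm_num)]
    unfold s3; ring
  have Tr : TO n m W h a (2 + 1) y = 1 := by
    rw [TO_line (i := 1) (by omega) (by norm_num; omega) (by omega), P2_odd (by norm_num)]
    norm_num
    rw [a3]
    unfold s3; ring
  have Or' : O (2 + 1) y := by
    apply hO1
    left
    norm_num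
    refine ⟨by omega, by omega, by omega, by omega⟩
  have e0 : ind (St n O (TO n m W h a) 2 (TO n m W h a 2 y) (2 + 1) y) = 0 := by
    apply ind_false
    rintro ⟨-, h1 | h1⟩
    · exact h1 Or'
    · omega
  have e1 : ind (St n O (TO n m W h a) 1 (TO n m W h a 2 y) (2 - 1) y) = 1 := by
    apply ind_true
    refine ⟨⟨by omega, by omega, by omega, by omega⟩, Or.inl fun hc => ?_⟩
    have := hO2 _ _ hc
    norm_num at this
    exact not_OO_one pf (by omega) this
  have e2 : ind (St n O (TO n m W h a) 1 (TO n m W h a 2 y) 2 (y + 1)) = 1 := by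
    apply ind_true
    refine ⟨⟨by omega, by omega, by omega, by omega⟩, Or.inl fun hc => ?_⟩
    have hc' := hO2 _ _ hc
    unfold OO LK at hc'
    rcases hc' with (h1 | h1 | h1) | h1 | h1 | h1 <;> omega
  have e3 : ind (St n O (TO n m W h a) 1 (TO n m W h a 2 y) 2 (y - 1)) = 1 := by
    apply ind_true
    refine ⟨⟨by omega, by omega, by omega, by omega⟩, Or.inl fun hc => ?_⟩
    have hc' := hO2 _ _ hc
    unfold OO LK at hc'
    rcases hc' with (h1 | h1 | h1) | h1 | h1 | h1 <;> omega
  have f1 := ind_le_one (St n O (TO n m W h a) 2 (TO n m W h a 2 y) (2 - 1) y)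
  have f2 := ind_le_one (St n O (TO n m W h a) 2 (TO n m W h a 2 y) 2 (y + 1))
  have f3 := ind_le_one (St n O (TO n m W h a) 2 (TO n m W h a 2 y) 2 (y - 1))
  have f4 := ind_nonneg (St n O (TO n m W h a) 1 (TO n m W h a 2 y) (2 + 1) y)
  refine ⟨Tv, ?_, ?_⟩ <;> unfold S4 <;> omega

end

end Pool.Agent.Lib.MP_1a3405_co
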