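import Mathlib
import Pool.Agent.Lib.MP_1a3405_co.ThreeEnds

/-!
Local conditions in a plane of odd index for the cells which are closed in the neighbouring
planes.
-/

namespace Pool.Agent.Lib.MP_1a3405_co

/-- local condition for cells whose two vertical neighbours are initially infected -/
def Side (n : ℤ) (O : ℤ → ℤ → Prop) (T : ℤ → ℤ → ℤ) (x y : ℤ) : Prop :=
  S4 n O T 2 x y ≤ 1 ∧ 2 ≤ S4 n O T 1 x y

section

variable {n : ℤ} {O : ℤ → ℤ → Prop} {T : ℤ → ℤ → ℤ}

lemma ne_of {c x y : ℤ} (h : bx n x y → O x y ∧ c < T x y + 2) :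
    ind (St n O T 2 c x y) = 0 := by
  apply ind_false
  rintro ⟨h1, h2⟩
  obtain ⟨h3, h4⟩ := h h1
  rcases h2 with h2 | h2
  · exact h2 h3
  · omega

lemma bf_closed {c x y : ℤ} (h1 : bx n x y) (h2 : ¬ O x y) :
    ind (St n O T 1 c x y) = 1 := ind_true ⟨h1, Or.inl h2⟩

lemma bf_time {c x y : ℤ} (h1 : bx n x y) (h2 : T x y + 1 ≤ c) :
    ind (St n O T 1 c x y) = 1 := ind_true ⟨h1, Or.inr h2⟩

end

section

variable {n H m W : ℤ} {h a : ℤ → ℤ}

/-- a cell `(x, 2i+1)` is closed in a plane of odd index if `x` is an interior column which is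
not higher -/
lemma closed_odd {x y : ℤ} (hx1 : 3 ≤ x) (hx2 : x ≤ n - 2)
    (hy1 : y - h x ≤ 2 * m + 1) (hy : (y - h x) % 2 = 1)
    (hh : ¬ (h (x - 1) = h x + 1 ∨ h (x + 1) = h x + 1)) : ¬ OO n m h x y := by
  unfold OO LK
  rintro ((h1 | h1 | h1) | h1 | h1 | h1)
  · omega
  · omega
  · omega
  · tauto
  · omega
  · omega

lemma closed_top (pf : Prof3 n H m W h a) {x y : ℤ} (hx1 : 3 ≤ x) (hx2 : x ≤ n - 1)
    (hy : y - h x = 2 * m + 1)
    (hh : ¬ (h (x - 1) = h x + 1 ∨ h (x + 1) = h x + 1)) : ¬ OO n m h x y := by
  have m3 := pf.m3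
  unfold OO LK
  rw [hy]
  rintro ((h1 | h1 | h1) | h1 | h1 | h1)
  · omega
  · omega
  · omega
  · exact hh h1.2.2.2.2.2
  · omega
  · omega

/-- connector cells -/
lemma side3_conn (pf : Prof3 n H m W h a) {x y i : ℤ} (hx1 : 4 ≤ x) (hx2 : x ≤ n - 3)
    (hi1 : 1 ≤ i) (hi2 : i ≤ m) (hy : y - h x = 2 * i + 1)
    (hs : h (x - 1) = h x + 1 ∨ h (x + 1) = h x + 1) (hbx : y ≤ n) :
    Side n (OO n m h) (TO n m W h a) x y := by
  obtain ⟨e, he, hP⟩ := P2_sign W i
  have nn := pf.nn x
  have nnl := pf.nn (x - 1)
  have lel := pf.le (x - 1)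
  have nnr := pf.nn (x + 1)
  have ler := pf.le (x + 1)
  have hn := pf.hn
  have hm := pf.hm
  have a0 := a_nonneg pf (x := x) (by omega)
  have aW := a_le pf (x := x) (by omega)
  have one := pf.one x
  have Pm : ∀ p, P2 W m p = p := P2_odd hm
  rcases hs with hs | hs
  · -- left neighbour column higher
    have hr : h (x + 1) = h x := by omega
    have hv := pf.up x hs hr
    have oner := pf.one (x + 1)
    have Tv : TO n m W h a x y = s3 W i + P2 W i (a x - 1) :=
      TO_cl (by omega) hy hi2 (by omega) (by omega) (by omega)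
    have posl := pos3_step pf (x := x - 1) (by rw [sub_add_cancel]; omega)
    rw [sub_add_cancel] at posl
    have al0 := a_nonneg pf (x := x - 1) (by omega)
    have prv := P2_range (W := W) (i := i) (p := a x - 1) (by omega) (by omega)
    have Tl : TO n m W h a (x - 1) y = s3 W i + P2 W i (a x - 1) - e := by
      rw [TO_line (i := i) (by omega) (by omega) hi2]
      have h1 := (hP (a x - 1)).2
      have : a (x - 1) = a x - 1 - 1 := by omega
      rw [this]; omega
    have Td : TO n m W h a x (y - 1) = s3 W i + P2 W i (a x - 1) + e := by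
      rw [TO_line (i := i) (by omega) (by omega) hi2]
      have h1 := (hP (a x)).2
      omega
    have Tu : TO n m W h a x y < TO n m W h a x (y + 1) + 2 := by
      rcases eq_or_lt_of_le hi2 with him | him
      · subst him
        rw [Tv, TO_B (by omega) (by omega), Pm]
        omega
      · rw [Tv, TO_line (i := i + 1) (by omega) (by omega) (by omega), s3_succ]
        have pr := P2_range (W := W) (i := i + 1) (p := a x) (by omega) (by omega)
        omega
    have Ou : OO n m h x (y + 1) := by
      rcases eq_or_lt_of_le hi2 with him | him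
      · right; right; left; omega
      · left; left
        exact ⟨by omega, by omega, by omega, by omega, by omega⟩
    have Ol : OO n m h (x - 1) y := by
      left; left
      exact ⟨by omega, by omega, by omega, by omega, by omega⟩
    have Od : OO n m h x (y - 1) := by
      left; left
      exact ⟨by omega, by omega, by omega, by omega, by omega⟩
    have Cr : ¬ OO n m h (x + 1) y := by
      apply closed_odd (by omega) (by omega) (by omega) (by omega)
      rw [add_sub_cancel_right]
      rw [add_sub_cancel_right] at oner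
      omega
    have z1 : ind (St n (OO n m h) (TO n m W h a) 2 (TO n m W h a x y) (x - 1) y) = 0 :=
      ne_of fun _ => ⟨Ol, by omega⟩
    have z2 : ind (St n (OO n m h) (TO n m W h a) 2 (TO n m W h a x y) x (y - 1)) = 0 :=
      ne_of fun _ => ⟨Od, by omega⟩
    have z3 : ind (St n (OO n m h) (TO n m W h a) 2 (TO n m W h a x y) x (y + 1)) = 0 :=
      ne_of fun _ => ⟨Ou, by omega⟩
    have z4 := ind_le_one (St n (OO n m h) (TO n m W h a) 2 (TO n m W h a x y) (x + 1) y)
    have b1 : ind (St n (OO n m h) (TO n m W h a) 1 (TO n m W h a x y) (x + 1) y) = 1 :=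
      bf_closed ⟨by omega, by omega, by omega, by omega⟩ Cr
    have n1 := ind_nonneg (St n (OO n m h) (TO n m W h a) 1 (TO n m W h a x y) (x - 1) y)
    have n2 := ind_nonneg (St n (OO n m h) (TO n m W h a) 1 (TO n m W h a x y) x (y - 1))
    have n3 := ind_nonneg (St n (OO n m h) (TO n m W h a) 1 (TO n m W h a x y) x (y + 1))
    refine ⟨by unfold S4; omega, ?_⟩
    rcases he with he | he
    · have b2 : ind (St n (OO n m h) (TO n m W h a) 1 (TO n m W h a x y) (x - 1) y) = 1 :=
        bf_time ⟨by omega, by omega, by omega, by omega⟩ (by omega)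
      unfold S4; omega
    · have b2 : ind (St n (OO n m h) (TO n m W h a) 1 (TO n m W h a x y) x (y - 1)) = 1 :=
        bf_time ⟨by omega, by omega, by omega, by omega⟩ (by omega)
      unfold S4; omega
  · have hl : h (x - 1) = h x := by omega
    have hv := pf.up (x - 1)
    rw [sub_add_cancel] at hv
    have onel := pf.one (x - 1)
    rw [sub_add_cancel] at onel
    have Tv : TO n m W h a x y = s3 W i + P2 W i (a x + 1) :=
      TO_cr (by omega) hy hi2 (by omega) (by omega) hs
    have posr := pos3_step pf (x := x) (Or.inl hs)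
    have prv := P2_range (W := W) (i := i) (p := a x + 1) (by omega) (by omega)
    have Tr : TO n m W h a (x + 1) y = s3 W i + P2 W i (a x + 1) + e := by
      rw [TO_line (i := i) (by omega) (by omega) hi2]
      have h1 := (hP (a x + 1)).1
      have : a (x + 1) = a x + 1 + 1 := by omega
      rw [this]; omega
    have Td : TO n m W h a x (y - 1) = s3 W i + P2 W i (a x + 1) - e := by
      rw [TO_line (i := i) (by omega) (by omega) hi2]
      have h1 := (hP (a x)).1
      omega
    have Tu : TO n m W h a x y < TO n m W h a x (y + 1) + 2 := by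
      rcases eq_or_lt_of_le hi2 with him | him
      · subst him
        rw [Tv, TO_B (by omega) (by omega), Pm]
        omega
      · rw [Tv, TO_line (i := i + 1) (by omega) (by omega) (by omega), s3_succ]
        have pr := P2_range (W := W) (i := i + 1) (p := a x) (by omega) (by omega)
        omega
    have Ou : OO n m h x (y + 1) := by
      rcases eq_or_lt_of_le hi2 with him | him
      · right; right; left; omega
      · left; left
        exact ⟨by omega, by omega, by omega, by omega, by omega⟩
    have Or' : OO n m h (x + 1) y := by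
      left; left
      exact ⟨by omega, by omega, by omega, by omega, by omega⟩
    have Od : OO n m h x (y - 1) := by
      left; left
      exact ⟨by omega, by omega, by omega, by omega, by omega⟩
    have Cl : ¬ OO n m h (x - 1) y := by
      apply closed_odd (by omega) (by omega) (by omega) (by omega)
      rw [sub_add_cancel]
      omega
    have z1 : ind (St n (OO n m h) (TO n m W h a) 2 (TO n m W h a x y) (x + 1) y) = 0 :=
      ne_of fun _ => ⟨Or', by omega⟩
    have z2 : ind (St n (OO n m h) (TO n m W h a) 2 (TO n m W h a x y) x (y - 1)) = 0 :=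
      ne_of fun _ => ⟨Od, by omega⟩
    have z3 : ind (St n (OO n m h) (TO n m W h a) 2 (TO n m W h a x y) x (y + 1)) = 0 :=
      ne_of fun _ => ⟨Ou, by omega⟩
    have z4 := ind_le_one (St n (OO n m h) (TO n m W h a) 2 (TO n m W h a x y) (x - 1) y)
    have b1 : ind (St n (OO n m h) (TO n m W h a) 1 (TO n m W h a x y) (x - 1) y) = 1 :=
      bf_closed ⟨by omega, by omega, by omega, by omega⟩ Cl
    have n1 := ind_nonneg (St n (OO n m h) (TO n m W h a) 1 (TO n m W h a x y) (x + 1) y)
    have n2 := ind_nonneg (St n (OO n m h) (TO n m W h a) 1 (TO n m W h a x y) x (y - 1))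
    have n3 := ind_nonneg (St n (OO n m h) (TO n m W h a) 1 (TO n m W h a x y) x (y + 1))
    refine ⟨by unfold S4; omega, ?_⟩
    rcases he with he | he
    · have b2 : ind (St n (OO n m h) (TO n m W h a) 1 (TO n m W h a x y) x (y - 1)) = 1 :=
        bf_time ⟨by omega, by omega, by omega, by omega⟩ (by omega)
      unfold S4; omega
    · have b2 : ind (St n (OO n m h) (TO n m W h a) 1 (TO n m W h a x y) (x + 1) y) = 1 :=
        bf_time ⟨by omega, by omega, by omega, by omega⟩ (by omega)
      unfold S4; omega

/-- cells above the last line -/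
lemma side3_B (pf : Prof3 n H m W h a) {x y : ℤ} (hb : bx n x y) (hx : x ≤ n - 1)
    (hy : 2 * m + 2 ≤ y - h x) :
    Side n (OO n m h) (TO n m W h a) x y := by
  obtain ⟨b1, b2, b3, b4⟩ := hb
  have nn := pf.nn x
  have le := pf.le x
  have hn := pf.hn
  have hm := pf.hm
  have m3 := pf.m3
  have n10 := pf.n10
  have l1 := pf.l1
  have l2 := pf.l2
  have l3 := pf.l3
  have l4 := pf.l4
  have r1 := pf.r1
  have r2 := pf.r2
  have hx5 : 5 ≤ x := by
    by_contra hc
    have : x = 1 ∨ x = 2 ∨ x = 3 ∨ x = 4 := by omega
    rcases this with rfl | rfl | rfl | rfl <;> omega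
  have one := pf.one x
  have onel := pf.one (x - 1)
  rw [sub_add_cancel] at onel
  have oner := pf.one (x + 1)
  rw [add_sub_cancel_right] at oner
  have lipl := pf.lip (x - 1)
  rw [sub_add_cancel] at lipl
  have lipr := pf.lip x
  have srr := step_range3 pf (x := x) (by omega) (by omega)
  have srl := step_range3 pf (x := x - 1) (by omega) (by omega)
  rw [sub_add_cancel] at srl
  have Pm : ∀ p, P2 W m p = p := P2_odd hm
  have Tv : TO n m W h a x y = s3 W m + a x + (y - h x - 2 * m - 2) := TO_B (by omega) hy
  -- up
  have z1 : ind (St n (OO n m h) (TO n m W h a) 2 (TO n m W h a x y) x (y + 1)) = 0 := by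
    apply ne_of
    rintro -
    refine ⟨by right; right; left; omega, ?_⟩
    rw [Tv, TO_B (by omega) (by omega)]
    omega
  -- right, if the right column is not higher or y is not the lowest
  have z2 : (h (x + 1) ≠ h x + 1 ∨ 2 * m + 3 ≤ y - h x) →
      ind (St n (OO n m h) (TO n m W h a) 2 (TO n m W h a x y) (x + 1) y) = 0 := by
    intro hc
    apply ne_of
    rintro -
    refine ⟨by right; right; left; omega, ?_⟩
    by_cases hxn : x = n - 1
    · have e1 : x + 1 = n := by omega
      have e2 : h (x + 1) = h x := by rw [hxn, sub_add_cancel, r1, r2]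
      have e3 : a x = W := by rw [hxn]; exact pf.aW
      rw [Tv, TO_n e1]
      omega
    · rw [Tv, TO_B (by omega) (by omega)]
      rcases lipr with hr | hr | hr
      · rw [pos3_flat pf hr]; omega
      · rw [pos3_step pf (Or.inl hr)]; omega
      · rw [pos3_step pf (Or.inr hr)]; omega
  -- left, if the left column is not higher
  have tl : h (x - 1) ≠ h x + 1 → OO n m h (x - 1) y ∧
      TO n m W h a (x - 1) y = TO n m W h a x y - 1 := by
    intro hc
    refine ⟨by right; right; left; omega, ?_⟩
    rw [Tv, TO_B (by omega) (by omega)]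
    rcases lipl with hl | hl | hl
    · have := pos3_flat pf (x := x - 1) (by rw [sub_add_cancel]; exact hl)
      rw [sub_add_cancel] at this
      omega
    · have := pos3_step pf (x := x - 1) (by rw [sub_add_cancel]; exact Or.inl hl)
      rw [sub_add_cancel] at this
      omega
    · omega
  have z3 : h (x - 1) ≠ h x + 1 →
      ind (St n (OO n m h) (TO n m W h a) 2 (TO n m W h a x y) (x - 1) y) = 0 := by
    intro hc
    obtain ⟨t1, t2⟩ := tl hc
    exact ne_of fun _ => ⟨t1, by omega⟩
  have w3 : ind (St n (OO n m h) (TO n m W h a) 1 (TO n m W h a x y) (x - 1) y) = 1 := by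
    by_cases hc : h (x - 1) = h x + 1
    · by_cases hy2 : y - h x = 2 * m + 2
      · refine bf_closed ⟨by omega, by omega, by omega, by omega⟩ ?_
        apply closed_odd (by omega) (by omega) (by omega) (by omega)
        rw [sub_add_cancel]
        omega
      · refine bf_time ⟨by omega, by omega, by omega, by omega⟩ ?_
        rw [Tv, TO_B (by omega) (by omega)]
        have := pos3_step pf (x := x - 1) (by rw [sub_add_cancel]; omega)
        rw [sub_add_cancel] at this
        omega
    · obtain ⟨t1, t2⟩ := tl hc
      exact bf_time ⟨by omega, by omega, by omega, by omega⟩ (by omega)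
  have u1 := ind_le_one (St n (OO n m h) (TO n m W h a) 2 (TO n m W h a x y) (x + 1) y)
  have u2 := ind_le_one (St n (OO n m h) (TO n m W h a) 2 (TO n m W h a x y) (x - 1) y)
  have u3 := ind_le_one (St n (OO n m h) (TO n m W h a) 2 (TO n m W h a x y) x (y - 1))
  have v1 := ind_nonneg (St n (OO n m h) (TO n m W h a) 1 (TO n m W h a x y) (x + 1) y)
  have v2 := ind_nonneg (St n (OO n m h) (TO n m W h a) 1 (TO n m W h a x y) x (y + 1))
  have v3 := ind_nonneg (St n (OO n m h) (TO n m W h a) 1 (TO n m W h a x y) x (y - 1))
  by_cases hy3 : 2 * m + 3 ≤ y - h x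
  · -- not the lowest row
    have Td : TO n m W h a x (y - 1) = TO n m W h a x y - 1 := by
      rw [Tv, TO_B (by omega) (by omega)]
      omega
    have z4 : ind (St n (OO n m h) (TO n m W h a) 2 (TO n m W h a x y) x (y - 1)) = 0 :=
      ne_of fun _ => ⟨by right; right; left; omega, by omega⟩
    have w4 : ind (St n (OO n m h) (TO n m W h a) 1 (TO n m W h a x y) x (y - 1)) = 1 :=
      bf_time ⟨by omega, by omega, by omega, by omega⟩ (by omega)
    have z2' := z2 (Or.inr hy3)
    refine ⟨?_, ?_⟩ <;> unfold S4 <;> omega
  · have hy2 : y - h x = 2 * m + 2 := by omega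
    by_cases hhi : h (x - 1) = h x + 1 ∨ h (x + 1) = h x + 1
    · rcases hhi with hl | hr
      · -- left higher
        have hr : h (x + 1) = h x := by omega
        have sl := srl (by omega)
        have Td : TO n m W h a x (y - 1) = TO n m W h a x y - 1 := by
          rw [Tv, TO_cl (i := m) (by omega) (by omega) (le_refl _) (by omega) (by omega)
            (by omega), Pm]
          omega
        have z4 : ind (St n (OO n m h) (TO n m W h a) 2 (TO n m W h a x y) x (y - 1)) = 0 :=
          ne_of fun _ => ⟨by
            right; left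
            exact ⟨by omega, by omega, by omega, by omega, by omega, Or.inl hl⟩, by omega⟩
        have w4 : ind (St n (OO n m h) (TO n m W h a) 1 (TO n m W h a x y) x (y - 1)) = 1 :=
          bf_time ⟨by omega, by omega, by omega, by omega⟩ (by omega)
        have z2' := z2 (Or.inl (by omega))
        refine ⟨?_, ?_⟩ <;> unfold S4 <;> omega
      · -- right higher
        have hl : h (x - 1) = h x := by omega
        have sr := srr (by omega)
        have Td : TO n m W h a x (y - 1) = TO n m W h a x y + 1 := by
          rw [Tv, TO_cr (i := m) (by omega) (by omega) (le_refl _) (by omega) (by omega)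
            hr, Pm]
          omega
        have z4 : ind (St n (OO n m h) (TO n m W h a) 2 (TO n m W h a x y) x (y - 1)) = 0 :=
          ne_of fun _ => ⟨by
            right; left
            exact ⟨by omega, by omega, by omega, by omega, by omega, Or.inr hr⟩, by omega⟩
        have z3' := z3 (by omega)
        have w5 : ind (St n (OO n m h) (TO n m W h a) 1 (TO n m W h a x y) (x + 1) y) = 1 := by
          refine bf_closed ⟨by omega, by omega, by omega, by omega⟩ ?_
          apply closed_odd (by omega) (by omega) (by omega) (by omega)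
          rw [add_sub_cancel_right]
          omega
        refine ⟨?_, ?_⟩ <;> unfold S4 <;> omega
    · -- not higher
      have z2' := z2 (Or.inl (by omega))
      have z3' := z3 (by omega)
      have w4 : ind (St n (OO n m h) (TO n m W h a) 1 (TO n m W h a x y) x (y - 1)) = 1 :=
        bf_closed ⟨by omega, by omega, by omega, by omega⟩
          (closed_top pf (by omega) hx (by omega) hhi)
      refine ⟨?_, ?_⟩ <;> unfold S4 <;> omega

/-- cells of the last column -/
lemma side3_n (pf : Prof3 n H m W h a) {x y : ℤ} (hx : x = n) (hb : y ≤ n)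
    (hy : 2 * m ≤ y - h x) :
    Side n (OO n m h) (TO n m W h a) x y := by
  have hn := pf.hn
  have hm := pf.hm
  have m3 := pf.m3
  have n10 := pf.n10
  have r1 := pf.r1
  have r2 := pf.r2
  have hx0 : h x = 0 := by rw [hx]; exact r1
  have hl0 : h (x - 1) = 0 := by rw [hx]; exact r2
  have al : a (x - 1) = W := by rw [hx]; exact pf.aW
  have Pm : ∀ p, P2 W m p = p := P2_odd hm
  have Tv : TO n m W h a x y = s3 W m + W + 1 + (y - h x - 2 * m) := TO_n hx
  have z1 : ind (St n (OO n m h) (TO n m W h a) 2 (TO n m W h a x y) x (y + 1)) = 0 := by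
    apply ne_of
    rintro -
    refine ⟨by right; right; right; exact ⟨hx, by omega⟩, ?_⟩
    rw [Tv, TO_n hx]
    omega
  have z2 : ∀ k, ind (St n (OO n m h) (TO n m W h a) k (TO n m W h a x y) (x + 1) y) = 0 := by
    intro k
    apply ind_false
    rintro ⟨⟨_, h2, _, _⟩, _⟩
    omega
  have z21 := z2 1
  have z22 := z2 2
  have u2 := ind_le_one (St n (OO n m h) (TO n m W h a) 2 (TO n m W h a x y) (x - 1) y)
  have u3 := ind_le_one (St n (OO n m h) (TO n m W h a) 2 (TO n m W h a x y) x (y - 1))
  have v2 := ind_nonneg (St n (OO n m h) (TO n m W h a) 1 (TO n m W h a x y) x (y + 1))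
  -- down is before
  have w1 : ind (St n (OO n m h) (TO n m W h a) 1 (TO n m W h a x y) x (y - 1)) = 1 := by
    refine bf_time ⟨by omega, by omega, by omega, by omega⟩ ?_
    rw [Tv, TO_n hx]
    omega
  -- left is before
  have w2 : ind (St n (OO n m h) (TO n m W h a) 1 (TO n m W h a x y) (x - 1) y) = 1 := by
    by_cases c1 : y - h x = 2 * m
    · refine bf_time ⟨by omega, by omega, by omega, by omega⟩ ?_
      rw [Tv, TO_line (i := m) (by omega) (by omega) (le_refl _), Pm]
      omega
    · by_cases c2 : y - h x = 2 * m + 1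
      · refine bf_closed ⟨by omega, by omega, by omega, by omega⟩ ?_
        unfold OO LK
        rintro ((h1 | h1 | h1) | h1 | h1 | h1) <;> omega
      · refine bf_time ⟨by omega, by omega, by omega, by omega⟩ ?_
        rw [Tv, TO_B (by omega) (by omega)]
        omega
  -- one of left, down is not early
  by_cases c1 : y - h x = 2 * m
  · have z3 : ind (St n (OO n m h) (TO n m W h a) 2 (TO n m W h a x y) (x - 1) y) = 0 := by
      apply ne_of
      rintro -
      refine ⟨?_, ?_⟩
      · left; left
        exact ⟨by omega, by omega, by omega, by omega, by omega⟩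
      · rw [Tv, TO_line (i := m) (by omega) (by omega) (le_refl _), Pm]
        omega
    refine ⟨?_, ?_⟩ <;> unfold S4 <;> omega
  · have z3 : ind (St n (OO n m h) (TO n m W h a) 2 (TO n m W h a x y) x (y - 1)) = 0 := by
      apply ne_of
      rintro -
      refine ⟨by right; right; right; exact ⟨hx, by omega⟩, ?_⟩
      rw [Tv, TO_n hx]
      omega
    refine ⟨?_, ?_⟩ <;> unfold S4 <;> omega

/-- local conditions for all the open cells of a plane of odd index not in `LK` -/
lemma side3 (pf : Prof3 n H m W h a) {x y : ℤ} (hb : bx n x y) (hO : OO n m h x y)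
    (hL : ¬ LK n m h x y) : Side n (OO n m h) (TO n m W h a) x y := by
  have hb' := hb
  obtain ⟨b1, b2, b3, b4⟩ := hb'
  rcases hO with hO | hO | hO | hO
  · exact absurd hO hL
  · obtain ⟨h1, h2, h3, h4, h5, h6⟩ := hO
    obtain ⟨i, hi⟩ : ∃ i, i = (y - h x) / 2 := ⟨_, rfl⟩
    exact side3_conn pf h1 h2 (i := i) (by omega) (by omega) (by omega) h6 b4
  · rcases eq_or_lt_of_le b2 with hx | hx
    · exact side3_n pf hx b4 (by omega)
    · exact side3_B pf hb (by omega) hO
  · exact side3_n pf hO.1 b4 hO.2

end

end Pool.Agent.Lib.MP_1a3405_co
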