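import Mathlib
import Pool.Agent.Lib.MP_1a3405_co.ThreeSide

/-!
Local conditions in the last plane; rotation of a profile; combination of the planes.
-/

namespace Pool.Agent.Lib.MP_1a3405_co

section

variable {n H m W : ℤ} {h a : ℤ → ℤ}

lemma LK_OO {x y : ℤ} (h1 : LK n m h x y) : OO n m h x y := Or.inl h1

/-- the local condition used in the last plane -/
def Top (n : ℤ) (O : ℤ → ℤ → Prop) (T : ℤ → ℤ → ℤ) (x y : ℤ) : Prop :=
  S4 n O T 2 x y ≤ 3 ∧ 3 ≤ S4 n O T 1 x y

lemma top_of_good {O : ℤ → ℤ → Prop} {T : ℤ → ℤ → ℤ} {x y : ℤ} (hg : Good n O T x y) :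
    Top n O T x y := ⟨by have := hg.1; omega, hg.2⟩

/-- interior line cells in the last plane -/
lemma top3_line (pf : Prof3 n H m W h a) {x y i : ℤ} (hx1 : 3 ≤ x) (hx2 : x ≤ n - 2)
    (hi1 : 1 ≤ i) (hi2 : i ≤ m) (hy : y - h x = 2 * i) :
    Top n (LK n m h) (TO n m W h a) x y := by
  obtain ⟨e, he, hP⟩ := P2_sign W i
  have hPa := hP (a x)
  have nn := pf.nn x
  have le := pf.le x
  have nnl := pf.nn (x - 1)
  have lel := pf.le (x - 1)
  have nnr := pf.nn (x + 1)
  have ler := pf.le (x + 1)
  have hn := pf.hn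
  have Tv : TO n m W h a x y = s3 W i + P2 W i (a x) := TO_line (by omega) hy hi2
  have srr := step_range3 pf (x := x) (by omega) (by omega)
  have srl := step_range3 pf (x := x - 1) (by omega) (by omega)
  rw [sub_add_cancel] at srl
  have lipl := pf.lip (x - 1)
  rw [sub_add_cancel] at lipl
  have lipr := pf.lip x
  have one := pf.one x
  have ub : ind (St n (LK n m h) (TO n m W h a) 1 (TO n m W h a x y) x (y + 1)) = 1 := by
    refine bf_closed ⟨by omega, by omega, by omega, by omega⟩ ?_
    unfold LK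
    rintro (h1 | h1 | h1) <;> omega
  have db : ind (St n (LK n m h) (TO n m W h a) 1 (TO n m W h a x y) x (y - 1)) = 1 := by
    refine bf_closed ⟨by omega, by omega, by omega, by omega⟩ ?_
    unfold LK
    rintro (h1 | h1 | h1) <;> omega
  have u1 := ind_le_one (St n (LK n m h) (TO n m W h a) 2 (TO n m W h a x y) (x + 1) y)
  have u2 := ind_le_one (St n (LK n m h) (TO n m W h a) 2 (TO n m W h a x y) (x - 1) y)
  have u3 := ind_le_one (St n (LK n m h) (TO n m W h a) 2 (TO n m W h a x y) x (y + 1))
  have u4 := ind_le_one (St n (LK n m h) (TO n m W h a) 2 (TO n m W h a x y) x (y - 1))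
  have v1 := ind_nonneg (St n (LK n m h) (TO n m W h a) 1 (TO n m W h a x y) (x + 1) y)
  have v2 := ind_nonneg (St n (LK n m h) (TO n m W h a) 1 (TO n m W h a x y) (x - 1) y)
  -- left, flat
  have lf : h (x - 1) = h x → LK n m h (x - 1) y ∧
      TO n m W h a (x - 1) y = TO n m W h a x y - e := by
    intro hl
    refine ⟨by left; exact ⟨by omega, by omega, by omega, by omega, by omega⟩, ?_⟩
    have posl := pos3_flat pf (x := x - 1) (by rw [sub_add_cancel]; omega)
    rw [sub_add_cancel] at posl
    rw [Tv, TO_line (i := i) (by omega) (by omega) hi2]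
    have : a (x - 1) = a x - 1 := by omega
    rw [this]; omega
  have rf : h (x + 1) = h x → LK n m h (x + 1) y ∧
      TO n m W h a (x + 1) y = TO n m W h a x y + e := by
    intro hr
    refine ⟨by left; exact ⟨by omega, by omega, by omega, by omega, by omega⟩, ?_⟩
    rw [Tv, TO_line (i := i) (by omega) (by omega) hi2, pos3_flat pf hr]
    omega
  refine ⟨?_, ?_⟩
  · rcases one with hl | hr
    · obtain ⟨q1, q2⟩ := lf hl
      have z : ind (St n (LK n m h) (TO n m W h a) 2 (TO n m W h a x y) (x - 1) y) = 0 :=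
        ne_of fun _ => ⟨q1, by omega⟩
      unfold S4; omega
    · obtain ⟨q1, q2⟩ := rf hr
      have z : ind (St n (LK n m h) (TO n m W h a) 2 (TO n m W h a x y) (x + 1) y) = 0 :=
        ne_of fun _ => ⟨q1, by omega⟩
      unfold S4; omega
  · rcases he with he | he
    · -- the predecessor is on the left
      have w : ind (St n (LK n m h) (TO n m W h a) 1 (TO n m W h a x y) (x - 1) y) = 1 := by
        by_cases hl : h (x - 1) = h x
        · obtain ⟨q1, q2⟩ := lf hl
          exact bf_time ⟨by omega, by omega, by omega, by omega⟩ (by omega)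
        · have sl := srl (by omega)
          refine bf_closed ⟨by omega, by omega, by omega, by omega⟩ ?_
          unfold LK
          rintro (h1 | h1 | h1) <;> omega
      unfold S4; omega
    · have w : ind (St n (LK n m h) (TO n m W h a) 1 (TO n m W h a x y) (x + 1) y) = 1 := by
        by_cases hr : h (x + 1) = h x
        · obtain ⟨q1, q2⟩ := rf hr
          exact bf_time ⟨by omega, by omega, by omega, by omega⟩ (by omega)
        · have sr := srr (by omega)
          refine bf_closed ⟨by omega, by omega, by omega, by omega⟩ ?_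
          unfold LK
          rintro (h1 | h1 | h1) <;> omega
      unfold S4; omega

/-- the end of the last line in the last plane -/
lemma top3_last (pf : Prof3 n H m W h a) {x y : ℤ} (hx : x = n - 1) (hy : y - h x = 2 * m) :
    Top n (LK n m h) (TO n m W h a) x y := by
  have nn := pf.nn x
  have le := pf.le x
  have hn := pf.hn
  have hm := pf.hm
  have m3 := pf.m3
  have n10 := pf.n10
  obtain ⟨r1, r2, aW, al, h0⟩ := right_facts pf hx
  have Tv : TO n m W h a x y = s3 W m + W := by
    rw [TO_line (i := m) (by omega) hy (le_refl _), P2_odd hm, aW]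
  have Tl : TO n m W h a (x - 1) y = s3 W m + (W - 1) := by
    rw [TO_line (i := m) (by omega) (by omega) (le_refl _), P2_odd hm, al]
  have Ol : LK n m h (x - 1) y := by
    left
    exact ⟨by omega, by omega, by omega, by omega, by omega⟩
  have ub : ind (St n (LK n m h) (TO n m W h a) 1 (TO n m W h a x y) x (y + 1)) = 1 := by
    refine bf_closed ⟨by omega, by omega, by omega, by omega⟩ ?_
    unfold LK
    rintro (h1 | h1 | h1) <;> omega
  have db : ind (St n (LK n m h) (TO n m W h a) 1 (TO n m W h a x y) x (y - 1)) = 1 := by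
    refine bf_closed ⟨by omega, by omega, by omega, by omega⟩ ?_
    unfold LK
    rintro (h1 | h1 | h1) <;> omega
  have w : ind (St n (LK n m h) (TO n m W h a) 1 (TO n m W h a x y) (x - 1) y) = 1 :=
    bf_time ⟨by omega, by omega, by omega, by omega⟩ (by omega)
  have z : ind (St n (LK n m h) (TO n m W h a) 2 (TO n m W h a x y) (x - 1) y) = 0 :=
    ne_of fun _ => ⟨Ol, by omega⟩
  have u1 := ind_le_one (St n (LK n m h) (TO n m W h a) 2 (TO n m W h a x y) (x + 1) y)
  have u3 := ind_le_one (St n (LK n m h) (TO n m W h a) 2 (TO n m W h a x y) x (y + 1))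
  have u4 := ind_le_one (St n (LK n m h) (TO n m W h a) 2 (TO n m W h a x y) x (y - 1))
  have v1 := ind_nonneg (St n (LK n m h) (TO n m W h a) 1 (TO n m W h a x y) (x + 1) y)
  refine ⟨?_, ?_⟩ <;> unfold S4 <;> omega

/-- local conditions in the last plane -/
lemma top3 (pf : Prof3 n H m W h a) {x y : ℤ} (hL : LK n m h x y) :
    Top n (LK n m h) (TO n m W h a) x y := by
  have hO1 : ∀ x y, LK n m h x y → LK n m h x y := fun _ _ h => h
  have hO2 : ∀ x y, LK n m h x y → OO n m h x y := fun _ _ h => LK_OO h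
  have n10 := pf.n10
  rcases hL with hL | hL | hL
  · obtain ⟨h1, h2, h3, h4, h5⟩ := hL
    obtain ⟨i, hi⟩ : ∃ i, i = (y - h x) / 2 := ⟨_, rfl⟩
    have hy : y - h x = 2 * i := by omega
    by_cases c1 : x = 2
    · subst c1
      by_cases c2 : 2 ≤ i
      · exact top_of_good (good3_left pf hO1 hO2 c2 (by omega) hy)
      · have := first3 pf hO1 hO2 (y := y) (by omega)
        exact ⟨this.2.1, this.2.2⟩
    · by_cases c2 : x = n - 1
      · by_cases c3 : i = m
        · exact top3_last pf c2 (by omega)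
        · exact top_of_good (good3_right pf hO1 hO2 c2 (i := i) (by omega) (by omega) hy)
      · exact top3_line pf (by omega) (by omega) (by omega) (by omega) hy
  · obtain ⟨h1, h2, h3, h4⟩ := hL
    subst h1
    exact top_of_good (good3_turn_left pf hO1 hO2 h2 h3 h4)
  · obtain ⟨h1, h2, h3, h4⟩ := hL
    exact top_of_good (good3_turn_right pf hO1 hO2 h1 h2 h3 h4)

/-- local conditions for the cells of `LK` in a plane of odd index -/
lemma local3_LK (pf : Prof3 n H m W h a) {x y : ℤ} (hL : LK n m h x y) :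
    (x = 2 ∧ y - h 2 = 2 ∧ TO n m W h a x y = 0 ∧ Top n (OO n m h) (TO n m W h a) x y) ∨
      Good n (OO n m h) (TO n m W h a) x y := by
  have hO1 : ∀ x y, LK n m h x y → OO n m h x y := fun _ _ h => LK_OO h
  have hO2 : ∀ x y, OO n m h x y → OO n m h x y := fun _ _ h => h
  have n10 := pf.n10
  rcases hL with hL | hL | hL
  · obtain ⟨h1, h2, h3, h4, h5⟩ := hL
    obtain ⟨i, hi⟩ : ∃ i, i = (y - h x) / 2 := ⟨_, rfl⟩
    have hy : y - h x = 2 * i := by omega
    by_cases c1 : x = 2
    · subst c1
      by_cases c2 : 2 ≤ i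
      · right; exact good3_left pf hO1 hO2 c2 (by omega) hy
      · left
        have := first3 pf hO1 hO2 (y := y) (by omega)
        exact ⟨rfl, by omega, this.1, this.2.1, this.2.2⟩
    · right
      by_cases c2 : x = n - 1
      · by_cases c3 : i = m
        · exact good3_last pf c2 (by omega)
        · exact good3_right pf hO1 hO2 c2 (i := i) (by omega) (by omega) hy
      · exact good3_line pf (by omega) (by omega) (by omega) (by omega) hy
  · obtain ⟨h1, h2, h3, h4⟩ := hL
    subst h1
    right; exact good3_turn_left pf hO1 hO2 h2 h3 h4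
  · obtain ⟨h1, h2, h3, h4⟩ := hL
    right; exact good3_turn_right pf hO1 hO2 h1 h2 h3 h4

/-- bounds for the time on the cells of `LK` -/
lemma TO_bounds (pf : Prof3 n H m W h a) {x y : ℤ} (hL : LK n m h x y) :
    0 ≤ TO n m W h a x y ∧ TO n m W h a x y ≤ m * (W + 2) - 2 := by
  have n10 := pf.n10
  have hm := pf.hm
  have W0 : 0 ≤ W := by
    have h1 := a_nonneg pf (x := n - 1) (by omega)
    rw [pf.aW] at h1; exact h1
  have bound : ∀ i, 1 ≤ i → i ≤ m → 0 ≤ s3 W i ∧ s3 W i + W + 2 ≤ m * (W + 2) := by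
    intro i hi1 hi2
    unfold s3
    constructor
    · apply mul_nonneg <;> omega
    · have h1 : (i - 1) * (W + 2) + W + 2 = i * (W + 2) := by ring
      rw [h1]
      apply mul_le_mul_of_nonneg_right hi2; omega
  rcases hL with hL | hL | hL
  · obtain ⟨h1, h2, h3, h4, h5⟩ := hL
    obtain ⟨i, hi⟩ : ∃ i, i = (y - h x) / 2 := ⟨_, rfl⟩
    rw [TO_line (i := i) (by omega) (by omega) (by omega)]
    have b := bound i (by omega) (by omega)
    have a0 := a_nonneg pf (x := x) h1
    have a1 := a_le pf (x := x) h2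
    have p := P2_range (W := W) (i := i) (p := a x) a0 (by omega)
    omega
  · obtain ⟨h1, h2, h3, h4⟩ := hL
    obtain ⟨i, hi⟩ : ∃ i, i = (y - h x) / 2 := ⟨_, rfl⟩
    rw [TO_K (i := i) (by omega) (by omega) (by omega) (Or.inr h1)]
    have b := bound i (by omega) (by omega)
    have b' := bound (i + 1) (by omega) (by omega)
    rw [s3_succ] at b'
    omega
  · obtain ⟨h1, h2, h3, h4⟩ := hL
    obtain ⟨i, hi⟩ : ∃ i, i = (y - h x) / 2 := ⟨_, rfl⟩
    rw [TO_K (i := i) (by omega) (by omega) (by omega) (Or.inl h1)]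
    have b := bound i (by omega) (by omega)
    have b' := bound (i + 1) (by omega) (by omega)
    rw [s3_succ] at b'
    omega

/-- the rotated profile -/
def rh (n H : ℤ) (h : ℤ → ℤ) (x : ℤ) : ℤ := H - h (n + 1 - x)

/-- the rotated position function -/
def ra (n W : ℤ) (a : ℤ → ℤ) (x : ℤ) : ℤ := W - a (n + 1 - x)

lemma rh_rh : rh n H (rh n H h) = h := by
  funext x
  unfold rh
  have : n + 1 - (n + 1 - x) = x := by ring
  rw [this]; ring

lemma ra_ra : ra n W (ra n W a) = a := by
  funext x
  unfold ra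
  have : n + 1 - (n + 1 - x) = x := by ring
  rw [this]; ring

lemma rh_apply (x : ℤ) : rh n H h (n + 1 - x) = H - h x := by
  unfold rh
  have : n + 1 - (n + 1 - x) = x := by ring
  rw [this]

lemma Prof3.rot (pf : Prof3 n H m W h a) : Prof3 n H m W (rh n H h) (ra n W a) := by
  have hn := pf.hn
  constructor
  · intro x; have := pf.le (n + 1 - x); unfold rh; omega
  · intro x; have := pf.nn (n + 1 - x); unfold rh; omega
  · intro x
    have := pf.lip (n - x)
    unfold rh
    have e1 : n + 1 - (x + 1) = n - x := by ring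
    have e2 : n + 1 - x = n - x + 1 := by ring
    rw [e1, e2]
    omega
  · intro x
    have := pf.pos (n - x)
    unfold ra rh
    have e1 : n + 1 - (x + 1) = n - x := by ring
    have e2 : n + 1 - x = n - x + 1 := by ring
    rw [e1, e2]
    have e3 : H - h (n - x) - (H - h (n - x + 1)) = h (n - x + 1) - h (n - x) := by ring
    rw [e3]
    linarith
  · intro x
    have := pf.one (n + 1 - x)
    unfold rh
    have e1 : n + 1 - (x - 1) = n + 1 - x + 1 := by ring
    have e2 : n + 1 - (x + 1) = n + 1 - x - 1 := by ring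
    rw [e1, e2]
    omega
  · intro x
    have h1 := pf.dn (n + 1 - x - 1)
    have h2 := pf.lip (n + 1 - x - 1 - 1)
    unfold rh
    have e1 : n + 1 - (x - 1) = n + 1 - x + 1 := by ring
    have e2 : n + 1 - (x + 1) = n + 1 - x - 1 := by ring
    have e3 : n + 1 - (x + 1 + 1) = n + 1 - x - 1 - 1 := by ring
    rw [e1, e2, e3]
    rw [sub_add_cancel] at h1
    omega
  · intro x
    have h1 := pf.up (n + 1 - x - 1)
    unfold rh
    have e1 : n + 1 - (x - 1) = n + 1 - x + 1 := by ring
    have e2 : n + 1 - (x + 1) = n + 1 - x - 1 := by ring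
    have e3 : n + 1 - (x + 1 + 1) = n + 1 - x - 1 - 1 := by ring
    rw [e1, e2, e3]
    rw [sub_add_cancel] at h1
    omega
  · have := pf.r1
    unfold rh
    have e1 : n + 1 - 1 = n := by ring
    rw [e1]; omega
  · have := pf.r2
    unfold rh
    have e1 : n + 1 - 2 = n - 1 := by ring
    rw [e1]; omega
  · have := pf.r3
    unfold rh
    have e1 : n + 1 - 3 = n - 2 := by ring
    rw [e1]; omega
  · have := pf.r4
    unfold rh
    have e1 : n + 1 - 4 = n - 3 := by ring
    rw [e1]; omega
  · have := pf.l1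
    unfold rh
    have e1 : n + 1 - n = 1 := by ring
    rw [e1]; omega
  · have := pf.l2
    unfold rh
    have e1 : n + 1 - (n - 1) = 2 := by ring
    rw [e1]; omega
  · have := pf.l3
    unfold rh
    have e1 : n + 1 - (n - 2) = 3 := by ring
    rw [e1]; omega
  · have := pf.l4
    unfold rh
    have e1 : n + 1 - (n - 3) = 4 := by ring
    rw [e1]; omega
  · have := pf.aW
    unfold ra
    have e1 : n + 1 - 2 = n - 1 := by ring
    rw [e1]; omega
  · have := pf.a2
    unfold ra
    have e1 : n + 1 - (n - 1) = 2 := by ring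
    rw [e1]; omega
  · exact pf.hm
  · exact pf.m3
  · exact pf.hn
  · exact pf.n10

lemma LK_rot (pf : Prof3 n H m W h a) {x y : ℤ} :
    LK n m (rh n H h) (n + 1 - x) (n + 1 - y) ↔ LK n m h x y := by
  have hn := pf.hn
  have hm := pf.hm
  have hx := rh_apply (n := n) (H := H) (h := h) x
  unfold LK
  rw [hx]
  constructor
  · rintro (h1 | h1 | h1)
    · left; omega
    · right; right; omega
    · right; left; omega
  · rintro (h1 | h1 | h1)
    · left; omega
    · right; right; omega
    · right; left; omega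

lemma not_OO_rot (pf : Prof3 n H m W h a) {x y : ℤ} (hb : bx n x y) (hO : OO n m h x y)
    (hL : ¬ LK n m h x y) : ¬ OO n m (rh n H h) (n + 1 - x) (n + 1 - y) := by
  have hn := pf.hn
  have hm := pf.hm
  have m3 := pf.m3
  have n10 := pf.n10
  have hx := rh_apply (n := n) (H := H) (h := h) x
  obtain ⟨b1, b2, b3, b4⟩ := hb
  intro hc
  rcases hc with hc | hc | hc | hc
  · exact hL ((LK_rot pf).1 hc)
  · obtain ⟨c1, c2, c3, c4, c5, c6⟩ := hc
    have e1 : n + 1 - x - 1 = n + 1 - (x + 1) := by ring
    have e2 : n + 1 - x + 1 = n + 1 - (x - 1) := by ring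
    rw [e1, e2, rh_apply, rh_apply, rh_apply] at c6
    rw [hx] at c3 c4 c5
    have one := pf.one x
    rcases hO with hO | hO | hO | hO
    · exact hL hO
    · omega
    · omega
    · omega
  · rw [hx] at hc
    rcases hO with hO | hO | hO | hO
    · exact hL hO
    · omega
    · omega
    · omega
  · obtain ⟨c1, c2⟩ := hc
    rw [hx] at c2
    have hx1 : x = 1 := by omega
    subst hx1
    have l1 := pf.l1
    rcases hO with hO | hO | hO | hO
    · exact hL hO
    · omega
    · omega
    · omega

/-- the time of the last cell of a plane, seen from the next plane -/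
lemma TO_rot_first (pf : Prof3 n H m W h a) {y : ℤ} (hy : y - h 2 = 2) :
    TO n m W (rh n H h) (ra n W a) (n + 1 - 2) (n + 1 - y) = m * (W + 2) - 2 := by
  have hn := pf.hn
  have hm := pf.hm
  have n10 := pf.n10
  have l2 := pf.l2
  have a2 := pf.a2
  rw [TO_line (i := m) (by omega) (by rw [rh_apply]; omega) (le_refl _), P2_odd hm]
  unfold ra s3
  have e1 : n + 1 - (n + 1 - 2) = 2 := by ring
  rw [e1, a2]
  ring

/-- rotation of the plane box -/
lemma bx_rot {x y : ℤ} : bx n (n + 1 - x) (n + 1 - y) ↔ bx n x y := by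
  unfold bx; constructor <;> (rintro ⟨h1, h2, h3, h4⟩; exact ⟨by omega, by omega, by omega, by omega⟩)

lemma S4_rot (O : ℤ → ℤ → Prop) (T : ℤ → ℤ → ℤ) (k x y : ℤ) :
    S4 n (fun x y => O (n + 1 - x) (n + 1 - y)) (fun x y => T (n + 1 - x) (n + 1 - y)) k x y =
      S4 n O T k (n + 1 - x) (n + 1 - y) := by
  unfold S4 St
  have e1 : n + 1 - (x + 1) = n + 1 - x - 1 := by ring
  have e2 : n + 1 - (x - 1) = n + 1 - x + 1 := by ring
  have e3 : n + 1 - (y + 1) = n + 1 - y - 1 := by ring
  have e4 : n + 1 - (y - 1) = n + 1 - y + 1 := by ring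
  have b1 : bx n (x + 1) y ↔ bx n (n + 1 - x - 1) (n + 1 - y) := by
    rw [← e1]; exact bx_rot.symm
  have b2 : bx n (x - 1) y ↔ bx n (n + 1 - x + 1) (n + 1 - y) := by
    rw [← e2]; exact bx_rot.symm
  have b3 : bx n x (y + 1) ↔ bx n (n + 1 - x) (n + 1 - y - 1) := by
    rw [← e3]; exact bx_rot.symm
  have b4 : bx n x (y - 1) ↔ bx n (n + 1 - x) (n + 1 - y + 1) := by
    rw [← e4]; exact bx_rot.symm
  simp only [e1, e2, e3, e4, b1, b2, b3, b4]
  ring

lemma S4_shift (O : ℤ → ℤ → Prop) (T : ℤ → ℤ → ℤ) (c k x y : ℤ) :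
    S4 n O (fun x y => c + T x y) k x y = S4 n O T k x y := by
  unfold S4 St
  have : ∀ u v : ℤ, (c + u + k ≤ c + v) ↔ (u + k ≤ v) := by
    intro u v; constructor <;> intro h <;> omega
  simp only [this]

/-- combination of the conditions inside a plane with the two vertical neighbours -/
lemma plane_case (pf : Prof3 n H m W h a) {x y c : ℤ} (hb : bx n x y) (hO : OO n m h x y)
    {U1 U2 D1 D2 : Prop}
    (hU : LK n m h x y → ¬ U1 ∧ ¬ U2) (hU' : ¬ LK n m h x y → U1)
    (hD : LK n m h x y → D1) (hD' : ¬ LK n m h x y → D1)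
    (hD0 : x = 2 → y - h 2 = 2 → c ≤ 1 ∨ ¬ D2) :
    (2 ≤ c + TO n m W h a x y →
      S4 n (OO n m h) (TO n m W h a) 2 x y + ind U2 + ind D2 ≤ 3) ∧
    4 ≤ S4 n (OO n m h) (TO n m W h a) 1 x y + ind U1 + ind D1 := by
  have u2 := ind_le_one U2
  have d2 := ind_le_one D2
  by_cases hL : LK n m h x y
  · have i1 := ind_false (hU hL).1
    have i2 := ind_false (hU hL).2
    have i3 := ind_true (hD hL)
    rcases local3_LK pf hL with ⟨hx, hy, h0, h3, h4⟩ | ⟨h3, h4⟩
    · refine ⟨fun hc => ?_, by omega⟩
      rcases hD0 hx hy with h5 | h5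
      · omega
      · have i4 := ind_false h5
        omega
    · refine ⟨fun _ => by omega, by omega⟩
  · have i1 := ind_true (hU' hL)
    have i3 := ind_true (hD' hL)
    obtain ⟨h3, h4⟩ := side3 pf hb hO hL
    exact ⟨fun _ => by omega, by omega⟩

end

end Pool.Agent.Lib.MP_1a3405_co
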