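import Mathlib
import Pool.Agent.Lib.MP_1a3405_co.ThreeTop

/-!
The three-dimensional pattern and the lower bound for `M([n]^3, 4)` given by a profile.
-/

namespace Pool.Agent.Lib.MP_1a3405_co

/-- the open points of the three-dimensional pattern -/
def O3 (n H m : ℤ) (h : ℤ → ℤ) (z x y : ℤ) : Prop :=
  2 ≤ z ∧ ((z = n ∧ LK n m h x y) ∨ (z ≤ n - 1 ∧ z % 2 = 1 ∧ OO n m h x y) ∨
    (z ≤ n - 1 ∧ z % 2 = 0 ∧ OO n m (rh n H h) (n + 1 - x) (n + 1 - y)))

/-- the start time of plane `z` -/
def c3 (m W z : ℤ) : ℤ := (z - 2) * (m * (W + 2) - 1) + 1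

/-- the time in plane `z` (not the last one) -/
def B3 (n H m W : ℤ) (h a : ℤ → ℤ) (z x y : ℤ) : ℤ :=
  c3 m W z + (if z % 2 = 1 then TO n m W h a x y
    else TO n m W (rh n H h) (ra n W a) (n + 1 - x) (n + 1 - y))

/-- the time in plane `z` -/
def T3 (n H m W : ℤ) (h a : ℤ → ℤ) (z x y : ℤ) : ℤ :=
  if z = n then 1 + B3 n H m W h a (n - 1) x y else B3 n H m W h a z x y

lemma c3_succ (m W z : ℤ) : c3 m W (z + 1) = c3 m W z + (m * (W + 2) - 1) := by
  unfold c3; ring

lemma c3_pred (m W z : ℤ) : c3 m W (z - 1) = c3 m W z - (m * (W + 2) - 1) := by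
  unfold c3; ring

section

variable {n H m W : ℤ} {h a : ℤ → ℤ}

lemma O3_odd {z : ℤ} (h2 : 2 ≤ z) (hz : z ≤ n - 1) (ho : z % 2 = 1) :
    O3 n H m h z = OO n m h := by
  funext x y
  apply propext
  unfold O3
  constructor
  · rintro ⟨-, (⟨q1, -⟩ | ⟨-, -, q3⟩ | ⟨-, q2, -⟩)⟩
    · omega
    · exact q3
    · omega
  · intro q
    exact ⟨h2, Or.inr (Or.inl ⟨hz, ho, q⟩)⟩

lemma O3_even {z : ℤ} (h2 : 2 ≤ z) (hz : z ≤ n - 1) (ho : z % 2 = 0) :
    O3 n H m h z = fun x y => OO n m (rh n H h) (n + 1 - x) (n + 1 - y) := by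
  funext x y
  apply propext
  unfold O3
  constructor
  · rintro ⟨-, (⟨q1, -⟩ | ⟨-, q2, -⟩ | ⟨-, -, q3⟩)⟩
    · omega
    · omega
    · exact q3
  · intro q
    exact ⟨h2, Or.inr (Or.inr ⟨hz, ho, q⟩)⟩

lemma O3_top (h2 : 2 ≤ n) : O3 n H m h n = LK n m h := by
  funext x y
  apply propext
  unfold O3
  constructor
  · rintro ⟨-, (⟨-, q⟩ | ⟨q1, -, -⟩ | ⟨q1, -, -⟩)⟩
    · exact q
    · omega
    · omega
  · intro q
    exact ⟨h2, Or.inl ⟨rfl, q⟩⟩

lemma O3_low {z : ℤ} (hz : z ≤ 1) (x y : ℤ) : ¬ O3 n H m h z x y := by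
  rintro ⟨q, -⟩
  omega

lemma B3_odd {z : ℤ} (ho : z % 2 = 1) :
    B3 n H m W h a z = fun x y => c3 m W z + TO n m W h a x y := by
  funext x y
  unfold B3
  rw [if_pos ho]

lemma B3_even {z : ℤ} (ho : z % 2 = 0) :
    B3 n H m W h a z = fun x y => c3 m W z +
      TO n m W (rh n H h) (ra n W a) (n + 1 - x) (n + 1 - y) := by
  funext x y
  unfold B3
  rw [if_neg (by omega)]

lemma T3_lt {z : ℤ} (hz : z ≠ n) : T3 n H m W h a z = B3 n H m W h a z := by
  funext x y
  unfold T3
  rw [if_neg hz]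

lemma T3_top : T3 n H m W h a n = fun x y => 1 + B3 n H m W h a (n - 1) x y := by
  funext x y
  unfold T3
  rw [if_pos rfl]

/-- the cells of `LK` are open in each plane, with controlled time -/
lemma O3_of_LK (pf : Prof3 n H m W h a) {z x y : ℤ} (h2 : 2 ≤ z) (hz : z ≤ n)
    (hL : LK n m h x y) : O3 n H m h z x y := by
  rcases eq_or_lt_of_le hz with hzn | hzn
  · subst hzn
    rw [O3_top h2]; exact hL
  · rcases Int.emod_two_eq_zero_or_one z with ho | ho
    · rw [O3_even h2 (by omega) ho]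
      exact Or.inl ((LK_rot pf).2 hL)
    · rw [O3_odd h2 (by omega) ho]
      exact Or.inl hL

lemma B3_bounds (pf : Prof3 n H m W h a) {z x y : ℤ} (hL : LK n m h x y) :
    c3 m W z ≤ B3 n H m W h a z x y ∧
      B3 n H m W h a z x y ≤ c3 m W z + (m * (W + 2) - 2) := by
  rcases Int.emod_two_eq_zero_or_one z with ho | ho
  · rw [B3_even ho]
    have := TO_bounds pf.rot ((LK_rot pf).2 hL)
    constructor <;> linarith [this.1, this.2]
  · rw [B3_odd ho]
    have := TO_bounds pf hL
    constructor <;> linarith [this.1, this.2]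

/-- open cells outside `LK` are closed in the neighbouring planes -/
lemma not_O3_next (pf : Prof3 n H m W h a) {z z' x y : ℤ} (h2 : 2 ≤ z) (hz : z ≤ n - 1)
    (hz' : z' = z + 1 ∨ z' = z - 1) (hb : bx n x y)
    (hO : O3 n H m h z x y) (hL : ¬ LK n m h x y) : ¬ O3 n H m h z' x y := by
  rcases lt_or_ge z' 2 with h2' | h2'
  · exact O3_low (by omega) x y
  rcases eq_or_lt_of_le (show z' ≤ n by omega) with hzn | hzn
  · subst hzn
    rw [O3_top h2']; exact hL
  rcases Int.emod_two_eq_zero_or_one z with ho | ho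
  · rw [O3_even h2 (by omega) ho] at hO
    rw [O3_odd h2' (by omega) (by omega)]
    have := not_OO_rot pf.rot (bx_rot.2 hb) hO (fun hc => hL ((LK_rot pf).1 hc))
    rw [rh_rh] at this
    have e1 : n + 1 - (n + 1 - x) = x := by ring
    have e2 : n + 1 - (n + 1 - y) = y := by ring
    rw [e1, e2] at this
    exact this
  · rw [O3_odd h2 (by omega) ho] at hO
    rw [O3_even h2' (by omega) (by omega)]
    exact not_OO_rot pf hb hO hL

/-- local conditions at the points of the planes `2 ≤ z ≤ n - 1` -/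
lemma local3_mid (pf : Prof3 n H m W h a) {z x y : ℤ} (h2 : 2 ≤ z) (hz : z ≤ n - 1)
    (hb : bx n x y) (hO : O3 n H m h z x y) :
    (2 ≤ T3 n H m W h a z x y → S4 n (O3 n H m h z) (T3 n H m W h a z) 2 x y
        + ind (z + 1 ≤ n ∧ (¬ O3 n H m h (z + 1) x y ∨
            T3 n H m W h a (z + 1) x y + 2 ≤ T3 n H m W h a z x y))
        + ind (1 ≤ z - 1 ∧ (¬ O3 n H m h (z - 1) x y ∨
            T3 n H m W h a (z - 1) x y + 2 ≤ T3 n H m W h a z x y)) ≤ 3) ∧
      4 ≤ S4 n (O3 n H m h z) (T3 n H m W h a z) 1 x y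
        + ind (z + 1 ≤ n ∧ (¬ O3 n H m h (z + 1) x y ∨
            T3 n H m W h a (z + 1) x y + 1 ≤ T3 n H m W h a z x y))
        + ind (1 ≤ z - 1 ∧ (¬ O3 n H m h (z - 1) x y ∨
            T3 n H m W h a (z - 1) x y + 1 ≤ T3 n H m W h a z x y)) := by
  have Tz : T3 n H m W h a z = B3 n H m W h a z := T3_lt (by omega)
  have Tzp : T3 n H m W h a (z - 1) = B3 n H m W h a (z - 1) := T3_lt (by omega)
  -- upper neighbour of a cell of LK is later
  have up : LK n m h x y → O3 n H m h (z + 1) x y ∧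
      T3 n H m W h a z x y < T3 n H m W h a (z + 1) x y := by
    intro hL
    refine ⟨O3_of_LK pf (by omega) (by omega) hL, ?_⟩
    rw [Tz]
    rcases eq_or_lt_of_le (show z + 1 ≤ n by omega) with hzn | hzn
    · rw [hzn, T3_top]
      have : n - 1 = z := by omega
      rw [this]
      simp only
      omega
    · rw [T3_lt (by omega)]
      have b1 := B3_bounds pf (z := z) hL
      have b2 := B3_bounds pf (z := z + 1) hL
      rw [c3_succ] at b2
      linarith [b1.2, b2.1]
  have dn : LK n m h x y → ¬ O3 n H m h (z - 1) x y ∨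
      T3 n H m W h a (z - 1) x y + 1 ≤ T3 n H m W h a z x y := by
    intro hL
    right
    rw [Tz, Tzp]
    have b1 := B3_bounds pf (z := z) hL
    have b2 := B3_bounds pf (z := z - 1) hL
    rw [c3_pred] at b2
    linarith [b1.1, b2.2]
  have hU : LK n m h x y →
      ¬ (z + 1 ≤ n ∧ (¬ O3 n H m h (z + 1) x y ∨
          T3 n H m W h a (z + 1) x y + 1 ≤ T3 n H m W h a z x y)) ∧
      ¬ (z + 1 ≤ n ∧ (¬ O3 n H m h (z + 1) x y ∨
          T3 n H m W h a (z + 1) x y + 2 ≤ T3 n H m W h a z x y)) := by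
    intro hL
    obtain ⟨u1, u2⟩ := up hL
    constructor
    · rintro ⟨-, q | q⟩
      · exact q u1
      · omega
    · rintro ⟨-, q | q⟩
      · exact q u1
      · omega
  have hU' : ¬ LK n m h x y →
      (z + 1 ≤ n ∧ (¬ O3 n H m h (z + 1) x y ∨
          T3 n H m W h a (z + 1) x y + 1 ≤ T3 n H m W h a z x y)) := by
    intro hL
    exact ⟨by omega, Or.inl (not_O3_next pf h2 hz (Or.inl rfl) hb hO hL)⟩
  have hD : LK n m h x y →
      (1 ≤ z - 1 ∧ (¬ O3 n H m h (z - 1) x y ∨
          T3 n H m W h a (z - 1) x y + 1 ≤ T3 n H m W h a z x y)) :=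
    fun hL => ⟨by omega, dn hL⟩
  have hD' : ¬ LK n m h x y →
      (1 ≤ z - 1 ∧ (¬ O3 n H m h (z - 1) x y ∨
          T3 n H m W h a (z - 1) x y + 1 ≤ T3 n H m W h a z x y)) := by
    intro hL
    exact ⟨by omega, Or.inl (not_O3_next pf h2 hz (Or.inr rfl) hb hO hL)⟩
  rcases Int.emod_two_eq_zero_or_one z with ho | ho
  · -- even plane
    have hO' : OO n m (rh n H h) (n + 1 - x) (n + 1 - y) := by
      rw [O3_even h2 hz ho] at hO; exact hO
    have hS : ∀ k, S4 n (O3 n H m h z) (T3 n H m W h a z) k x y =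
        S4 n (OO n m (rh n H h)) (TO n m W (rh n H h) (ra n W a)) k (n + 1 - x) (n + 1 - y) := by
      intro k
      rw [O3_even h2 hz ho, Tz, B3_even ho]
      have e1 := S4_shift (n := n) (fun x y => OO n m (rh n H h) (n + 1 - x) (n + 1 - y))
        (fun x y => TO n m W (rh n H h) (ra n W a) (n + 1 - x) (n + 1 - y)) (c3 m W z) k x y
      have e2 := S4_rot (n := n) (OO n m (rh n H h)) (TO n m W (rh n H h) (ra n W a)) k x y
      rw [← e2, ← e1]
    have hTz : T3 n H m W h a z x y = c3 m W z +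
        TO n m W (rh n H h) (ra n W a) (n + 1 - x) (n + 1 - y) := by
      rw [Tz, B3_even ho]
    have := plane_case pf.rot (c := c3 m W z) (bx_rot.2 hb) hO'
      (U1 := (z + 1 ≤ n ∧ (¬ O3 n H m h (z + 1) x y ∨
          T3 n H m W h a (z + 1) x y + 1 ≤ T3 n H m W h a z x y)))
      (U2 := (z + 1 ≤ n ∧ (¬ O3 n H m h (z + 1) x y ∨
          T3 n H m W h a (z + 1) x y + 2 ≤ T3 n H m W h a z x y)))
      (D1 := (1 ≤ z - 1 ∧ (¬ O3 n H m h (z - 1) x y ∨
          T3 n H m W h a (z - 1) x y + 1 ≤ T3 n H m W h a z x y)))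
      (D2 := (1 ≤ z - 1 ∧ (¬ O3 n H m h (z - 1) x y ∨
          T3 n H m W h a (z - 1) x y + 2 ≤ T3 n H m W h a z x y)))
      (fun hL => hU ((LK_rot pf).1 hL)) (fun hL => hU' (fun hc => hL ((LK_rot pf).2 hc)))
      (fun hL => hD ((LK_rot pf).1 hL)) (fun hL => hD' (fun hc => hL ((LK_rot pf).2 hc)))
      (by
        intro q1 q2
        by_cases hz2 : z = 2
        · left; rw [hz2]; unfold c3; norm_num
        · right
          rintro ⟨-, q3⟩
          have hLr : LK n m (rh n H h) (n + 1 - x) (n + 1 - y) := by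
            rw [q1]
            left
            have n10 := pf.n10
            have m3 := pf.m3
            exact ⟨by omega, by omega, by omega, by omega, by omega⟩
          have hL : LK n m h x y := (LK_rot pf).1 hLr
          have hOz : O3 n H m h (z - 1) x y := O3_of_LK pf (by omega) (by omega) hL
          have ht : T3 n H m W h a (z - 1) x y = c3 m W (z - 1) + (m * (W + 2) - 2) := by
            rw [Tzp, B3_odd (by omega)]
            have e3 := TO_rot_first pf.rot q2
            have e1 : n + 1 - 2 = x := by omega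
            have e2 : n + 1 - (n + 1 - y) = y := by ring
            rw [rh_rh, ra_ra, e1, e2] at e3
            simp only [e3]
          have hb2 := (TO_bounds pf.rot hLr).1
          have h0 : TO n m W (rh n H h) (ra n W a) (n + 1 - x) (n + 1 - y) = 0 := by
            rw [q1]
            exact (first3 pf.rot (O := OO n m (rh n H h)) (fun _ _ h => LK_OO h)
              (fun _ _ h => h) q2).1
          rw [ht, hTz, h0, c3_pred] at q3
          rcases q3 with q3 | q3
          · exact q3 hOz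
          · linarith)
    rw [← hS 2, ← hS 1, ← hTz] at this
    exact this
  · -- odd plane
    have hO' : OO n m h x y := by
      rw [O3_odd h2 hz ho] at hO; exact hO
    have hS : ∀ k, S4 n (O3 n H m h z) (T3 n H m W h a z) k x y =
        S4 n (OO n m h) (TO n m W h a) k x y := by
      intro k
      rw [O3_odd h2 hz ho, Tz, B3_odd ho]
      exact S4_shift _ _ _ _ _ _
    have hTz : T3 n H m W h a z x y = c3 m W z + TO n m W h a x y := by
      rw [Tz, B3_odd ho]
    have := plane_case pf (c := c3 m W z) hb hO'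
      (U1 := (z + 1 ≤ n ∧ (¬ O3 n H m h (z + 1) x y ∨
          T3 n H m W h a (z + 1) x y + 1 ≤ T3 n H m W h a z x y)))
      (U2 := (z + 1 ≤ n ∧ (¬ O3 n H m h (z + 1) x y ∨
          T3 n H m W h a (z + 1) x y + 2 ≤ T3 n H m W h a z x y)))
      (D1 := (1 ≤ z - 1 ∧ (¬ O3 n H m h (z - 1) x y ∨
          T3 n H m W h a (z - 1) x y + 1 ≤ T3 n H m W h a z x y)))
      (D2 := (1 ≤ z - 1 ∧ (¬ O3 n H m h (z - 1) x y ∨
          T3 n H m W h a (z - 1) x y + 2 ≤ T3 n H m W h a z x y)))
      hU hU' hD hD'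
      (by
        intro q1 q2
        right
        rintro ⟨-, q3⟩
        have hL : LK n m h x y := by
          rw [q1]
          left
          have n10 := pf.n10
          have m3 := pf.m3
          exact ⟨by omega, by omega, by omega, by omega, by omega⟩
        have hOz : O3 n H m h (z - 1) x y := O3_of_LK pf (by omega) (by omega) hL
        have ht : T3 n H m W h a (z - 1) x y = c3 m W (z - 1) + (m * (W + 2) - 2) := by
          rw [Tzp, B3_even (by omega)]
          have e3 := TO_rot_first pf q2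
          have e1 : n + 1 - x = n + 1 - 2 := by rw [q1]
          simp only [e1, e3]
        have h0 : TO n m W h a x y = 0 := by
          rw [q1]
          exact (first3 pf (O := OO n m h) (fun _ _ h => LK_OO h)
            (fun _ _ h => h) q2).1
        rw [ht, hTz, h0, c3_pred] at q3
        rcases q3 with q3 | q3
        · exact q3 hOz
        · linarith)
    rw [← hS 2, ← hS 1, ← hTz] at this
    exact this

/-- local conditions in the last plane -/
lemma local3_top (pf : Prof3 n H m W h a) {x y : ℤ} 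
    (hO : O3 n H m h n x y) :
    (2 ≤ T3 n H m W h a n x y → S4 n (O3 n H m h n) (T3 n H m W h a n) 2 x y
        + ind (n + 1 ≤ n ∧ (¬ O3 n H m h (n + 1) x y ∨
            T3 n H m W h a (n + 1) x y + 2 ≤ T3 n H m W h a n x y))
        + ind (1 ≤ n - 1 ∧ (¬ O3 n H m h (n - 1) x y ∨
            T3 n H m W h a (n - 1) x y + 2 ≤ T3 n H m W h a n x y)) ≤ 3) ∧
      4 ≤ S4 n (O3 n H m h n) (T3 n H m W h a n) 1 x y
        + ind (n + 1 ≤ n ∧ (¬ O3 n H m h (n + 1) x y ∨
            T3 n H m W h a (n + 1) x y + 1 ≤ T3 n H m W h a n x y))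
        + ind (1 ≤ n - 1 ∧ (¬ O3 n H m h (n - 1) x y ∨
            T3 n H m W h a (n - 1) x y + 1 ≤ T3 n H m W h a n x y)) := by
  have n10 := pf.n10
  rw [O3_top (by omega)] at hO
  have hOz : O3 n H m h (n - 1) x y := O3_of_LK pf (by omega) (by omega) hO
  have ht : T3 n H m W h a n x y = 1 + T3 n H m W h a (n - 1) x y := by
    rw [T3_top, T3_lt (by omega)]
  have i1 : ∀ P : Prop, ind (n + 1 ≤ n ∧ P) = 0 := by
    intro P
    apply ind_false
    rintro ⟨q, -⟩
    omega
  have i2 : ind (1 ≤ n - 1 ∧ (¬ O3 n H m h (n - 1) x y ∨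
            T3 n H m W h a (n - 1) x y + 2 ≤ T3 n H m W h a n x y)) = 0 := by
    apply ind_false
    rintro ⟨-, q | q⟩
    · exact q hOz
    · omega
  have i3 : ind (1 ≤ n - 1 ∧ (¬ O3 n H m h (n - 1) x y ∨
            T3 n H m W h a (n - 1) x y + 1 ≤ T3 n H m W h a n x y)) = 1 := by
    apply ind_true
    exact ⟨by omega, Or.inr (by omega)⟩
  have key : S4 n (O3 n H m h n) (T3 n H m W h a n) 2 x y ≤ 3 ∧
      3 ≤ S4 n (O3 n H m h n) (T3 n H m W h a n) 1 x y := by
    rcases Int.emod_two_eq_zero_or_one (n - 1) with ho | ho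
    · have hS : ∀ k, S4 n (O3 n H m h n) (T3 n H m W h a n) k x y =
          S4 n (LK n m (rh n H h)) (TO n m W (rh n H h) (ra n W a)) k (n + 1 - x) (n + 1 - y) := by
        intro k
        have e0 : LK n m h = fun x y => LK n m (rh n H h) (n + 1 - x) (n + 1 - y) := by
          funext x y
          exact propext (LK_rot pf).symm
        rw [O3_top (by omega), T3_top, B3_even ho, e0]
        have e1 := S4_shift (n := n) (fun x y => LK n m (rh n H h) (n + 1 - x) (n + 1 - y))
          (fun x y => c3 m W (n - 1) + TO n m W (rh n H h) (ra n W a) (n + 1 - x) (n + 1 - y))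
          1 k x y
        have e1' := S4_shift (n := n) (fun x y => LK n m (rh n H h) (n + 1 - x) (n + 1 - y))
          (fun x y => TO n m W (rh n H h) (ra n W a) (n + 1 - x) (n + 1 - y))
          (c3 m W (n - 1)) k x y
        have e2 := S4_rot (n := n) (LK n m (rh n H h)) (TO n m W (rh n H h) (ra n W a)) k x y
        rw [← e2, ← e1', ← e1]
      rw [hS 2, hS 1]
      exact top3 pf.rot ((LK_rot pf).2 hO)
    · have hS : ∀ k, S4 n (O3 n H m h n) (T3 n H m W h a n) k x y =
          S4 n (LK n m h) (TO n m W h a) k x y := by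
        intro k
        rw [O3_top (by omega), T3_top, B3_odd ho]
        have e1 := S4_shift (n := n) (LK n m h)
          (fun x y => c3 m W (n - 1) + TO n m W h a x y) 1 k x y
        have e1' := S4_shift (n := n) (LK n m h) (TO n m W h a) (c3 m W (n - 1)) k x y
        rw [← e1', ← e1]
      rw [hS 2, hS 1]
      exact top3 pf hO
  rw [i1, i1, i2, i3]
  exact ⟨fun _ => by omega, by omega⟩

/-- The lower bound given by a profile: `M([n]^3, 4) ≥ (n - 3) (m (W + 2) - 1) + 1`. -/
theorem lower3 {n : ℕ} {H m W : ℤ} {h a : ℤ → ℤ} (pf : Prof3 n H m W h a) :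
    ((n : ℤ) - 3) * (m * (W + 2) - 1) + 1 ≤ (maxPercTime (grid 3 n) 4 : ℤ) := by
  have n10 := pf.n10
  have m3 := pf.m3
  have hn := pf.hn
  have nn := pf.nn 2
  have le := pf.le 2
  have hL : LK (n : ℤ) m h 2 (h 2 + 2) := by
    left
    exact ⟨by omega, by omega, by omega, by omega, by omega⟩
  have main := cert3 n (O3 n H m h) (T3 n H m W h a)
    (by
      intro z x y hz1 hz2 hb hO
      have h2 : 2 ≤ z := by
        by_contra hc
        exact O3_low (by omega) x y hO
      rcases eq_or_lt_of_le hz2 with hzn | hzn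
      · rw [hzn]
        rw [hzn] at hO
        exact local3_top pf hO
      · exact local3_mid pf h2 (by omega) hb hO)
    (z₀ := (n : ℤ) - 1) (x₀ := 2) (y₀ := h 2 + 2) (by omega) (by omega)
    ⟨by omega, by omega, by omega, by omega⟩
    (O3_of_LK pf (by omega) (by omega) hL)
  rw [T3_lt (by omega)] at main
  have b := (B3_bounds pf (z := (n : ℤ) - 1) hL).1
  refine le_trans (le_trans (le_of_eq ?_) b) main
  unfold c3
  ring

end

end Pool.Agent.Lib.MP_1a3405_co
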