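import Mathlib
import Pool.Agent.Lib.MP_1a3405_co.ThreeMain
import Pool.Agent.Lib.MP_1a3405_co.Asym2

/-!
Explicit bounds for `M([n]^3, 4)`.
-/

namespace Pool.Agent.Lib.MP_1a3405_co

/-- the profile for the spatial construction -/
lemma prof3_exists {n H k m : ℤ} (hH : 1 ≤ H) (hk : 0 ≤ k)
    (hX : 2 * (2 * (H + 3) * k + (H + 3)) ≤ n - 4) (hm : m % 2 = 1) (hm3 : 3 ≤ m)
    (hn : n = H + 1 + 2 * m) (hn10 : 10 ≤ n) :
    ∃ W : ℤ, n - 3 + 2 * k * H ≤ W ∧ ∃ h a : ℤ → ℤ, Prof3 n H m W h a := by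
  have hH0 : 0 ≤ H := by omega
  have hp : 0 ≤ 2 * (H + 3) * k := by positivity
  set X := 2 * (H + 3) * k + (H + 3) with hXdef
  set h : ℤ → ℤ := fun x => gw H k ((x - 1) / 2) with hh
  have hc : ∀ x, x ≤ 0 → h x = h 0 := by
    intro x hx
    simp only [hh]
    rw [gw_left (by omega), gw_left (by omega)]
  have hodd : ∀ j : ℤ, h (2 * j + 1) = gw H k j := by
    intro j
    simp only [hh]
    congr 1
    omega
  have heven : ∀ j : ℤ, h (2 * j + 2) = gw H k j := by
    intro j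
    simp only [hh]
    congr 1
    omega
  set a : ℤ → ℤ := fun x => posf h x - posf h 2 with hadef
  have ha : ∀ x, a (x + 1) = a x + 1 + |h (x + 1) - h x| := by
    intro x
    simp only [hadef]
    rw [posf_succ hc]
    ring
  have hb : ∀ j : ℤ, (fun j => a (2 * j + 1) - j) (j + 1) =
      (fun j => a (2 * j + 1) - j) j + 1 + |gw H k (j + 1) - gw H k j| := by
    intro j
    simp only
    have h1 := ha (2 * j + 1)
    have h2 := ha (2 * j + 2)
    have e1 : 2 * j + 1 + 1 = 2 * j + 2 := by ring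
    have e2 : 2 * j + 2 + 1 = 2 * (j + 1) + 1 := by ring
    rw [e1, heven, hodd] at h1
    rw [e2, heven, hodd] at h2
    simp only [sub_self, abs_zero, add_zero] at h1
    linarith
  obtain ⟨kk, hkk⟩ : ∃ kk : ℕ, (kk : ℤ) = k := ⟨k.toNat, by omega⟩
  have g := a_growth (a := fun j => a (2 * j + 1) - j) hH0 hb kk (by omega)
  rw [hkk] at g
  have a2 : a 2 = 0 := by simp only [hadef]; ring
  have a1 : a 1 = -1 := by
    have h1 := ha 1
    have e1 : h (1 + 1) = h 1 := by
      have := hodd 0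
      have h2 := heven 0
      norm_num at this h2 ⊢
      rw [this, h2]
    rw [e1] at h1
    norm_num at h1
    omega
  simp only [mul_zero, zero_add, a1] at g
  have g2 := pos_growth' ha (x := 2 * X + 1) (y := n - 1) (by omega)
  have g3 := abs_nonneg (h (n - 1) - h (2 * X + 1))
  refine ⟨a (n - 1), ?_, h, a, ?_⟩
  · have : 0 ≤ k * H := by positivity
    rw [← hXdef] at g
    nlinarith
  · have hr : ∀ x, n - 3 ≤ x → h x = 0 := by
      intro x hx
      simp only [hh]
      exact gw_right hH0 hk (by omega)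
    constructor
    · intro x; exact gw_nonneg hH0 _
    · intro x; exact gw_le hH0 _
    · intro x
      simp only [hh]
      rcases Int.emod_two_eq_zero_or_one x with hx | hx
      · have e1 : (x + 1 - 1) / 2 = (x - 1) / 2 + 1 := by omega
        rw [e1]
        exact gw_lip hH0 hk _
      · have e1 : (x + 1 - 1) / 2 = (x - 1) / 2 := by omega
        rw [e1]
        left; rfl
    · exact ha
    · intro x
      simp only [hh]
      rcases Int.emod_two_eq_zero_or_one x with hx | hx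
      · left
        congr 1
        omega
      · right
        congr 1
        omega
    · intro x h1 h2
      simp only [hh] at h1 h2 ⊢
      rcases Int.emod_two_eq_zero_or_one x with hx | hx
      · have e1 : (x - 1 - 1) / 2 = (x - 1) / 2 := by omega
        rw [e1] at h1
        omega
      · have e1 : (x - 1 - 1) / 2 = (x - 1) / 2 - 1 := by omega
        have e2 : (x + 1 + 1 - 1) / 2 = (x - 1) / 2 + 1 := by omega
        rw [e1] at h1
        rw [e2]
        exact (gw_val hH0 hk _ h1).1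
    · intro x h1 h2
      simp only [hh] at h1 h2 ⊢
      rcases Int.emod_two_eq_zero_or_one x with hx | hx
      · have e1 : (x - 1 - 1) / 2 = (x - 1) / 2 := by omega
        rw [e1] at h1
        omega
      · have e1 : (x - 1 - 1) / 2 = (x - 1) / 2 - 1 := by omega
        have e2 : (x + 1 + 1 - 1) / 2 = (x - 1) / 2 + 1 := by omega
        rw [e1] at h1
        rw [e2]
        exact gw_top hH0 hk _ h1
    · have := hodd 0
      norm_num at this
      rw [this, gw_left (le_refl _)]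
    · have := heven 0
      norm_num at this
      rw [this, gw_left (le_refl _)]
    · have := hodd 1
      norm_num at this
      rw [this, gw_one hH0 hk]
    · have := heven 1
      norm_num at this
      rw [this, gw_one hH0 hk]
    · exact hr _ (by omega)
    · exact hr _ (by omega)
    · exact hr _ (by omega)
    · exact hr _ (by omega)
    · exact a2
    · rfl
    · exact hm
    · exact hm3
    · exact hn
    · exact hn10

/-- the lower bound with parameters -/
theorem lower3_param {n : ℕ} {H k m : ℤ} (hH : 1 ≤ H) (hk : 0 ≤ k)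
    (hX : 2 * (2 * (H + 3) * k + (H + 3)) ≤ n - 4) (hm : m % 2 = 1) (hm3 : 3 ≤ m)
    (hn : (n : ℤ) = H + 1 + 2 * m) (hn10 : (10 : ℤ) ≤ n) :
    ((n : ℤ) - 3) * (m * (n - 1 + 2 * k * H) - 1) ≤ (maxPercTime (grid 3 n) 4 : ℤ) := by
  obtain ⟨W, hW, h, a, pf⟩ := prof3_exists hH hk hX hm hm3 hn hn10
  have h1 := lower3 pf
  have h2 : m * (n - 1 + 2 * k * H) ≤ m * (W + 2) :=
    mul_le_mul_of_nonneg_left (by linarith) (by omega)
  have h3 : ((n : ℤ) - 3) * (m * (n - 1 + 2 * k * H) - 1) ≤ ((n : ℤ) - 3) * (m * (W + 2) - 1) :=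
    mul_le_mul_of_nonneg_left (by linarith) (by omega)
  linarith

/-- The explicit lower bound `M([n]^3, 4) ≥ (3/4) n^3 - 6 n^(5/2)`. -/
theorem lower3_sqrt (n : ℕ) :
    (3 / 4 : ℝ) * (n : ℝ) ^ 3 - 6 * (n : ℝ) ^ 2 * Real.sqrt n ≤
      (maxPercTime (grid 3 n) 4 : ℝ) := by
  have hM : (0 : ℝ) ≤ (maxPercTime (grid 3 n) 4 : ℝ) := Nat.cast_nonneg _
  set r := Real.sqrt n with hr
  have hr0 : 0 ≤ r := Real.sqrt_nonneg _
  have hrr : r * r = n := Real.mul_self_sqrt (Nat.cast_nonneg n)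
  rcases le_or_gt r 8 with hsmall | hbig
  · -- trivial range
    have : (3 / 4 : ℝ) * (n : ℝ) ^ 3 - 6 * (n : ℝ) ^ 2 * r ≤ 0 := by
      have h1 : (3 / 4 : ℝ) * (n : ℝ) ^ 3 - 6 * (n : ℝ) ^ 2 * r =
          (n : ℝ) ^ 2 * r * ((3/4) * r - 6) := by
        have : (n : ℝ) ^ 3 = (n : ℝ) ^ 2 * (r * r) := by rw [hrr]; ring
        rw [this]; ring
      rw [h1]
      apply mul_nonpos_of_nonneg_of_nonpos
      · positivity
      · linarith
    linarith
  · -- main range
    set s : ℕ := Nat.sqrt n with hs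
    have hs1 : s * s ≤ n := Nat.sqrt_le n
    have hs2 : n < (s + 1) * (s + 1) := Nat.lt_succ_sqrt n
    have hs1r : (s : ℝ) * s ≤ n := by exact_mod_cast hs1
    have hs2r : (n : ℝ) < ((s : ℝ) + 1) * (s + 1) := by exact_mod_cast hs2
    have hsr : (s : ℝ) ≤ r := by
      rw [hr]; apply Real.le_sqrt_of_sq_le; nlinarith
    have hrs : r ≤ (s : ℝ) + 1 := by
      by_contra hc
      push Not at hc
      nlinarith
    have hn64 : (64 : ℝ) < n := by nlinarith
    have hn64' : 64 < n := by exact_mod_cast hn64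
    have hs8 : 8 ≤ s := by
      by_contra hc
      push Not at hc
      have : (s + 1) * (s + 1) ≤ 64 := by nlinarith
      omega
    have hsn : s * 8 ≤ n := by nlinarith
    -- the height `H` with `s ≤ H ≤ s + 3` and `H = n - 3` mod `4`
    obtain ⟨H, hH1, hH2, hH3⟩ : ∃ H : ℤ, (s : ℤ) ≤ H ∧ H ≤ s + 3 ∧ ((n : ℤ) - 1 - H) % 4 = 2 :=
      ⟨s + ((n : ℤ) - 3 - s) % 4, by omega, by omega, by omega⟩
    obtain ⟨m, hm⟩ : ∃ m : ℤ, m = ((n : ℤ) - 1 - H) / 2 := ⟨_, rfl⟩
    obtain ⟨k, hk⟩ : ∃ k : ℤ, k = ((n : ℤ) - 4 - 2 * (H + 3)) / (4 * (H + 3)) := ⟨_, rfl⟩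
    have hK : (0 : ℤ) < 4 * (H + 3) := by omega
    have hk1 : 4 * (H + 3) * k ≤ n - 4 - 2 * (H + 3) := by
      rw [hk]; exact Int.mul_ediv_self_le (ne_of_gt hK)
    have hk2 : (n : ℤ) - 4 - 2 * (H + 3) < 4 * (H + 3) * k + 4 * (H + 3) := by
      rw [hk]
      exact Int.lt_mul_ediv_self_add (x := (n : ℤ) - 4 - 2 * (H + 3)) hK
    have hk0 : 0 ≤ k := by
      rw [hk]; apply Int.ediv_nonneg <;> omega
    have main := lower3_param (n := n) (H := H) (k := k) (m := m) (by omega) hk0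
      (by linarith) (by omega) (by omega) (by omega) (by omega)
    have mainr : ((n : ℝ) - 3) * ((m : ℝ) * ((n : ℝ) - 1 + 2 * (k : ℝ) * H) - 1) ≤
        (maxPercTime (grid 3 n) 4 : ℝ) := by exact_mod_cast main
    have hmr : (n : ℝ) - 1 - H = 2 * (m : ℝ) := by
      have : (n : ℤ) - 1 - H = 2 * m := by omega
      exact_mod_cast this
    have hH1r : (s : ℝ) ≤ H := by exact_mod_cast hH1
    have hH2r : (H : ℝ) ≤ s + 3 := by exact_mod_cast hH2
    have hk1r : 4 * ((H : ℝ) + 3) * k ≤ n - 4 - 2 * (H + 3) := by exact_mod_cast hk1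
    have hk2r : (n : ℝ) - 4 - 2 * (H + 3) ≤ 4 * ((H : ℝ) + 3) * k + 4 * (H + 3) := by
      exact_mod_cast hk2.le
    have hk0r : (0 : ℝ) ≤ k := by exact_mod_cast hk0
    have hs0 : (0 : ℝ) ≤ s := Nat.cast_nonneg _
    have h6k : 4 * (k : ℝ) ≤ r := by
      have h1 : 4 * ((H : ℝ) + 3) * k ≤ r * (H + 3) := by nlinarith
      have h2 : ((H : ℝ) + 3) * (4 * k) ≤ (H + 3) * r := by linarith
      exact le_of_mul_le_mul_left h2 (by linarith)
    have hfac : (3 / 2) * (n : ℝ) - (9 / 2) * r - 21 ≤ (n : ℝ) - 1 + 2 * (k : ℝ) * H := by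
      nlinarith
    have hm' : ((n : ℝ) - 4 - r) / 2 ≤ (m : ℝ) := by linarith
    have hpos1 : 0 ≤ ((n : ℝ) - 4 - r) / 2 := by nlinarith
    have hpos2 : 0 ≤ (3 / 2) * (n : ℝ) - (9 / 2) * r - 21 := by nlinarith
    have hprod := mul_le_mul hm' hfac hpos2 (le_trans hpos1 hm')
    have hprod2 : ((n : ℝ) - 3) * (((n : ℝ) - 4 - r) / 2 *
        ((3 / 2) * (n : ℝ) - (9 / 2) * r - 21) - 1) ≤
        ((n : ℝ) - 3) * ((m : ℝ) * ((n : ℝ) - 1 + 2 * (k : ℝ) * H) - 1) :=
      mul_le_mul_of_nonneg_left (by linarith) (by linarith)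
    refine le_trans ?_ mainr
    refine le_trans ?_ hprod2
    have hn' : (n : ℝ) = r * r := hrr.symm
    rw [hn']
    have q1 : 0 ≤ (r - 8) := by linarith
    have q2 : 0 ≤ r * r * r * r * (r - 8) := by positivity
    have q3 : 0 ≤ r * r * r * (r - 8) := by positivity
    have q4 : 0 ≤ r * r * (r - 8) := by positivity
    have q5 : 0 ≤ r * (r - 8) := by positivity
    nlinarith

end Pool.Agent.Lib.MP_1a3405_co
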