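import Mathlib
import Pool.Agent.Lib.MP_1a3405_co.Asym2
import Pool.Agent.Lib.MP_1a3405_co.Asym3

/-!
The leading-order asymptotics of the maximum percolation time of `(d+1)`-neighbour bootstrap
percolation on the grid `[n]^d` in dimensions `d = 2` and `d = 3`: it is `(d/(d+1) + o(1)) n^d`.
-/

namespace Pool.Agent.Lib.MP_1a3405_co

open Pool.Agent.Lib.MP_1a3405_co Filter Topology

/-- For `d = 2, 3` and every `n` one has
`(d/(d+1)) n^d - 2 d n^(d-1/2) ≤ M([n]^d, d+1) ≤ (d/(d+1)) n^d`, and hence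
`M([n]^d, d+1) / n^d` tends to `d/(d+1)`. -/
theorem dimPlusOne (d : ℕ) (hd : 2 ≤ d) (hd' : d ≤ 3) :
    (∀ n : ℕ, ((d : ℝ) / (d + 1)) * (n : ℝ) ^ d -
        2 * (d : ℝ) * (n : ℝ) ^ (d - 1) * Real.sqrt n ≤
        (maxPercTime (grid d n) (d + 1) : ℝ) ∧
      (maxPercTime (grid d n) (d + 1) : ℝ) ≤ ((d : ℝ) / (d + 1)) * (n : ℝ) ^ d) ∧
    Tendsto (fun n : ℕ => (maxPercTime (grid d n) (d + 1) : ℝ) / (n : ℝ) ^ d) atTop
      (𝓝 ((d : ℝ) / (d + 1))) := by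
  have hmain : ∀ n : ℕ, ((d : ℝ) / (d + 1)) * (n : ℝ) ^ d -
        2 * (d : ℝ) * (n : ℝ) ^ (d - 1) * Real.sqrt n ≤
        (maxPercTime (grid d n) (d + 1) : ℝ) ∧
      (maxPercTime (grid d n) (d + 1) : ℝ) ≤ ((d : ℝ) / (d + 1)) * (n : ℝ) ^ d := by
    intro n
    constructor
    · obtain rfl | rfl : d = 2 ∨ d = 3 := by omega
      · refine le_trans (le_of_eq ?_) (lower2_sqrt n)
        norm_num
      · refine le_trans (le_of_eq ?_) (lower3_sqrt n)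
        norm_num
    · have h := mul_maxPercTime_le d n (d + 1)
      have h' : ((d : ℝ) + 1) * (maxPercTime (grid d n) (d + 1) : ℝ) ≤ d * (n : ℝ) ^ d := by
        exact_mod_cast h
      have hd0 : (0 : ℝ) < (d : ℝ) + 1 := by positivity
      rw [div_mul_eq_mul_div, le_div_iff₀ hd0]
      linarith
  refine ⟨hmain, ?_⟩
  have hlim : Tendsto (fun n : ℕ => ((d : ℝ) / (d + 1)) - 2 * (d : ℝ) * (Real.sqrt n)⁻¹) atTop
      (𝓝 ((d : ℝ) / (d + 1))) := by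
    have h1 : Tendsto (fun n : ℕ => (Real.sqrt n)⁻¹) atTop (𝓝 0) :=
      tendsto_inv_atTop_zero.comp (Real.tendsto_sqrt_atTop.comp tendsto_natCast_atTop_atTop)
    have h2 := (h1.const_mul (2 * (d : ℝ))).const_sub ((d : ℝ) / (d + 1))
    simpa using h2
  refine tendsto_of_tendsto_of_tendsto_of_le_of_le' hlim tendsto_const_nhds ?_ ?_
  · filter_upwards [eventually_gt_atTop 0] with n hn
    have hn0 : (0 : ℝ) < n := by exact_mod_cast hn
    have hs : 0 < Real.sqrt n := Real.sqrt_pos.2 hn0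
    have hss : Real.sqrt n * Real.sqrt n = n := Real.mul_self_sqrt hn0.le
    rw [le_div_iff₀ (by positivity)]
    refine le_trans (le_of_eq ?_) (hmain n).1
    have h3 : (Real.sqrt n)⁻¹ * (n : ℝ) = Real.sqrt n := by
      rw [inv_mul_eq_iff_eq_mul₀ (ne_of_gt hs)]; exact hss.symm
    obtain ⟨k, rfl⟩ : ∃ k, d = k + 1 := ⟨d - 1, by omega⟩
    rw [Nat.add_sub_cancel]
    calc (((k + 1 : ℕ) : ℝ) / (((k + 1 : ℕ) : ℝ) + 1) -
          2 * ((k + 1 : ℕ) : ℝ) * (Real.sqrt n)⁻¹) * (n : ℝ) ^ (k + 1)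
        = ((k + 1 : ℕ) : ℝ) / (((k + 1 : ℕ) : ℝ) + 1) * (n : ℝ) ^ (k + 1) -
          2 * ((k + 1 : ℕ) : ℝ) * (n : ℝ) ^ k * ((Real.sqrt n)⁻¹ * n) := by ring
      _ = _ := by rw [h3]
  · filter_upwards [eventually_gt_atTop 0] with n hn
    have hn0 : (0 : ℝ) < n := by exact_mod_cast hn
    rw [div_le_iff₀ (by positivity)]
    exact (hmain n).2

end Pool.Agent.Lib.MP_1a3405_co
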