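import Mathlib
import Pool.Agent.Lib.MP_1a3405_co.Diag.Final
import Pool.Agent.Lib.MP_1a3405_co.UB.Count
import Pool.Agent.Lib.MP_1a3405_co.BP.Main

/-!
The exact leading constant `(r - 1)/(2d - r - 1)` of the maximum percolation time of
`r`-neighbour bootstrap percolation on `[n]^d`, for `4 ≤ r ≤ d`: the upper bound is `UB.upper`
(resp. the trivial one for `r = d`), the lower bound is `BP.bp_lower` (resp. `Diag.diag`).
-/

namespace Pool.Agent.Lib.MP_1a3405_co.Exact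

open Pool.Agent.Lib.MP_1a3405_co Filter Topology

/-- The upper bound in all cases `r ≤ d`. -/
theorem upper_all {d r : ℕ} (hr : 3 ≤ r) (hrd : r ≤ d) (n : ℕ) :
    (2 * (d : ℝ) - r - 1) * (maxPercTime (grid d n) r : ℝ) ≤
      ((r : ℝ) - 1) * (n : ℝ) ^ d + 2 * d * (n : ℝ) ^ (d - 1) := by
  rcases hrd.eq_or_lt with rfl | h
  · have h1 := (Diag.diag r hr n).2
    have h2 : (3 : ℝ) ≤ r := by exact_mod_cast hr
    have h3 : (0 : ℝ) ≤ 2 * r * (n : ℝ) ^ (r - 1) := by positivity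
    nlinarith
  · exact Pool.Agent.MP1a3405.UB.upper (by omega) (by omega) h n

/-- The lower bound for `4 ≤ r < d`. -/
theorem lower_mid {d r : ℕ} (hr : 4 ≤ r) (hrd : r < d) (ε : ℝ) (hε : 0 < ε) :
    ∃ n₀ : ℕ, ∀ n : ℕ, n₀ ≤ n →
      (((r : ℝ) - 1) / (2 * d - r - 1) - ε) * (n : ℝ) ^ d ≤
        (maxPercTime (grid d n) r : ℝ) := by
  obtain ⟨D, rfl⟩ : ∃ D, d = D + 2 := ⟨d - 2, by omega⟩
  obtain ⟨n₀, h⟩ := BP.bp_lower hr (by omega : r ≤ D + 1) ε hε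
  refine ⟨n₀, fun n hn => ?_⟩
  have e : 2 * ((D + 2 : ℕ) : ℝ) - r - 1 = 2 * D + 3 - r := by push_cast; ring
  rw [e]
  exact h n hn

/-- The lower bound for `r = d`. -/
theorem lower_diag {d : ℕ} (hd : 3 ≤ d) (ε : ℝ) (hε : 0 < ε) :
    ∃ n₀ : ℕ, ∀ n : ℕ, n₀ ≤ n →
      (((d : ℝ) - 1) / (2 * d - d - 1) - ε) * (n : ℝ) ^ d ≤
        (maxPercTime (grid d n) d : ℝ) := by
  have hd3 : (3 : ℝ) ≤ d := by exact_mod_cast hd
  obtain ⟨n₁, hn₁⟩ := exists_nat_ge ((4 * (d : ℝ) + 3) / ε)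
  refine ⟨n₁ + 1, fun n hn => ?_⟩
  refine le_trans ?_ (Diag.diag d hd n).1
  have e : ((d : ℝ) - 1) / (2 * d - d - 1) = 1 := by
    rw [div_eq_one_iff_eq (by linarith)]
    ring
  rw [e]
  have h1 : (4 * (d : ℝ) + 3) / ε ≤ n := hn₁.trans (by exact_mod_cast (by omega))
  rw [div_le_iff₀ hε] at h1
  have h2 : (n : ℝ) ^ d = n * (n : ℝ) ^ (d - 1) := by
    rw [← pow_succ']
    congr 1
    omega
  have h3 : (0 : ℝ) ≤ (n : ℝ) ^ (d - 1) := by positivity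
  have h4 := mul_le_mul_of_nonneg_right h1 h3
  have h5 : n * ε * (n : ℝ) ^ (d - 1) = ε * (n : ℝ) ^ d := by
    rw [h2]
    ring
  rw [h5] at h4
  linarith

/-- From the two bounds to the limit. -/
theorem tendsto_of {d r : ℕ} (hr : 3 ≤ r) (hrd : r ≤ d)
    (hlow : ∀ ε : ℝ, 0 < ε → ∃ n₀ : ℕ, ∀ n : ℕ, n₀ ≤ n →
      (((r : ℝ) - 1) / (2 * d - r - 1) - ε) * (n : ℝ) ^ d ≤
        (maxPercTime (grid d n) r : ℝ)) :
    Tendsto (fun n : ℕ => (maxPercTime (grid d n) r : ℝ) / (n : ℝ) ^ d) atTop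
      (𝓝 (((r : ℝ) - 1) / (2 * d - r - 1))) := by
  have hrR : (3 : ℝ) ≤ r := by exact_mod_cast hr
  have hrdR : (r : ℝ) ≤ d := by exact_mod_cast hrd
  have hden : (0 : ℝ) < 2 * d - r - 1 := by linarith
  rw [Metric.tendsto_atTop]
  intro ε hε
  obtain ⟨n₀, h₀⟩ := hlow (ε / 2) (by linarith)
  obtain ⟨n₁, hn₁⟩ := exists_nat_ge (4 * (d : ℝ) / (ε * (2 * d - r - 1)))
  refine ⟨n₀ + n₁ + 1, fun n hn => ?_⟩
  have hnpos : (0 : ℝ) < n := by
    have : 0 < n := by omega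
    exact_mod_cast this
  have hpow : (0 : ℝ) < (n : ℝ) ^ d := by positivity
  have hl := h₀ n (by omega)
  have hu := upper_all hr hrd n
  have h1 : 4 * (d : ℝ) / (ε * (2 * d - r - 1)) ≤ n :=
    hn₁.trans (by exact_mod_cast (by omega))
  rw [div_le_iff₀ (by positivity)] at h1
  have h2 : (n : ℝ) ^ d = n * (n : ℝ) ^ (d - 1) := by
    rw [← pow_succ']
    congr 1
    omega
  have h3 : (0 : ℝ) ≤ (n : ℝ) ^ (d - 1) := by positivity
  have h4 := mul_le_mul_of_nonneg_right h1 h3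
  have h5 : n * (ε * (2 * d - r - 1)) * (n : ℝ) ^ (d - 1) =
      ε * (2 * d - r - 1) * (n : ℝ) ^ d := by
    rw [h2]
    ring
  rw [h5] at h4
  set c : ℝ := ((r : ℝ) - 1) / (2 * d - r - 1) with hc
  have hcm : c * (2 * d - r - 1) = r - 1 := by
    rw [hc]
    field_simp
  have hup : (maxPercTime (grid d n) r : ℝ) ≤ (c + ε / 2) * (n : ℝ) ^ d := by
    have h6 : (2 * (d : ℝ) - r - 1) * (maxPercTime (grid d n) r : ℝ) ≤
        (2 * d - r - 1) * ((c + ε / 2) * (n : ℝ) ^ d) := by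
      have e : (2 * (d : ℝ) - r - 1) * ((c + ε / 2) * (n : ℝ) ^ d) =
          (c * (2 * d - r - 1)) * (n : ℝ) ^ d + ε / 2 * (2 * d - r - 1) * (n : ℝ) ^ d := by
        ring
      rw [e, hcm]
      linarith
    exact le_of_mul_le_mul_left h6 hden
  rw [Real.dist_eq, abs_lt]
  constructor
  · have h7 : c - ε / 2 ≤ (maxPercTime (grid d n) r : ℝ) / (n : ℝ) ^ d := by
      rw [le_div_iff₀ hpow]
      exact hl
    linarith
  · have h8 : (maxPercTime (grid d n) r : ℝ) / (n : ℝ) ^ d ≤ c + ε / 2 := by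
      rw [div_le_iff₀ hpow]
      exact hup
    linarith

/-- The limit for `4 ≤ r ≤ d`. -/
theorem tendsto_four {d r : ℕ} (hr : 4 ≤ r) (hrd : r ≤ d) :
    Tendsto (fun n : ℕ => (maxPercTime (grid d n) r : ℝ) / (n : ℝ) ^ d) atTop
      (𝓝 (((r : ℝ) - 1) / (2 * d - r - 1))) := by
  refine tendsto_of (by omega) hrd fun ε hε => ?_
  rcases hrd.eq_or_lt with rfl | h
  · exact lower_diag (by omega) ε hε
  · exact lower_mid hr h ε hε

end Pool.Agent.Lib.MP_1a3405_co.Exact
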