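import Mathlib
import Pool.Agent.Lib.MP_1a3405_co.Exact
import Pool.Agent.Lib.MP_1a3405_co.BT.Main

/-!
The exact leading constant `(r - 1)/(2d - r - 1)` of the maximum percolation time of
`r`-neighbour bootstrap percolation on `[n]^d`, for all `3 ≤ r ≤ d`: `Exact.lean` has the cases
`r ≥ 4` and `r = d`; the lower bound for `r = 3 < d` is `BT.bt_lower`.
-/

namespace Pool.Agent.Lib.MP_1a3405_co.Exact

open Pool.Agent.Lib.MP_1a3405_co Filter Topology

/-- The lower bound for `r = 3 < d`. -/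
theorem lower_three {d : ℕ} (hd : 4 ≤ d) (ε : ℝ) (hε : 0 < ε) :
    ∃ n₀ : ℕ, ∀ n : ℕ, n₀ ≤ n →
      ((((3 : ℕ) : ℝ) - 1) / (2 * d - ((3 : ℕ) : ℝ) - 1) - ε) * (n : ℝ) ^ d ≤
        (maxPercTime (grid d n) 3 : ℝ) := by
  obtain ⟨D, rfl⟩ : ∃ D, d = D + 2 := ⟨d - 2, by omega⟩
  obtain ⟨n₀, h⟩ := BT.bt_lower (by omega : 2 ≤ D) ε hε
  refine ⟨n₀, fun n hn => ?_⟩
  have hD : (0 : ℝ) < D := by
    have : 0 < D := by omega
    exact_mod_cast this
  have e : (((3 : ℕ) : ℝ) - 1) / (2 * ((D + 2 : ℕ) : ℝ) - ((3 : ℕ) : ℝ) - 1) = 1 / (D : ℝ) := by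
    push_cast
    rw [div_eq_div_iff (by linarith) (by linarith)]
    ring
  rw [e]
  exact h n hn

/-- The limit for all `3 ≤ r ≤ d`. -/
theorem tendsto_all {d r : ℕ} (hr : 3 ≤ r) (hrd : r ≤ d) :
    Tendsto (fun n : ℕ => (maxPercTime (grid d n) r : ℝ) / (n : ℝ) ^ d) atTop
      (𝓝 (((r : ℝ) - 1) / (2 * d - r - 1))) := by
  refine tendsto_of (by omega) hrd fun ε hε => ?_
  rcases hrd.eq_or_lt with rfl | h
  · exact lower_diag (by omega) ε hε
  · rcases hr.eq_or_lt with rfl | h'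
    · exact lower_three (by omega) ε hε
    · exact lower_mid (by omega) h ε hε

end Pool.Agent.Lib.MP_1a3405_co.Exact
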