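import Mathlib

/-!
The 2-neighbour bootstrap process on the lattice `ℤ^ι`, and boxes.
-/

namespace Pool.Agent.Lib.MP_1a3405_co.RTwo

open Set

set_option linter.unusedSectionVars false
set_option linter.unusedVariables false

variable {ι : Type*} [Fintype ι] [DecidableEq ι]

/-- adjacency in the lattice: `u` is obtained from `v` by changing one coordinate by `±1` -/
def Nb (v u : ι → ℤ) : Prop :=
  ∃ i, ∃ s : ℤ, (s = 1 ∨ s = -1) ∧ u = Function.update v i (v i + s)

/-- the 2-neighbour process on the lattice -/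
def proc (A : Set (ι → ℤ)) : ℕ → Set (ι → ℤ)
  | 0 => A
  | t + 1 => proc A t ∪ {v | ∃ u w, u ≠ w ∧ Nb v u ∧ Nb v w ∧ u ∈ proc A t ∧ w ∈ proc A t}

omit [Fintype ι] in
lemma proc_succ (A : Set (ι → ℤ)) (t : ℕ) : proc A (t + 1) =
    proc A t ∪ {v | ∃ u w, u ≠ w ∧ Nb v u ∧ Nb v w ∧ u ∈ proc A t ∧ w ∈ proc A t} := rfl

omit [Fintype ι] in
lemma proc_subset_succ (A : Set (ι → ℤ)) (t : ℕ) : proc A t ⊆ proc A (t + 1) :=
  subset_union_left

omit [Fintype ι] in
lemma proc_mono (A : Set (ι → ℤ)) : Monotone (proc A) :=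
  monotone_nat_of_le_succ (proc_subset_succ A)

omit [Fintype ι] in
lemma proc_le (A : Set (ι → ℤ)) {s t : ℕ} (h : s ≤ t) : proc A s ⊆ proc A t := proc_mono A h

omit [Fintype ι] in
lemma subset_proc (A : Set (ι → ℤ)) (t : ℕ) : A ⊆ proc A t := proc_le A (Nat.zero_le t)

omit [Fintype ι] in
lemma proc_step {A : Set (ι → ℤ)} {t : ℕ} {v u w : ι → ℤ} (h : u ≠ w) (hu : Nb v u)
    (hw : Nb v w) (hu' : u ∈ proc A t) (hw' : w ∈ proc A t) : v ∈ proc A (t + 1) :=
  Or.inr ⟨u, w, h, hu, hw, hu', hw'⟩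

omit [Fintype ι] in
lemma proc_mono_set {A B : Set (ι → ℤ)} (h : A ⊆ B) (t : ℕ) : proc A t ⊆ proc B t := by
  induction t with
  | zero => exact h
  | succ t ih =>
    rintro v (hv | ⟨u, w, h1, h2, h3, h4, h5⟩)
    · exact Or.inl (ih hv)
    · exact Or.inr ⟨u, w, h1, h2, h3, ih h4, ih h5⟩

omit [Fintype ι] in
lemma proc_add {A B : Set (ι → ℤ)} {s : ℕ} (h : B ⊆ proc A s) (t : ℕ) :
    proc B t ⊆ proc A (s + t) := by
  induction t with
  | zero => exact h
  | succ t ih =>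
    rintro v (hv | ⟨u, w, h1, h2, h3, h4, h5⟩)
    · exact proc_subset_succ A _ (ih hv)
    · exact Or.inr ⟨u, w, h1, h2, h3, ih h4, ih h5⟩

omit [Fintype ι] in
/-- an automorphism of the lattice commutes with the process -/
lemma proc_equiv (e : (ι → ℤ) ≃ (ι → ℤ)) (he : ∀ v u, Nb v u → Nb (e v) (e u))
    (A : Set (ι → ℤ)) (t : ℕ) : e '' proc A t ⊆ proc (e '' A) t := by
  induction t with
  | zero => exact subset_rfl
  | succ t ih =>
    rintro _ ⟨v, hv | ⟨u, w, h1, h2, h3, h4, h5⟩, rfl⟩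
    · exact Or.inl (ih ⟨v, hv, rfl⟩)
    · exact Or.inr ⟨e u, e w, fun h => h1 (e.injective h), he _ _ h2, he _ _ h3,
        ih ⟨u, h4, rfl⟩, ih ⟨w, h5, rfl⟩⟩

omit [Fintype ι] in
/-- lower bound certificate for infection times -/
lemma proc_time {A : Set (ι → ℤ)} {τ : (ι → ℤ) → ℤ} (hA : ∀ v ∈ A, τ v ≤ 0)
    (h : ∀ v, ∀ u w, u ≠ w → Nb v u → Nb v w → v ∉ A → (∃ t, u ∈ proc A t) →
      (∃ t, w ∈ proc A t) → τ v ≤ max (τ u) (τ w) + 1) (t : ℕ) :
    ∀ v ∈ proc A t, τ v ≤ t := by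
  induction t with
  | zero => intro v hv; simpa using hA v hv
  | succ t ih =>
    rintro v (hv | ⟨u, w, h1, h2, h3, h4, h5⟩)
    · have := ih v hv; push_cast; omega
    · by_cases hvA : v ∈ A
      · have := hA v hvA; push_cast; omega
      · have h6 := h v u w h1 h2 h3 hvA ⟨t, h4⟩ ⟨t, h5⟩
        have h7 := ih u h4
        have h8 := ih w h5
        have : max (τ u) (τ w) ≤ t := max_le h7 h8
        push_cast; omega

/-! ### Boxes -/

omit [Fintype ι] in
lemma nb_apply {v u : ι → ℤ} (h : Nb v u) (j : ι) : u j = v j ∨ u j = v j + 1 ∨ u j = v j - 1 := by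
  obtain ⟨i, s, hs, rfl⟩ := h
  by_cases hj : j = i
  · subst hj; rw [Function.update_self]; rcases hs with rfl | rfl <;> omega
  · rw [Function.update_of_ne hj]; left; rfl

omit [Fintype ι] in
/-- two distinct neighbours of a vertex span a box containing it -/
lemma mem_Icc_of_nb {v u w a b : ι → ℤ} (huw : u ≠ w) (hu : Nb v u) (hw : Nb v w)
    (hau : a ≤ u) (hub : u ≤ b) (haw : a ≤ w) (hwb : w ≤ b) : v ∈ Icc a b := by
  obtain ⟨i, s, hs, rfl⟩ := hu
  obtain ⟨j, r, hr, rfl⟩ := hw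
  have key : ∀ l, a l ≤ v l ∧ v l ≤ b l := by
    intro l
    have h1 := hau l; have h2 := hub l; have h3 := haw l; have h4 := hwb l
    by_cases hli : l = i
    · by_cases hlj : l = j
      · subst hli; subst hlj
        simp only [Function.update_self] at h1 h2 h3 h4
        have hsr : s ≠ r := by rintro rfl; exact huw rfl
        rcases hs with rfl | rfl <;> rcases hr with rfl | rfl <;> omega
      · rw [Function.update_of_ne hlj] at h3 h4
        exact ⟨h3, h4⟩
    · rw [Function.update_of_ne hli] at h1 h2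
      exact ⟨h1, h2⟩
  exact ⟨fun l => (key l).1, fun l => (key l).2⟩

omit [Fintype ι] in
/-- boxes are closed -/
lemma proc_subset_Icc {A : Set (ι → ℤ)} {a b : ι → ℤ} (h : A ⊆ Icc a b) (t : ℕ) :
    proc A t ⊆ Icc a b := by
  induction t with
  | zero => exact h
  | succ t ih =>
    rintro v (hv | ⟨u, w, h1, h2, h3, h4, h5⟩)
    · exact ih hv
    · exact mem_Icc_of_nb h1 h2 h3 (ih h4).1 (ih h4).2 (ih h5).1 (ih h5).2

/-- distance from an integer to an interval -/
def dI (a b x : ℤ) : ℤ := max 0 (max (a - x) (x - b))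

/-- move one step towards an interval -/
def mv (a b x : ℤ) : ℤ := if x < a then x + 1 else if b < x then x - 1 else x

/-- distance from a point to a box -/
def D (a b v : ι → ℤ) : ℤ := ∑ i, dI (a i) (b i) (v i)

/-- gap between two intervals -/
def gI (a b a' b' : ℤ) : ℤ := max 0 (max (a' - b) (a - b'))

/-- gap (distance) between two boxes -/
def gap (a b a' b' : ι → ℤ) : ℤ := ∑ i, gI (a i) (b i) (a' i) (b' i)

lemma dI_nonneg (a b x : ℤ) : 0 ≤ dI a b x := le_max_left _ _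
lemma gI_nonneg (a b a' b' : ℤ) : 0 ≤ gI a b a' b' := le_max_left _ _

lemma D_nonneg (a b v : ι → ℤ) : 0 ≤ D a b v := Finset.sum_nonneg fun i _ => dI_nonneg _ _ _
lemma gap_nonneg (a b a' b' : ι → ℤ) : 0 ≤ gap a b a' b' :=
  Finset.sum_nonneg fun i _ => gI_nonneg _ _ _ _

lemma dI_le_D (a b v : ι → ℤ) (i : ι) : dI (a i) (b i) (v i) ≤ D a b v :=
  Finset.single_le_sum (f := fun i => dI (a i) (b i) (v i)) (fun i _ => dI_nonneg _ _ _)
    (Finset.mem_univ i)

lemma gI_le_gap (a b a' b' : ι → ℤ) (i : ι) : gI (a i) (b i) (a' i) (b' i) ≤ gap a b a' b' :=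
  Finset.single_le_sum (f := fun i => gI (a i) (b i) (a' i) (b' i))
    (fun i _ => gI_nonneg _ _ _ _) (Finset.mem_univ i)

lemma dI_eq_zero {a b x : ℤ} (h : dI a b x ≤ 0) : a ≤ x ∧ x ≤ b := by
  simp only [dI] at h
  omega

lemma mem_of_D_le {a b v : ι → ℤ} (h : D a b v ≤ 0) : v ∈ Icc a b := by
  refine ⟨fun i => ?_, fun i => ?_⟩
  · exact (dI_eq_zero (le_trans (dI_le_D a b v i) h)).1
  · exact (dI_eq_zero (le_trans (dI_le_D a b v i) h)).2

lemma D_eq_zero_of_mem {a b v : ι → ℤ} (h : v ∈ Icc a b) : D a b v = 0 := by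
  apply Finset.sum_eq_zero
  intro i _
  have h1 : a i ≤ v i := h.1 i
  have h2 : v i ≤ b i := h.2 i
  simp only [dI]
  omega

lemma D_update (a b v : ι → ℤ) (k : ι) (z : ℤ) :
    D a b (Function.update v k z) = D a b v - dI (a k) (b k) (v k) + dI (a k) (b k) z := by
  unfold D
  rw [← Finset.add_sum_erase _ _ (Finset.mem_univ k),
    ← Finset.add_sum_erase _ (fun i => dI (a i) (b i) (v i)) (Finset.mem_univ k)]
  have : ∑ x ∈ Finset.univ.erase k, dI (a x) (b x) (Function.update v k z x) =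
      ∑ x ∈ Finset.univ.erase k, dI (a x) (b x) (v x) := by
    apply Finset.sum_congr rfl
    intro x hx
    rw [Function.update_of_ne (Finset.ne_of_mem_erase hx)]
  rw [this, Function.update_self]
  ring

omit [Fintype ι] in
lemma nb_update_mv {a b : ℤ} {v : ι → ℤ} {k : ι} (h : 0 < dI a b (v k)) (hab : a ≤ b) :
    Nb v (Function.update v k (mv a b (v k))) := by
  simp only [dI] at h
  unfold mv
  split_ifs with h1 h2
  · exact ⟨k, 1, Or.inl rfl, rfl⟩
  · exact ⟨k, -1, Or.inr rfl, rfl⟩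
  · omega

lemma dI_mv {a b x : ℤ} (hab : a ≤ b) (h : 0 < dI a b x) : dI a b (mv a b x) = dI a b x - 1 := by
  simp only [dI, mv] at *
  split_ifs <;> omega

lemma dI_mv_other {a b x : ℤ} (a' b' : ℤ) : dI a' b' (mv a b x) ≤ dI a' b' x + 1 := by
  simp only [dI, mv] at *
  split_ifs <;> omega

lemma exists_dI_pos {a b v : ι → ℤ} (h : 0 < D a b v) : ∃ i, 0 < dI (a i) (b i) (v i) := by
  by_contra hcon
  push Not at hcon
  have : D a b v ≤ 0 := Finset.sum_nonpos fun i _ => hcon i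
  omega

end Pool.Agent.Lib.MP_1a3405_co.RTwo
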