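import Mathlib
import Pool.Agent.Lib.MP_1a3405_co.RTwoProc

/-!
The time needed to fill the box spanned by two boxes at distance at most two.
-/

namespace Pool.Agent.Lib.MP_1a3405_co.RTwo

open Set

set_option linter.unusedSectionVars false
set_option linter.unusedVariables false

variable {ι : Type*} [Fintype ι] [DecidableEq ι]

/-- one-dimensional facts -/
lemma mem_other {a b a' b' x : ℤ} (hg : gI a b a' b' ≤ 1)
    (hx1 : min a a' ≤ x) (hx2 : x ≤ max b b') (h : 0 < dI a b x) : dI a' b' x = 0 := by
  simp only [dI, gI] at *; omega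

lemma mv_mem_hull {a b a' b' x : ℤ} (hab : a ≤ b) (hab' : a' ≤ b')
    (hx1 : min a a' ≤ x) (hx2 : x ≤ max b b') :
    min a a' ≤ mv a b x ∧ mv a b x ≤ max b b' := by
  simp only [mv]; split_ifs <;> omega

lemma mv_mem_hull' {a b a' b' x : ℤ} (hab : a ≤ b) (hab' : a' ≤ b')
    (hx1 : min a a' ≤ x) (hx2 : x ≤ max b b') :
    min a a' ≤ mv a' b' x ∧ mv a' b' x ≤ max b b' := by
  simp only [mv]; split_ifs <;> omega

lemma bad_le_gap {a b a' b' x : ℤ} (hab : a ≤ b) (hab' : a' ≤ b')
    (h : dI a b x < dI a b (mv a' b' x)) : dI a' b' x ≤ gI a b a' b' := by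
  simp only [dI, gI, mv] at *
  split_ifs at h <;> omega

lemma update_mem_Icc {a b v : ι → ℤ} {k : ι} {z : ℤ} (hv : v ∈ Icc a b)
    (h1 : a k ≤ z) (h2 : z ≤ b k) : Function.update v k z ∈ Icc a b := by
  refine ⟨fun i => ?_, fun i => ?_⟩
  · by_cases h : i = k
    · subst h; rw [Function.update_self]; exact h1
    · rw [Function.update_of_ne h]; exact hv.1 i
  · by_cases h : i = k
    · subst h; rw [Function.update_self]; exact h2
    · rw [Function.update_of_ne h]; exact hv.2 i

/-- Two boxes at distance at most one: infection times in the spanned box. -/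
lemma fill1 {A : Set (ι → ℤ)} {t : ℕ} {a b a' b' : ι → ℤ} (hab : a ≤ b) (hab' : a' ≤ b')
    (h1 : Icc a b ⊆ proc A t) (h2 : Icc a' b' ⊆ proc A t) (hgap : gap a b a' b' ≤ 1) :
    ∀ N : ℕ, ∀ v ∈ Icc (a ⊓ a') (b ⊔ b'), 2 * D a b v + D a' b' v ≤ N →
      v ∈ proc A (t + N) := by
  intro N
  induction N with
  | zero =>
    intro v hv hN
    have h3 := D_nonneg a b v
    have h4 := D_nonneg a' b' v
    exact h1 (mem_of_D_le (by push_cast at hN; omega))
  | succ N ih =>
    intro v hv hN
    have h3 := D_nonneg a b v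
    have h4 := D_nonneg a' b' v
    rcases h3.eq_or_lt with h3 | h3
    · exact proc_le A (by omega) (h1 (mem_of_D_le (by omega)))
    rcases h4.eq_or_lt with h4 | h4
    · exact proc_le A (by omega) (h2 (mem_of_D_le (by omega)))
    obtain ⟨i, hi⟩ := exists_dI_pos h3
    -- hull facts
    have hv1 : ∀ j, min (a j) (a' j) ≤ v j := fun j => hv.1 j
    have hv2 : ∀ j, v j ≤ max (b j) (b' j) := fun j => hv.2 j
    have hg : ∀ j, gI (a j) (b j) (a' j) (b' j) ≤ 1 := fun j => le_trans (gI_le_gap _ _ _ _ j) hgap
    have hi' : dI (a' i) (b' i) (v i) = 0 := mem_other (hg i) (hv1 i) (hv2 i) hi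
    -- the first neighbour
    set u := Function.update v i (mv (a i) (b i) (v i)) with hu
    have hDu : D a b u = D a b v - 1 := by
      rw [hu, D_update, dI_mv (hab i) hi]; ring
    have hDu' : D a' b' u ≤ D a' b' v + 1 := by
      rw [hu, D_update]
      have := dI_mv_other (a := a i) (b := b i) (x := v i) (a' i) (b' i)
      omega
    have huN : u ∈ proc A (t + N) := by
      apply ih
      · have := mv_mem_hull (hab i) (hab' i) (hv1 i) (hv2 i)
        exact update_mem_Icc hv this.1 this.2
      · push_cast at hN; omega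
    have hnu : Nb v u := nb_update_mv hi (hab i)
    -- the second neighbour
    have hw : ∃ k, 0 < dI (a' k) (b' k) (v k) ∧
        Function.update v k (mv (a' k) (b' k) (v k)) ∈ proc A (t + N) := by
      by_cases hgood : ∃ k, 0 < dI (a' k) (b' k) (v k) ∧
          dI (a k) (b k) (mv (a' k) (b' k) (v k)) ≤ dI (a k) (b k) (v k)
      · obtain ⟨k, hk1, hk2⟩ := hgood
        refine ⟨k, hk1, ih _ ?_ ?_⟩
        · have := mv_mem_hull' (hab k) (hab' k) (hv1 k) (hv2 k)
          exact update_mem_Icc hv this.1 this.2
        · rw [D_update, D_update, dI_mv (hab' k) hk1]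
          push_cast at hN
          omega
      · push Not at hgood
        obtain ⟨k, hk⟩ := exists_dI_pos h4
        refine ⟨k, hk, ?_⟩
        have hle : D a' b' v ≤ gap a b a' b' := by
          apply Finset.sum_le_sum
          intro j _
          by_cases hj : 0 < dI (a' j) (b' j) (v j)
          · exact bad_le_gap (hab j) (hab' j) (hgood j hj)
          · have := gI_nonneg (a j) (b j) (a' j) (b' j)
            omega
        have hD0 : D a' b' (Function.update v k (mv (a' k) (b' k) (v k))) ≤ 0 := by
          rw [D_update, dI_mv (hab' k) hk]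
          omega
        exact proc_le A (by omega) (h2 (mem_of_D_le hD0))
    obtain ⟨k, hk, hwN⟩ := hw
    have hnw : Nb v (Function.update v k (mv (a' k) (b' k) (v k))) := nb_update_mv hk (hab' k)
    have hne : u ≠ Function.update v k (mv (a' k) (b' k) (v k)) := by
      intro h
      have hik : k ≠ i := by rintro rfl; omega
      have h5 := congrFun h k
      rw [hu, Function.update_self, Function.update_of_ne hik] at h5
      have h6 := dI_mv (hab' k) hk
      rw [← h5] at h6
      omega
    have := proc_step hne hnu hnw huN hwN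
    rwa [show t + (N + 1) = t + N + 1 by ring]

lemma mv_ne_up {a b x : ℤ} (hab : a ≤ b) (hx : b ≤ x) (h : 0 < dI a b x) :
    mv a b x ≠ x + 1 := by
  simp only [dI, mv] at *
  split_ifs <;> omega

lemma mv_ne_down {a b x : ℤ} (hab : a ≤ b) (hx : x ≤ a) (h : 0 < dI a b x) :
    mv a b x ≠ x - 1 := by
  simp only [dI, mv] at *
  split_ifs <;> omega

/-- extension of the box `Icc a' b'` by one step towards `Icc a b` in direction `k` -/
def exA (b a' : ι → ℤ) (k : ι) : ι → ℤ :=
  Function.update a' k (if b k < a' k then a' k - 1 else a' k)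

def exB (a b' : ι → ℤ) (k : ι) : ι → ℤ :=
  Function.update b' k (if b' k < a k then b' k + 1 else b' k)

lemma leave_le_gap {a b a' b' x : ℤ} (hab : a ≤ b) (hab' : a' ≤ b') (hx1 : a' ≤ x) (hx2 : x ≤ b')
    (h : ¬ (a' ≤ mv a b x ∧ mv a b x ≤ b')) : dI a b x ≤ gI a b a' b' := by
  simp only [dI, gI, mv] at *
  split_ifs at h <;> omega

lemma gap_ex {a b a' b' : ι → ℤ} (hab : a ≤ b) (hab' : a' ≤ b') {k : ι}
    (hk : 0 < gI (a k) (b k) (a' k) (b' k)) :
    gap a b (exA b a' k) (exB a b' k) = gap a b a' b' - 1 := by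
  unfold gap
  rw [← Finset.add_sum_erase _ _ (Finset.mem_univ k),
    ← Finset.add_sum_erase _ (fun i => gI (a i) (b i) (a' i) (b' i)) (Finset.mem_univ k)]
  have h1 : ∑ x ∈ Finset.univ.erase k, gI (a x) (b x) (exA b a' k x) (exB a b' k x) =
      ∑ x ∈ Finset.univ.erase k, gI (a x) (b x) (a' x) (b' x) := by
    apply Finset.sum_congr rfl
    intro x hx
    unfold exA exB
    rw [Function.update_of_ne (Finset.ne_of_mem_erase hx),
      Function.update_of_ne (Finset.ne_of_mem_erase hx)]
  rw [h1]
  have h2 : gI (a k) (b k) (exA b a' k k) (exB a b' k k) = gI (a k) (b k) (a' k) (b' k) - 1 := by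
    unfold exA exB
    rw [Function.update_self, Function.update_self]
    have := hab k
    have := hab' k
    simp only [gI] at *
    split_ifs <;> omega
  rw [h2]
  ring

lemma ext_fill {A : Set (ι → ℤ)} {t : ℕ} {a b a' b' : ι → ℤ} (hab : a ≤ b) (hab' : a' ≤ b')
    (h1 : Icc a b ⊆ proc A t) (h2 : Icc a' b' ⊆ proc A t) (hgap : gap a b a' b' ≤ 2) {k : ι}
    (hk : 0 < gI (a k) (b k) (a' k) (b' k)) :
    ∀ N : ℕ, ∀ v ∈ Icc (exA b a' k) (exB a b' k), D a b v ≤ N → v ∈ proc A (t + N) := by
  have hab'' : exA b a' k ≤ exB a b' k := by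
    intro i
    unfold exA exB
    have h3 : a i ≤ b i := hab i
    have h4 : a' i ≤ b' i := hab' i
    by_cases hik : i = k
    · subst hik
      rw [Function.update_self, Function.update_self]
      show (if b i < a' i then a' i - 1 else a' i) ≤ (if b' i < a i then b' i + 1 else b' i)
      split_ifs <;> omega
    · rw [Function.update_of_ne hik, Function.update_of_ne hik]; exact h4
  have hgap'' : gap a b (exA b a' k) (exB a b' k) ≤ 1 := by
    rw [gap_ex hab hab' hk]; omega
  intro N
  induction N with
  | zero =>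
    intro v hv hN
    exact h1 (mem_of_D_le (by push_cast at hN; omega))
  | succ N ih =>
    intro v hv hN
    rcases (D_nonneg a b v).eq_or_lt with h3 | h3
    · exact proc_le A (by omega) (h1 (mem_of_D_le (by omega)))
    by_cases hv' : v ∈ Icc a' b'
    · exact proc_le A (by omega) (h2 hv')
    -- now `v k` is the new value
    have hvk : (b k < a' k ∧ v k = a' k - 1) ∨ (b' k < a k ∧ v k = b' k + 1) := by
      have hv1 : ∀ i, exA b a' k i ≤ v i := fun i => hv.1 i
      have hv2 : ∀ i, v i ≤ exB a b' k i := fun i => hv.2 i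
      unfold exA at hv1
      unfold exB at hv2
      by_contra hcon
      apply hv'
      have hak : a k ≤ b k := hab k
      have hak' : a' k ≤ b' k := hab' k
      refine ⟨fun i => ?_, fun i => ?_⟩
      · show a' i ≤ v i
        have h5 := hv1 i
        by_cases hik : i = k
        · subst hik
          rw [Function.update_self] at h5
          split_ifs at h5 with h6
          · by_contra h7
            apply hcon; left; exact ⟨h6, by push Not at h7; omega⟩
          · exact h5
        · rwa [Function.update_of_ne hik] at h5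
      · show v i ≤ b' i
        have h5 := hv2 i
        by_cases hik : i = k
        · subst hik
          rw [Function.update_self] at h5
          split_ifs at h5 with h6
          · by_contra h7
            apply hcon; right; exact ⟨h6, by push Not at h7; omega⟩
          · exact h5
        · rwa [Function.update_of_ne hik] at h5
    -- the neighbour in `Icc a' b'`
    have hz : ∃ z : ℤ, (z = v k + 1 ∧ b k < a' k ∨ z = v k - 1 ∧ b' k < a k) ∧
        Function.update v k z ∈ Icc a' b' := by
      have hv1 : ∀ i, exA b a' k i ≤ v i := fun i => hv.1 i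
      have hv2 : ∀ i, v i ≤ exB a b' k i := fun i => hv.2 i
      have hak : a k ≤ b k := hab k
      have hak' : a' k ≤ b' k := hab' k
      have hin : ∀ z, a' k ≤ z → z ≤ b' k → Function.update v k z ∈ Icc a' b' := by
        intro z hz1 hz2
        refine ⟨fun i => ?_, fun i => ?_⟩
        · by_cases hik : i = k
          · subst hik; rw [Function.update_self]; exact hz1
          · rw [Function.update_of_ne hik]
            have := hv1 i
            unfold exA at this
            rwa [Function.update_of_ne hik] at this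
        · by_cases hik : i = k
          · subst hik; rw [Function.update_self]; exact hz2
          · rw [Function.update_of_ne hik]
            have := hv2 i
            unfold exB at this
            rwa [Function.update_of_ne hik] at this
      rcases hvk with ⟨h5, h6⟩ | ⟨h5, h6⟩
      · exact ⟨v k + 1, Or.inl ⟨rfl, h5⟩, hin _ (by omega) (by omega)⟩
      · exact ⟨v k - 1, Or.inr ⟨rfl, h5⟩, hin _ (by omega) (by omega)⟩
    obtain ⟨z, hz, hzmem⟩ := hz
    have hnz : Nb v (Function.update v k z) := by
      rcases hz with ⟨rfl, -⟩ | ⟨rfl, -⟩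
      · exact ⟨k, 1, Or.inl rfl, rfl⟩
      · exact ⟨k, -1, Or.inr rfl, rfl⟩
    have hzN : Function.update v k z ∈ proc A (t + N) := proc_le A (by omega) (h2 hzmem)
    -- the neighbour towards `Icc a b`
    have hu : ∃ i, 0 < dI (a i) (b i) (v i) ∧
        Function.update v i (mv (a i) (b i) (v i)) ∈ proc A (t + N) := by
      by_cases hgood : ∃ i, 0 < dI (a i) (b i) (v i) ∧
          (exA b a' k i ≤ mv (a i) (b i) (v i) ∧ mv (a i) (b i) (v i) ≤ exB a b' k i)
      · obtain ⟨i, hi1, hi2, hi3⟩ := hgood
        refine ⟨i, hi1, ih _ (update_mem_Icc hv hi2 hi3) ?_⟩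
        rw [D_update, dI_mv (hab i) hi1]
        push_cast at hN
        omega
      · push Not at hgood
        obtain ⟨i, hi⟩ := exists_dI_pos h3
        refine ⟨i, hi, ?_⟩
        have hle : D a b v ≤ gap a b (exA b a' k) (exB a b' k) := by
          apply Finset.sum_le_sum
          intro j _
          by_cases hj : 0 < dI (a j) (b j) (v j)
          · apply leave_le_gap (hab j) (hab'' j) (hv.1 j) (hv.2 j)
            rintro ⟨h5, h6⟩
            exact absurd h6 (not_le.2 (hgood j hj h5))
          · have := gI_nonneg (a j) (b j) (exA b a' k j) (exB a b' k j)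
            omega
        have hD0 : D a b (Function.update v i (mv (a i) (b i) (v i))) ≤ 0 := by
          rw [D_update, dI_mv (hab i) hi]
          omega
        exact proc_le A (by omega) (h1 (mem_of_D_le hD0))
    obtain ⟨i, hi, huN⟩ := hu
    have hnu : Nb v (Function.update v i (mv (a i) (b i) (v i))) := nb_update_mv hi (hab i)
    have hne : Function.update v i (mv (a i) (b i) (v i)) ≠ Function.update v k z := by
      intro h
      have h5 := congrFun h i
      rw [Function.update_self] at h5
      by_cases hik : i = k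
      · subst hik
        rw [Function.update_self] at h5
        have hak : a i ≤ b i := hab i
        have hak' : a' i ≤ b' i := hab' i
        rcases hz with ⟨hz1, h7⟩ | ⟨hz1, h7⟩
        · exact mv_ne_up hak (by rcases hvk with ⟨h8, h9⟩ | ⟨h8, h9⟩ <;> omega) hi (h5.trans hz1)
        · exact mv_ne_down hak (by rcases hvk with ⟨h8, h9⟩ | ⟨h8, h9⟩ <;> omega) hi
            (h5.trans hz1)
      · rw [Function.update_of_ne hik] at h5
        have h6 := dI_mv (hab i) hi
        rw [h5] at h6
        omega
    have := proc_step hne hnu hnz huN hzN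
    rwa [show t + (N + 1) = t + N + 1 by ring]

lemma dI_le_hull {a b a' b' x : ℤ} (hab : a ≤ b) (hab' : a' ≤ b')
    (hx1 : min a a' ≤ x) (hx2 : x ≤ max b b') : dI a' b' x ≤ max b b' - min a a' := by
  simp only [dI]; omega

lemma dI_le_diff {a b a' b' x : ℤ} (hab : a ≤ b) (hab' : a' ≤ b')
    (hx1 : min a a' ≤ x) (hx2 : x ≤ max b b') :
    dI a b x ≤ max b b' - min a a' - (b - a) := by
  simp only [dI]; omega

lemma D_le_hull {a b a' b' v : ι → ℤ} (hab : a ≤ b) (hab' : a' ≤ b')
    (hv : v ∈ Icc (a ⊓ a') (b ⊔ b')) {i : ι} (hi : dI (a' i) (b' i) (v i) = 0) :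
    D a' b' v ≤ ∑ j, (max (b j) (b' j) - min (a j) (a' j)) -
      (max (b i) (b' i) - min (a i) (a' i)) := by
  unfold D
  rw [← Finset.add_sum_erase _ _ (Finset.mem_univ i),
    ← Finset.add_sum_erase _ (fun j => max (b j) (b' j) - min (a j) (a' j)) (Finset.mem_univ i),
    hi]
  have : ∑ x ∈ Finset.univ.erase i, dI (a' x) (b' x) (v x) ≤
      ∑ x ∈ Finset.univ.erase i, (max (b x) (b' x) - min (a x) (a' x)) := by
    apply Finset.sum_le_sum
    intro x _
    exact dI_le_hull (hab x) (hab' x) (hv.1 x) (hv.2 x)
  linarith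

lemma D_le_diff {a b a' b' v : ι → ℤ} (hab : a ≤ b) (hab' : a' ≤ b')
    (hv : v ∈ Icc (a ⊓ a') (b ⊔ b')) :
    D a b v ≤ ∑ j, (max (b j) (b' j) - min (a j) (a' j) - (b j - a j)) := by
  unfold D
  apply Finset.sum_le_sum
  intro x _
  exact dI_le_diff (hab x) (hab' x) (hv.1 x) (hv.2 x)

lemma ex_hull {a b a' b' : ι → ℤ} (hab : a ≤ b) (hab' : a' ≤ b') (k : ι) :
    (∀ j, min (a j) (exA b a' k j) = min (a j) (a' j)) ∧
    (∀ j, max (b j) (exB a b' k j) = max (b j) (b' j)) := by
  unfold exA exB
  refine ⟨fun j => ?_, fun j => ?_⟩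
  · by_cases hjk : j = k
    · subst hjk
      rw [Function.update_self]
      have h1 : a j ≤ b j := hab j
      have h2 : a' j ≤ b' j := hab' j
      split_ifs <;> omega
    · rw [Function.update_of_ne hjk]
  · by_cases hjk : j = k
    · subst hjk
      rw [Function.update_self]
      have h1 : a j ≤ b j := hab j
      have h2 : a' j ≤ b' j := hab' j
      split_ifs <;> omega
    · rw [Function.update_of_ne hjk]

lemma ex_le {a b a' b' : ι → ℤ} (hab : a ≤ b) (hab' : a' ≤ b') (k : ι) :
    exA b a' k ≤ exB a b' k := by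
  intro i
  unfold exA exB
  have h3 : a i ≤ b i := hab i
  have h4 : a' i ≤ b' i := hab' i
  by_cases hik : i = k
  · subst hik
    rw [Function.update_self, Function.update_self]
    show (if b i < a' i then a' i - 1 else a' i) ≤ (if b' i < a i then b' i + 1 else b' i)
    split_ifs <;> omega
  · rw [Function.update_of_ne hik, Function.update_of_ne hik]; exact h4

/-- Two boxes at distance at most two: the time needed to fill the spanned box. -/
lemma fill {A : Set (ι → ℤ)} {t : ℕ} {a b a' b' : ι → ℤ} (hab : a ≤ b) (hab' : a' ≤ b')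
    (h1 : Icc a b ⊆ proc A t) (h2 : Icc a' b' ⊆ proc A t) (hgap : gap a b a' b' ≤ 2)
    (W c : ℕ) (hW : ∑ j, (max (b j) (b' j) - min (a j) (a' j) - (b j - a j)) ≤ (W : ℤ))
    (hc : ∀ i, b i - a i < max (b i) (b' i) - min (a i) (a' i) →
      ∑ j, (max (b j) (b' j) - min (a j) (a' j)) - (max (b i) (b' i) - min (a i) (a' i)) ≤
        (c : ℤ)) :
    Icc (a ⊓ a') (b ⊔ b') ⊆ proc A (t + (3 * W + c)) := by
  intro v hv
  have hDW : D a b v ≤ W := le_trans (D_le_diff hab hab' hv) hW
  rcases (D_nonneg a b v).eq_or_lt with h3 | h3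
  · exact proc_le A (by omega) (h1 (mem_of_D_le (by omega)))
  obtain ⟨i, hi⟩ := exists_dI_pos h3
  have hbig : b i - a i < max (b i) (b' i) - min (a i) (a' i) := by
    have h4 := dI_le_diff (hab i) (hab' i) (hv.1 i) (hv.2 i)
    have h5 : dI (a i) (b i) (v i) ≤ max (b i) (b' i) - min (a i) (a' i) - (b i - a i) := h4
    omega
  have hci := hc i hbig
  by_cases hg1 : gap a b a' b' ≤ 1
  · have h4 : dI (a' i) (b' i) (v i) = 0 :=
      mem_other (le_trans (gI_le_gap _ _ _ _ i) hg1) (hv.1 i) (hv.2 i) hi
    have h5 := D_le_hull hab hab' hv h4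
    exact proc_le A (by omega) (fill1 hab hab' h1 h2 hg1 (2 * W + c) v hv
      (by push_cast; omega))
  · obtain ⟨k, hk⟩ : ∃ k, 0 < gI (a k) (b k) (a' k) (b' k) := by
      by_contra hcon
      push Not at hcon
      have : gap a b a' b' ≤ 0 := Finset.sum_nonpos fun i _ => hcon i
      omega
    have hab'' := ex_le hab hab' k
    obtain ⟨he1, he2⟩ := ex_hull hab hab' k
    have hsub : Icc (exA b a' k) (exB a b' k) ⊆ proc A (t + W) := by
      intro u hu
      have huh : u ∈ Icc (a ⊓ a') (b ⊔ b') := by
        refine ⟨fun j => ?_, fun j => ?_⟩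
        · show min (a j) (a' j) ≤ u j
          rw [← he1 j]; exact le_trans (min_le_right _ _) (hu.1 j)
        · show u j ≤ max (b j) (b' j)
          rw [← he2 j]; exact le_trans (hu.2 j) (le_max_right _ _)
      exact ext_fill hab hab' h1 h2 hgap hk W u hu (le_trans (D_le_diff hab hab' huh) hW)
    have hg2 : gap a b (exA b a' k) (exB a b' k) ≤ 1 := by
      rw [gap_ex hab hab' hk]; omega
    have hv' : v ∈ Icc (a ⊓ exA b a' k) (b ⊔ exB a b' k) := by
      refine ⟨fun j => ?_, fun j => ?_⟩
      · show min (a j) (exA b a' k j) ≤ v j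
        rw [he1 j]; exact hv.1 j
      · show v j ≤ max (b j) (exB a b' k j)
        rw [he2 j]; exact hv.2 j
    have h4 : dI (exA b a' k i) (exB a b' k i) (v i) = 0 :=
      mem_other (le_trans (gI_le_gap _ _ _ _ i) hg2) (hv'.1 i) (hv'.2 i) hi
    have h5 := D_le_hull hab hab'' hv' h4
    simp only [he1, he2] at h5
    have h6 := fill1 (A := A) (t := t + W) hab hab'' (h1.trans (proc_le A (by omega))) hsub hg2
      (2 * W + c) v hv' (by push_cast; omega)
    exact proc_le A (by omega) h6

end Pool.Agent.Lib.MP_1a3405_co.RTwo
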