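import Mathlib
import Pool.Agent.Lib.MP_1a3405_co.RTwoFill

/-!
Structure of finite sets spanning a box.
-/

namespace Pool.Agent.Lib.MP_1a3405_co.RTwo

open Set

set_option linter.unusedSectionVars false
set_option linter.unusedVariables false

variable {ι : Type*} [Fintype ι] [DecidableEq ι]

/-- `A` spans the box `Icc a b` -/
def Spans (A : Finset (ι → ℤ)) (a b : ι → ℤ) : Prop :=
  a ≤ b ∧ (∀ v ∈ A, v ∈ Icc a b) ∧ ∃ t, Icc a b ⊆ proc (↑A : Set (ι → ℤ)) t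

lemma Spans.subset {A : Finset (ι → ℤ)} {a b : ι → ℤ} (h : Spans A a b) :
    (↑A : Set (ι → ℤ)) ⊆ Icc a b := fun v hv => h.2.1 v (by simpa using hv)

lemma spans_singleton (p : ι → ℤ) : Spans {p} p p := by
  refine ⟨le_refl _, ?_, 0, ?_⟩
  · intro v hv
    rw [Finset.mem_singleton] at hv
    subst hv
    exact ⟨le_refl _, le_refl _⟩
  · intro v hv
    rw [Set.Icc_self] at hv
    simpa [proc] using hv

/-- the box spanned by two sets whose boxes are at distance at most two -/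
lemma Spans.union {A A' : Finset (ι → ℤ)} {a b a' b' : ι → ℤ} (h : Spans A a b)
    (h' : Spans A' a' b') (hg : gap a b a' b' ≤ 2) : Spans (A ∪ A') (a ⊓ a') (b ⊔ b') := by
  obtain ⟨hab, hA, t, ht⟩ := h
  obtain ⟨hab', hA', t', ht'⟩ := h'
  refine ⟨le_trans inf_le_left (le_trans hab le_sup_left), ?_, ?_⟩
  · intro v hv
    rw [Finset.mem_union] at hv
    rcases hv with hv | hv
    · exact ⟨le_trans inf_le_left (hA v hv).1, le_trans (hA v hv).2 le_sup_left⟩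
    · exact ⟨le_trans inf_le_right (hA' v hv).1, le_trans (hA' v hv).2 le_sup_right⟩
  · have h1 : Icc a b ⊆ proc (↑(A ∪ A') : Set (ι → ℤ)) (max t t') :=
      ht.trans ((proc_mono_set (by simp) t).trans (proc_le _ (le_max_left _ _)))
    have h2 : Icc a' b' ⊆ proc (↑(A ∪ A') : Set (ι → ℤ)) (max t t') :=
      ht'.trans ((proc_mono_set (by simp) t').trans (proc_le _ (le_max_right _ _)))
    refine ⟨_, fill hab hab' h1 h2 hg
      (∑ j, (max (b j) (b' j) - min (a j) (a' j) - (b j - a j))).toNat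
      (∑ j, (max (b j) (b' j) - min (a j) (a' j))).toNat (Int.self_le_toNat _) ?_⟩
    intro i _
    have h3 := Int.self_le_toNat (∑ j, (max (b j) (b' j) - min (a j) (a' j)))
    have h4 : a i ≤ b i := hab i
    omega

lemma Spans.unique_le {A B : Finset (ι → ℤ)} {a b a' b' : ι → ℤ} (h : Spans A a b)
    (h' : Spans B a' b') (hAB : A ⊆ B) : a' ≤ a ∧ b ≤ b' := by
  obtain ⟨hab, hA, t, ht⟩ := h
  have h1 : Icc a b ⊆ Icc a' b' :=
    ht.trans (proc_subset_Icc ((Finset.coe_subset.2 hAB).trans h'.subset) t)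
  exact (Set.Icc_subset_Icc_iff hab).1 h1

lemma Spans.unique {A : Finset (ι → ℤ)} {a b a' b' : ι → ℤ} (h : Spans A a b)
    (h' : Spans A a' b') : a = a' ∧ b = b' := by
  have h1 := h.unique_le h' (Finset.Subset.refl _)
  have h2 := h'.unique_le h (Finset.Subset.refl _)
  exact ⟨le_antisymm h2.1 h1.1, le_antisymm h1.2 h2.2⟩

lemma Spans.nonempty {A : Finset (ι → ℤ)} {a b : ι → ℤ} (h : Spans A a b) : A.Nonempty := by
  by_contra hcon
  rw [Finset.not_nonempty_iff_eq_empty] at hcon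
  obtain ⟨hab, -, t, ht⟩ := h
  subst hcon
  have hemp : ∀ t, proc (↑(∅ : Finset (ι → ℤ)) : Set (ι → ℤ)) t = ∅ := by
    intro t
    induction t with
    | zero => simp [proc]
    | succ t ih =>
      rw [proc_succ, ih]
      ext v; simp
  rw [hemp] at ht
  exact ht ⟨le_refl a, hab⟩

lemma gap_le_of_mem {a b a' b' v : ι → ℤ} (hv : v ∈ Icc a' b') : gap a b a' b' ≤ D a b v := by
  apply Finset.sum_le_sum
  intro i _
  have h1 : a' i ≤ v i := hv.1 i
  have h2 : v i ≤ b' i := hv.2 i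
  simp only [gI, dI]
  omega

lemma D_le_of_nb {a b u v w : ι → ℤ} (hu : Nb v u) (hw : Nb v w) (hmem : u ∈ Icc a b) :
    D a b w ≤ 2 := by
  have h0 := D_eq_zero_of_mem hmem
  obtain ⟨i, s, hs, rfl⟩ := hu
  obtain ⟨j, r, hr, rfl⟩ := hw
  rw [D_update] at h0 ⊢
  have h1 : dI (a i) (b i) (v i) ≤ dI (a i) (b i) (v i + s) + 1 := by
    simp only [dI]; rcases hs with rfl | rfl <;> omega
  have h2 : dI (a j) (b j) (v j + r) ≤ dI (a j) (b j) (v j) + 1 := by
    simp only [dI]; rcases hr with rfl | rfl <;> omega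
  omega

/-- every vertex of the closure lies in a box spanned by a subset -/
lemma exists_spans_of_mem (C : Finset (ι → ℤ)) (t : ℕ) :
    ∀ v ∈ proc (↑C : Set (ι → ℤ)) t, ∃ C' ⊆ C, ∃ a b, Spans C' a b ∧ v ∈ Icc a b := by
  induction t with
  | zero =>
    intro v hv
    refine ⟨{v}, ?_, v, v, spans_singleton v, ⟨le_refl _, le_refl _⟩⟩
    simpa [proc] using hv
  | succ t ih =>
    rintro v (hv | ⟨u, w, h1, h2, h3, h4, h5⟩)
    · exact ih v hv
    · obtain ⟨C1, hC1, a1, b1, hs1, hu⟩ := ih u h4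
      obtain ⟨C2, hC2, a2, b2, hs2, hw⟩ := ih w h5
      have hg : gap a1 b1 a2 b2 ≤ 2 := le_trans (gap_le_of_mem hw) (D_le_of_nb h2 h3 hu)
      refine ⟨C1 ∪ C2, Finset.union_subset hC1 hC2, _, _, hs1.union hs2 hg, ?_⟩
      exact mem_Icc_of_nb h1 h2 h3 (le_trans inf_le_left hu.1) (le_trans hu.2 le_sup_left)
        (le_trans inf_le_right hw.1) (le_trans hw.2 le_sup_right)

/-- a spanned box which is not everything has a neighbouring box spanned by the rest -/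
lemma exists_near {A B : Finset (ι → ℤ)} {a b a1 b1 : ι → ℤ} (hA : Spans A a b) (hBA : B ⊆ A)
    (hB : Spans B a1 b1) (hne : ¬ (a1 = a ∧ b1 = b)) :
    ∃ C ⊆ A \ B, ∃ a2 b2, Spans C a2 b2 ∧ gap a1 b1 a2 b2 ≤ 2 := by
  by_contra hcon
  push Not at hcon
  have key : ∀ t, ∀ v ∈ proc (↑A : Set (ι → ℤ)) t, v ∈ Icc a1 b1 ∨
      ∃ C ⊆ A \ B, ∃ a2 b2, Spans C a2 b2 ∧ v ∈ Icc a2 b2 := by
    intro t
    induction t with
    | zero =>
      intro v hv
      have hv' : v ∈ A := by simpa [proc] using hv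
      by_cases hvB : v ∈ B
      · exact Or.inl (hB.2.1 v hvB)
      · exact Or.inr ⟨{v}, by simp [hv', hvB], v, v, spans_singleton v, ⟨le_refl _, le_refl _⟩⟩
    | succ t ih =>
      rintro v (hv | ⟨u, w, h1, h2, h3, h4, h5⟩)
      · exact ih v hv
      · rcases ih u h4 with hu | ⟨C1, hC1, a2, b2, hs1, hu⟩
        · rcases ih w h5 with hw | ⟨C2, hC2, a3, b3, hs2, hw⟩
          · exact Or.inl (mem_Icc_of_nb h1 h2 h3 hu.1 hu.2 hw.1 hw.2)
          · exfalso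
            have := hcon C2 hC2 a3 b3 hs2
            have := le_trans (gap_le_of_mem hw) (D_le_of_nb h2 h3 hu)
            omega
        · rcases ih w h5 with hw | ⟨C2, hC2, a3, b3, hs2, hw⟩
          · exfalso
            have := hcon C1 hC1 a2 b2 hs1
            have := le_trans (gap_le_of_mem hu) (D_le_of_nb h3 h2 hw)
            omega
          · right
            have hg : gap a2 b2 a3 b3 ≤ 2 := le_trans (gap_le_of_mem hw) (D_le_of_nb h2 h3 hu)
            refine ⟨C1 ∪ C2, Finset.union_subset hC1 hC2, _, _, hs1.union hs2 hg, ?_⟩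
            exact mem_Icc_of_nb h1 h2 h3 (le_trans inf_le_left hu.1) (le_trans hu.2 le_sup_left)
              (le_trans inf_le_right hw.1) (le_trans hw.2 le_sup_right)
  obtain ⟨hab, hAA, T, hT⟩ := hA
  have hle : a ≤ a1 ∧ b1 ≤ b := hB.unique_le ⟨hab, hAA, T, hT⟩ hBA
  have hab1 : a1 ≤ b1 := hB.1
  -- a vertex of the big box adjacent to the small one
  have hv : ∃ v ∈ Icc a b, D a1 b1 v = 1 := by
    have : ∃ i, a i < a1 i ∨ b1 i < b i := by
      by_contra h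
      push Not at h
      apply hne
      exact ⟨le_antisymm (fun i => (h i).1) hle.1, le_antisymm hle.2 (fun i => (h i).2)⟩
    obtain ⟨i, hi | hi⟩ := this
    · refine ⟨Function.update a1 i (a1 i - 1), ?_, ?_⟩
      · refine update_mem_Icc ⟨hle.1, le_trans hab1 hle.2⟩ (by omega) ?_
        have h3 : a1 i ≤ b1 i := hab1 i
        have h4 : b1 i ≤ b i := hle.2 i
        omega
      · rw [D_update, D_eq_zero_of_mem (⟨le_refl _, hab1⟩ : a1 ∈ Icc a1 b1)]
        have h3 : a1 i ≤ b1 i := hab1 i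
        simp only [dI]; omega
    · refine ⟨Function.update b1 i (b1 i + 1), ?_, ?_⟩
      · refine update_mem_Icc ⟨le_trans hle.1 hab1, hle.2⟩ ?_ (by omega)
        have h3 : a1 i ≤ b1 i := hab1 i
        have h4 : a i ≤ a1 i := hle.1 i
        omega
      · rw [D_update, D_eq_zero_of_mem (⟨hab1, le_refl _⟩ : b1 ∈ Icc a1 b1)]
        have h3 : a1 i ≤ b1 i := hab1 i
        simp only [dI]; omega
  obtain ⟨v, hv1, hv2⟩ := hv
  rcases key T v (hT hv1) with h | ⟨C, hC, a2, b2, hs, hm⟩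
  · rw [D_eq_zero_of_mem h] at hv2; omega
  · have h3 := hcon C hC a2 b2 hs
    have h4 := gap_le_of_mem (a := a1) (b := b1) hm
    omega

lemma D_anti {a b a' b' v : ι → ℤ} (h1 : a' ≤ a) (h2 : b ≤ b') : D a' b' v ≤ D a b v := by
  apply Finset.sum_le_sum
  intro i _
  have h1 : a' i ≤ a i := h1 i
  have h2 : b i ≤ b' i := h2 i
  simp only [dI]
  omega

lemma D_le_diff' {a b a' b' v : ι → ℤ} (hab : a ≤ b) (h1 : a' ≤ a) (h2 : b ≤ b')
    (hv : v ∈ Icc a' b') : D a b v ≤ ∑ j, (b' j - a' j - (b j - a j)) := by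
  apply Finset.sum_le_sum
  intro i _
  have h0 : a i ≤ b i := hab i
  have h1 : a' i ≤ a i := h1 i
  have h2 : b i ≤ b' i := h2 i
  have h3 : a' i ≤ v i := hv.1 i
  have h4 : v i ≤ b' i := hv.2 i
  simp only [dI]
  omega

/-- maximal proper subsets spanning a box -/
lemma exists_max_sub {A C0 : Finset (ι → ℤ)} {a b a0 b0 : ι → ℤ} (hA : Spans A a b)
    (h0 : ¬ ∃ A' ⊂ A, Spans A' a b) (hC0 : C0 ⊂ A) (hs0 : Spans C0 a0 b0) :
    ∃ B, C0 ⊆ B ∧ B ⊂ A ∧ ∃ a1 b1 a2 b2, Spans B a1 b1 ∧ Spans (A \ B) a2 b2 ∧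
      gap a1 b1 a2 b2 ≤ 2 ∧ ∀ c ∈ A \ B, D a1 b1 c ≤ 2 → A \ B = {c} := by
  classical
  obtain ⟨B, hB, hmax⟩ := Finset.exists_max_image
    (A.powerset.filter fun B => C0 ⊆ B ∧ B ⊂ A ∧ ∃ a1 b1, Spans B a1 b1) Finset.card
    ⟨C0, by
      rw [Finset.mem_filter, Finset.mem_powerset]
      exact ⟨hC0.1, Finset.Subset.refl _, hC0, a0, b0, hs0⟩⟩
  rw [Finset.mem_filter, Finset.mem_powerset] at hB
  obtain ⟨-, hCB, hBA, a1, b1, hBs⟩ := hB
  have hmax' : ∀ C ⊆ A \ B, C.Nonempty → (∃ a3 b3, Spans (B ∪ C) a3 b3) → C = A \ B := by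
    intro C hC hCne hsp
    have hCA : B ∪ C ⊆ A := Finset.union_subset hBA.1 (hC.trans Finset.sdiff_subset)
    have hdisj : Disjoint B C := by
      rw [Finset.disjoint_left]
      intro x hx hx'
      exact (Finset.mem_sdiff.1 (hC hx')).2 hx
    have heq : B ∪ C = A := by
      by_contra hne
      have h1 := hmax (B ∪ C) (by
        rw [Finset.mem_filter, Finset.mem_powerset]
        exact ⟨hCA, hCB.trans Finset.subset_union_left,
          Finset.ssubset_iff_subset_ne.2 ⟨hCA, hne⟩, hsp⟩)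
      rw [Finset.card_union_of_disjoint hdisj] at h1
      have := hCne.card_pos
      omega
    rw [← heq, Finset.union_sdiff_left]
    exact (Finset.sdiff_eq_self_of_disjoint hdisj.symm).symm
  have hne : ¬ (a1 = a ∧ b1 = b) := by
    rintro ⟨rfl, rfl⟩
    exact h0 ⟨B, hBA, hBs⟩
  obtain ⟨C, hC, a2, b2, hCs, hg⟩ := exists_near hA hBA.1 hBs hne
  have hCeq := hmax' C hC hCs.nonempty ⟨_, _, hBs.union hCs hg⟩
  rw [hCeq] at hCs
  refine ⟨B, hCB, hBA, a1, b1, a2, b2, hBs, hCs, hg, ?_⟩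
  intro c hc hD
  refine (hmax' {c} (by simpa using hc) (Finset.singleton_nonempty _) ?_).symm
  exact ⟨_, _, hBs.union (spans_singleton c)
    (le_trans (gap_le_of_mem ⟨le_refl _, le_refl _⟩) hD)⟩

/-- The structure of a set spanning a box. -/
lemma spans_struct {A : Finset (ι → ℤ)} {a b : ι → ℤ} (hA : Spans A a b) (hcard : 2 ≤ A.card) :
    (∃ A' ⊂ A, Spans A' a b) ∨
    (∃ B c a1 b1, A = insert c B ∧ c ∉ B ∧ Spans B a1 b1 ∧ 0 < D a1 b1 c ∧ D a1 b1 c ≤ 2 ∧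
      a = a1 ⊓ c ∧ b = b1 ⊔ c) ∨
    (∃ B C a1 b1 a2 b2, B ⊂ A ∧ C ⊂ A ∧ Spans B a1 b1 ∧ Spans C a2 b2 ∧ gap a1 b1 a2 b2 ≤ 2 ∧
      a = a1 ⊓ a2 ∧ b = b1 ⊔ b2 ∧ 3 ≤ ∑ j, (b j - a j - (b1 j - a1 j)) ∧
      3 ≤ ∑ j, (b j - a j - (b2 j - a2 j))) := by
  classical
  by_cases h0 : ∃ A' ⊂ A, Spans A' a b
  · exact Or.inl h0
  right
  -- the case of a single last vertex
  have hone : ∀ B a1 b1, B ⊂ A → Spans B a1 b1 → (∃ c ∈ A \ B, D a1 b1 c ≤ 2 ∧ A \ B = {c}) →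
      (∃ B c a1 b1, A = insert c B ∧ c ∉ B ∧ Spans B a1 b1 ∧ 0 < D a1 b1 c ∧ D a1 b1 c ≤ 2 ∧
      a = a1 ⊓ c ∧ b = b1 ⊔ c) := by
    rintro B a1 b1 hBA hBs ⟨c, hc, hD, hsing⟩
    have hcB := (Finset.mem_sdiff.1 hc).2
    have hAeq : A = insert c B := by
      rw [← Finset.union_sdiff_of_subset hBA.1, hsing, Finset.insert_eq, Finset.union_comm]
    have hsp := hBs.union (spans_singleton c)
      (le_trans (gap_le_of_mem ⟨le_refl _, le_refl _⟩) hD)
    have hsp' : Spans A (a1 ⊓ c) (b1 ⊔ c) := by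
      rw [hAeq, Finset.insert_eq, Finset.union_comm]; exact hsp
    obtain ⟨e1, e2⟩ := hA.unique hsp'
    refine ⟨B, c, a1, b1, hAeq, hcB, hBs, ?_, hD, e1, e2⟩
    by_contra hcon
    have hmem : c ∈ Icc a1 b1 := mem_of_D_le (by push Not at hcon; exact hcon)
    apply h0
    refine ⟨B, hBA, ?_⟩
    rw [e1, e2, inf_eq_left.2 hmem.1, sup_eq_left.2 hmem.2]
    exact hBs
  obtain ⟨p, hp⟩ := hA.nonempty
  have hpA : ({p} : Finset (ι → ℤ)) ⊂ A := by
    rw [Finset.ssubset_iff_subset_ne]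
    refine ⟨by simpa using hp, ?_⟩
    rintro rfl
    simp at hcard
  obtain ⟨B, hpB, hBA, a1, b1, a2, b2, hBs, hCs, hg, hB3⟩ :=
    exists_max_sub hA h0 hpA (spans_singleton p)
  by_cases hc1 : ∃ c ∈ A \ B, D a1 b1 c ≤ 2
  · obtain ⟨c, hc, hD⟩ := hc1
    exact Or.inl (hone B a1 b1 hBA hBs ⟨c, hc, hD, hB3 c hc hD⟩)
  push Not at hc1
  have hCA : A \ B ⊂ A := by
    rw [Finset.ssubset_iff_subset_ne]
    refine ⟨Finset.sdiff_subset, ?_⟩
    intro h
    have : p ∈ A \ B := by rw [h]; exact hp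
    exact (Finset.mem_sdiff.1 this).2 (hpB (Finset.mem_singleton_self p))
  obtain ⟨B2, hCB2, hB2A, a3, b3, a4, b4, hB2s, -, -, hB23⟩ := exists_max_sub hA h0 hCA hCs
  by_cases hc2 : ∃ c ∈ A \ B2, D a3 b3 c ≤ 2
  · obtain ⟨c, hc, hD⟩ := hc2
    exact Or.inl (hone B2 a3 b3 hB2A hB2s ⟨c, hc, hD, hB23 c hc hD⟩)
  push Not at hc2
  right
  have hsp' : Spans A (a1 ⊓ a2) (b1 ⊔ b2) := by
    have := hBs.union hCs hg
    rwa [Finset.union_sdiff_of_subset hBA.1] at this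
  obtain ⟨e1, e2⟩ := hA.unique hsp'
  have hle1 : a ≤ a1 ∧ b1 ≤ b := hBs.unique_le hA hBA.1
  have hle2 : a ≤ a2 ∧ b2 ≤ b := hCs.unique_le hA Finset.sdiff_subset
  have hle3 : a3 ≤ a2 ∧ b2 ≤ b3 := hCs.unique_le hB2s hCB2
  refine ⟨B, A \ B, a1, b1, a2, b2, hBA, hCA, hBs, hCs, hg, e1, e2, ?_, ?_⟩
  · obtain ⟨c, hc⟩ := hCs.nonempty
    have h1 := hc1 c hc
    have h2 := D_le_diff' hBs.1 hle1.1 hle1.2 (hA.2.1 c (Finset.mem_sdiff.1 hc).1)
    omega
  · obtain ⟨c, hcA, hcB2⟩ := Finset.exists_of_ssubset hB2A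
    have h1 := hc2 c (Finset.mem_sdiff.2 ⟨hcA, hcB2⟩)
    have h2 := D_le_diff' hCs.1 hle2.1 hle2.2 (hA.2.1 c hcA)
    have h3 := D_anti (v := c) hle3.1 hle3.2
    omega

end Pool.Agent.Lib.MP_1a3405_co.RTwo
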