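import Mathlib
import Pool.Agent.Lib.MP_1a3405_co.RTwoStruct

/-!
Filling times for one or two additional seeds.
-/

namespace Pool.Agent.Lib.MP_1a3405_co.RTwo

open Set

set_option linter.unusedSectionVars false
set_option linter.unusedVariables false

variable {ι : Type*} [Fintype ι] [DecidableEq ι]

/-- total side length of a box -/
def sz (a b : ι → ℤ) : ℤ := ∑ j, (b j - a j)

lemma fill' {A : Set (ι → ℤ)} {t : ℕ} {a b a' b' : ι → ℤ} (hab : a ≤ b) (hab' : a' ≤ b')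
    (h1 : Icc a b ⊆ proc A t) (h2 : Icc a' b' ⊆ proc A t) (hgap : gap a b a' b' ≤ 2)
    (M : ℤ) (hM0 : 0 ≤ M)
    (hM : ∀ i, b i - a i < max (b i) (b' i) - min (a i) (a' i) → sz a b - (b i - a i) ≤ M) :
    ∃ t' : ℕ, (t' : ℤ) ≤ t + 4 * (sz (a ⊓ a') (b ⊔ b') - sz a b) + M ∧
      Icc (a ⊓ a') (b ⊔ b') ⊆ proc A t' := by
  have hW : ∑ j, (max (b j) (b' j) - min (a j) (a' j) - (b j - a j)) =
      sz (a ⊓ a') (b ⊔ b') - sz a b := by
    unfold sz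
    rw [← Finset.sum_sub_distrib]
    rfl
  have hW0 : 0 ≤ sz (a ⊓ a') (b ⊔ b') - sz a b := by
    rw [← hW]
    apply Finset.sum_nonneg
    intro i _
    have := hab i
    omega
  obtain ⟨W, hWW⟩ := Int.eq_ofNat_of_zero_le hW0
  obtain ⟨m, hm⟩ := Int.eq_ofNat_of_zero_le hM0
  refine ⟨t + (3 * W + (m + W)), by push_cast; omega, ?_⟩
  apply fill hab hab' h1 h2 hgap W (m + W) (by rw [hW, hWW])
  intro i hi
  have h3 := hM i hi
  have h4 : ∑ j, (max (b j) (b' j) - min (a j) (a' j)) = sz (a ⊓ a') (b ⊔ b') := rfl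
  rw [h4]
  push_cast
  omega

lemma diff_eq_dI {a b p : ℤ} (hab : a ≤ b) : max b p - min a p - (b - a) = dI a b p := by
  simp only [dI]; omega

lemma sz_hull_point {a b p : ι → ℤ} (hab : a ≤ b) : sz (a ⊓ p) (b ⊔ p) - sz a b = D a b p := by
  unfold sz D
  rw [← Finset.sum_sub_distrib]
  apply Finset.sum_congr rfl
  intro j _
  exact diff_eq_dI (hab j)

lemma gap_point {a b p : ι → ℤ} : gap a b p p ≤ D a b p :=
  gap_le_of_mem ⟨le_refl _, le_refl _⟩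

lemma seed_fill {A : Set (ι → ℤ)} {t : ℕ} {a b p : ι → ℤ} (hab : a ≤ b)
    (h1 : Icc a b ⊆ proc A t) (hp : p ∈ proc A t) (hD : D a b p ≤ 2) (M : ℤ) (hM0 : 0 ≤ M)
    (hM : ∀ i, 0 < dI (a i) (b i) (p i) → sz a b - (b i - a i) ≤ M) :
    ∃ t' : ℕ, (t' : ℤ) ≤ t + 8 + M ∧ Icc (a ⊓ p) (b ⊔ p) ⊆ proc A t' := by
  obtain ⟨t', h3, h4⟩ := fill' (a' := p) (b' := p) hab (le_refl _) h1
    (by rw [Set.Icc_self]; simpa using hp) (le_trans gap_point hD) M hM0 (by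
      intro i hi
      apply hM
      have := diff_eq_dI (p := p i) (hab i)
      simp only [dI] at this ⊢
      omega)
  refine ⟨t', ?_, h4⟩
  rw [sz_hull_point hab] at h3
  omega

lemma mem_hull_left {a b a' b' : ι → ℤ} : Icc a b ⊆ Icc (a ⊓ a') (b ⊔ b') :=
  Set.Icc_subset_Icc inf_le_left le_sup_left

lemma D_hull_le {a b p q v : ι → ℤ} (hab : a ≤ b) (hv : v ∈ Icc (a ⊓ p ⊓ q) (b ⊔ p ⊔ q)) :
    D (a ⊓ p) (b ⊔ p) v ≤ D a b q := by
  have h0 : a ⊓ p ≤ b ⊔ p := le_trans inf_le_left (le_trans hab le_sup_left)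
  have h1 := D_le_diff (a' := q) (b' := q) h0 (le_refl _) hv
  have h2 : ∑ j, (max ((b ⊔ p) j) (q j) - min ((a ⊓ p) j) (q j) - ((b ⊔ p) j - (a ⊓ p) j)) =
      D (a ⊓ p) (b ⊔ p) q := by
    unfold D
    apply Finset.sum_congr rfl
    intro j _
    exact diff_eq_dI (h0 j)
  rw [h2] at h1
  exact le_trans h1 (D_anti inf_le_left le_sup_left)

/-- two seeds acting in parallel -/
lemma parallel_fill {A : Set (ι → ℤ)} {t : ℕ} {a b p q : ι → ℤ} (hab : a ≤ b)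
    (h1 : Icc a b ⊆ proc A t) (hp : p ∈ proc A t) (hq : q ∈ proc A t)
    (hDp : D a b p ≤ 2) (hDq : D a b q ≤ 2) (M : ℤ) (hM0 : 0 ≤ M)
    (hMp : ∀ i, 0 < dI (a i) (b i) (p i) → sz a b - (b i - a i) ≤ M)
    (hMq : ∀ i, 0 < dI (a i) (b i) (q i) → sz a b - (b i - a i) ≤ M) :
    ∃ t' : ℕ, (t' : ℤ) ≤ t + 14 + M ∧ Icc (a ⊓ p ⊓ q) (b ⊔ p ⊔ q) ⊆ proc A t' := by
  obtain ⟨t1, ht1, hb1⟩ := seed_fill hab h1 hp hDp M hM0 hMp
  obtain ⟨t2, ht2, hb2⟩ := seed_fill hab h1 hq hDq M hM0 hMq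
  refine ⟨max t1 t2 + 6, by push_cast; omega, ?_⟩
  intro v hv
  have hp0 : a ⊓ p ≤ b ⊔ p := le_trans inf_le_left (le_trans hab le_sup_left)
  have hq0 : a ⊓ q ≤ b ⊔ q := le_trans inf_le_left (le_trans hab le_sup_left)
  apply fill1 hp0 hq0 (hb1.trans (proc_le A (le_max_left _ _)))
    (hb2.trans (proc_le A (le_max_right _ _))) ?_ 6 v ?_ ?_
  · have h3 : a ∈ Icc (a ⊓ q) (b ⊔ q) := mem_hull_left ⟨le_refl _, hab⟩
    have h4 : a ∈ Icc (a ⊓ p) (b ⊔ p) := mem_hull_left ⟨le_refl _, hab⟩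
    have := gap_le_of_mem (a := a ⊓ p) (b := b ⊔ p) h3
    rw [D_eq_zero_of_mem h4] at this
    omega
  · refine ⟨le_trans ?_ hv.1, le_trans hv.2 ?_⟩
    · exact le_inf (le_inf (inf_le_left.trans inf_le_left) (inf_le_left.trans inf_le_right))
        (inf_le_right.trans inf_le_right)
    · exact sup_le (sup_le (le_sup_left.trans le_sup_left) (le_sup_right.trans le_sup_left))
        (le_sup_right.trans le_sup_right)
  · have h3 := D_hull_le hab hv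
    have hv' : v ∈ Icc (a ⊓ q ⊓ p) (b ⊔ q ⊔ p) := by
      rw [inf_right_comm, sup_right_comm]; exact hv
    have h4 := D_hull_le hab hv'
    push_cast
    omega

end Pool.Agent.Lib.MP_1a3405_co.RTwo
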