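import Mathlib
import Pool.Agent.Lib.MP_1a3405_co.RTwoSteps

/-!
Filling time for a diagonal seed followed by an adjacent seed.
-/

namespace Pool.Agent.Lib.MP_1a3405_co.RTwo

open Set

set_option linter.unusedSectionVars false
set_option linter.unusedVariables false

variable {ι : Type*} [Fintype ι] [DecidableEq ι]

lemma slack1 {a b p q : ℤ} (hab : a ≤ b) :
    dI a b q ≤ dI (min a p) (max b p) q + dI a b p := by
  simp only [dI]; omega

lemma D_hull_le0 {a b q v : ι → ℤ} (hab : a ≤ b) (hv : v ∈ Icc (a ⊓ q) (b ⊔ q)) :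
    D a b v ≤ D a b q := by
  have h1 := D_le_diff (a' := q) (b' := q) hab (le_refl _) hv
  have h2 : ∑ j, (max (b j) (q j) - min (a j) (q j) - (b j - a j)) = D a b q := by
    unfold D
    apply Finset.sum_congr rfl
    intro j _
    exact diff_eq_dI (hab j)
  rwa [h2] at h1

lemma sum_two {f : ι → ℤ} (hf : ∀ j, 0 ≤ f j) {i k : ι} (hik : i ≠ k) : f i + f k ≤ ∑ j, f j := by
  rw [← Finset.sum_pair hik]
  exact Finset.sum_le_sum_of_subset_of_nonneg (Finset.subset_univ _) fun j _ _ => hf j

lemma sum_three {f : ι → ℤ} (hf : ∀ j, 0 ≤ f j) {i k l : ι} (hik : i ≠ k) (hil : i ≠ l)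
    (hkl : k ≠ l) : f i + f k + f l ≤ ∑ j, f j := by
  have h : ∑ j ∈ ({i, k, l} : Finset ι), f j = f i + f k + f l := by
    rw [Finset.sum_insert (by simp [hik, hil]), Finset.sum_pair hkl]; ring
  rw [← h]
  exact Finset.sum_le_sum_of_subset_of_nonneg (Finset.subset_univ _) fun j _ _ => hf j

lemma sum_face {f g : ι → ℤ} {i k : ι} (hik : i ≠ k) (hi : f i = 0) (hk : f k = 0)
    (h : ∀ j, j ≠ i → j ≠ k → f j = g j) : ∑ j, f j = ∑ j, g j - g i - g k := by
  have hki : k ∈ Finset.univ.erase i := by simp [Ne.symm hik]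
  rw [← Finset.add_sum_erase _ f (Finset.mem_univ i), ← Finset.add_sum_erase _ f hki,
    ← Finset.add_sum_erase _ g (Finset.mem_univ i), ← Finset.add_sum_erase _ g hki, hi, hk]
  have : ∑ x ∈ (Finset.univ.erase i).erase k, f x = ∑ x ∈ (Finset.univ.erase i).erase k, g x := by
    apply Finset.sum_congr rfl
    intro x hx
    rw [Finset.mem_erase, Finset.mem_erase] at hx
    exact h x hx.2.1 hx.1
  rw [this]; ring

lemma clamp1 {a b p q : ℤ} (hab : a ≤ b) (hp : dI a b p = 1)
    (hq : dI a b q = dI (min a p) (max b p) q + dI a b p) :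
    max a (min b q) = max a (min b p) ∧ max (min a p) (min (max b p) q) = p := by
  simp only [dI] at *; omega

lemma clamp0 {a b p q : ℤ} (hab : a ≤ b) (hp : dI a b p = 0) :
    max (min a p) (min (max b p) q) = max a (min b q) := by
  simp only [dI] at *; omega

/-- a diagonal seed `p` followed by a seed `q` adjacent to the box spanned by the box and `p`,
but at distance three from the first box -/
lemma discount_fill {A : Set (ι → ℤ)} {t : ℕ} {a b p q : ι → ℤ} (hab : a ≤ b)
    (h1 : Icc a b ⊆ proc A t) (hp : p ∈ proc A t) (hq : q ∈ proc A t) {i k : ι} (hik : i ≠ k)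
    (hpi : dI (a i) (b i) (p i) = 1) (hpk : dI (a k) (b k) (p k) = 1) (hDp : D a b p = 2)
    (hDq : 3 ≤ D a b q) (hDq' : D (a ⊓ p) (b ⊔ p) q ≤ 1) (M : ℤ)
    (hM1 : sz a b - (b i - a i) ≤ M) (hM2 : sz a b - (b k - a k) ≤ M)
    (hM3 : ∀ l, 0 < dI ((a ⊓ p) l) ((b ⊔ p) l) (q l) →
      (sz a b - (b i - a i) - (b k - a k)) + (sz a b - (b l - a l)) ≤ M) :
    ∃ t' : ℕ, (t' : ℤ) ≤ t + 26 + M ∧ Icc (a ⊓ p ⊓ q) (b ⊔ p ⊔ q) ⊆ proc A t' := by
  have hside : ∀ j, 0 ≤ b j - a j := fun j => by have : a j ≤ b j := hab j; omega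
  have hsz_two := sum_two hside hik
  -- equality in the slack inequality
  have heq : ∀ j, dI (a j) (b j) (q j) =
      dI (min (a j) (p j)) (max (b j) (p j)) (q j) + dI (a j) (b j) (p j) := by
    have hs : ∑ j, (dI (min (a j) (p j)) (max (b j) (p j)) (q j) + dI (a j) (b j) (p j) -
        dI (a j) (b j) (q j)) ≤ 0 := by
      rw [Finset.sum_sub_distrib, Finset.sum_add_distrib]
      have e1 : ∑ j, dI (min (a j) (p j)) (max (b j) (p j)) (q j) = D (a ⊓ p) (b ⊔ p) q := rfl
      have e2 : ∑ j, dI (a j) (b j) (p j) = D a b p := rfl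
      have e3 : ∑ j, dI (a j) (b j) (q j) = D a b q := rfl
      rw [e1, e2, e3]; omega
    have hnn : ∀ j ∈ Finset.univ, 0 ≤ dI (min (a j) (p j)) (max (b j) (p j)) (q j) +
        dI (a j) (b j) (p j) - dI (a j) (b j) (q j) := by
      intro j _
      have := slack1 (p := p j) (q := q j) (hab j)
      omega
    have h0 := (Finset.sum_eq_zero_iff_of_nonneg hnn).1
      (le_antisymm hs (Finset.sum_nonneg hnn))
    intro j
    have := h0 j (Finset.mem_univ j)
    omega
  have hRB1 : D (a ⊓ p) (b ⊔ p) q = 1 := by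
    have : D a b q = D (a ⊓ p) (b ⊔ p) q + D a b p := by
      unfold D
      rw [← Finset.sum_add_distrib]
      exact Finset.sum_congr rfl fun j _ => heq j
    omega
  obtain ⟨l, hl⟩ := exists_dI_pos (a := a ⊓ p) (b := b ⊔ p) (v := q) (by omega)
  have hl' : 0 < dI (min (a l) (p l)) (max (b l) (p l)) (q l) := hl
  have hRBl : dI (min (a l) (p l)) (max (b l) (p l)) (q l) ≤ 1 := by
    have h2 : dI (min (a l) (p l)) (max (b l) (p l)) (q l) ≤ D (a ⊓ p) (b ⊔ p) q :=
      dI_le_D (a ⊓ p) (b ⊔ p) q l
    omega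
  have hRB0 : ∀ j, j ≠ l → dI (min (a j) (p j)) (max (b j) (p j)) (q j) = 0 := by
    intro j hj
    have h2 : dI (min (a l) (p l)) (max (b l) (p l)) (q l) +
        dI (min (a j) (p j)) (max (b j) (p j)) (q j) ≤ D (a ⊓ p) (b ⊔ p) q :=
      sum_two (f := fun j => dI (min (a j) (p j)) (max (b j) (p j)) (q j))
        (fun j => dI_nonneg _ _ _) (Ne.symm hj)
    have h3 := dI_nonneg (min (a j) (p j)) (max (b j) (p j)) (q j)
    omega
  have hp0 : ∀ j, j ≠ i → j ≠ k → dI (a j) (b j) (p j) = 0 := by
    intro j hji hjk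
    have h2 : dI (a i) (b i) (p i) + dI (a k) (b k) (p k) + dI (a j) (b j) (p j) ≤ D a b p :=
      sum_three (f := fun j => dI (a j) (b j) (p j)) (fun j => dI_nonneg _ _ _) hik
        (Ne.symm hji) (Ne.symm hjk)
    have h3 := dI_nonneg (a j) (b j) (p j)
    omega
  have hpl1 : dI (a l) (b l) (p l) ≤ 1 := by
    by_cases hli : l = i
    · rw [hli, hpi]
    · by_cases hlk : l = k
      · rw [hlk, hpk]
      · rw [hp0 l hli hlk]; omega
  -- the edge face
  set lo : ι → ℤ := fun j => if j = i ∨ j = k then max (a j) (min (b j) (p j)) else a j with hlo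
  set hi : ι → ℤ := fun j => if j = i ∨ j = k then max (a j) (min (b j) (p j)) else b j with hhi
  have hlohi : lo ≤ hi := by
    intro j
    have : a j ≤ b j := hab j
    show (if j = i ∨ j = k then max (a j) (min (b j) (p j)) else a j) ≤
      (if j = i ∨ j = k then max (a j) (min (b j) (p j)) else b j)
    split_ifs <;> omega
  have halo : a ≤ lo := by
    intro j
    show a j ≤ (if j = i ∨ j = k then max (a j) (min (b j) (p j)) else a j)
    split_ifs <;> omega
  have hhib : hi ≤ b := by
    intro j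
    have : a j ≤ b j := hab j
    show (if j = i ∨ j = k then max (a j) (min (b j) (p j)) else b j) ≤ b j
    split_ifs <;> omega
  have hlosub : Icc lo hi ⊆ proc A t := (Set.Icc_subset_Icc halo hhib).trans h1
  have hDlo : D lo hi p ≤ 2 := by
    rw [← hDp]
    apply le_of_eq
    unfold D
    apply Finset.sum_congr rfl
    intro j _
    have : a j ≤ b j := hab j
    simp only [hlo, hhi, dI]
    split_ifs <;> omega
  have hszlo : sz lo hi = sz a b - (b i - a i) - (b k - a k) := by
    unfold sz
    apply sum_face hik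
    · simp [hlo, hhi]
    · simp [hlo, hhi]
    · intro j hji hjk
      simp [hlo, hhi, hji, hjk]
  have hszlo0 : 0 ≤ sz a b - (b i - a i) - (b k - a k) := by unfold sz; omega
  obtain ⟨t1, ht1, htt1, hb1⟩ : ∃ t1 : ℕ,
      (t1 : ℤ) ≤ t + 8 + (sz a b - (b i - a i) - (b k - a k)) ∧ t ≤ t1 ∧
      Icc (lo ⊓ p) (hi ⊔ p) ⊆ proc A t1 := by
    obtain ⟨t1, ht1, hb1⟩ := seed_fill hlohi hlosub hp hDlo
      (sz a b - (b i - a i) - (b k - a k)) hszlo0 (by
        intro j _
        have : lo j ≤ hi j := hlohi j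
        omega)
    exact ⟨max t t1, by push_cast; omega, le_max_left _ _, hb1.trans (proc_le A (le_max_right _ _))⟩
  -- the vertex `c`
  set p0 : ι → ℤ := fun j => max (a j) (min (b j) (q j)) with hp0def
  set w : ι → ℤ := fun j => max (min (a j) (p j)) (min (max (b j) (p j)) (q j)) with hwdef
  have hp0w : p0 ⊓ w ≤ p0 ⊔ w := le_trans inf_le_left le_sup_left
  have hcoord : ∀ j, (min (lo j) (p j) ≤ p0 j ∧ p0 j ≤ max (hi j) (p j)) ∧
      (min (lo j) (p j) ≤ w j ∧ w j ≤ max (hi j) (p j)) := by
    intro j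
    have hj : a j ≤ b j := hab j
    by_cases hji : j = i ∨ j = k
    · have hpj : dI (a j) (b j) (p j) = 1 := by
        rcases hji with rfl | rfl
        · exact hpi
        · exact hpk
      obtain ⟨e1, e2⟩ := clamp1 hj hpj (heq j)
      have e3 : lo j = max (a j) (min (b j) (p j)) := by simp only [hlo, if_pos hji]
      have e4 : hi j = max (a j) (min (b j) (p j)) := by simp only [hhi, if_pos hji]
      have e5 : p0 j = max (a j) (min (b j) (p j)) := e1
      have e6 : w j = p j := e2
      rw [e3, e4, e5, e6]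
      omega
    · push Not at hji
      have hpj := hp0 j hji.1 hji.2
      have e2 : w j = p0 j := clamp0 hj hpj
      have e3 : lo j = a j := by simp [hlo, hji.1, hji.2]
      have e4 : hi j = b j := by simp [hhi, hji.1, hji.2]
      have e5 : p0 j = max (a j) (min (b j) (q j)) := rfl
      rw [e2, e3, e4, e5]
      omega
  have hsub00 : Icc (p0 ⊓ w) (p0 ⊔ w) ⊆ proc A t1 := by
    refine (Set.Icc_subset_Icc ?_ ?_).trans hb1
    · exact le_inf (fun j => (hcoord j).1.1) (fun j => (hcoord j).2.1)
    · exact sup_le (fun j => (hcoord j).1.2) (fun j => (hcoord j).2.2)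
  have hD00q : D (p0 ⊓ w) (p0 ⊔ w) q ≤ 1 := by
    refine le_trans (Finset.sum_le_sum ?_) hDq'
    intro j _
    show dI (min (p0 j) (w j)) (max (p0 j) (w j)) (q j) ≤
      dI (min (a j) (p j)) (max (b j) (p j)) (q j)
    have hj : a j ≤ b j := hab j
    simp only [hp0def, hwdef, dI]
    omega
  have hDq3 : D a b q ≤ 3 := by
    have : D a b q = D (a ⊓ p) (b ⊔ p) q + D a b p := by
      unfold D
      rw [← Finset.sum_add_distrib]
      exact Finset.sum_congr rfl fun j _ => heq j
    omega
  set c : ι → ℤ := Function.update p0 l (q l) with hc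
  have hcl : c l = q l := by rw [hc, Function.update_self]
  have hcj : ∀ j, j ≠ l → c j = p0 j := fun j hj => by rw [hc, Function.update_of_ne hj]
  have hcN : c ∈ proc A (t1 + 5) := by
    apply fill1 (a' := q) (b' := q) hp0w (le_refl _) hsub00
      (by
        rw [Set.Icc_self]
        intro v hv
        rw [Set.mem_singleton_iff] at hv
        rw [hv]
        exact proc_le A htt1 hq)
      (le_trans gap_point hD00q) 5 c ?_ ?_
    · refine ⟨fun j => ?_, fun j => ?_⟩
      · show min (min (p0 j) (w j)) (q j) ≤ c j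
        by_cases hj : j = l
        · subst hj; rw [hcl]; omega
        · rw [hcj j hj]; omega
      · show c j ≤ max (max (p0 j) (w j)) (q j)
        by_cases hj : j = l
        · subst hj; rw [hcl]; omega
        · rw [hcj j hj]; omega
    · have e1 : D (p0 ⊓ w) (p0 ⊔ w) c ≤ D (p0 ⊓ w) (p0 ⊔ w) q := by
        apply Finset.sum_le_sum
        intro j _
        by_cases hj : j = l
        · subst hj; rw [hcl]
        · rw [hcj j hj]
          have h2 := dI_nonneg ((p0 ⊓ w) j) ((p0 ⊔ w) j) (q j)
          have h3 : dI ((p0 ⊓ w) j) ((p0 ⊔ w) j) (p0 j) = 0 := by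
            show dI (min (p0 j) (w j)) (max (p0 j) (w j)) (p0 j) = 0
            simp only [dI]; omega
          omega
      have e2 : D q q c ≤ D a b q := by
        apply Finset.sum_le_sum
        intro j _
        have hj' : a j ≤ b j := hab j
        by_cases hj : j = l
        · subst hj; rw [hcl]
          simp only [dI]; omega
        · rw [hcj j hj]
          simp only [hp0def, dI]; omega
      push_cast
      omega
  -- the extension in direction `l`
  have hDc : D a b c ≤ 2 := by
    have h2 : dI (a l) (b l) (q l) ≤ 2 := by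
      have := heq l
      omega
    refine le_trans (le_of_eq ?_) h2
    unfold D
    rw [Finset.sum_eq_single l]
    · rw [hcl]
    · intro j _ hj
      rw [hcj j hj]
      have hj' : a j ≤ b j := hab j
      simp only [hp0def, dI]; omega
    · intro h; exact absurd (Finset.mem_univ l) h
  have hside_l : b l - a l ≤ sz a b := Finset.single_le_sum (f := fun j => b j - a j)
    (fun j _ => hside j) (Finset.mem_univ l)
  obtain ⟨t2, ht2, hb2⟩ := seed_fill (t := t1 + 5) hab (h1.trans (proc_le A (by omega))) hcN hDc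
    (sz a b - (b l - a l)) (by omega) (by
      intro j hj
      have hjl : j = l := by
        by_contra hjl
        rw [hcj j hjl] at hj
        have hj' : a j ≤ b j := hab j
        simp only [hp0def, dI] at hj
        omega
      rw [hjl])
  -- the box spanned by `p`
  have hside_i : b i - a i ≤ sz a b := Finset.single_le_sum (f := fun j => b j - a j)
    (fun j _ => hside j) (Finset.mem_univ i)
  obtain ⟨t3, ht3, hb3⟩ := seed_fill hab h1 hp (by omega) M (by omega) (by
      intro j hj
      by_cases hji : j = i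
      · rw [hji]; exact hM1
      · by_cases hjk : j = k
        · rw [hjk]; exact hM2
        · rw [hp0 j hji hjk] at hj; omega)
  have hM := hM3 l hl
  refine ⟨max t2 t3 + 5, by push_cast at ht2 ⊢; omega, ?_⟩
  intro v hv
  have hRBle : a ⊓ p ≤ b ⊔ p := le_trans inf_le_left (le_trans hab le_sup_left)
  have hRCle : a ⊓ c ≤ b ⊔ c := le_trans inf_le_left (le_trans hab le_sup_left)
  apply fill1 hRBle hRCle (hb3.trans (proc_le A (le_max_right _ _)))
    (hb2.trans (proc_le A (le_max_left _ _))) ?_ 5 v ?_ ?_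
  · have h3 : a ∈ Icc (a ⊓ c) (b ⊔ c) := mem_hull_left ⟨le_refl _, hab⟩
    have h4 : a ∈ Icc (a ⊓ p) (b ⊔ p) := mem_hull_left ⟨le_refl _, hab⟩
    have := gap_le_of_mem (a := a ⊓ p) (b := b ⊔ p) h3
    rw [D_eq_zero_of_mem h4] at this
    omega
  · refine ⟨fun j => ?_, fun j => ?_⟩
    · have h3 : min (min (a j) (p j)) (q j) ≤ v j := hv.1 j
      show min (min (a j) (p j)) (min (a j) (c j)) ≤ v j
      by_cases hj : j = l
      · subst hj; rw [hcl]; omega
      · have h4 := hRB0 j hj
        simp only [dI] at h4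
        omega
    · have h3 : v j ≤ max (max (b j) (p j)) (q j) := hv.2 j
      show v j ≤ max (max (b j) (p j)) (max (b j) (c j))
      by_cases hj : j = l
      · subst hj; rw [hcl]; omega
      · have h4 := hRB0 j hj
        simp only [dI] at h4
        omega
  · have e1 : D (a ⊓ p) (b ⊔ p) v ≤ 1 := le_trans (D_hull_le0 hRBle hv) hDq'
    have e2 : D (a ⊓ c) (b ⊔ c) v ≤ 3 := by
      refine le_trans (D_anti inf_le_left le_sup_left) ?_
      have h5 : D a b v ≤ D (a ⊓ p) (b ⊔ p) q + D a b p := by
        unfold D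
        rw [← Finset.sum_add_distrib]
        apply Finset.sum_le_sum
        intro j _
        have hj' : a j ≤ b j := hab j
        have h6 : min (min (a j) (p j)) (q j) ≤ v j := hv.1 j
        have h7 : v j ≤ max (max (b j) (p j)) (q j) := hv.2 j
        show dI (a j) (b j) (v j) ≤ dI (min (a j) (p j)) (max (b j) (p j)) (q j) +
          dI (a j) (b j) (p j)
        simp only [dI]; omega
      omega
    push_cast
    omega

end Pool.Agent.Lib.MP_1a3405_co.RTwo
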