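import Mathlib
import Pool.Agent.Lib.MP_1a3405_co.RTwoSteps

/-!
The lower bound construction: a box grows by seeds placed next to its last infected corner.
-/

namespace Pool.Agent.Lib.MP_1a3405_co.RTwo

open Set

set_option linter.unusedSectionVars false
set_option linter.unusedVariables false
set_option linter.unusedSimpArgs false

variable {ι : Type*} [Fintype ι] [DecidableEq ι]

/-- There is a set spanning `Icc 0 y` with a certificate `τ` of slow infection whose last
vertex is `c`, at time `T`; the flag `b` says that the neighbours of `c` are infected late. -/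
def GoodAt (y c : ι → ℤ) (T : ℤ) (b : Prop) : Prop :=
  0 ≤ T ∧ ∃ (A : Set (ι → ℤ)) (τ : (ι → ℤ) → ℤ), A ⊆ Icc 0 y ∧ (∃ t, Icc 0 y ⊆ proc A t) ∧
    (∀ v ∈ A, τ v ≤ 0) ∧
    (∀ v ∈ Icc 0 y, v ∉ A → ∀ u w, u ≠ w → Nb v u → Nb v w → u ∈ Icc 0 y → w ∈ Icc 0 y →
      τ v ≤ max (τ u) (τ w) + 1) ∧
    (∀ v ∈ Icc 0 y, τ v ≤ T) ∧ c ∈ Icc 0 y ∧ τ c = T ∧
    (b → ∀ u ∈ Icc 0 y, Nb c u → T - 1 ≤ τ u)

/-- reflection of the coordinates different from `i` in the box `Icc 0 y` -/
def refl (y : ι → ℤ) (i : ι) (v : ι → ℤ) : ι → ℤ := fun j => if j = i then v j else y j - v j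

omit [Fintype ι] in
lemma refl_refl (y : ι → ℤ) (i : ι) (v : ι → ℤ) : refl y i (refl y i v) = v := by
  funext j
  simp only [refl]
  split_ifs <;> ring

/-- reflection as an equivalence -/
def reflE (y : ι → ℤ) (i : ι) : (ι → ℤ) ≃ (ι → ℤ) where
  toFun := refl y i
  invFun := refl y i
  left_inv := refl_refl y i
  right_inv := refl_refl y i

omit [Fintype ι] in
lemma nb_refl {y : ι → ℤ} {i : ι} {v u : ι → ℤ} (h : Nb v u) : Nb (refl y i v) (refl y i u) := by
  obtain ⟨k, s, hs, rfl⟩ := h
  by_cases hk : k = i
  · refine ⟨k, s, hs, ?_⟩
    funext j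
    by_cases hj : j = k
    · subst hj; simp [refl, hk]
    · rw [Function.update_of_ne hj]
      simp only [refl]
      rw [Function.update_of_ne hj]
  · refine ⟨k, -s, by rcases hs with rfl | rfl <;> simp, ?_⟩
    funext j
    by_cases hj : j = k
    · subst hj; simp [refl, hk]; ring
    · rw [Function.update_of_ne hj]
      simp only [refl]
      rw [Function.update_of_ne hj]

omit [Fintype ι] in
lemma refl_mem {y : ι → ℤ} {i : ι} {v : ι → ℤ} (h : v ∈ Icc 0 y) : refl y i v ∈ Icc 0 y := by
  refine ⟨fun j => ?_, fun j => ?_⟩
  · have h1 : (0 : ℤ) ≤ v j := h.1 j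
    have h2 : v j ≤ y j := h.2 j
    show (0 : ℤ) ≤ refl y i v j
    simp only [refl]; split_ifs <;> omega
  · have h1 : (0 : ℤ) ≤ v j := h.1 j
    have h2 : v j ≤ y j := h.2 j
    show refl y i v j ≤ y j
    simp only [refl]; split_ifs <;> omega

lemma GoodAt.refl {y c : ι → ℤ} {T : ℤ} {b : Prop} (i : ι) (h : GoodAt y c T b) :
    GoodAt y (refl y i c) T b := by
  obtain ⟨hT0, A, τ, hA, ⟨t, ht⟩, h1, h2, h3, h4, h5, h6⟩ := h
  refine ⟨hT0, RTwo.refl y i '' A, fun v => τ (RTwo.refl y i v), ?_, ⟨t, ?_⟩, ?_, ?_, ?_, refl_mem h4,
    ?_, ?_⟩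
  · rintro _ ⟨v, hv, rfl⟩
    exact refl_mem (hA hv)
  · intro v hv
    have := proc_equiv (reflE y i) (fun v u h => nb_refl h) A t
    apply this
    exact ⟨RTwo.refl y i v, ht (refl_mem hv), refl_refl y i v⟩
  · rintro _ ⟨v, hv, rfl⟩
    simp only [refl_refl]
    exact h1 v hv
  · intro v hv hvA u w huw hu hw hu' hw'
    apply h2 _ (refl_mem hv) _ _ _ _ (nb_refl hu) (nb_refl hw) (refl_mem hu') (refl_mem hw')
    · intro h
      exact hvA ⟨_, h, refl_refl y i v⟩
    · intro h
      apply huw
      rw [← refl_refl y i u, h, refl_refl]
  · intro v hv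
    exact h3 _ (refl_mem hv)
  · simp only [refl_refl]; exact h5
  · intro hb u hu hcu
    apply h6 hb _ (refl_mem hu)
    have := nb_refl (y := y) (i := i) hcu
    rwa [refl_refl] at this

/-- distance to the top corner in the coordinates different from `i` -/
def fd (y : ι → ℤ) (i : ι) (v : ι → ℤ) : ℤ := ∑ j ∈ Finset.univ.erase i, (y j - v j)

lemma fd_update_self (y : ι → ℤ) (i : ι) (v : ι → ℤ) (z : ℤ) :
    fd y i (Function.update v i z) = fd y i v := by
  unfold fd
  apply Finset.sum_congr rfl
  intro j hj
  rw [Function.update_of_ne (Finset.ne_of_mem_erase hj)]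

lemma fd_update_of_ne (y : ι → ℤ) {i k : ι} (hk : k ≠ i) (v : ι → ℤ) (z : ℤ) :
    fd y i (Function.update v k z) = fd y i v - (z - v k) := by
  unfold fd
  have hk' : k ∈ Finset.univ.erase i := by simp [hk]
  rw [← Finset.add_sum_erase _ _ hk', ← Finset.add_sum_erase _ (fun j => y j - v j) hk',
    Function.update_self]
  have : ∑ x ∈ (Finset.univ.erase i).erase k, (y x - Function.update v k z x) =
      ∑ x ∈ (Finset.univ.erase i).erase k, (y x - v x) := by
    apply Finset.sum_congr rfl
    intro x hx
    rw [Function.update_of_ne (Finset.ne_of_mem_erase hx)]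
  rw [this]; ring

lemma fd_nonneg {y : ι → ℤ} {i : ι} {v : ι → ℤ} (h : ∀ j, j ≠ i → v j ≤ y j) :
    0 ≤ fd y i v := by
  apply Finset.sum_nonneg
  intro j hj
  have := h j (Finset.ne_of_mem_erase hj)
  omega

lemma fd_eq_zero {y : ι → ℤ} {i : ι} {v : ι → ℤ} (h : ∀ j, j ≠ i → v j ≤ y j)
    (h0 : fd y i v = 0) : ∀ j, j ≠ i → v j = y j := by
  intro j hj
  have := (Finset.sum_eq_zero_iff_of_nonneg (fun j hj => by
    have := h j (Finset.ne_of_mem_erase hj); omega)).1 h0 j (by simp [hj])
  omega

lemma fd_le {y : ι → ℤ} {i : ι} {v : ι → ℤ} (h : ∀ j, 0 ≤ v j) : fd y i v ≤ fd y i 0 := by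
  apply Finset.sum_le_sum
  intro j hj
  have := h j
  simp only [Pi.zero_apply]
  omega

/-- the box extended in direction `i` -/
def ext (y : ι → ℤ) (i : ι) (m : ℤ) : ι → ℤ := Function.update y i (y i + m)

/-- the corner opposite to the top corner, except in direction `i` -/
def cor (y : ι → ℤ) (i : ι) (m : ℤ) : ι → ℤ := fun j => if j = i then y i + m else 0

omit [Fintype ι] in
lemma refl_cor (y : ι → ℤ) (i : ι) (m : ℤ) : refl (ext y i m) i (cor y i m) = ext y i m := by
  funext j
  by_cases hj : j = i
  · subst hj; simp [refl, cor, ext]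
  · simp [refl, cor, ext, hj, Function.update_of_ne hj]

lemma ext_closure {A : Set (ι → ℤ)} {y : ι → ℤ} (hy : 0 ≤ y) {t : ℕ} (h : Icc 0 y ⊆ proc A t)
    (i : ι) {m : ℤ} (hm0 : 0 ≤ m) (hm : m ≤ 2) :
    ∃ t', Icc 0 (ext y i m) ⊆ proc (insert (ext y i m) A) t' := by
  have h1 : Icc 0 y ⊆ proc (insert (ext y i m) A) t :=
    h.trans (proc_mono_set (Set.subset_insert _ _) t)
  have hD : D 0 y (ext y i m) ≤ 2 := by
    unfold ext
    rw [D_update, D_eq_zero_of_mem (⟨hy, le_refl _⟩ : y ∈ Icc 0 y)]
    have h2 : (0 : ℤ) ≤ y i := hy i
    simp only [dI, Pi.zero_apply]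
    omega
  obtain ⟨t', -, ht'⟩ := seed_fill hy h1 (subset_proc _ t (Set.mem_insert _ _)) hD (sz 0 y)
    (Finset.sum_nonneg fun j _ => by have : (0 : ℤ) ≤ y j := hy j; simp; omega)
    (fun j _ => by have : (0 : ℤ) ≤ y j := hy j; simp only [Pi.zero_apply]; omega)
  refine ⟨t', ?_⟩
  refine Set.Subset.trans (Set.Icc_subset_Icc ?_ ?_) ht'
  · exact inf_le_left
  · exact le_sup_right

/-- a move with a seed at distance two -/
lemma GoodAt.move2 {y : ι → ℤ} {T : ℤ} {b : Prop} (hy : 0 ≤ y) (i : ι) (hδ : 2 ≤ fd y i 0)
    (h : GoodAt y y T b) : GoodAt (ext y i 2) (cor y i 2) (T + 2 + fd y i 0) True := by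
  obtain ⟨hT0, A, τ, hA, ⟨t, ht⟩, h1, h2, h3, h4, h5, h6⟩ := h
  set y' := ext y i 2 with hy'
  have hy'i : y' i = y i + 2 := by simp [hy', ext]
  have hy'j : ∀ j, j ≠ i → y' j = y j := fun j hj => by simp [hy', ext, hj]
  have hyi : (0 : ℤ) ≤ y i := hy i
  set τ' : (ι → ℤ) → ℤ := fun v => if v i ≤ y i then τ v else
    if v i = y i + 1 then T + 1 + fd y i v else if v = y' then 0 else T + 2 + fd y i v with hτ'
  have hle : ∀ v ∈ Icc 0 y', ∀ j, j ≠ i → v j ≤ y j := by
    intro v hv j hj
    have : v j ≤ y' j := hv.2 j
    rwa [hy'j j hj] at this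
  have hmem : ∀ v ∈ Icc 0 y', v i ≤ y i → v ∈ Icc 0 y := by
    intro v hv hvi
    refine ⟨hv.1, fun j => ?_⟩
    by_cases hj : j = i
    · subst hj; exact hvi
    · exact hle v hv j hj
  have hfdpos : ∀ v ∈ Icc 0 y', v i = y i + 2 → v ≠ y' → 1 ≤ fd y i v := by
    intro v hv hvi hne
    by_contra hcon
    have h0 : fd y i v = 0 := le_antisymm (by omega) (fd_nonneg (hle v hv))
    apply hne
    funext j
    by_cases hj : j = i
    · subst hj; rw [hvi, hy'i]
    · rw [fd_eq_zero (hle v hv) h0 j hj, hy'j j hj]
  -- values of the new function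
  have v1 : ∀ v, v i ≤ y i → τ' v = τ v := fun v hv => by simp only [hτ', if_pos hv]
  have v2 : ∀ v, v i = y i + 1 → τ' v = T + 1 + fd y i v := fun v hv => by
    simp only [hτ']; rw [if_neg (by omega), if_pos hv]
  have v3 : ∀ v, v i = y i + 2 → v ≠ y' → τ' v = T + 2 + fd y i v := fun v hv hne => by
    simp only [hτ']; rw [if_neg (by omega), if_neg (by omega), if_neg hne]
  have v4 : τ' y' = 0 := by
    simp only [hτ']; rw [if_neg (by omega), if_neg (by omega)]; simp
  -- one neighbour is late
  have key : ∀ v ∈ Icc 0 y', v ∉ insert y' A → ∀ u w, u ≠ w → Nb v u → Nb v w →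
      u ∈ Icc 0 y' → w ∈ Icc 0 y' → τ' v ≤ max (τ' u) (τ' w) + 1 := by
    intro v hv hvA u w huw hu hw hu' hw'
    have hvne : v ≠ y' := fun h => hvA (by rw [h]; exact Set.mem_insert _ _)
    have hvA' : v ∉ A := fun h => hvA (Set.mem_insert_of_mem _ h)
    have hvi : v i ≤ y i + 2 := by rw [← hy'i]; exact hv.2 i
    have hfv := fd_nonneg (hle v hv)
    -- a neighbour outside the old box of a vertex of the old box
    have hout : ∀ z, Nb v z → z ∈ Icc 0 y' → v i ≤ y i → ¬ z i ≤ y i → T ≤ τ' z := by
      intro z hz hz' hvi hzi
      have h7 := nb_apply hz i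
      have h8 : z i = y i + 1 := by omega
      rw [v2 z h8]
      have := fd_nonneg (hle z hz')
      omega
    -- a lateral neighbour
    have hlat : ∀ z, Nb v z → z i = v i → fd y i v - 1 ≤ fd y i z := by
      intro z hz hzi
      obtain ⟨k, s, hs, rfl⟩ := hz
      by_cases hk : k = i
      · subst hk
        rw [Function.update_self] at hzi
        rcases hs with rfl | rfl <;> omega
      · rw [fd_update_of_ne y hk]
        rcases hs with rfl | rfl <;> omega
    have hvert : ∀ z, Nb v z → z i ≠ v i → fd y i z = fd y i v ∧
        (z = Function.update v i (v i + 1) ∨ z = Function.update v i (v i - 1)) := by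
      intro z hz hzi
      obtain ⟨k, s, hs, rfl⟩ := hz
      by_cases hk : k = i
      · subst hk
        refine ⟨fd_update_self y k v _, ?_⟩
        rcases hs with rfl | rfl
        · left; rfl
        · right; rfl
      · rw [Function.update_of_ne (Ne.symm hk)] at hzi
        exact absurd rfl hzi
    by_cases c1 : v i ≤ y i
    · rw [v1 v c1]
      have hvT := h3 v (hmem v hv c1)
      by_cases cu : u i ≤ y i
      · by_cases cw : w i ≤ y i
        · rw [v1 u cu, v1 w cw]
          exact h2 v (hmem v hv c1) hvA' u w huw hu hw (hmem u hu' cu) (hmem w hw' cw)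
        · have := hout w hw hw' c1 cw
          omega
      · have := hout u hu hu' c1 cu
        omega
    · by_cases c2 : v i = y i + 1
      · rw [v2 v c2]
        by_cases cu : u i = v i
        · have h7 := hlat u hu cu
          rw [v2 u (by omega)]
          omega
        · by_cases cw : w i = v i
          · have h7 := hlat w hw cw
            rw [v2 w (by omega)]
            omega
          · obtain ⟨hfu, hu2⟩ := hvert u hu cu
            obtain ⟨hfw, hw2⟩ := hvert w hw cw
            -- one of them is above, the other below
            have habove : ∀ z1 z2, z1 = Function.update v i (v i + 1) →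
                z2 = Function.update v i (v i - 1) → fd y i z1 = fd y i v → fd y i z2 = fd y i v →
                z1 ∈ Icc 0 y' → z2 ∈ Icc 0 y' → T + 1 + fd y i v ≤ max (τ' z1) (τ' z2) + 1 := by
              intro z1 z2 e1 e2 hf1 hf2 hm1 hm2
              have hz1 : z1 i = y i + 2 := by rw [e1, Function.update_self]; omega
              have hz2 : z2 i = y i := by rw [e2, Function.update_self]; omega
              by_cases hs : z1 = y'
              · have h0 : fd y i v = 0 := by
                  rw [← hf1, hs]
                  unfold fd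
                  apply Finset.sum_eq_zero
                  intro j hj
                  rw [hy'j j (Finset.ne_of_mem_erase hj)]; ring
                have hz2y : z2 = y := by
                  funext j
                  by_cases hj : j = i
                  · subst hj; exact hz2
                  · rw [fd_eq_zero (hle z2 hm2) (by rw [hf2, h0]) j hj]
                rw [v1 z2 (by omega), hz2y, h5]
                omega
              · rw [v3 z1 hz1 hs]
                omega
            rcases hu2 with e1 | e1
            · rcases hw2 with e2 | e2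
              · exact absurd (e1.trans e2.symm) huw
              · exact habove u w e1 e2 hfu hfw hu' hw'
            · rcases hw2 with e2 | e2
              · have := habove w u e2 e1 hfw hfu hw' hu'
                rw [max_comm]; exact this
              · exact absurd (e1.trans e2.symm) huw
      · have c3 : v i = y i + 2 := by omega
        rw [v3 v c3 hvne]
        have hgood : ∀ z, Nb v z → z ∈ Icc 0 y' → z ≠ y' → T + 1 + fd y i v ≤ τ' z := by
          intro z hz hz' hzne
          have hzi' : z i ≤ y i + 2 := by rw [← hy'i]; exact hz'.2 i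
          by_cases cz : z i = v i
          · have h7 := hlat z hz cz
            rw [v3 z (by omega) hzne]
            omega
          · obtain ⟨hfz, hz2⟩ := hvert z hz cz
            have : z i = y i + 1 := by
              have := nb_apply hz i
              omega
            rw [v2 z this]
            omega
        by_cases hus : u = y'
        · have hws : w ≠ y' := fun h => huw (hus.trans h.symm)
          have := hgood w hw hw' hws
          omega
        · have := hgood u hu hu' hus
          omega
  have hcmem : cor y i 2 ∈ Icc 0 y' := by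
    refine ⟨fun j => ?_, fun j => ?_⟩
    · show (0 : ℤ) ≤ cor y i 2 j
      simp only [cor]; split_ifs <;> omega
    · show cor y i 2 j ≤ y' j
      simp only [cor]
      split_ifs with h
      · rw [h, hy'i]
      · rw [hy'j j h]; exact hy j
  have hfc : fd y i (cor y i 2) = fd y i 0 := by
    unfold fd
    apply Finset.sum_congr rfl
    intro j hj
    simp [cor, Finset.ne_of_mem_erase hj]
  have hfy' : fd y i y' = 0 := by
    unfold fd
    apply Finset.sum_eq_zero
    intro j hj
    rw [hy'j j (Finset.ne_of_mem_erase hj)]; ring
  have hcne : cor y i 2 ≠ y' := by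
    intro h
    rw [h, hfy'] at hfc
    omega
  have hci : cor y i 2 i = y i + 2 := by simp [cor]
  refine ⟨by omega, insert y' A, τ', ?_, ?_, ?_, key, ?_, hcmem, ?_, ?_⟩
  · intro v hv
    rcases hv with rfl | hv
    · refine ⟨fun j => ?_, le_refl _⟩
      show (0 : ℤ) ≤ y' j
      by_cases hj : j = i
      · rw [hj, hy'i]; omega
      · rw [hy'j j hj]; exact hy j
    · refine ⟨(hA hv).1, le_trans (hA hv).2 fun j => ?_⟩
      show y j ≤ y' j
      by_cases hj : j = i
      · rw [hj, hy'i]; omega
      · rw [hy'j j hj]
  · exact ext_closure hy ht i (by norm_num) le_rfl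
  · intro v hv
    rcases hv with rfl | hv
    · rw [v4]
    · rw [v1 v ((hA hv).2 i)]; exact h1 v hv
  · intro v hv
    have hf := fd_le (y := y) (i := i) (v := v) (fun j => hv.1 j)
    have hvi : v i ≤ y i + 2 := by rw [← hy'i]; exact hv.2 i
    by_cases c1 : v i ≤ y i
    · rw [v1 v c1]
      have := h3 v (hmem v hv c1)
      omega
    · by_cases c2 : v i = y i + 1
      · rw [v2 v c2]; omega
      · by_cases c3 : v = y'
        · rw [c3, v4]
          omega
        · rw [v3 v (by omega) c3]; omega
  · rw [v3 _ hci hcne, hfc]
  · intro _ u hu hcu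
    obtain ⟨k, s, hs, rfl⟩ := hcu
    by_cases hk : k = i
    · subst hk
      have hui : Function.update (cor y k 2) k (cor y k 2 k + s) k = y k + 2 + s := by
        rw [Function.update_self, hci]
      have hle2 : Function.update (cor y k 2) k (cor y k 2 k + s) k ≤ y' k := hu.2 k
      rw [hui, hy'i] at hle2
      have hs' : s = -1 := by rcases hs with rfl | rfl <;> omega
      rw [v2 _ (by rw [hui, hs']; ring), fd_update_self, hfc]
      omega
    · have hui : Function.update (cor y i 2) k (cor y i 2 k + s) i = y i + 2 := by
        rw [Function.update_of_ne (Ne.symm hk), hci]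
      have hck : cor y i 2 k = 0 := by simp [cor, hk]
      have hle2 : (0 : ℤ) ≤ Function.update (cor y i 2) k (cor y i 2 k + s) k := hu.1 k
      rw [Function.update_self, hck] at hle2
      have hs' : s = 1 := by rcases hs with rfl | rfl <;> omega
      have hf : fd y i (Function.update (cor y i 2) k (cor y i 2 k + s)) = fd y i 0 - 1 := by
        rw [fd_update_of_ne y hk, hfc, hck, hs']; ring
      have hne : Function.update (cor y i 2) k (cor y i 2 k + s) ≠ y' := by
        intro h
        rw [h, hfy'] at hf
        omega
      rw [v3 _ hui hne, hf]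
      omega

/-- a move with an adjacent seed -/
lemma GoodAt.move1 {y : ι → ℤ} {T : ℤ} {b : Prop} (hb : b) (hy : 0 ≤ y) (i : ι)
    (hδ : 1 ≤ fd y i 0) (h : GoodAt y y T b) :
    GoodAt (ext y i 1) (cor y i 1) (T - 1 + fd y i 0) False := by
  obtain ⟨hT0, A, τ, hA, ⟨t, ht⟩, h1, h2, h3, h4, h5, h6⟩ := h
  have h6 := h6 hb
  set y' := ext y i 1 with hy'
  have hy'i : y' i = y i + 1 := by simp [hy', ext]
  have hy'j : ∀ j, j ≠ i → y' j = y j := fun j hj => by simp [hy', ext, hj]
  have hyi : (0 : ℤ) ≤ y i := hy i
  set τ' : (ι → ℤ) → ℤ := fun v => if v i ≤ y i then τ v else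
    if v = y' then 0 else T - 1 + fd y i v with hτ'
  have hle : ∀ v ∈ Icc 0 y', ∀ j, j ≠ i → v j ≤ y j := by
    intro v hv j hj
    have : v j ≤ y' j := hv.2 j
    rwa [hy'j j hj] at this
  have hmem : ∀ v ∈ Icc 0 y', v i ≤ y i → v ∈ Icc 0 y := by
    intro v hv hvi
    refine ⟨hv.1, fun j => ?_⟩
    by_cases hj : j = i
    · subst hj; exact hvi
    · exact hle v hv j hj
  have hfdpos : ∀ v ∈ Icc 0 y', v i = y i + 1 → v ≠ y' → 1 ≤ fd y i v := by
    intro v hv hvi hne
    by_contra hcon
    have h0 : fd y i v = 0 := le_antisymm (by omega) (fd_nonneg (hle v hv))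
    apply hne
    funext j
    by_cases hj : j = i
    · subst hj; rw [hvi, hy'i]
    · rw [fd_eq_zero (hle v hv) h0 j hj, hy'j j hj]
  have v1 : ∀ v, v i ≤ y i → τ' v = τ v := fun v hv => by simp only [hτ', if_pos hv]
  have v3 : ∀ v, v i = y i + 1 → v ≠ y' → τ' v = T - 1 + fd y i v := fun v hv hne => by
    simp only [hτ']; rw [if_neg (by omega), if_neg hne]
  have v4 : τ' y' = 0 := by
    simp only [hτ']; rw [if_neg (by omega)]; simp
  have hfy' : fd y i y' = 0 := by
    unfold fd
    apply Finset.sum_eq_zero
    intro j hj
    rw [hy'j j (Finset.ne_of_mem_erase hj)]; ring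
  have hyeq : Function.update y' i (y i) = y := by
    funext j
    by_cases hj : j = i
    · subst hj; rw [Function.update_self]
    · rw [Function.update_of_ne hj, hy'j j hj]
  have key : ∀ v ∈ Icc 0 y', v ∉ insert y' A → ∀ u w, u ≠ w → Nb v u → Nb v w →
      u ∈ Icc 0 y' → w ∈ Icc 0 y' → τ' v ≤ max (τ' u) (τ' w) + 1 := by
    intro v hv hvA u w huw hu hw hu' hw'
    have hvne : v ≠ y' := fun h => hvA (by rw [h]; exact Set.mem_insert _ _)
    have hvA' : v ∉ A := fun h => hvA (Set.mem_insert_of_mem _ h)
    have hvi : v i ≤ y i + 1 := by rw [← hy'i]; exact hv.2 i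
    have hfv := fd_nonneg (hle v hv)
    by_cases c1 : v i ≤ y i
    · rw [v1 v c1]
      have hvT := h3 v (hmem v hv c1)
      -- a neighbour outside the old box
      have hout : ∀ z z', z ≠ z' → Nb v z → Nb v z' → z ∈ Icc 0 y' → z' ∈ Icc 0 y' →
          ¬ z i ≤ y i → τ v ≤ max (τ' z) (τ' z') + 1 := by
        intro z z' hzz hz hz' hzm hzm' hzi
        have hzv : v i = y i ∧ z i = y i + 1 := by
          have := nb_apply hz i
          have hzi' : z i ≤ y i + 1 := by rw [← hy'i]; exact hzm.2 i
          omega
        obtain ⟨k, s, hs, hze⟩ := hz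
        have hk : k = i := by
          by_contra hk
          have : z i = v i := by rw [hze, Function.update_of_ne (Ne.symm hk)]
          omega
        subst hk
        have hfz : fd y k z = fd y k v := by rw [hze]; exact fd_update_self y k v _
        by_cases hs : z = y'
        · -- then `v` is the top corner
          have h0 : fd y k v = 0 := by rw [← hfz, hs, hfy']
          have hvy : v = y := by
            funext j
            by_cases hj : j = k
            · subst hj; exact hzv.1
            · exact fd_eq_zero (hle v hv) h0 j hj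
          have hz'i : z' k ≤ y k := by
            by_contra hcon
            have h7 : z' k = y k + 1 := by
              have hzi' : z' k ≤ y k + 1 := by rw [← hy'i]; exact hzm'.2 k
              omega
            obtain ⟨k', s', hs', hze'⟩ := hz'
            have hk' : k' = k := by
              by_contra hk'
              have : z' k = v k := by rw [hze', Function.update_of_ne (Ne.symm hk')]
              omega
            subst hk'
            apply hzz
            rw [hze, hze']
            have e1 : z k' = v k' + s := by rw [hze, Function.update_self]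
            have e2 : z' k' = v k' + s' := by rw [hze', Function.update_self]
            have : s = s' := by omega
            rw [this]
          rw [v1 z' hz'i]
          have := h6 z' (hmem z' hzm' hz'i) (by rw [← hvy]; exact hz')
          omega
        · rw [v3 z hzv.2 hs]
          have := hfdpos z hzm hzv.2 hs
          omega
      by_cases cu : u i ≤ y i
      · by_cases cw : w i ≤ y i
        · rw [v1 u cu, v1 w cw]
          exact h2 v (hmem v hv c1) hvA' u w huw hu hw (hmem u hu' cu) (hmem w hw' cw)
        · rw [max_comm]
          exact hout w u (Ne.symm huw) hw hu hw' hu' cw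
      · exact hout u w huw hu hw hu' hw' cu
    · have c3 : v i = y i + 1 := by omega
      rw [v3 v c3 hvne]
      have hfv1 := hfdpos v hv c3 hvne
      -- lateral neighbours different from the seed are late
      have hlat : ∀ z, Nb v z → z i = v i → z ≠ y' → T - 2 + fd y i v ≤ τ' z := by
        intro z hz hzi hzne
        rw [v3 z (by omega) hzne]
        obtain ⟨k, s, hs, rfl⟩ := hz
        by_cases hk : k = i
        · subst hk
          rw [Function.update_self] at hzi
          rcases hs with rfl | rfl <;> omega
        · rw [fd_update_of_ne y hk]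
          rcases hs with rfl | rfl <;> omega
      -- the vertical neighbour and the seed
      have hdown : ∀ z z', Nb v z → Nb v z' → z ∈ Icc 0 y' → z i ≠ v i → z' = y' →
          T - 2 + fd y i v ≤ τ' z := by
        intro z z' hz hz' hzm hzi hzs
        have hzv : z = Function.update v i (y i) := by
          obtain ⟨k, s, hs, hze⟩ := hz
          have hk : k = i := by
            by_contra hk
            have : z i = v i := by rw [hze, Function.update_of_ne (Ne.symm hk)]
            exact hzi this
          subst hk
          have e1 : z k = v k + s := by rw [hze, Function.update_self]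
          have hzi' : z k ≤ y k + 1 := by rw [← hy'i]; exact hzm.2 k
          have : v k + s = y k := by rcases hs with rfl | rfl <;> omega
          rw [hze, this]
        -- `z` is a neighbour of the top corner
        have hny : Nb y z := by
          rw [hzs] at hz'
          obtain ⟨k, s, hs, hze⟩ := hz'
          have hk : k ≠ i := by
            rintro rfl
            have e1 : y' k = v k + s := by rw [hze, Function.update_self]
            rcases hs with rfl | rfl <;> omega
          refine ⟨k, -s, by rcases hs with rfl | rfl <;> simp, ?_⟩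
          rw [hzv]
          funext j
          by_cases hj : j = i
          · subst hj
            rw [Function.update_self, Function.update_of_ne (Ne.symm hk)]
          · rw [Function.update_of_ne hj]
            by_cases hjk : j = k
            · subst hjk
              rw [Function.update_self]
              have e1 : y' j = v j + s := by rw [hze, Function.update_self]
              rw [hy'j j hj] at e1
              omega
            · rw [Function.update_of_ne hjk]
              have e1 : y' j = v j := by rw [hze, Function.update_of_ne hjk]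
              rw [← e1, hy'j j hj]
        have hzi2 : z i ≤ y i := by rw [hzv, Function.update_self]
        rw [v1 z hzi2]
        have h7 := h6 z (hmem z hzm hzi2) hny
        have h8 : fd y i v = 1 := by
          rw [hzs] at hz'
          obtain ⟨k, s, hs, hze⟩ := hz'
          have hk : k ≠ i := by
            rintro rfl
            have e1 : y' k = v k + s := by rw [hze, Function.update_self]
            rcases hs with rfl | rfl <;> omega
          have e2 := fd_update_of_ne y hk v (v k + s)
          rw [← hze, hfy'] at e2
          rcases hs with rfl | rfl <;> omega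
        omega
      by_cases cu : u i = v i
      · by_cases cus : u = y'
        · by_cases cw : w i = v i
          · have hws : w ≠ y' := fun h => huw (cus.trans h.symm)
            have := hlat w hw cw hws
            omega
          · have := hdown w u hw hu hw' cw cus
            omega
        · have := hlat u hu cu cus
          omega
      · by_cases cw : w i = v i
        · by_cases cws : w = y'
          · have := hdown u w hu hw hu' cu cws
            omega
          · have := hlat w hw cw cws
            omega
        · -- both vertical: impossible inside the box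
          exfalso
          obtain ⟨k, s, hs, hze⟩ := hu
          obtain ⟨k', s', hs', hze'⟩ := hw
          have hk : k = i := by
            by_contra hk
            exact cu (by rw [hze, Function.update_of_ne (Ne.symm hk)])
          have hk' : k' = i := by
            by_contra hk
            exact cw (by rw [hze', Function.update_of_ne (Ne.symm hk)])
          subst hk
          subst hk'
          have e1 : u k' = v k' + s := by rw [hze, Function.update_self]
          have e2 : w k' = v k' + s' := by rw [hze', Function.update_self]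
          have e3 : u k' ≤ y k' + 1 := by rw [← hy'i]; exact hu'.2 k'
          have e4 : w k' ≤ y k' + 1 := by rw [← hy'i]; exact hw'.2 k'
          apply huw
          rw [hze, hze']
          have : s = s' := by rcases hs with rfl | rfl <;> rcases hs' with rfl | rfl <;> omega
          rw [this]
  have hcmem : cor y i 1 ∈ Icc 0 y' := by
    refine ⟨fun j => ?_, fun j => ?_⟩
    · show (0 : ℤ) ≤ cor y i 1 j
      simp only [cor]; split_ifs <;> omega
    · show cor y i 1 j ≤ y' j
      simp only [cor]
      split_ifs with h
      · rw [h, hy'i]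
      · rw [hy'j j h]; exact hy j
  have hfc : fd y i (cor y i 1) = fd y i 0 := by
    unfold fd
    apply Finset.sum_congr rfl
    intro j hj
    simp [cor, Finset.ne_of_mem_erase hj]
  have hcne : cor y i 1 ≠ y' := by
    intro h
    rw [h, hfy'] at hfc
    omega
  have hci : cor y i 1 i = y i + 1 := by simp [cor]
  refine ⟨by omega, insert y' A, τ', ?_, ?_, ?_, key, ?_, hcmem, ?_, ?_⟩
  · intro v hv
    rcases hv with rfl | hv
    · refine ⟨fun j => ?_, le_refl _⟩
      show (0 : ℤ) ≤ y' j
      by_cases hj : j = i
      · rw [hj, hy'i]; omega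
      · rw [hy'j j hj]; exact hy j
    · refine ⟨(hA hv).1, le_trans (hA hv).2 fun j => ?_⟩
      show y j ≤ y' j
      by_cases hj : j = i
      · rw [hj, hy'i]; omega
      · rw [hy'j j hj]
  · exact ext_closure hy ht i (by norm_num) (by norm_num)
  · intro v hv
    rcases hv with rfl | hv
    · rw [v4]
    · rw [v1 v ((hA hv).2 i)]; exact h1 v hv
  · intro v hv
    have hf := fd_le (y := y) (i := i) (v := v) (fun j => hv.1 j)
    have hvi : v i ≤ y i + 1 := by rw [← hy'i]; exact hv.2 i
    by_cases c1 : v i ≤ y i
    · rw [v1 v c1]
      have := h3 v (hmem v hv c1)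
      omega
    · by_cases c3 : v = y'
      · rw [c3, v4]
        omega
      · rw [v3 v (by omega) c3]; omega
  · rw [v3 _ hci hcne, hfc]
  · exact fun h => h.elim

end Pool.Agent.Lib.MP_1a3405_co.RTwo
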