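import Mathlib
import Pool.Agent.Lib.MP_1a3405_co.RTwoLow

/-!
The sequence of moves giving the lower bound.
-/

namespace Pool.Agent.Lib.MP_1a3405_co.RTwo

open Set

set_option linter.unusedSectionVars false
set_option linter.unusedVariables false
set_option linter.unusedSimpArgs false

variable {ι : Type*} [Fintype ι] [DecidableEq ι]

/-- total side length -/
def Sm (y : ι → ℤ) : ℤ := ∑ j, y j

lemma fd_zero (y : ι → ℤ) (i : ι) : fd y i 0 = Sm y - y i := by
  unfold fd Sm
  rw [← Finset.add_sum_erase _ _ (Finset.mem_univ i)]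
  simp

lemma Sm_ext (y : ι → ℤ) (i : ι) (m : ℤ) : Sm (ext y i m) = Sm y + m := by
  unfold Sm ext
  rw [← Finset.add_sum_erase _ _ (Finset.mem_univ i),
    ← Finset.add_sum_erase _ y (Finset.mem_univ i), Function.update_self]
  have : ∑ x ∈ Finset.univ.erase i, Function.update y i (y i + m) x =
      ∑ x ∈ Finset.univ.erase i, y x := by
    apply Finset.sum_congr rfl
    intro x hx
    rw [Function.update_of_ne (Finset.ne_of_mem_erase hx)]
  rw [this]; ring

/-- the box `Icc 0 y` can be filled slowly, in time at least `T` -/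
def Pr (y : ι → ℤ) (T : ℝ) : Prop :=
  ∃ T' : ℤ, T ≤ T' ∧ ∃ b : Prop, GoodAt y y T' b

lemma Pr.mono {y : ι → ℤ} {T T' : ℝ} (h : Pr y T) (hT : T' ≤ T) : Pr y T' := by
  obtain ⟨S, hS, h⟩ := h
  exact ⟨S, le_trans hT hS, h⟩

lemma fd_two {y : ι → ℤ} (hy : ∀ j, 2 ≤ y j) (hd : ∀ i : ι, ∃ j, j ≠ i) (i : ι) :
    2 ≤ fd y i 0 := by
  obtain ⟨j, hj⟩ := hd i
  have h1 : y j - 0 ≤ fd y i 0 := by
    unfold fd
    apply Finset.single_le_sum (f := fun j => y j - (0 : ι → ℤ) j)
    · intro k _
      have := hy k
      simp only [Pi.zero_apply]; omega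
    · simp [hj]
  have := hy j
  omega

lemma pr_two {y : ι → ℤ} {T : ℝ} (hy : ∀ j, 2 ≤ y j) (hd : ∀ i : ι, ∃ j, j ≠ i) (i : ι)
    (h : Pr y T) : ∃ T' : ℤ, T + (Sm y - y i : ℤ) + 2 ≤ T' ∧ GoodAt (ext y i 2) (ext y i 2) T' True := by
  obtain ⟨S, hS, b, hb⟩ := h
  have h0 : (0 : ι → ℤ) ≤ y := fun j => by have := hy j; simp; omega
  have h1 := (hb.move2 h0 i (fd_two hy hd i)).refl i
  rw [refl_cor, fd_zero] at h1
  refine ⟨_, ?_, h1⟩
  push_cast
  linarith

lemma pr_two' {y : ι → ℤ} {T : ℝ} (hy : ∀ j, 2 ≤ y j) (hd : ∀ i : ι, ∃ j, j ≠ i) (i : ι)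
    (h : Pr y T) : Pr (ext y i 2) T := by
  obtain ⟨T', h1, h2⟩ := pr_two hy hd i h
  refine ⟨T', ?_, True, h2⟩
  have h3 : 0 ≤ Sm y - y i := by
    rw [← fd_zero]
    have := fd_two hy hd i
    omega
  have h4 : (0 : ℝ) ≤ ((Sm y - y i : ℤ) : ℝ) := by exact_mod_cast h3
  linarith

lemma ext_ge {y : ι → ℤ} (hy : ∀ j, 2 ≤ y j) (i : ι) {m : ℤ} (hm : 0 ≤ m) :
    ∀ j, 2 ≤ ext y i m j := by
  intro j
  unfold ext
  by_cases hj : j = i
  · subst hj; rw [Function.update_self]; have := hy j; omega
  · rw [Function.update_of_ne hj]; exact hy j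

lemma le_ext {y : ι → ℤ} (i : ι) {m : ℤ} (hm : 0 ≤ m) (j : ι) : y j ≤ ext y i m j := by
  unfold ext
  by_cases hj : j = i
  · subst hj; rw [Function.update_self]; omega
  · rw [Function.update_of_ne hj]

lemma pr_pair {y : ι → ℤ} {T : ℝ} (hy : ∀ j, 2 ≤ y j) (hd : ∀ i : ι, ∃ j, j ≠ i) (i l : ι)
    (h : Pr y T) :
    Pr (ext (ext y i 2) l 1) (T + (Sm y - y i : ℤ) + (Sm y - y l : ℤ)) := by
  obtain ⟨T', h1, h2⟩ := pr_two hy hd i h
  have hy2 := ext_ge hy i (m := 2) (by norm_num)
  have h0 : (0 : ι → ℤ) ≤ ext y i 2 := fun j => by have := hy2 j; simp; omega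
  have h3 := (h2.move1 trivial h0 l (by have := fd_two hy2 hd l; omega)).refl l
  rw [refl_cor, fd_zero, Sm_ext] at h3
  refine ⟨_, ?_, _, h3⟩
  have h4 : ext y i 2 l ≤ y l + 2 := by
    unfold ext
    by_cases hj : l = i
    · subst hj; rw [Function.update_self]
    · rw [Function.update_of_ne hj]; omega
  have h5 : ((ext y i 2 l : ℤ) : ℝ) ≤ (y l : ℝ) + 2 := by exact_mod_cast h4
  push_cast at h1 ⊢
  linarith

/-- `k` pairs of moves in different directions -/
lemma pr_iter {y : ι → ℤ} {T : ℝ} (hy : ∀ j, 2 ≤ y j) (hd : ∀ i : ι, ∃ j, j ≠ i) {i l : ι}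
    (hil : i ≠ l) (h : Pr y T) (k : ℕ) :
    Pr (Function.update (Function.update y i (y i + 2 * k)) l (y l + k))
      (T + k * (2 * (Sm y : ℝ) - y i - y l) + 3 * k * (k - 1) / 2) := by
  induction k with
  | zero =>
    have : Function.update (Function.update y i (y i + 2 * (0 : ℕ))) l (y l + (0 : ℕ)) = y := by
      funext j
      by_cases hj : j = l
      · subst hj; rw [Function.update_self]; simp
      · rw [Function.update_of_ne hj]
        by_cases hj' : j = i
        · subst hj'; rw [Function.update_self]; simp
        · rw [Function.update_of_ne hj']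
    rw [this]
    exact h.mono (by push_cast; linarith)
  | succ k ih =>
    set z := Function.update (Function.update y i (y i + 2 * k)) l (y l + k) with hz
    have hzl : z l = y l + k := by rw [hz, Function.update_self]
    have hzi : z i = y i + 2 * k := by
      rw [hz, Function.update_of_ne hil, Function.update_self]
    have hz2 : ∀ j, 2 ≤ z j := by
      intro j
      have := hy j
      by_cases hj : j = l
      · subst hj; rw [hzl]; omega
      · by_cases hj' : j = i
        · subst hj'; rw [hzi]; omega
        · rw [hz, Function.update_of_ne hj, Function.update_of_ne hj']; exact hy j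
    have hSm : Sm z = Sm y + 3 * k := by
      have e : z = ext (ext y i (2 * k)) l k := by
        rw [hz]
        unfold ext
        rw [Function.update_of_ne (Ne.symm hil)]
      rw [e, Sm_ext, Sm_ext]; ring
    have h1 := pr_pair hz2 hd i l ih
    have hvec : ext (ext z i 2) l 1 =
        Function.update (Function.update y i (y i + 2 * (k + 1 : ℕ))) l (y l + (k + 1 : ℕ)) := by
      funext j
      unfold ext
      by_cases hj : j = l
      · subst hj
        rw [Function.update_self, Function.update_self, Function.update_of_ne (Ne.symm hil), hzl]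
        push_cast; ring
      · rw [Function.update_of_ne hj, Function.update_of_ne hj]
        by_cases hj' : j = i
        · subst hj'
          rw [Function.update_self, Function.update_self, hzi]
          push_cast; ring
        · rw [Function.update_of_ne hj', Function.update_of_ne hj', hz, Function.update_of_ne hj,
            Function.update_of_ne hj']
    rw [hvec] at h1
    apply h1.mono
    rw [hSm, hzi, hzl]
    push_cast
    linarith

/-- `k` pairs of moves in the same direction -/
lemma pr_iter_same {y : ι → ℤ} {T : ℝ} (hy : ∀ j, 2 ≤ y j) (hd : ∀ i : ι, ∃ j, j ≠ i) (i : ι)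
    (h : Pr y T) (k : ℕ) :
    Pr (Function.update y i (y i + 3 * k)) (T + k * (2 * ((Sm y : ℝ) - y i))) := by
  induction k with
  | zero =>
    have : Function.update y i (y i + 3 * (0 : ℕ)) = y := by simp
    rw [this]
    exact h.mono (by push_cast; linarith)
  | succ k ih =>
    set z := Function.update y i (y i + 3 * k) with hz
    have hzi : z i = y i + 3 * k := by rw [hz, Function.update_self]
    have hz2 : ∀ j, 2 ≤ z j := by
      intro j
      have := hy j
      by_cases hj' : j = i
      · subst hj'; rw [hzi]; omega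
      · rw [hz, Function.update_of_ne hj']; exact hy j
    have hSm : Sm z = Sm y + 3 * k := by
      have e : z = ext y i (3 * k) := rfl
      rw [e, Sm_ext]
    have h1 := pr_pair hz2 hd i i ih
    have hvec : ext (ext z i 2) i 1 = Function.update y i (y i + 3 * (k + 1 : ℕ)) := by
      funext j
      unfold ext
      by_cases hj' : j = i
      · subst hj'
        rw [Function.update_self, Function.update_self, Function.update_self, hzi]
        push_cast; ring
      · rw [Function.update_of_ne hj', Function.update_of_ne hj', hz, Function.update_of_ne hj',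
          Function.update_of_ne hj']
    rw [hvec] at h1
    apply h1.mono
    rw [hSm, hzi]
    push_cast
    linarith

/-- raising one side by any amount at least two -/
lemma pr_raise {y : ι → ℤ} {T : ℝ} (hy : ∀ j, 2 ≤ y j) (hd : ∀ i : ι, ∃ j, j ≠ i) (i : ι)
    (h : Pr y T) : ∀ r : ℕ, 2 ≤ r → Pr (Function.update y i (y i + r)) T := by
  have h2 : Pr (Function.update y i (y i + (2 : ℕ))) T := pr_two' hy hd i h
  have h3 : Pr (Function.update y i (y i + (3 : ℕ))) T := by
    have h4 := pr_iter_same hy hd i h 1
    have h5 : (0 : ℝ) ≤ (Sm y : ℝ) - y i := by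
      have : 0 ≤ Sm y - y i := by
        rw [← fd_zero]
        have := fd_two hy hd i
        omega
      exact_mod_cast this
    have h6 : (y i + 3 * (1 : ℕ) : ℤ) = y i + (3 : ℕ) := by push_cast; ring
    rw [h6] at h4
    exact h4.mono (by push_cast; linarith)
  intro r
  induction r using Nat.strong_induction_on with
  | _ r ih =>
    intro hr
    rcases Nat.lt_or_ge r 4 with h4 | h4
    · interval_cases r
      · exact h2
      · exact h3
    · have h5 := ih (r - 2) (by omega) (by omega)
      set z := Function.update y i (y i + (r - 2 : ℕ)) with hz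
      have hz2 : ∀ j, 2 ≤ z j := by
        intro j
        have := hy j
        by_cases hj' : j = i
        · subst hj'; rw [hz, Function.update_self]; omega
        · rw [hz, Function.update_of_ne hj']; exact hy j
      have h6 := pr_two' hz2 hd i h5
      have hvec : ext z i 2 = Function.update y i (y i + r) := by
        funext j
        unfold ext
        by_cases hj' : j = i
        · subst hj'
          rw [Function.update_self, Function.update_self, hz, Function.update_self]
          omega
        · rw [Function.update_of_ne hj', Function.update_of_ne hj', hz, Function.update_of_ne hj']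
      rwa [hvec] at h6

end Pool.Agent.Lib.MP_1a3405_co.RTwo
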