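import Mathlib
import Pool.Agent.Lib.MP_1a3405_co.RTwoSeq

/-!
The phases of the construction in dimension `d`.
-/

namespace Pool.Agent.Lib.MP_1a3405_co.RTwo

open Set

set_option linter.unusedSectionVars false
set_option linter.unusedVariables false
set_option linter.unusedSimpArgs false

variable {d : ℕ}

/-- sides at the beginning of phase `s` -/
def Xs (d : ℕ) (m L : ℤ) (s : ℕ) : Fin d → ℤ :=
  fun j => if j.val < s then L else if j.val = s then m else 2

lemma hd_fin (hd : 2 ≤ d) : ∀ i : Fin d, ∃ j, j ≠ i := by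
  intro i
  by_cases h : i.val = 0
  · exact ⟨⟨1, by omega⟩, fun h' => by rw [← h'] at h; simp at h⟩
  · exact ⟨⟨0, by omega⟩, fun h' => by rw [← h'] at h; simp at h⟩

/-- the initial box, completely infected -/
lemma pr_init {y : Fin d → ℤ} (hy : ∀ j, 2 ≤ y j) : Pr y 0 := by
  refine ⟨0, by simp, True, le_refl _, Icc 0 y, fun _ => 0, subset_rfl, ⟨0, subset_rfl⟩, ?_, ?_,
    ?_, ?_, rfl, ?_⟩
  · intro v _; exact le_refl _
  · intro v hv hv'; exact absurd hv hv'
  · intro v _; exact le_refl _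
  · exact ⟨fun j => by have := hy j; simp; omega, le_refl _⟩
  · intro _ u _ _; norm_num

lemma Xs_step {k : ℕ} {s : ℕ} (hs : s + 1 < d) :
    Function.update (Function.update (Xs d (k + 2) (3 * k + 2) s) ⟨s, by omega⟩
      (Xs d (k + 2) (3 * k + 2) s ⟨s, by omega⟩ + 2 * k)) ⟨s + 1, hs⟩
      (Xs d (k + 2) (3 * k + 2) s ⟨s + 1, hs⟩ + k) = Xs d (k + 2) (3 * k + 2) (s + 1) := by
  have hsd : s < d := by omega
  funext j
  by_cases h1 : j.val = s + 1
  · have hj : j = ⟨s + 1, hs⟩ := Fin.ext h1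
    subst hj
    rw [Function.update_self]
    simp [Xs]
    ring
  · have hj : j ≠ ⟨s + 1, hs⟩ := fun h => h1 (by rw [h])
    rw [Function.update_of_ne hj]
    by_cases h2 : j.val = s
    · have hj : j = ⟨s, hsd⟩ := Fin.ext h2
      subst hj
      rw [Function.update_self]
      simp [Xs]
      ring
    · have hj : j ≠ ⟨s, hsd⟩ := fun h => h2 (by rw [h])
      rw [Function.update_of_ne hj]
      simp only [Xs]
      by_cases h3 : j.val < s
      · rw [if_pos h3, if_pos (by omega)]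
      · rw [if_neg h3, if_neg h2, if_neg (by omega), if_neg h1]

lemma Sm_Xs_zero (hd : 2 ≤ d) (m L : ℤ) : Sm (Xs d m L 0) = m + 2 * (d - 1) := by
  obtain ⟨e, rfl⟩ : ∃ e, d = e + 1 := ⟨d - 1, by omega⟩
  unfold Sm
  rw [Fin.sum_univ_succ]
  have h0 : Xs (e + 1) m L 0 0 = m := by simp [Xs]
  have h1 : ∀ j : Fin e, Xs (e + 1) m L 0 j.succ = 2 := by
    intro j
    simp [Xs]
  rw [h0, Finset.sum_congr rfl fun j _ => h1 j]
  simp
  ring

lemma Xs_ge (k : ℕ) (s : ℕ) : ∀ j, 2 ≤ Xs d (k + 2) (3 * k + 2) s j := by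
  intro j
  simp only [Xs]
  split_ifs <;> omega

lemma Xs_val (k : ℕ) (s : ℕ) (hs : s < d) : Xs d (k + 2) (3 * k + 2) s ⟨s, hs⟩ = k + 2 := by
  simp [Xs]

lemma Xs_val' (k : ℕ) (s : ℕ) (hs : s + 1 < d) :
    Xs d (k + 2) (3 * k + 2) s ⟨s + 1, hs⟩ = 2 := by
  simp [Xs]

lemma phases (hd : 2 ≤ d) (k : ℕ) : ∀ s : ℕ, s < d →
    Sm (Xs d (k + 2) (3 * k + 2) s) = (k + 2) + 2 * (d - 1) + 3 * k * s ∧
    Pr (Xs d (k + 2) (3 * k + 2) s) ((s : ℝ) * k * (k + 4 * (d - 1)) + 3 * (k : ℝ) ^ 2 * s * (s - 1)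
      + 3 * k * (k - 1) * s / 2) := by
  intro s
  induction s with
  | zero =>
    intro _
    refine ⟨by rw [Sm_Xs_zero hd]; push_cast; ring, ?_⟩
    exact (pr_init (Xs_ge k 0)).mono (by push_cast; linarith)
  | succ s ih =>
    intro hs
    obtain ⟨ih1, ih2⟩ := ih (by omega)
    have hil : (⟨s, by omega⟩ : Fin d) ≠ ⟨s + 1, hs⟩ := by
      intro h
      rw [Fin.mk.injEq] at h
      omega
    have h1 := pr_iter (Xs_ge k s) (hd_fin hd) hil ih2 k
    have hvec := Xs_step (k := k) hs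
    constructor
    · rw [← hvec]
      have e : Function.update (Function.update (Xs d (k + 2) (3 * k + 2) s) ⟨s, by omega⟩
        (Xs d (k + 2) (3 * k + 2) s ⟨s, by omega⟩ + 2 * k)) ⟨s + 1, hs⟩
        (Xs d (k + 2) (3 * k + 2) s ⟨s + 1, hs⟩ + k) =
        ext (ext (Xs d (k + 2) (3 * k + 2) s) ⟨s, by omega⟩ (2 * k)) ⟨s + 1, hs⟩ k := by
        unfold ext
        rw [Function.update_of_ne (Ne.symm hil)]
      rw [e, Sm_ext, Sm_ext, ih1]
      push_cast; ring
    · rw [hvec] at h1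
      apply h1.mono
      rw [ih1, Xs_val k s (by omega), Xs_val' k s hs]
      push_cast
      apply le_of_eq
      ring

/-- the final box of side `9 q + 2` -/
lemma final_box (hd : 2 ≤ d) (q : ℕ) :
    Pr (fun _ : Fin d => (9 * q + 2 : ℤ)) (9 / 2 * ((d : ℝ) - 1) * (6 * d + 1) * q ^ 2) := by
  obtain ⟨h1, h2⟩ := phases hd (3 * q) (d - 1) (by omega)
  have h3 := pr_iter_same (Xs_ge (3 * q) (d - 1)) (hd_fin hd) ⟨d - 1, by omega⟩ h2 (2 * q)
  have hvec : Function.update (Xs d ((3 * q : ℕ) + 2) (3 * (3 * q : ℕ) + 2) (d - 1))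
      ⟨d - 1, by omega⟩ (Xs d ((3 * q : ℕ) + 2) (3 * (3 * q : ℕ) + 2) (d - 1) ⟨d - 1, by omega⟩ +
        3 * (2 * q : ℕ)) = fun _ => (9 * q + 2 : ℤ) := by
    have hdd : d - 1 < d := by omega
    funext j
    by_cases hj : j.val = d - 1
    · have hj' : j = ⟨d - 1, hdd⟩ := Fin.ext hj
      rw [hj', Function.update_self, Xs_val (3 * q) (d - 1) hdd]
      push_cast; ring
    · have hj' : j ≠ ⟨d - 1, hdd⟩ := fun h => hj (by rw [h])
      rw [Function.update_of_ne hj']
      simp only [Xs]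
      have := j.2
      rw [if_pos (by omega)]
      push_cast; ring
  rw [hvec] at h3
  apply h3.mono
  rw [h1, Xs_val (3 * q) (d - 1) (by omega)]
  have hd' : ((d - 1 : ℕ) : ℝ) = (d : ℝ) - 1 := by
    rw [Nat.cast_sub (by omega)]; simp
  push_cast
  rw [hd']
  have hd2 : (2 : ℝ) ≤ d := by exact_mod_cast hd
  have hq : (0 : ℝ) ≤ q := Nat.cast_nonneg q
  nlinarith [mul_nonneg (by linarith : (0 : ℝ) ≤ (d : ℝ) - 1) hq,
    mul_nonneg (mul_nonneg (by linarith : (0 : ℝ) ≤ (d : ℝ) - 1) hq)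
      (by linarith : (0 : ℝ) ≤ (d : ℝ) - 1)]

/-- raising all sides -/
lemma raise_all (hd : 2 ≤ d) {L : ℤ} (hL : 2 ≤ L) {T : ℝ} (h : Pr (fun _ : Fin d => L) T)
    (r : ℕ) (hr : 2 ≤ r) : Pr (fun _ : Fin d => L + r) T := by
  have key : ∀ s : ℕ, s ≤ d → Pr (fun j : Fin d => if j.val < s then L + r else L) T := by
    intro s
    induction s with
    | zero => intro _; simpa using h
    | succ s ih =>
      intro hs
      have hsd : s < d := by omega
      have h1 := pr_raise (y := fun j : Fin d => if j.val < s then L + r else L)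
        (fun j => by split_ifs <;> omega) (hd_fin hd) ⟨s, hsd⟩ (ih (by omega)) r hr
      have hvec : Function.update (fun j : Fin d => if j.val < s then L + (r : ℤ) else L)
          ⟨s, hsd⟩ ((fun j : Fin d => if j.val < s then L + (r : ℤ) else L) ⟨s, hsd⟩ + r) =
          fun j : Fin d => if j.val < s + 1 then L + r else L := by
        funext j
        by_cases hj : j.val = s
        · have hj' : j = ⟨s, hsd⟩ := Fin.ext hj
          rw [hj', Function.update_self]
          simp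
        · have hj' : j ≠ ⟨s, hsd⟩ := fun h => hj (by rw [h])
          rw [Function.update_of_ne hj']
          by_cases h3 : j.val < s
          · rw [if_pos h3, if_pos (by omega)]
          · rw [if_neg h3, if_neg (by omega)]
      rwa [hvec] at h1
  have h2 := key d le_rfl
  have hvec : (fun j : Fin d => if j.val < d then L + (r : ℤ) else L) = fun _ => L + r := by
    funext j
    rw [if_pos j.2]
  rwa [hvec] at h2

end Pool.Agent.Lib.MP_1a3405_co.RTwo
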