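import Mathlib

/-!
The potential function for the upper bound.
-/

namespace Pool.Agent.Lib.MP_1a3405_co.RTwo

open Finset

set_option linter.unusedSectionVars false
set_option linter.unusedVariables false

/-- positive part -/
noncomputable def pp (t : ℝ) : ℝ := max t 0

lemma pp_nonneg (t : ℝ) : 0 ≤ pp t := le_max_right _ _
lemma le_pp (t : ℝ) : t ≤ pp t := le_max_left _ _
lemma pp_mono {s t : ℝ} (h : s ≤ t) : pp s ≤ pp t := max_le_max h le_rfl
lemma pp_of_nonneg {t : ℝ} (h : 0 ≤ t) : pp t = t := max_eq_left h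
lemma pp_of_nonpos {t : ℝ} (h : t ≤ 0) : pp t = 0 := max_eq_right h
lemma pp_sq_mono {s t : ℝ} (h : s ≤ t) : pp s ^ 2 ≤ pp t ^ 2 :=
  pow_le_pow_left₀ (pp_nonneg s) (pp_mono h) 2

lemma pp_lo (t r : ℝ) : pp t ^ 2 + 2 * r * pp t ≤ pp (t + r) ^ 2 := by
  rcases le_total t 0 with ht | ht
  · rw [pp_of_nonpos ht]
    have := sq_nonneg (pp (t + r))
    nlinarith
  · rw [pp_of_nonneg ht]
    rcases le_total (t + r) 0 with h | h
    · rw [pp_of_nonpos h]
      nlinarith
    · rw [pp_of_nonneg h]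
      nlinarith [sq_nonneg r]

lemma pp_hi (t r : ℝ) : pp (t + r) ^ 2 ≤ pp t ^ 2 + 2 * r * pp t + r ^ 2 := by
  rcases le_total t 0 with ht | ht
  · rw [pp_of_nonpos ht]
    rcases le_total (t + r) 0 with h | h
    · rw [pp_of_nonpos h]
      nlinarith [sq_nonneg r]
    · rw [pp_of_nonneg h]
      nlinarith
  · rw [pp_of_nonneg ht]
    rcases le_total (t + r) 0 with h | h
    · rw [pp_of_nonpos h]
      nlinarith [sq_nonneg (t + r)]
    · rw [pp_of_nonneg h]
      nlinarith

variable {ι : Type*} [Fintype ι] [DecidableEq ι] [Nonempty ι]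

/-- the largest coordinate -/
noncomputable def mx (x : ι → ℝ) : ℝ := univ.sup' univ_nonempty x
/-- the smallest coordinate -/
noncomputable def mn (x : ι → ℝ) : ℝ := univ.inf' univ_nonempty x

lemma le_mx (x : ι → ℝ) (i : ι) : x i ≤ mx x := Finset.le_sup' x (mem_univ i)
lemma mn_le (x : ι → ℝ) (i : ι) : mn x ≤ x i := Finset.inf'_le x (mem_univ i)

/-- the potential -/
noncomputable def Phi (lam : ℝ) (x : ι → ℝ) : ℝ :=
  (∑ j, x j) ^ 2 / 3 - ∑ j, (x j ^ 2 / 2 - lam * x j - pp (x j - 3 * lam) ^ 2 / 4) -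
    3 / 2 * lam ^ 2 + pp (3 * lam - mx x) ^ 2 / 6 - pp (mn x - 3 * lam) ^ 2 / 12 -
    pp (3 * mx x - 3 * lam - 2 * ∑ j, x j) ^ 2 / 12

/-- the gradient of the potential -/
noncomputable def gr (lam : ℝ) (x : ι → ℝ) (i0 k0 : ι) (j : ι) : ℝ :=
  2 / 3 * (∑ j, x j) - (x j - lam - pp (x j - 3 * lam) / 2) -
    (if j = i0 then pp (3 * lam - x i0) / 3 else 0) -
    (if j = k0 then pp (x k0 - 3 * lam) / 6 else 0) -
    ((if j = i0 then 3 else 0) - 2) * pp (3 * x i0 - 3 * lam - 2 * ∑ j, x j) / 6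

lemma sum_gr (lam : ℝ) (x e : ι → ℝ) (i0 k0 : ι) :
    ∑ j, e j * gr lam x i0 k0 j = 2 / 3 * (∑ j, x j) * (∑ j, e j) -
      ∑ j, e j * (x j - lam - pp (x j - 3 * lam) / 2) - e i0 * (pp (3 * lam - x i0) / 3) -
      e k0 * (pp (x k0 - 3 * lam) / 6) -
      (3 * e i0 - 2 * ∑ j, e j) * pp (3 * x i0 - 3 * lam - 2 * ∑ j, x j) / 6 := by
  have h1 : ∑ j, e j * (if j = i0 then pp (3 * lam - x i0) / 3 else 0) =
      e i0 * (pp (3 * lam - x i0) / 3) := by
    simp [mul_ite, Finset.sum_ite_eq']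
  have h2 : ∑ j, e j * (if j = k0 then pp (x k0 - 3 * lam) / 6 else 0) =
      e k0 * (pp (x k0 - 3 * lam) / 6) := by
    simp [mul_ite, Finset.sum_ite_eq']
  have h3 : ∑ j, e j * (if j = i0 then (3 : ℝ) else 0) = 3 * e i0 := by
    simp [mul_ite, Finset.sum_ite_eq', mul_comm]
  have h4 : ∀ j, e j * gr lam x i0 k0 j = 2 / 3 * (∑ j, x j) * e j -
      e j * (x j - lam - pp (x j - 3 * lam) / 2) -
      e j * (if j = i0 then pp (3 * lam - x i0) / 3 else 0) -
      e j * (if j = k0 then pp (x k0 - 3 * lam) / 6 else 0) -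
      (e j * (if j = i0 then (3 : ℝ) else 0)) * (pp (3 * x i0 - 3 * lam - 2 * ∑ j, x j) / 6) +
      e j * (2 * (pp (3 * x i0 - 3 * lam - 2 * ∑ j, x j) / 6)) := by
    intro j
    unfold gr
    ring
  rw [Finset.sum_congr rfl fun j _ => h4 j, Finset.sum_add_distrib, Finset.sum_sub_distrib,
    Finset.sum_sub_distrib, Finset.sum_sub_distrib, Finset.sum_sub_distrib, ← Finset.mul_sum, h1,
    h2, ← Finset.sum_mul, h3, ← Finset.sum_mul]
  ring

lemma Phi_step (lam : ℝ) (x e : ι → ℝ) (he : ∀ j, 0 ≤ e j) (hr : ∑ j, e j ≤ 4) (i0 k0 : ι)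
    (hi0 : ∀ j, x j + e j ≤ x i0 + e i0) (hk0 : ∀ j, x k0 ≤ x j) :
    Phi lam x + ∑ j, e j * gr lam x i0 k0 j - 15 ≤ Phi lam (fun j => x j + e j) := by
  have hmx' : mx (fun j => x j + e j) = x i0 + e i0 := by
    apply le_antisymm
    · exact Finset.sup'_le _ _ fun j _ => hi0 j
    · exact le_mx (fun j => x j + e j) i0
  have hmx : x i0 ≤ mx x := le_mx x i0
  have hmn : mn x = x k0 := by
    apply le_antisymm (mn_le x k0)
    exact Finset.le_inf' _ _ fun j _ => hk0 j
  have hmn' : mn (fun j => x j + e j) ≤ x k0 + e k0 := mn_le (fun j => x j + e j) k0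
  set S := ∑ j, x j with hS
  set r := ∑ j, e j with hrdef
  have hS' : ∑ j, (x j + e j) = S + r := by rw [Finset.sum_add_distrib]
  have hr0 : 0 ≤ r := Finset.sum_nonneg fun j _ => he j
  have hei0 : e i0 ≤ r := Finset.single_le_sum (fun j _ => he j) (mem_univ i0)
  have hek0 : e k0 ≤ r := Finset.single_le_sum (fun j _ => he j) (mem_univ k0)
  -- the separable part
  have hsep : ∑ j, ((x j + e j) ^ 2 / 2 - lam * (x j + e j) - pp (x j + e j - 3 * lam) ^ 2 / 4) ≤
      ∑ j, (x j ^ 2 / 2 - lam * x j - pp (x j - 3 * lam) ^ 2 / 4) +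
      ∑ j, e j * (x j - lam - pp (x j - 3 * lam) / 2) + ∑ j, e j ^ 2 / 2 := by
    rw [← Finset.sum_add_distrib, ← Finset.sum_add_distrib]
    apply Finset.sum_le_sum
    intro j _
    have h1 := pp_lo (x j - 3 * lam) (e j)
    have h2 : x j - 3 * lam + e j = x j + e j - 3 * lam := by ring
    rw [h2] at h1
    nlinarith
  have hsq : ∑ j, e j ^ 2 / 2 ≤ 8 := by
    have h1 : ∑ j, e j ^ 2 ≤ r ^ 2 := by
      have h2 : ∀ j ∈ univ, e j ^ 2 ≤ e j * r := by
        intro j _
        have : e j ≤ r := Finset.single_le_sum (fun j _ => he j) (mem_univ j)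
        nlinarith [he j]
      have h3 := Finset.sum_le_sum h2
      rw [← Finset.sum_mul] at h3
      nlinarith
    rw [← Finset.sum_div]
    nlinarith
  have h3 : pp (3 * lam - mx x) ^ 2 - 2 * e i0 * pp (3 * lam - x i0) ≤
      pp (3 * lam - (x i0 + e i0)) ^ 2 := by
    -- use monotonicity in the maximum
    have h4 := pp_lo (3 * lam - x i0) (-(e i0))
    have h5 : 3 * lam - x i0 + -(e i0) = 3 * lam - (x i0 + e i0) := by ring
    rw [h5] at h4
    have h6 : pp (3 * lam - mx x) ^ 2 ≤ pp (3 * lam - x i0) ^ 2 := pp_sq_mono (by linarith)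
    linarith
  have h4 : pp (mn (fun j => x j + e j) - 3 * lam) ^ 2 ≤
      pp (x k0 - 3 * lam) ^ 2 + 2 * e k0 * pp (x k0 - 3 * lam) + e k0 ^ 2 := by
    have h5 := pp_hi (x k0 - 3 * lam) (e k0)
    have h6 : x k0 - 3 * lam + e k0 = x k0 + e k0 - 3 * lam := by ring
    rw [h6] at h5
    exact le_trans (pp_sq_mono (by linarith)) h5
  have h5 : pp (3 * (x i0 + e i0) - 3 * lam - 2 * (S + r)) ^ 2 ≤
      pp (3 * mx x - 3 * lam - 2 * S) ^ 2 +
      2 * (3 * e i0 - 2 * r) * pp (3 * x i0 - 3 * lam - 2 * S) + (3 * e i0 - 2 * r) ^ 2 := by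
    have h6 := pp_hi (3 * x i0 - 3 * lam - 2 * S) (3 * e i0 - 2 * r)
    have h7 : 3 * x i0 - 3 * lam - 2 * S + (3 * e i0 - 2 * r) =
      3 * (x i0 + e i0) - 3 * lam - 2 * (S + r) := by ring
    rw [h7] at h6
    have h8 : pp (3 * x i0 - 3 * lam - 2 * S) ^ 2 ≤ pp (3 * mx x - 3 * lam - 2 * S) ^ 2 :=
      pp_sq_mono (by linarith)
    linarith
  have h6 : (3 * e i0 - 2 * r) ^ 2 ≤ 64 := by
    have := he i0
    nlinarith
  have h7 : e k0 ^ 2 ≤ 16 := by
    have := he k0
    nlinarith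
  have hg := sum_gr lam x e i0 k0
  rw [← hS, ← hrdef] at hg
  unfold Phi
  rw [hmx', hS', hmn, hg, ← hS]
  nlinarith [sq_nonneg r]

lemma rsum_one {x : ι → ℝ} (hx : ∀ j, 0 ≤ x j) (i : ι) : x i ≤ ∑ j, x j :=
  Finset.single_le_sum (fun j _ => hx j) (mem_univ i)

lemma rsum_two {x : ι → ℝ} (hx : ∀ j, 0 ≤ x j) {i k : ι} (hik : i ≠ k) :
    x i + x k ≤ ∑ j, x j := by
  rw [← Finset.sum_pair hik]
  exact Finset.sum_le_sum_of_subset_of_nonneg (Finset.subset_univ _) fun j _ _ => hx j

lemma rsum_three {x : ι → ℝ} (hx : ∀ j, 0 ≤ x j) {i k l : ι} (hik : i ≠ k) (hil : i ≠ l)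
    (hkl : k ≠ l) : x i + x k + x l ≤ ∑ j, x j := by
  have h : ∑ j ∈ ({i, k, l} : Finset ι), x j = x i + x k + x l := by
    rw [Finset.sum_insert (by simp [hik, hil]), Finset.sum_pair hkl]; ring
  rw [← h]
  exact Finset.sum_le_sum_of_subset_of_nonneg (Finset.subset_univ _) fun j _ _ => hx j

lemma gr_A {lam : ℝ} (hlam : 0 ≤ lam) {x : ι → ℝ} (hx : ∀ j, 0 ≤ x j)
    (hd : ∀ i : ι, ∃ j, j ≠ i) {i0 k0 : ι}
    (hi0 : ∀ j, x j ≤ x i0 + 4) (hk0 : ∀ j, x k0 ≤ x j) (a l : ι) :
    2 * (∑ j, x j) - x a - x l - 6 ≤ 2 * gr lam x i0 k0 a + gr lam x i0 k0 l := by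
  set S := ∑ j, x j with hS
  have hSa : x a ≤ S := rsum_one hx a
  -- pp facts
  have ea : pp (3 * lam - x a) = 3 * lam - x a + pp (x a - 3 * lam) := by
    rcases le_total (x a) (3 * lam) with h | h
    · rw [pp_of_nonneg (by linarith), pp_of_nonpos (by linarith : x a - 3 * lam ≤ 0)]; ring
    · rw [pp_of_nonpos (by linarith), pp_of_nonneg (by linarith : 0 ≤ x a - 3 * lam)]; ring
  have hk : pp (3 * lam - x i0) ≤ pp (3 * lam - x a) + 4 := by
    have h1 : 3 * lam - x i0 ≤ pp (3 * lam - x a) + 4 := by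
      have := le_pp (3 * lam - x a)
      have := hi0 a
      linarith
    exact max_le h1 (by have := pp_nonneg (3 * lam - x a); linarith)
  have hk' := pp_nonneg (3 * lam - x i0)
  have hm : pp (x k0 - 3 * lam) ≤ pp (x l - 3 * lam) := pp_mono (by linarith [hk0 l])
  have hm' := pp_nonneg (x k0 - 3 * lam)
  have hq := pp_nonneg (3 * x i0 - 3 * lam - 2 * S)
  have hl' := pp_nonneg (x l - 3 * lam)
  have ha' := pp_nonneg (3 * lam - x a)
  have hqle : pp (3 * x i0 - 3 * lam - 2 * S) ≤ pp (x i0 - 3 * lam) := by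
    apply pp_mono
    have := rsum_one hx i0
    linarith
  have hqz : i0 = k0 → pp (3 * x i0 - 3 * lam - 2 * S) = 0 := by
    intro h
    apply pp_of_nonpos
    obtain ⟨j, hj⟩ := hd i0
    have h1 := rsum_two hx hj
    have h2 := hk0 j
    rw [← h] at h2
    have h3 := hx i0
    linarith
  unfold gr
  rw [← hS]
  by_cases hai : a = i0
  · by_cases hli : l = i0
    · subst hai
      rw [hli] at hm hl' ⊢
      simp only [if_true]
      by_cases hak : a = k0
      · have h0 := hqz hak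
        rw [h0]
        rw [← hak] at hm hm' ⊢
        simp only [if_true]
        linarith
      · simp only [if_neg hak]
        linarith
    · subst hai
      simp only [if_true, if_neg hli]
      by_cases hak : a = k0
      · simp only [if_pos hak]
        by_cases hlk : l = k0
        · exact absurd (hlk.trans hak.symm) hli
        · simp only [if_neg hlk]
          linarith
      · simp only [if_neg hak]
        split_ifs <;> linarith
  · simp only [if_neg hai]
    by_cases hli : l = i0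
    · simp only [if_pos hli]
      split_ifs <;> linarith
    · simp only [if_neg hli]
      split_ifs <;> linarith

lemma gr_B {lam : ℝ} (hlam : 0 ≤ lam) {x : ι → ℝ} (hx : ∀ j, 0 ≤ x j) {i0 k0 : ι}
    (hi0 : ∀ j, x j ≤ x i0 + 4) (hk0 : ∀ j, x k0 ≤ x j) {a b : ι} (hab : a ≠ b) :
    (∑ j, x j) - x b - 6 ≤ gr lam x i0 k0 a + gr lam x i0 k0 b := by
  set S := ∑ j, x j with hS
  have hSab : x a + x b ≤ S := rsum_two hx hab
  have hxa := hx a
  have hxb := hx b
  have h3 : a ≠ i0 → b ≠ i0 → x a + x b + x i0 ≤ S := fun h1 h2 => rsum_three hx hab h1 h2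
  have hia := hi0 a
  have hib := hi0 b
  have hka := hk0 a
  have hkb := hk0 b
  have hm' := pp_nonneg (x k0 - 3 * lam)
  have hma : pp (x k0 - 3 * lam) ≤ pp (x a - 3 * lam) := pp_mono (by linarith)
  have hmb : pp (x k0 - 3 * lam) ≤ pp (x b - 3 * lam) := pp_mono (by linarith)
  have hq := pp_nonneg (3 * x i0 - 3 * lam - 2 * S)
  have hq2 := le_pp (3 * x i0 - 3 * lam - 2 * S)
  have hpa := pp_nonneg (x a - 3 * lam)
  have hpb := pp_nonneg (x b - 3 * lam)
  have hpa2 := le_pp (x a - 3 * lam)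
  have hpb2 := le_pp (x b - 3 * lam)
  unfold gr
  rw [← hS]
  by_cases hai : a = i0
  · subst hai
    have hba : b ≠ a := Ne.symm hab
    simp only [if_true, if_neg hba]
    rcases le_total (x a) (3 * lam) with h | h
    · have e1 : pp (3 * lam - x a) = 3 * lam - x a := pp_of_nonneg (by linarith)
      have e2 : pp (x k0 - 3 * lam) = 0 := pp_of_nonpos (by linarith)
      rw [e1, e2]
      split_ifs <;> linarith
    · have e1 : pp (3 * lam - x a) = 0 := pp_of_nonpos (by linarith)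
      have e2 : pp (x a - 3 * lam) = x a - 3 * lam := pp_of_nonneg (by linarith)
      rw [e1, e2]
      by_cases hak : a = k0
      · have hbk : b ≠ k0 := fun h => hab (hak.trans h.symm)
        simp only [if_pos hak, if_neg hbk]
        linarith
      · simp only [if_neg hak]
        split_ifs <;> linarith
  · by_cases hbi : b = i0
    · subst hbi
      simp only [if_true, if_neg hai]
      rcases le_total (x b) (3 * lam) with h | h
      · have e1 : pp (3 * lam - x b) = 3 * lam - x b := pp_of_nonneg (by linarith)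
        have e2 : pp (x k0 - 3 * lam) = 0 := pp_of_nonpos (by linarith)
        rw [e1, e2]
        split_ifs <;> linarith
      · have e1 : pp (3 * lam - x b) = 0 := pp_of_nonpos (by linarith)
        have e2 : pp (x b - 3 * lam) = x b - 3 * lam := pp_of_nonneg (by linarith)
        rw [e1, e2]
        by_cases hak : a = k0
        · have hbk : b ≠ k0 := fun h => hab (hak.trans h.symm)
          simp only [if_pos hak, if_neg hbk]
          linarith
        · simp only [if_neg hak]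
          split_ifs <;> linarith
    · have h4 := h3 hai hbi
      simp only [if_neg hai, if_neg hbi]
      by_cases hak : a = k0
      · have hbk : b ≠ k0 := fun h => hab (hak.trans h.symm)
        simp only [if_pos hak, if_neg hbk]
        linarith
      · simp only [if_neg hak]
        split_ifs <;> linarith

end Pool.Agent.Lib.MP_1a3405_co.RTwo
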