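import Mathlib
import Pool.Agent.Lib.MP_1a3405_co.RTwoPot

/-!
The potential on integer vectors: the inequalities used in the induction.
-/

namespace Pool.Agent.Lib.MP_1a3405_co.RTwo

open Finset

set_option linter.unusedSectionVars false
set_option linter.unusedVariables false
set_option linter.unusedSimpArgs false

variable {ι : Type*} [Fintype ι] [DecidableEq ι] [Nonempty ι]

/-- the bound on the percolation time of a box with side lengths `x` -/
noncomputable def Fb (lam : ℝ) (x : ι → ℤ) : ℝ :=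
  Phi lam (fun j => (x j : ℝ)) + 60 * ∑ j, (x j : ℝ)

/-- the vector counting the occurrences in a list -/
def ev (L : List ι) : ι → ℤ := fun j => (L.count j : ℤ)

lemma ev_nonneg (L : List ι) (j : ι) : 0 ≤ ev L j := Int.natCast_nonneg _

lemma sum_ev_mul (L : List ι) (g : ι → ℝ) : ∑ j, (ev L j : ℝ) * g j = (L.map g).sum := by
  induction L with
  | nil => simp [ev]
  | cons a L ih =>
    have : ∀ j, (ev (a :: L) j : ℝ) * g j = (ev L j : ℝ) * g j + (if j = a then g j else 0) := by
      intro j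
      simp only [ev, List.count_cons]
      by_cases h : j = a
      · subst h; simp; ring
      · have h' : ¬ a = j := fun hh => h hh.symm
        simp [h, h']
    rw [Finset.sum_congr rfl fun j _ => this j, Finset.sum_add_distrib, ih]
    simp [add_comm]

lemma sum_ev (L : List ι) : ∑ j, (ev L j : ℝ) = L.length := by
  have := sum_ev_mul L (fun _ => (1 : ℝ))
  simpa using this

lemma sum_ev_int (L : List ι) : ∑ j, ev L j = (L.length : ℤ) := by
  have := sum_ev L
  exact_mod_cast this

lemma Fb_step {lam : ℝ} (hlam : 0 ≤ lam) (hd : ∀ i : ι, ∃ j, j ≠ i) {x : ι → ℤ}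
    (hx : ∀ j, 0 ≤ x j) (L : List ι) (hL : L.length ≤ 4) :
    ∃ g : ι → ℝ, Fb lam x + (L.map g).sum + 60 * L.length - 15 ≤ Fb lam (fun j => x j + ev L j) ∧
      (∀ a l, 2 * (∑ j, (x j : ℝ)) - x a - x l - 6 ≤ 2 * g a + g l) ∧
      (∀ a b, a ≠ b → (∑ j, (x j : ℝ)) - x b - 6 ≤ g a + g b) := by
  set X : ι → ℝ := fun j => (x j : ℝ) with hX
  set E : ι → ℝ := fun j => (ev L j : ℝ) with hE
  have hX0 : ∀ j, 0 ≤ X j := fun j => by simp only [hX]; exact_mod_cast hx j
  have hE0 : ∀ j, 0 ≤ E j := fun j => by simp only [hE]; exact_mod_cast ev_nonneg L j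
  have hEs : ∑ j, E j = L.length := sum_ev L
  have hE4 : ∑ j, E j ≤ 4 := by rw [hEs]; exact_mod_cast hL
  obtain ⟨i0, -, hi0⟩ := Finset.exists_max_image univ (fun j => X j + E j) univ_nonempty
  obtain ⟨k0, -, hk0⟩ := Finset.exists_min_image univ X univ_nonempty
  have hi0' : ∀ j, X j ≤ X i0 + 4 := by
    intro j
    have h1 := hi0 j (mem_univ j)
    have h2 : E i0 ≤ ∑ j, E j := Finset.single_le_sum (fun j _ => hE0 j) (mem_univ i0)
    have h3 := hE0 j
    linarith
  refine ⟨gr lam X i0 k0, ?_, ?_, ?_⟩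
  · have h1 := Phi_step lam X E hE0 hE4 i0 k0 (fun j => hi0 j (mem_univ j))
      (fun j => hk0 j (mem_univ j))
    have h2 : ∑ j, E j * gr lam X i0 k0 j = (L.map (gr lam X i0 k0)).sum := sum_ev_mul L _
    rw [h2] at h1
    unfold Fb
    have h3 : (fun j => ((x j + ev L j : ℤ) : ℝ)) = fun j => X j + E j := by
      funext j; push_cast; rfl
    have h4 : ∑ j, (X j + E j) = ∑ j, X j + L.length := by
      rw [← hEs, ← Finset.sum_add_distrib]
    rw [h3, h4]
    have h5 : ∑ j, (x j : ℝ) = ∑ j, X j := rfl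
    rw [h5]
    linarith
  · intro a l
    exact gr_A hlam hX0 hd hi0' (fun j => hk0 j (mem_univ j)) a l
  · intro a b hab
    exact gr_B hlam hX0 hi0' (fun j => hk0 j (mem_univ j)) hab

lemma Fb_mono {lam : ℝ} (hlam : 0 ≤ lam) (hd : ∀ i : ι, ∃ j, j ≠ i) :
    ∀ (N : ℕ) (x y : ι → ℤ), (∀ j, 0 ≤ x j) → (∀ j, x j ≤ y j) → ∑ j, (y j - x j) = N →
      Fb lam x + 43 * (N : ℝ) ≤ Fb lam y := by
  intro N
  induction N with
  | zero =>
    intro x y hx hxy hN
    have h0 : ∀ j ∈ univ, y j - x j = 0 := by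
      apply (Finset.sum_eq_zero_iff_of_nonneg (fun j _ => by have := hxy j; omega)).1
      simpa using hN
    have : x = y := by
      funext j
      have := h0 j (mem_univ j)
      omega
    rw [this]; simp
  | succ N ih =>
    intro x y hx hxy hN
    obtain ⟨a, ha⟩ : ∃ a, x a < y a := by
      by_contra hcon
      push Not at hcon
      have : ∑ j, (y j - x j) ≤ 0 := Finset.sum_nonpos fun j _ => by have := hcon j; omega
      push_cast at hN
      omega
    obtain ⟨g, hg1, hg2, -⟩ := Fb_step hlam hd hx [a] (by simp)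
    have hga := hg2 a a
    have hSa : (x a : ℝ) ≤ ∑ j, (x j : ℝ) :=
      Finset.single_le_sum (f := fun j => (x j : ℝ)) (fun j _ => by exact_mod_cast hx j)
        (mem_univ a)
    have h1 := ih (fun j => x j + ev [a] j) y
      (fun j => by have := hx j; have := ev_nonneg [a] j; omega)
      (fun j => by
        by_cases h : j = a
        · subst h; simp [ev]; omega
        · have h' : ¬ a = j := fun hh => h hh.symm
          simp [ev, List.count_cons, h']; exact hxy j)
      (by
        have h2 : ∑ j, (y j - (x j + ev [a] j)) = ∑ j, (y j - x j) - ∑ j, ev [a] j := by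
          rw [← Finset.sum_sub_distrib]
          exact Finset.sum_congr rfl fun j _ => by ring
        rw [h2, hN, sum_ev_int]
        simp)
    simp only [List.map_cons, List.map_nil, List.sum_cons, List.sum_nil, List.length_cons,
      List.length_nil] at hg1
    push_cast at hg1 ⊢
    linarith

lemma Fb_lower {lam : ℝ} (hlam : 0 ≤ lam) (hd : ∀ i : ι, ∃ j, j ≠ i) {x z : ι → ℤ}
    (hx : ∀ j, 0 ≤ x j) (L : List ι) (hL : L.length ≤ 4) (hz : ∀ j, x j + ev L j ≤ z j) :
    ∃ g : ι → ℝ, Fb lam x + (L.map g).sum + 60 * L.length - 15 +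
        43 * ((∑ j, (z j - x j) : ℤ) - L.length : ℝ) ≤ Fb lam z ∧
      (∀ a l, 2 * (∑ j, (x j : ℝ)) - x a - x l - 6 ≤ 2 * g a + g l) ∧
      (∀ a b, a ≠ b → (∑ j, (x j : ℝ)) - x b - 6 ≤ g a + g b) := by
  obtain ⟨g, hg1, hg2, hg3⟩ := Fb_step hlam hd hx L hL
  refine ⟨g, ?_, hg2, hg3⟩
  have hnn : 0 ≤ ∑ j, (z j - (x j + ev L j)) :=
    Finset.sum_nonneg fun j _ => by have := hz j; omega
  obtain ⟨N, hN⟩ := Int.eq_ofNat_of_zero_le hnn
  have h1 := Fb_mono hlam hd N (fun j => x j + ev L j) z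
    (fun j => by have := hx j; have := ev_nonneg L j; omega) hz hN
  have h2 : ∑ j, (z j - (x j + ev L j)) = ∑ j, (z j - x j) - L.length := by
    rw [← sum_ev_int L, ← Finset.sum_sub_distrib]
    exact Finset.sum_congr rfl fun j _ => by ring
  have h3 : (N : ℝ) = ((∑ j, (z j - x j) : ℤ) : ℝ) - L.length := by
    have : ((N : ℤ) : ℝ) = ((∑ j, (z j - x j) - L.length : ℤ) : ℝ) := by
      rw [← h2, hN]
    rw [Int.cast_natCast] at this
    rw [this]
    push_cast; ring
  rw [h3] at h1
  linarith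

lemma sum_x_ge {x : ι → ℤ} (hx : ∀ j, 0 ≤ x j) (a : ι) : (x a : ℝ) ≤ ∑ j, (x j : ℝ) :=
  Finset.single_le_sum (f := fun j => (x j : ℝ)) (fun j _ => by exact_mod_cast hx j)
    (mem_univ a)

/-- P3: a double increment followed by a single one -/
lemma P3 {lam : ℝ} (hlam : 0 ≤ lam) (hd : ∀ i : ι, ∃ j, j ≠ i) {x z : ι → ℤ}
    (hx : ∀ j, 0 ≤ x j) (i l : ι) (hz : ∀ j, x j + ev [i, i, l] j ≤ z j) :
    Fb lam x + ((∑ j, (x j : ℝ)) - x i) + ((∑ j, (x j : ℝ)) - x l) + 60 +
      43 * ((∑ j, (z j - x j) : ℤ) - 3 : ℝ) ≤ Fb lam z := by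
  obtain ⟨g, hg1, hg2, hg3⟩ := Fb_lower hlam hd hx [i, i, l] (by simp) hz
  have h1 := hg2 i l
  simp only [List.map_cons, List.map_nil, List.sum_cons, List.sum_nil, List.length_cons,
    List.length_nil] at hg1
  push_cast at hg1 ⊢
  linarith

/-- P4: three single increments -/
lemma P4 {lam : ℝ} (hlam : 0 ≤ lam) (hd : ∀ i : ι, ∃ j, j ≠ i) {x z : ι → ℤ}
    (hx : ∀ j, 0 ≤ x j) (i k l : ι) (hz : ∀ j, x j + ev [i, k, l] j ≤ z j) :
    Fb lam x + ((∑ j, (x j : ℝ)) - x i - x k) + ((∑ j, (x j : ℝ)) - x l) + 60 +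
      43 * ((∑ j, (z j - x j) : ℤ) - 3 : ℝ) ≤ Fb lam z := by
  obtain ⟨g, hg1, hg2, hg3⟩ := Fb_lower hlam hd hx [i, k, l] (by simp) hz
  have h1 := hg2 i k
  have h2 := hg2 k l
  have h3 := hg2 l i
  have h4 : (0 : ℝ) ≤ x i := by exact_mod_cast hx i
  have h5 : (0 : ℝ) ≤ x k := by exact_mod_cast hx k
  have h6 : (0 : ℝ) ≤ x l := by exact_mod_cast hx l
  simp only [List.map_cons, List.map_nil, List.sum_cons, List.sum_nil, List.length_cons,
    List.length_nil] at hg1
  push_cast at hg1 ⊢
  linarith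

lemma exists_other {x y : ι → ℤ} (hxy : ∀ j, x j ≤ y j) {i : ι} (hi : y i ≤ x i + 1)
    (hW : 2 ≤ ∑ j, (y j - x j)) : ∃ k, k ≠ i ∧ x k < y k := by
  by_contra hcon
  push Not at hcon
  have : ∑ j, (y j - x j) ≤ y i - x i := by
    rw [← Finset.add_sum_erase _ _ (mem_univ i)]
    have : ∑ j ∈ univ.erase i, (y j - x j) ≤ 0 := by
      apply Finset.sum_nonpos
      intro j hj
      have := hcon j (Finset.ne_of_mem_erase hj)
      omega
    linarith
  omega

lemma ev_pair_le {x y : ι → ℤ} (hxy : ∀ j, x j ≤ y j) {i k : ι} (hik : i ≠ k) (hi : x i < y i)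
    (hk : x k < y k) : ∀ j, x j + ev [i, k] j ≤ y j := by
  intro j
  have := hxy j
  by_cases h1 : j = i
  · subst h1
    have h2 : ¬ k = j := fun h => hik h.symm
    simp [ev, List.count_cons, h2]; omega
  · have h1' : ¬ i = j := fun h => h1 h.symm
    by_cases h2 : j = k
    · subst h2
      simp [ev, List.count_cons, h1']; omega
    · have h2' : ¬ k = j := fun h => h2 h.symm
      simp [ev, List.count_cons, h1', h2']; omega

lemma ev_double_le {x y : ι → ℤ} (hxy : ∀ j, x j ≤ y j) {i : ι} (hi : x i + 2 ≤ y i) :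
    ∀ j, x j + ev [i, i] j ≤ y j := by
  intro j
  have := hxy j
  by_cases h1 : j = i
  · subst h1
    simp [ev, List.count_cons]; omega
  · have h1' : ¬ i = j := fun h => h1 h.symm
    simp [ev, List.count_cons, h1']; omega

/-- P1: one merge increasing the total side length by at least two -/
lemma P1 {lam : ℝ} (hlam : 0 ≤ lam) (hd : ∀ i : ι, ∃ j, j ≠ i) {x y : ι → ℤ}
    (hx : ∀ j, 0 ≤ x j) (hxy : ∀ j, x j ≤ y j) {i : ι} (hi : x i < y i)
    (hW : 2 ≤ ∑ j, (y j - x j)) :
    Fb lam x + ((∑ j, (x j : ℝ)) - x i) + 8 * ((∑ j, (y j - x j) : ℤ) : ℝ) + 60 ≤ Fb lam y := by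
  have hWr : (2 : ℝ) ≤ ((∑ j, (y j - x j) : ℤ) : ℝ) := by exact_mod_cast hW
  by_cases h2 : x i + 2 ≤ y i
  · obtain ⟨g, hg1, hg2, hg3⟩ := Fb_lower hlam hd hx [i, i] (by simp) (ev_double_le hxy h2)
    have h1 := hg2 i i
    have h3 := sum_x_ge hx i
    simp only [List.map_cons, List.map_nil, List.sum_cons, List.sum_nil, List.length_cons,
      List.length_nil] at hg1
    push_cast at hg1 hWr ⊢
    linarith
  · obtain ⟨k, hki, hk⟩ := exists_other hxy (i := i) (by omega) hW
    obtain ⟨g, hg1, hg2, hg3⟩ := Fb_lower hlam hd hx [i, k] (by simp)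
      (ev_pair_le hxy (Ne.symm hki) hi hk)
    have h1 := hg3 k i hki
    simp only [List.map_cons, List.map_nil, List.sum_cons, List.sum_nil, List.length_cons,
      List.length_nil] at hg1
    push_cast at hg1 hWr ⊢
    linarith

/-- P2: one merge increasing the total side length by at least three, followed by a single
increment -/
lemma P2 {lam : ℝ} (hlam : 0 ≤ lam) (hd : ∀ i : ι, ∃ j, j ≠ i) {x y z : ι → ℤ}
    (hx : ∀ j, 0 ≤ x j) (hxy : ∀ j, x j ≤ y j) (hyz : ∀ j, y j ≤ z j) {i l : ι}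
    (hi : x i < y i) (hl : y l < z l) (hW : 3 ≤ ∑ j, (y j - x j)) :
    Fb lam x + ((∑ j, (x j : ℝ)) - x i) + ((∑ j, (x j : ℝ)) - x l) +
      8 * ((∑ j, (y j - x j) : ℤ) : ℝ) + 60 ≤ Fb lam z := by
  have hWr : (3 : ℝ) ≤ ((∑ j, (y j - x j) : ℤ) : ℝ) := by exact_mod_cast hW
  have hW' : ∑ j, (y j - x j) + 1 ≤ ∑ j, (z j - x j) := by
    have h1 : ∑ j, (z j - x j) = ∑ j, (y j - x j) + ∑ j, (z j - y j) := by
      rw [← Finset.sum_add_distrib]
      exact Finset.sum_congr rfl fun j _ => by ring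
    have h2 : z l - y l ≤ ∑ j, (z j - y j) :=
      Finset.single_le_sum (f := fun j => z j - y j) (fun j _ => by have := hyz j; omega)
        (mem_univ l)
    omega
  have hWr' : ((∑ j, (y j - x j) : ℤ) : ℝ) + 1 ≤ ((∑ j, (z j - x j) : ℤ) : ℝ) := by
    exact_mod_cast hW'
  by_cases h2 : x i + 2 ≤ y i
  · have hz : ∀ j, x j + ev [i, i, l] j ≤ z j := by
      intro j
      have h3 := hxy j
      have h4 := hyz j
      by_cases h1 : j = i
      · subst h1
        by_cases h5 : l = j
        · subst h5; simp [ev, List.count_cons]; omega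
        · simp [ev, List.count_cons, h5]; omega
      · have h1' : ¬ i = j := fun h => h1 h.symm
        by_cases h5 : l = j
        · subst h5; simp [ev, List.count_cons, h1']; omega
        · simp [ev, List.count_cons, h1', h5]; omega
    obtain ⟨g, hg1, hg2, hg3⟩ := Fb_lower hlam hd hx [i, i, l] (by simp) hz
    have h1 := hg2 i l
    simp only [List.map_cons, List.map_nil, List.sum_cons, List.sum_nil, List.length_cons,
      List.length_nil] at hg1
    push_cast at hg1 hWr hWr' ⊢
    linarith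
  · obtain ⟨k, hki, hk⟩ := exists_other hxy (i := i) (by omega) (by omega)
    have hpair := ev_pair_le hxy (Ne.symm hki) hi hk
    obtain ⟨m, hm⟩ : ∃ m, x m + ev [i, k] m < y m := by
      by_contra hcon
      push Not at hcon
      have h1 : ∑ j, (y j - x j) ≤ ∑ j, ev [i, k] j :=
        Finset.sum_le_sum fun j _ => by have := hcon j; omega
      rw [sum_ev_int] at h1
      simp only [List.length_cons, List.length_nil] at h1
      push_cast at h1
      omega
    have hz : ∀ j, x j + ev [i, k, m, l] j ≤ z j := by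
      intro j
      have h3 := hpair j
      have h4 := hyz j
      have h5 : ev [i, k, m, l] j = ev [i, k] j + (if m = j then 1 else 0) +
          (if l = j then 1 else 0) := by
        simp only [ev, List.count_cons, List.count_nil, beq_iff_eq]
        push_cast
        split_ifs <;> ring
      rw [h5]
      split_ifs with h6 h7 h7
      · subst h6; subst h7; omega
      · subst h6; omega
      · subst h7; omega
      · omega
    obtain ⟨g, hg1, hg2, hg3⟩ := Fb_lower hlam hd hx [i, k, m, l] (by simp) hz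
    have h1 := hg3 k i hki
    have h6 : (∑ j, (x j : ℝ)) - x l - 6 ≤ g m + g l := by
      by_cases hml : m = l
      · subst hml
        have h7 := hg2 m m
        have h8 := sum_x_ge hx m
        linarith
      · exact hg3 m l hml
    simp only [List.map_cons, List.map_nil, List.sum_cons, List.sum_nil, List.length_cons,
      List.length_nil] at hg1
    push_cast at hg1 hWr hWr' ⊢
    linarith

end Pool.Agent.Lib.MP_1a3405_co.RTwo
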