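import Mathlib
import Pool.Agent.Lib.MP_1a3405_co.RTwoDisc
import Pool.Agent.Lib.MP_1a3405_co.RTwoPotInt

/-!
The upper bound for the percolation time of a set spanning a box.
-/

namespace Pool.Agent.Lib.MP_1a3405_co.RTwo

open Set

set_option linter.unusedSectionVars false
set_option linter.unusedVariables false
set_option linter.unusedSimpArgs false

variable {ι : Type*} [Fintype ι] [DecidableEq ι]

/-- side lengths of a box -/
def sd (a b : ι → ℤ) : ι → ℤ := fun j => b j - a j

lemma sum_sd (a b : ι → ℤ) : ∑ j, (sd a b j : ℝ) = (sz a b : ℝ) := by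
  unfold sz sd; push_cast; rfl

lemma sum_sd_sub (a b a' b' : ι → ℤ) : ∑ j, (sd a' b' j - sd a b j) = sz a' b' - sz a b := by
  unfold sz sd; rw [Finset.sum_sub_distrib]

lemma gap_comm (a b a' b' : ι → ℤ) : gap a b a' b' = gap a' b' a b := by
  unfold gap
  apply Finset.sum_congr rfl
  intro j _
  simp only [gI]; omega

section Pot

variable [Nonempty ι] {lam : ℝ} (hlam : 0 ≤ lam) (hd : ∀ i : ι, ∃ j, j ≠ i)

include hlam hd

lemma P1b {a b a' b' : ι → ℤ} (hab : a ≤ b) (h1 : a' ≤ a) (h2 : b ≤ b') {i : ι}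
    (hi : b i - a i < b' i - a' i) (hW : 2 ≤ sz a' b' - sz a b) :
    Fb lam (sd a b) + ((sz a b - (b i - a i) + 8 * (sz a' b' - sz a b) + 60 : ℤ) : ℝ) ≤
      Fb lam (sd a' b') := by
  have h := P1 hlam hd (x := sd a b) (y := sd a' b')
    (fun j => by have h3 : a j ≤ b j := hab j; unfold sd; omega)
    (fun j => by
      have h3 : a' j ≤ a j := h1 j
      have h4 : b j ≤ b' j := h2 j
      unfold sd; omega) (i := i) hi (by rw [sum_sd_sub]; exact hW)
  rw [sum_sd, sum_sd_sub] at h
  have h5 : (sd a b i : ℝ) = (b i : ℝ) - a i := by unfold sd; push_cast; rfl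
  rw [h5] at h
  push_cast at h ⊢
  linarith

lemma P2b {a b a' b' a'' b'' : ι → ℤ} (hab : a ≤ b) (h1 : a' ≤ a) (h2 : b ≤ b')
    (h3 : a'' ≤ a') (h4 : b' ≤ b'') {i l : ι}
    (hi : b i - a i < b' i - a' i) (hl : b' l - a' l < b'' l - a'' l)
    (hW : 3 ≤ sz a' b' - sz a b) :
    Fb lam (sd a b) + ((sz a b - (b i - a i) + (sz a b - (b l - a l)) +
      8 * (sz a' b' - sz a b) + 60 : ℤ) : ℝ) ≤ Fb lam (sd a'' b'') := by
  have h := P2 hlam hd (x := sd a b) (y := sd a' b') (z := sd a'' b'')
    (fun j => by have h3 : a j ≤ b j := hab j; unfold sd; omega)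
    (fun j => by
      have h5 : a' j ≤ a j := h1 j
      have h6 : b j ≤ b' j := h2 j
      unfold sd; omega)
    (fun j => by
      have h5 : a'' j ≤ a' j := h3 j
      have h6 : b' j ≤ b'' j := h4 j
      unfold sd; omega) (i := i) (l := l) hi hl (by rw [sum_sd_sub]; exact hW)
  rw [sum_sd, sum_sd_sub] at h
  have h5 : (sd a b i : ℝ) = (b i : ℝ) - a i := by unfold sd; push_cast; rfl
  have h6 : (sd a b l : ℝ) = (b l : ℝ) - a l := by unfold sd; push_cast; rfl
  rw [h5, h6] at h
  push_cast at h ⊢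
  linarith

lemma P3b {a b a' b' : ι → ℤ} (hab : a ≤ b) {i l : ι}
    (hz : ∀ j, sd a b j + ev [i, i, l] j ≤ sd a' b' j) :
    Fb lam (sd a b) + ((sz a b - (b i - a i) + (sz a b - (b l - a l)) + 60 : ℤ) : ℝ) ≤
      Fb lam (sd a' b') := by
  have h := P3 hlam hd (x := sd a b) (z := sd a' b')
    (fun j => by have h3 : a j ≤ b j := hab j; unfold sd; omega) i l hz
  have hW : (3 : ℤ) ≤ ∑ j, (sd a' b' j - sd a b j) := by
    have h1 : ∑ j, ev [i, i, l] j ≤ ∑ j, (sd a' b' j - sd a b j) :=
      Finset.sum_le_sum fun j _ => by have := hz j; omega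
    rw [sum_ev_int] at h1
    simpa using h1
  have hW' : (3 : ℝ) ≤ ((∑ j, (sd a' b' j - sd a b j) : ℤ) : ℝ) := by exact_mod_cast hW
  rw [sum_sd] at h
  have h5 : (sd a b i : ℝ) = (b i : ℝ) - a i := by unfold sd; push_cast; rfl
  have h6 : (sd a b l : ℝ) = (b l : ℝ) - a l := by unfold sd; push_cast; rfl
  rw [h5, h6] at h
  push_cast at h hW' ⊢
  linarith

lemma P4b {a b a' b' : ι → ℤ} (hab : a ≤ b) {i k l : ι}
    (hz : ∀ j, sd a b j + ev [i, k, l] j ≤ sd a' b' j) :
    Fb lam (sd a b) + ((sz a b - (b i - a i) - (b k - a k) + (sz a b - (b l - a l)) + 60 : ℤ) : ℝ)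
      ≤ Fb lam (sd a' b') := by
  have h := P4 hlam hd (x := sd a b) (z := sd a' b')
    (fun j => by have h3 : a j ≤ b j := hab j; unfold sd; omega) i k l hz
  have hW : (3 : ℤ) ≤ ∑ j, (sd a' b' j - sd a b j) := by
    have h1 : ∑ j, ev [i, k, l] j ≤ ∑ j, (sd a' b' j - sd a b j) :=
      Finset.sum_le_sum fun j _ => by have := hz j; omega
    rw [sum_ev_int] at h1
    simpa using h1
  have hW' : (3 : ℝ) ≤ ((∑ j, (sd a' b' j - sd a b j) : ℤ) : ℝ) := by exact_mod_cast hW
  rw [sum_sd] at h
  have h5 : (sd a b i : ℝ) = (b i : ℝ) - a i := by unfold sd; push_cast; rfl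
  have h6 : (sd a b l : ℝ) = (b l : ℝ) - a l := by unfold sd; push_cast; rfl
  have h7 : (sd a b k : ℝ) = (b k : ℝ) - a k := by unfold sd; push_cast; rfl
  rw [h5, h6, h7] at h
  push_cast at h hW' ⊢
  linarith

omit hd in
lemma Fb_zero {p : ι → ℤ} : Fb lam (sd p p) = 0 := by
  have h0 : sd p p = fun _ => 0 := by funext j; unfold sd; ring
  rw [h0]
  unfold Fb Phi
  have hmx : mx (fun _ : ι => ((0 : ℤ) : ℝ)) = 0 := by simp [mx]
  have hmn : mn (fun _ : ι => ((0 : ℤ) : ℝ)) = 0 := by simp [mn]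
  rw [hmx, hmn]
  have e1 : pp (3 * lam - 0) = 3 * lam - 0 := pp_of_nonneg (by linarith)
  have e2 : pp (0 - 3 * lam) = 0 := pp_of_nonpos (by linarith)
  have e3 : pp (3 * 0 - 3 * lam - 2 * ∑ j : ι, ((0 : ℤ) : ℝ)) = 0 := by
    apply pp_of_nonpos
    simp only [Int.cast_zero, Finset.sum_const_zero]
    linarith
  rw [e1, e3]
  simp only [Int.cast_zero, Finset.sum_const_zero, e2]
  simp
  ring

end Pot

/-- one merge, with the best direction -/
lemma fill_best {A : Set (ι → ℤ)} {t : ℕ} {a b a' b' : ι → ℤ} (hab : a ≤ b) (hab' : a' ≤ b')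
    (h1 : Icc a b ⊆ proc A t) (h2 : Icc a' b' ⊆ proc A t) (hgap : gap a b a' b' ≤ 2)
    (hW : 0 < sz (a ⊓ a') (b ⊔ b') - sz a b) :
    ∃ i, b i - a i < (b ⊔ b') i - (a ⊓ a') i ∧ ∃ t' : ℕ,
      (t' : ℤ) ≤ t + 4 * (sz (a ⊓ a') (b ⊔ b') - sz a b) + (sz a b - (b i - a i)) ∧
      Icc (a ⊓ a') (b ⊔ b') ⊆ proc A t' := by
  classical
  have hne : (Finset.univ.filter fun i => b i - a i < (b ⊔ b') i - (a ⊓ a') i).Nonempty := by
    by_contra hcon
    rw [Finset.not_nonempty_iff_eq_empty, Finset.filter_eq_empty_iff] at hcon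
    have : sz (a ⊓ a') (b ⊔ b') - sz a b ≤ 0 := by
      unfold sz
      rw [← Finset.sum_sub_distrib]
      apply Finset.sum_nonpos
      intro j hj
      have := hcon hj
      omega
    omega
  obtain ⟨i, hi, hmin⟩ := Finset.exists_min_image _ (fun i => b i - a i) hne
  rw [Finset.mem_filter] at hi
  refine ⟨i, hi.2, ?_⟩
  have hside : ∀ j, 0 ≤ b j - a j := fun j => by have : a j ≤ b j := hab j; omega
  have hle : b i - a i ≤ sz a b := Finset.single_le_sum (f := fun j => b j - a j)
    (fun j _ => hside j) (Finset.mem_univ i)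
  apply fill' hab hab' h1 h2 hgap (sz a b - (b i - a i)) (by omega)
  intro j hj
  have := hmin j (by rw [Finset.mem_filter]; exact ⟨Finset.mem_univ j, hj⟩)
  omega

lemma cast_bound {t t' : ℕ} {z z' : ℤ} {F1 F2 : ℝ} (h : (t' : ℤ) ≤ t + z) (hz : z ≤ z')
    (h1 : (t : ℝ) ≤ F1) (h2 : F1 + (z' : ℝ) ≤ F2) : (t' : ℝ) ≤ F2 := by
  have h3 : (t' : ℤ) ≤ t + z' := by omega
  have h4 : (t' : ℝ) ≤ (t : ℝ) + (z' : ℝ) := by exact_mod_cast h3
  linarith

lemma Icc_self_subset {A : Set (ι → ℤ)} {t : ℕ} {p : ι → ℤ} (hp : p ∈ proc A t) :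
    Icc p p ⊆ proc A t := by
  rw [Set.Icc_self]; simpa using hp

lemma D_slack {a b p q : ι → ℤ} (hab : a ≤ b) :
    D a b q ≤ D (a ⊓ p) (b ⊔ p) q + D a b p := by
  unfold D
  rw [← Finset.sum_add_distrib]
  exact Finset.sum_le_sum fun j _ => slack1 (hab j)

lemma hull_side {a b p q : ι → ℤ} (hab : a ≤ b) (j : ι) :
    sd (a ⊓ p ⊓ q) (b ⊔ p ⊔ q) j =
      sd a b j + dI (a j) (b j) (p j) + dI (min (a j) (p j)) (max (b j) (p j)) (q j) := by
  have h0 : a j ≤ b j := hab j
  show max (max (b j) (p j)) (q j) - min (min (a j) (p j)) (q j) =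
    b j - a j + dI (a j) (b j) (p j) + dI (min (a j) (p j)) (max (b j) (p j)) (q j)
  simp only [dI]; omega

lemma exists_second {f : ι → ℤ} (hf : ∀ j, 0 ≤ f j) {i : ι} (h2 : ∑ j, f j = 2) (hi : f i = 1) :
    ∃ k, k ≠ i ∧ f k = 1 := by
  by_contra hcon
  push Not at hcon
  have h3 : ∀ k, k ≠ i → f k = 0 := by
    intro k hk
    have h4 := sum_two hf hk
    have h5 := hcon k hk
    have h6 := hf k
    omega
  have : ∑ j, f j = f i := Finset.sum_eq_single i (fun k _ hk => h3 k hk)
    (fun h => absurd (Finset.mem_univ i) h)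
  omega

section Pot2

variable [Nonempty ι] {lam : ℝ} (hlam : 0 ≤ lam) (hd : ∀ i : ι, ∃ j, j ≠ i)

include hlam hd

lemma merge_one {A : Set (ι → ℤ)} {t : ℕ} {a b a' b' : ι → ℤ} (hab : a ≤ b) (hab' : a' ≤ b')
    (h1 : Icc a b ⊆ proc A t) (h2 : Icc a' b' ⊆ proc A t) (hgap : gap a b a' b' ≤ 2)
    (ht : (t : ℝ) ≤ Fb lam (sd a b)) (hW : 2 ≤ sz (a ⊓ a') (b ⊔ b') - sz a b) :
    ∃ t' : ℕ, (t' : ℝ) ≤ Fb lam (sd (a ⊓ a') (b ⊔ b')) ∧ Icc (a ⊓ a') (b ⊔ b') ⊆ proc A t' := by
  obtain ⟨i, hi, t', ht', hb'⟩ := fill_best hab hab' h1 h2 hgap (by omega)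
  refine ⟨t', ?_, hb'⟩
  exact cast_bound (z' := sz a b - (b i - a i) + 8 * (sz (a ⊓ a') (b ⊔ b') - sz a b) + 60)
    (by rw [add_assoc] at ht'; exact ht') (by omega) ht
    (P1b hlam hd hab inf_le_left le_sup_left hi hW)

lemma merge_then_one {A : Set (ι → ℤ)} {t : ℕ} {a b a' b' q : ι → ℤ} (hab : a ≤ b)
    (hab' : a' ≤ b') (h1 : Icc a b ⊆ proc A t) (h2 : Icc a' b' ⊆ proc A t) (hq : q ∈ proc A t)
    (hgap : gap a b a' b' ≤ 2) (ht : (t : ℝ) ≤ Fb lam (sd a b))
    (hW : 3 ≤ sz (a ⊓ a') (b ⊔ b') - sz a b) (hD0 : 0 < D (a ⊓ a') (b ⊔ b') q)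
    (hD : D (a ⊓ a') (b ⊔ b') q ≤ 1) :
    ∃ t' : ℕ, (t' : ℝ) ≤ Fb lam (sd (a ⊓ a' ⊓ q) (b ⊔ b' ⊔ q)) ∧
      Icc (a ⊓ a' ⊓ q) (b ⊔ b' ⊔ q) ⊆ proc A t' := by
  obtain ⟨i, hi, t1, ht1, hb1⟩ := fill_best hab hab' h1 h2 hgap (by omega)
  have hle : a ⊓ a' ≤ b ⊔ b' := le_trans inf_le_left (le_trans hab le_sup_left)
  have hb1' : Icc (a ⊓ a') (b ⊔ b') ⊆ proc A (max t t1) := hb1.trans (proc_le A (le_max_right _ _))
  have hqq : Icc q q ⊆ proc A (max t t1) :=
    Icc_self_subset (proc_le A (le_max_left _ _) hq)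
  have hsz := sz_hull_point (p := q) hle
  obtain ⟨l, hl, t2, ht2, hb2⟩ := fill_best hle (le_refl q) hb1' hqq (le_trans gap_point (by omega))
    (by omega)
  refine ⟨t2, ?_, hb2⟩
  have hsl : b l - a l ≤ (b ⊔ b') l - (a ⊓ a') l := by
    show b l - a l ≤ max (b l) (b' l) - min (a l) (a' l)
    omega
  have hsi : 0 ≤ sz a b - (b i - a i) := by
    have : b i - a i ≤ sz a b := Finset.single_le_sum (f := fun j => b j - a j)
      (fun j _ => by have : a j ≤ b j := hab j; omega) (Finset.mem_univ i)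
    omega
  apply cast_bound (t := t) (z := 4 * (sz (a ⊓ a') (b ⊔ b') - sz a b) + (sz a b - (b i - a i)) +
      4 + (sz (a ⊓ a') (b ⊔ b') - (b l - a l)))
    (z' := sz a b - (b i - a i) + (sz a b - (b l - a l)) +
      8 * (sz (a ⊓ a') (b ⊔ b') - sz a b) + 60) ?_ (by omega) ht
    (P2b hlam hd hab inf_le_left le_sup_left inf_le_left le_sup_left hi hl hW)
  push_cast at ht2
  omega

lemma two_steps {A : Set (ι → ℤ)} {t : ℕ} {a b p q : ι → ℤ} (hab : a ≤ b)
    (h1 : Icc a b ⊆ proc A t) (hp : p ∈ proc A t) (hq : q ∈ proc A t)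
    (ht : (t : ℝ) ≤ Fb lam (sd a b)) (hDp0 : 0 < D a b p) (hDp : D a b p ≤ 2)
    (hDq0 : 0 < D (a ⊓ p) (b ⊔ p) q) (hDq : D (a ⊓ p) (b ⊔ p) q ≤ 1) :
    ∃ t' : ℕ, (t' : ℝ) ≤ Fb lam (sd (a ⊓ p ⊓ q) (b ⊔ p ⊔ q)) ∧
      Icc (a ⊓ p ⊓ q) (b ⊔ p ⊔ q) ⊆ proc A t' := by
  classical
  have hside : ∀ j, 0 ≤ b j - a j := fun j => by have : a j ≤ b j := hab j; omega
  have hsz1 : ∀ i, b i - a i ≤ sz a b := fun i => Finset.single_le_sum (f := fun j => b j - a j)
    (fun j _ => hside j) (Finset.mem_univ i)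
  have hle : a ⊓ p ≤ b ⊔ p := le_trans inf_le_left (le_trans hab le_sup_left)
  have hs1 := sz_hull_point (p := p) hab
  have hs2 := sz_hull_point (p := q) hle
  have hbig1 : a ⊓ p ⊓ q ≤ a := inf_le_left.trans inf_le_left
  have hbig2 : b ≤ b ⊔ p ⊔ q := le_sup_left.trans le_sup_left
  have hinc : ∀ i, (0 < dI (a i) (b i) (p i) ∨ 0 < dI (a i) (b i) (q i)) →
      b i - a i < (b ⊔ p ⊔ q) i - (a ⊓ p ⊓ q) i := by
    intro i hi
    have h0 : a i ≤ b i := hab i
    show b i - a i < max (max (b i) (p i)) (q i) - min (min (a i) (p i)) (q i)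
    simp only [dI] at hi
    omega
  by_cases hnear : D a b q ≤ 2
  · have hne : (Finset.univ.filter fun i => 0 < dI (a i) (b i) (p i) ∨
        0 < dI (a i) (b i) (q i)).Nonempty := by
      obtain ⟨i, hi⟩ := exists_dI_pos hDp0
      exact ⟨i, by rw [Finset.mem_filter]; exact ⟨Finset.mem_univ i, Or.inl hi⟩⟩
    obtain ⟨i, hi, hmin⟩ := Finset.exists_min_image _ (fun i => b i - a i) hne
    rw [Finset.mem_filter] at hi
    have hmin' : ∀ j, (0 < dI (a j) (b j) (p j) ∨ 0 < dI (a j) (b j) (q j)) →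
        sz a b - (b j - a j) ≤ sz a b - (b i - a i) := by
      intro j hj
      have := hmin j (by rw [Finset.mem_filter]; exact ⟨Finset.mem_univ j, hj⟩)
      omega
    obtain ⟨t', ht', hb'⟩ := parallel_fill hab h1 hp hq hDp hnear (sz a b - (b i - a i))
      (by have := hsz1 i; omega) (fun j hj => hmin' j (Or.inl hj))
      (fun j hj => hmin' j (Or.inr hj))
    refine ⟨t', ?_, hb'⟩
    exact cast_bound (z := 14 + (sz a b - (b i - a i)))
      (z' := sz a b - (b i - a i) + 8 * (sz (a ⊓ p ⊓ q) (b ⊔ p ⊔ q) - sz a b) + 60)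
      (by omega) (by omega) ht (P1b hlam hd hab hbig1 hbig2 (hinc i hi.2) (by omega))
  · push Not at hnear
    have hsl := D_slack (p := p) (q := q) hab
    have hDp2 : D a b p = 2 := by omega
    obtain ⟨l, hl⟩ := exists_dI_pos hDq0
    have hlu : ∀ l', 0 < dI ((a ⊓ p) l') ((b ⊔ p) l') (q l') → l' = l := by
      intro l' hl'
      by_contra hne
      have h2 := sum_two (f := fun j => dI ((a ⊓ p) j) ((b ⊔ p) j) (q j))
        (fun j => dI_nonneg _ _ _) hne
      have h3 : ∑ j, dI ((a ⊓ p) j) ((b ⊔ p) j) (q j) ≤ 1 := hDq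
      omega
    have hl' : 0 < dI (min (a l) (p l)) (max (b l) (p l)) (q l) := hl
    obtain ⟨i, hi⟩ := exists_dI_pos hDp0
    have hi2 : dI (a i) (b i) (p i) ≤ 2 := by
      have := dI_le_D a b p i
      omega
    by_cases hcase : dI (a i) (b i) (p i) = 2
    · -- double seed
      have hothers : ∀ j, 0 < dI (a j) (b j) (p j) → j = i := by
        intro j hj
        by_contra hne
        have h2 := sum_two (f := fun j => dI (a j) (b j) (p j)) (fun j => dI_nonneg _ _ _) hne
        have h3 : ∑ j, dI (a j) (b j) (p j) = 2 := hDp2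
        omega
      obtain ⟨t1, ht1, hb1⟩ := seed_fill hab h1 hp hDp (sz a b - (b i - a i))
        (by have := hsz1 i; omega) (by intro j hj; rw [hothers j hj])
      have hside1 : (b ⊔ p) l - (a ⊓ p) l ≤ sz (a ⊓ p) (b ⊔ p) :=
        Finset.single_le_sum (f := fun j => (b ⊔ p) j - (a ⊓ p) j)
        (fun j _ => by have : (a ⊓ p) j ≤ (b ⊔ p) j := hle j; omega) (Finset.mem_univ l)
      obtain ⟨t2, ht2, hb2⟩ := seed_fill (t := max t t1) hle
        (hb1.trans (proc_le A (le_max_right _ _))) (proc_le A (le_max_left _ _) hq)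
        (by omega) (sz (a ⊓ p) (b ⊔ p) - ((b ⊔ p) l - (a ⊓ p) l)) (by omega)
        (by intro j hj; rw [hlu j hj])
      refine ⟨t2, ?_, hb2⟩
      have hsl' : b l - a l ≤ (b ⊔ p) l - (a ⊓ p) l := by
        show b l - a l ≤ max (b l) (p l) - min (a l) (p l)
        omega
      have hsi := hsz1 i
      have hsl2 := hsz1 l
      apply cast_bound (t := t) (z := 18 + (sz a b - (b i - a i)) + (sz a b - (b l - a l)))
        (z' := sz a b - (b i - a i) + (sz a b - (b l - a l)) + 60) ?_ (by omega) ht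
        (P3b hlam hd hab ?_)
      · push_cast at ht2
        omega
      · intro j
        rw [hull_side hab j]
        have h3 := dI_nonneg (a j) (b j) (p j)
        have h4 := dI_nonneg (min (a j) (p j)) (max (b j) (p j)) (q j)
        by_cases hji : j = i
        · subst hji
          by_cases hjl : l = j
          · subst hjl; simp [ev, List.count_cons]; omega
          · simp [ev, List.count_cons, hjl]; omega
        · have hij : ¬ i = j := fun h => hji h.symm
          by_cases hjl : l = j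
          · subst hjl; simp [ev, List.count_cons, hij]; omega
          · simp [ev, List.count_cons, hij, hjl]; omega
    · -- diagonal seed
      have hi1 : dI (a i) (b i) (p i) = 1 := by omega
      obtain ⟨k, hki, hk1⟩ := exists_second (f := fun j => dI (a j) (b j) (p j))
        (fun j => dI_nonneg _ _ _) hDp2 hi1
      obtain ⟨t', ht', hb'⟩ := discount_fill hab h1 hp hq (Ne.symm hki) hi1 hk1 hDp2
        (by omega) hDq
        (max (max (sz a b - (b i - a i)) (sz a b - (b k - a k)))
          ((sz a b - (b i - a i) - (b k - a k)) + (sz a b - (b l - a l))))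
        (by omega) (by omega) (by intro l' hl'; rw [hlu l' hl']; omega)
      refine ⟨t', ?_, hb'⟩
      have hz : ∀ j, sd a b j + ev [i, k, l] j ≤ sd (a ⊓ p ⊓ q) (b ⊔ p ⊔ q) j := by
        intro j
        rw [hull_side hab j]
        have h3 := dI_nonneg (a j) (b j) (p j)
        have h4 := dI_nonneg (min (a j) (p j)) (max (b j) (p j)) (q j)
        by_cases hji : j = i
        · subst hji
          by_cases hjl : l = j
          · subst hjl; simp [ev, List.count_cons, hki]; omega
          · simp [ev, List.count_cons, hki, hjl]; omega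
        · have hij : ¬ i = j := fun h => hji h.symm
          by_cases hjk : k = j
          · subst hjk
            by_cases hjl : l = k
            · subst hjl; simp [ev, List.count_cons, hij]; omega
            · simp [ev, List.count_cons, hij, hjl]; omega
          · by_cases hjl : l = j
            · subst hjl; simp [ev, List.count_cons, hij, hjk]; omega
            · simp [ev, List.count_cons, hij, hjk, hjl]; omega
      rcases le_total (max (sz a b - (b i - a i)) (sz a b - (b k - a k)))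
        ((sz a b - (b i - a i) - (b k - a k)) + (sz a b - (b l - a l))) with h | h
      · rw [max_eq_right h] at ht'
        exact cast_bound (z := 26 + ((sz a b - (b i - a i) - (b k - a k)) +
            (sz a b - (b l - a l))))
          (z' := sz a b - (b i - a i) - (b k - a k) + (sz a b - (b l - a l)) + 60)
          (by omega) (by omega) ht (P4b hlam hd hab hz)
      · rw [max_eq_left h] at ht'
        rcases le_total (sz a b - (b i - a i)) (sz a b - (b k - a k)) with h' | h'
        · rw [max_eq_right h'] at ht'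
          exact cast_bound (z := 26 + (sz a b - (b k - a k)))
            (z' := sz a b - (b k - a k) + 8 * (sz (a ⊓ p ⊓ q) (b ⊔ p ⊔ q) - sz a b) + 60)
            (by omega) (by omega) ht
            (P1b hlam hd hab hbig1 hbig2 (hinc k (Or.inl (by omega))) (by omega))
        · rw [max_eq_left h'] at ht'
          exact cast_bound (z := 26 + (sz a b - (b i - a i)))
            (z' := sz a b - (b i - a i) + 8 * (sz (a ⊓ p ⊓ q) (b ⊔ p ⊔ q) - sz a b) + 60)
            (by omega) (by omega) ht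
            (P1b hlam hd hab hbig1 hbig2 (hinc i (Or.inl (by omega))) (by omega))

omit hlam hd [Nonempty ι] in
lemma lift_sub {A B : Finset (ι → ℤ)} (h : B ⊆ A) {a b : ι → ℤ} {t : ℕ}
    (hb : Icc a b ⊆ proc (↑B : Set (ι → ℤ)) t) : Icc a b ⊆ proc (↑A : Set (ι → ℤ)) t :=
  hb.trans (proc_mono_set (Finset.coe_subset.2 h) t)

/-- The upper bound: a set spanning a box fills it in time at most the potential. -/
theorem upper_main (N : ℕ) : ∀ A : Finset (ι → ℤ), A.card ≤ N → ∀ a b, Spans A a b →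
    ∃ t : ℕ, (t : ℝ) ≤ Fb lam (sd a b) ∧ Icc a b ⊆ proc (↑A : Set (ι → ℤ)) t := by
  induction N with
  | zero =>
    intro A hA a b hs
    have := hs.nonempty.card_pos
    omega
  | succ N ih =>
    intro A hA a b hs
    have hpos := hs.nonempty.card_pos
    by_cases hcard : 2 ≤ A.card
    · rcases spans_struct hs hcard with ⟨A', hA', hs'⟩ |
        ⟨B, c, a1, b1, hAeq, hcB, hBs, hD0, hD2, rfl, rfl⟩ |
        ⟨B, C, a1, b1, a2, b2, hBA, hCA, hBs, hCs, hg, rfl, rfl, hW1, hW2⟩
      · obtain ⟨t, ht, hb⟩ := ih A' (by have := Finset.card_lt_card hA'; omega) a b hs'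
        exact ⟨t, ht, lift_sub hA'.1 hb⟩
      · -- a single last vertex
        have hBcard : B.card + 1 = A.card := by rw [hAeq, Finset.card_insert_of_notMem hcB]
        have hBA : B ⊆ A := by rw [hAeq]; exact Finset.subset_insert _ _
        have hcA : c ∈ (↑A : Set (ι → ℤ)) := by rw [hAeq]; simp
        obtain ⟨tB, htB, hbB⟩ := ih B (by omega) a1 b1 hBs
        have hbB' := lift_sub hBA hbB
        have hszc := sz_hull_point (p := c) hBs.1
        by_cases hD : D a1 b1 c = 2
        · exact merge_one hlam hd hBs.1 (le_refl c) hbB' (Icc_self_subset (subset_proc _ _ hcA))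
            (le_trans gap_point hD2) htB (by omega)
        · have hD1 : D a1 b1 c ≤ 1 := by omega
          by_cases hB2 : 2 ≤ B.card
          · rcases spans_struct hBs hB2 with ⟨B', hB', hs'⟩ |
              ⟨B', b0, a2, b2, hBeq, hb0, hBs', hE0, hE2, rfl, rfl⟩ |
              ⟨B', C', a2, b2, a3, b3, hBB, hCB, hBs', hCs', hg, rfl, rfl, hW1, hW2⟩
            · have hu := hs'.union (spans_singleton c) (le_trans gap_point hD2)
              have hlt := Finset.card_lt_card hB'
              obtain ⟨t, ht, hb⟩ := ih (B' ∪ {c})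
                (by have := Finset.card_union_le B' {c}; rw [Finset.card_singleton] at this; omega)
                _ _ hu
              refine ⟨t, ht, lift_sub ?_ hb⟩
              apply Finset.union_subset (hB'.1.trans hBA)
              simpa using hcA
            · -- two single vertices
              have hcard' : B'.card + 1 = B.card := by
                rw [hBeq, Finset.card_insert_of_notMem hb0]
              have hB'A : B' ⊆ A := by
                refine Finset.Subset.trans ?_ hBA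
                rw [hBeq]; exact Finset.subset_insert _ _
              have hb0A : b0 ∈ (↑A : Set (ι → ℤ)) := by
                have : b0 ∈ B := by rw [hBeq]; exact Finset.mem_insert_self _ _
                exact hBA this
              obtain ⟨t, ht, hb⟩ := ih B' (by omega) a2 b2 hBs'
              exact two_steps hlam hd hBs'.1 (lift_sub hB'A hb) (subset_proc _ _ hb0A)
                (subset_proc _ _ hcA) ht hE0 hE2 hD0 hD1
            · -- a merge followed by a single vertex
              have hlt1 := Finset.card_lt_card hBB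
              have hlt2 := Finset.card_lt_card hCB
              obtain ⟨t1, ht1, hb1⟩ := ih B' (by omega) a2 b2 hBs'
              obtain ⟨t2, ht2, hb2⟩ := ih C' (by omega) a3 b3 hCs'
              have hb1' := lift_sub (hBB.1.trans hBA) hb1
              have hb2' := lift_sub (hCB.1.trans hBA) hb2
              have hS1 : ∑ j, ((b2 ⊔ b3) j - (a2 ⊓ a3) j - (b2 j - a2 j)) =
                  sz (a2 ⊓ a3) (b2 ⊔ b3) - sz a2 b2 := by
                unfold sz; rw [← Finset.sum_sub_distrib]
              have hS2 : ∑ j, ((b2 ⊔ b3) j - (a2 ⊓ a3) j - (b3 j - a3 j)) =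
                  sz (a2 ⊓ a3) (b2 ⊔ b3) - sz a3 b3 := by
                unfold sz; rw [← Finset.sum_sub_distrib]
              rcases le_total t1 t2 with h | h
              · rw [inf_comm a2 a3, sup_comm b2 b3] at hD0 hD1 hS2 hW2 ⊢
                exact merge_then_one hlam hd hCs'.1 hBs'.1 hb2' (hb1'.trans (proc_le _ h))
                  (subset_proc _ _ hcA) (by rw [gap_comm]; exact hg) ht2 (by omega) hD0 hD1
              · exact merge_then_one hlam hd hBs'.1 hCs'.1 hb1' (hb2'.trans (proc_le _ h))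
                  (subset_proc _ _ hcA) hg ht1 (by omega) hD0 hD1
          · -- `B` is a single vertex
            have hB1 : B.card = 1 := by
              have := hBs.nonempty.card_pos
              omega
            obtain ⟨p, rfl⟩ := Finset.card_eq_one.1 hB1
            obtain ⟨e1, e2⟩ := hBs.unique (spans_singleton p)
            subst e1
            subst e2
            have h0 : sz b1 b1 = 0 := by unfold sz; simp
            obtain ⟨i, hi, t', ht', hb'⟩ := fill_best (le_refl b1) (le_refl c) hbB'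
              (Icc_self_subset (subset_proc _ _ hcA)) (le_trans gap_point hD2) (by omega)
            refine ⟨t', ?_, hb'⟩
            have hmono := Fb_mono hlam hd 1 (sd b1 b1) (sd (b1 ⊓ c) (b1 ⊔ c))
              (fun j => by unfold sd; omega)
              (fun j => by
                unfold sd
                show b1 j - b1 j ≤ max (b1 j) (c j) - min (b1 j) (c j)
                omega)
              (by rw [sum_sd_sub]; push_cast; omega)
            apply cast_bound (z := 4) (z' := 43) ?_ (by omega) htB (by push_cast at hmono ⊢; linarith)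
            omega
      · -- a merge
        have hlt1 := Finset.card_lt_card hBA
        have hlt2 := Finset.card_lt_card hCA
        obtain ⟨t1, ht1, hb1⟩ := ih B (by omega) a1 b1 hBs
        obtain ⟨t2, ht2, hb2⟩ := ih C (by omega) a2 b2 hCs
        have hb1' := lift_sub hBA.1 hb1
        have hb2' := lift_sub hCA.1 hb2
        have hS1 : ∑ j, ((b1 ⊔ b2) j - (a1 ⊓ a2) j - (b1 j - a1 j)) =
            sz (a1 ⊓ a2) (b1 ⊔ b2) - sz a1 b1 := by
          unfold sz; rw [← Finset.sum_sub_distrib]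
        have hS2 : ∑ j, ((b1 ⊔ b2) j - (a1 ⊓ a2) j - (b2 j - a2 j)) =
            sz (a1 ⊓ a2) (b1 ⊔ b2) - sz a2 b2 := by
          unfold sz; rw [← Finset.sum_sub_distrib]
        rcases le_total t1 t2 with h | h
        · rw [inf_comm a1 a2, sup_comm b1 b2] at hS2 hW2 ⊢
          exact merge_one hlam hd hCs.1 hBs.1 hb2' (hb1'.trans (proc_le _ h))
            (by rw [gap_comm]; exact hg) ht2 (by omega)
        · exact merge_one hlam hd hBs.1 hCs.1 hb1' (hb2'.trans (proc_le _ h)) hg ht1 (by omega)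
    · -- a single vertex
      have hA1 : A.card = 1 := by omega
      obtain ⟨p, rfl⟩ := Finset.card_eq_one.1 hA1
      obtain ⟨e1, e2⟩ := hs.unique (spans_singleton p)
      subst e1
      subst e2
      refine ⟨0, ?_, ?_⟩
      · rw [Fb_zero hlam]; simp
      · rw [Set.Icc_self]; simp [proc]

end Pot2

end Pool.Agent.Lib.MP_1a3405_co.RTwo
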