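import Mathlib
import Pool.Agent.Lib.MP_1a3405_co.Basic
import Pool.Agent.Lib.MP_1a3405_co.RTwoUpper
import Pool.Agent.Lib.MP_1a3405_co.RTwoPhase

/-!
Translation to the grid graph, and the final bounds.
-/

namespace Pool.Agent.Lib.MP_1a3405_co.RTwo

open Set

set_option linter.unusedSectionVars false
set_option linter.unusedVariables false
set_option linter.unusedSimpArgs false

variable {d n : ℕ}

/-- integer coordinates -/
def cz (v : Fin d → Fin n) : Fin d → ℤ := fun i => ((v i : ℕ) : ℤ)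

lemma cz_injective : Function.Injective (cz (d := d) (n := n)) := by
  intro u v h
  funext i
  have := congrFun h i
  simp only [cz] at this
  exact Fin.ext (by omega)

lemma cz_mem (v : Fin d → Fin n) : cz v ∈ Icc (0 : Fin d → ℤ) (fun _ => (n : ℤ) - 1) := by
  refine ⟨fun i => ?_, fun i => ?_⟩
  · show (0 : ℤ) ≤ ((v i : ℕ) : ℤ)
    omega
  · show ((v i : ℕ) : ℤ) ≤ (n : ℤ) - 1
    have := (v i).2
    omega

lemma exists_cz {p : Fin d → ℤ} (h : p ∈ Icc (0 : Fin d → ℤ) (fun _ => (n : ℤ) - 1)) :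
    ∃ v : Fin d → Fin n, cz v = p := by
  have h1 : ∀ i, (0 : ℤ) ≤ p i := fun i => h.1 i
  have h2 : ∀ i, p i ≤ (n : ℤ) - 1 := fun i => h.2 i
  refine ⟨fun i => ⟨(p i).toNat, ?_⟩, ?_⟩
  · have := h1 i; have := h2 i; omega
  · funext i
    have := h1 i
    simp only [cz]
    omega

lemma adj_iff_nb (u v : Fin d → Fin n) : (grid d n).Adj u v ↔ Nb (cz u) (cz v) := by
  constructor
  · rintro ⟨i, h1, h2⟩
    rcases h2 with h2 | h2
    · refine ⟨i, 1, Or.inl rfl, ?_⟩
      funext j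
      by_cases hj : j = i
      · subst hj; rw [Function.update_self]; simp only [cz]; omega
      · rw [Function.update_of_ne hj]; simp only [cz]; rw [h1 j hj]
    · refine ⟨i, -1, Or.inr rfl, ?_⟩
      funext j
      by_cases hj : j = i
      · subst hj; rw [Function.update_self]; simp only [cz]; omega
      · rw [Function.update_of_ne hj]; simp only [cz]; rw [h1 j hj]
  · rintro ⟨i, s, hs, h⟩
    refine ⟨i, fun j hj => ?_, ?_⟩
    · have := congrFun h j
      rw [Function.update_of_ne hj] at this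
      simp only [cz] at this
      exact Fin.ext (by omega)
    · have := congrFun h i
      rw [Function.update_self] at this
      simp only [cz] at this
      rcases hs with rfl | rfl
      · left; omega
      · right; omega

lemma image_infected (A₀ : Set (Fin d → Fin n)) (t : ℕ) :
    cz '' infected (grid d n) 2 A₀ t = proc (cz '' A₀) t := by
  induction t with
  | zero => rfl
  | succ t ih =>
    ext p
    constructor
    · rintro ⟨v, hv | hv, rfl⟩
      · exact Or.inl (by rw [← ih]; exact ⟨v, hv, rfl⟩)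
      · right
        have hv' : 1 < ((grid d n).neighborSet v ∩ infected (grid d n) 2 A₀ t).ncard := hv
        rw [Set.one_lt_ncard_iff (Set.toFinite _)] at hv'
        obtain ⟨u, w, hu, hw, huw⟩ := hv'
        refine ⟨cz u, cz w, fun h => huw (cz_injective h), ?_, ?_, ?_, ?_⟩
        · exact (adj_iff_nb v u).1 hu.1
        · exact (adj_iff_nb v w).1 hw.1
        · rw [← ih]; exact ⟨u, hu.2, rfl⟩
        · rw [← ih]; exact ⟨w, hw.2, rfl⟩
    · rintro (hp | ⟨u, w, h1, h2, h3, h4, h5⟩)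
      · rw [← ih] at hp
        obtain ⟨v, hv, rfl⟩ := hp
        exact ⟨v, Or.inl hv, rfl⟩
      · rw [← ih] at h4 h5
        obtain ⟨u', hu', rfl⟩ := h4
        obtain ⟨w', hw', rfl⟩ := h5
        have hp : p ∈ Icc (0 : Fin d → ℤ) (fun _ => (n : ℤ) - 1) :=
          mem_Icc_of_nb h1 h2 h3 (cz_mem u').1 (cz_mem u').2 (cz_mem w').1 (cz_mem w').2
        obtain ⟨v, rfl⟩ := exists_cz hp
        refine ⟨v, Or.inr ?_, rfl⟩
        show 1 < ((grid d n).neighborSet v ∩ infected (grid d n) 2 A₀ t).ncard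
        rw [Set.one_lt_ncard_iff (Set.toFinite _)]
        exact ⟨u', w', ⟨(adj_iff_nb v u').2 h2, hu'⟩, ⟨(adj_iff_nb v w').2 h3, hw'⟩,
          fun h => h1 (by rw [h])⟩

lemma infected_eq_univ_iff (A₀ : Set (Fin d → Fin n)) (t : ℕ) :
    infected (grid d n) 2 A₀ t = univ ↔
      Icc (0 : Fin d → ℤ) (fun _ => (n : ℤ) - 1) ⊆ proc (cz '' A₀) t := by
  rw [← image_infected]
  constructor
  · intro h p hp
    obtain ⟨v, rfl⟩ := exists_cz hp
    exact ⟨v, by rw [h]; trivial, rfl⟩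
  · intro h
    ext v
    simp only [mem_univ, iff_true]
    obtain ⟨u, hu, huv⟩ := h (cz_mem v)
    rwa [cz_injective huv] at hu

lemma Fb_const (hd : 2 ≤ d) {L : ℝ} (hL : 0 ≤ L) :
    haveI : Nonempty (Fin d) := ⟨⟨0, by omega⟩⟩
    Phi (L / 9) (fun _ : Fin d => L) = ((d : ℝ) - 1) * (6 * d + 1) / 18 * L ^ 2 := by
  have : Nonempty (Fin d) := ⟨⟨0, by omega⟩⟩
  have hd2 : (2 : ℝ) ≤ d := by exact_mod_cast hd
  unfold Phi
  have hmx : mx (fun _ : Fin d => L) = L := by simp [mx]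
  have hmn : mn (fun _ : Fin d => L) = L := by simp [mn]
  rw [hmx, hmn]
  have hsum : ∑ _j : Fin d, L = d * L := by simp
  rw [hsum]
  have e1 : pp (3 * (L / 9) - L) = 0 := pp_of_nonpos (by linarith)
  have e2 : pp (L - 3 * (L / 9)) = L - 3 * (L / 9) := pp_of_nonneg (by linarith)
  have e3 : pp (3 * L - 3 * (L / 9) - 2 * (d * L)) = 0 := by
    apply pp_of_nonpos
    nlinarith
  rw [e1, e3]
  simp only [e2]
  rw [Finset.sum_const, Finset.card_univ, Fintype.card_fin, nsmul_eq_mul]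
  ring

/-- the upper bound -/
theorem grid_upper (hd : 2 ≤ d) (n : ℕ) :
    (maxPercTime (grid d n) 2 : ℝ) ≤
      ((d : ℝ) - 1) * (6 * d + 1) / 18 * (n : ℝ) ^ 2 + 60 * d * n := by
  have : Nonempty (Fin d) := ⟨⟨0, by omega⟩⟩
  have hd2 : (2 : ℝ) ≤ d := by exact_mod_cast hd
  obtain ⟨⟨A₀, hper, htime⟩, -⟩ := isGreatest_maxPercTime (G := grid d n) (r := 2)
  rw [← htime]
  rcases Nat.eq_zero_or_pos n with hn | hn
  · subst hn
    -- the vertex set is empty
    have : percTime (grid d 0) 2 A₀ ≤ 0 := by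
      apply Nat.sInf_le
      show infected (grid d 0) 2 A₀ 0 = univ
      ext v
      exact (v ⟨0, by omega⟩).elim0
    have h0 : percTime (grid d 0) 2 A₀ = 0 := by omega
    rw [h0]
    simp
  · have hn1 : (1 : ℝ) ≤ n := by exact_mod_cast hn
    set b : Fin d → ℤ := fun _ => (n : ℤ) - 1 with hb
    have h0b : (0 : Fin d → ℤ) ≤ b := fun i => by
      show (0 : ℤ) ≤ (n : ℤ) - 1
      omega
    have hfin : (cz '' A₀).Finite := Set.toFinite _
    have hcoe : (↑hfin.toFinset : Set (Fin d → ℤ)) = cz '' A₀ := hfin.coe_toFinset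
    have hs : Spans hfin.toFinset 0 b := by
      refine ⟨h0b, ?_, ?_⟩
      · intro v hv
        rw [Set.Finite.mem_toFinset] at hv
        obtain ⟨u, -, rfl⟩ := hv
        exact cz_mem u
      · obtain ⟨t, ht⟩ := hper
        refine ⟨t, ?_⟩
        rw [hcoe]
        exact (infected_eq_univ_iff A₀ t).1 ht
    obtain ⟨t, ht, htb⟩ := upper_main (lam := ((n : ℝ) - 1) / 9) (by linarith) (hd_fin hd)
      hfin.toFinset.card hfin.toFinset le_rfl 0 b hs
    rw [hcoe] at htb
    have h1 : percTime (grid d n) 2 A₀ ≤ t := Nat.sInf_le ((infected_eq_univ_iff A₀ t).2 htb)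
    have h2 : (percTime (grid d n) 2 A₀ : ℝ) ≤ t := by exact_mod_cast h1
    have h3 : Fb (((n : ℝ) - 1) / 9) (sd 0 b) =
        ((d : ℝ) - 1) * (6 * d + 1) / 18 * ((n : ℝ) - 1) ^ 2 + 60 * (d * ((n : ℝ) - 1)) := by
      unfold Fb
      have e : (fun j => ((sd 0 b j : ℤ) : ℝ)) = fun _ : Fin d => ((n : ℝ) - 1) := by
        funext j
        simp only [sd, hb, Pi.zero_apply]
        push_cast; ring
      rw [e, Fb_const hd (by linarith)]
      simp only [Finset.sum_const, Finset.card_univ, Fintype.card_fin, nsmul_eq_mul]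
    rw [h3] at ht
    have hc : 0 ≤ ((d : ℝ) - 1) * (6 * d + 1) / 18 := by
      apply div_nonneg _ (by norm_num)
      exact mul_nonneg (by linarith) (by linarith)
    have h4 : ((n : ℝ) - 1) ^ 2 ≤ (n : ℝ) ^ 2 := by nlinarith
    have h5 := mul_le_mul_of_nonneg_left h4 hc
    nlinarith

lemma GoodAt.le_time {ι : Type*} [Fintype ι] [DecidableEq ι] {y : ι → ℤ} {T : ℤ} {b : Prop}
    (h : GoodAt y y T b) : ∃ A : Set (ι → ℤ), A ⊆ Icc 0 y ∧ (∃ t, Icc 0 y ⊆ proc A t) ∧
      ∀ t : ℕ, Icc 0 y ⊆ proc A t → T ≤ t := by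
  obtain ⟨hT0, A, τ, hA, ht, h1, h2, h3, h4, h5, h6⟩ := h
  refine ⟨A, hA, ht, fun t htt => ?_⟩
  have hcl : ∀ s, proc A s ⊆ Icc 0 y := fun s => proc_subset_Icc hA s
  have := proc_time (τ := τ) h1 (fun v u w huw hu hw hvA ⟨s, hs⟩ ⟨s', hs'⟩ => by
    have hu' := hcl s hs
    have hw' := hcl s' hs'
    exact h2 v (mem_Icc_of_nb huw hu hw hu'.1 hu'.2 hw'.1 hw'.2) hvA u w huw hu hw hu' hw') t y
    (htt h4)
  rw [h5] at this
  exact this

lemma pr_le_max {T : ℝ} (h : Pr (fun _ : Fin d => (n : ℤ) - 1) T) :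
    T ≤ maxPercTime (grid d n) 2 := by
  obtain ⟨T', hT, b, hb⟩ := h
  obtain ⟨A, hA, ⟨t, ht⟩, htime⟩ := hb.le_time
  have himg : cz '' (cz ⁻¹' A : Set (Fin d → Fin n)) = A := by
    rw [Set.image_preimage_eq_iff]
    intro p hp
    obtain ⟨v, hv⟩ := exists_cz (hA hp)
    exact ⟨v, hv⟩
  have hper : Percolates (grid d n) 2 (cz ⁻¹' A) := by
    refine ⟨t, ?_⟩
    rw [infected_eq_univ_iff, himg]
    exact ht
  have h1 := percTime_le_max hper
  have h2 := infected_percTime hper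
  rw [infected_eq_univ_iff, himg] at h2
  have h3 := htime _ h2
  have h4 : T' ≤ (maxPercTime (grid d n) 2 : ℤ) := by
    refine le_trans h3 ?_
    exact_mod_cast h1
  have h5 : (T' : ℝ) ≤ (maxPercTime (grid d n) 2 : ℝ) := by exact_mod_cast h4
  linarith

/-- the lower bound -/
theorem grid_lower (hd : 2 ≤ d) (n : ℕ) :
    ((d : ℝ) - 1) * (6 * d + 1) / 18 * (n : ℝ) ^ 2 -
      26 * (((d : ℝ) - 1) * (6 * d + 1) / 18) * n ≤ (maxPercTime (grid d n) 2 : ℝ) := by
  have hd2 : (2 : ℝ) ≤ d := by exact_mod_cast hd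
  have hc : 0 ≤ ((d : ℝ) - 1) * (6 * d + 1) / 18 := by
    apply div_nonneg _ (by norm_num)
    exact mul_nonneg (by linarith) (by linarith)
  by_cases hn : n < 13
  · have h1 : (n : ℝ) ≤ 13 := by exact_mod_cast hn.le
    have h2 : (0 : ℝ) ≤ n := Nat.cast_nonneg n
    have h3 : (0 : ℝ) ≤ (maxPercTime (grid d n) 2 : ℝ) := Nat.cast_nonneg _
    have h4 : (n : ℝ) ^ 2 - 26 * n ≤ 0 := by nlinarith
    have h5 := mul_le_mul_of_nonneg_left h4 hc
    linarith
  · push Not at hn
    set q := (n - 5) / 9 with hq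
    have hq1 : 9 * q ≤ n - 5 := by omega
    have hq2 : n - 13 ≤ 9 * q := by omega
    have h1 := final_box hd q
    have h2 := raise_all hd (by omega) h1 (n - 3 - 9 * q) (by omega)
    have hvec : (fun _ : Fin d => (9 * (q : ℤ) + 2 + ((n - 3 - 9 * q : ℕ) : ℤ))) =
        fun _ => (n : ℤ) - 1 := by
      funext _
      omega
    rw [hvec] at h2
    have h3 := pr_le_max h2
    refine le_trans ?_ h3
    have hq3 : (n : ℝ) - 13 ≤ 9 * q := by
      have : n ≤ 9 * q + 13 := by omega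
      have : (n : ℝ) ≤ 9 * q + 13 := by exact_mod_cast this
      linarith
    have hn13 : (13 : ℝ) ≤ n := by exact_mod_cast hn
    have h4 : ((n : ℝ) - 13) ^ 2 ≤ 81 * (q : ℝ) ^ 2 := by
      have : ((n : ℝ) - 13) ^ 2 ≤ (9 * (q : ℝ)) ^ 2 := pow_le_pow_left₀ (by linarith) hq3 2
      nlinarith
    have h5 := mul_le_mul_of_nonneg_left h4 hc
    nlinarith

end Pool.Agent.Lib.MP_1a3405_co.RTwo
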